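import Mathlib

set_option autoImplicit false

/-!
# Additive polynomials with given roots
-/

namespace Pool.Agent.NIPFields

open Polynomial Finset

section

variable {p : ℕ} [hp : Fact p.Prime] {F : Type*} [Field F] [CharP F p] {ι : Type*} [Fintype ι]
  [DecidableEq ι]

/-- The prime field. -/
noncomputable def σF (p : ℕ) (F : Type*) [Field F] [CharP F p] : ZMod p →+* F :=
  ZMod.castHom (dvd_refl p) F

/-- A linear combination. -/
noncomputable def comb (p : ℕ) {F : Type*} [Field F] [CharP F p] {ι : Type*} [Fintype ι]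
    (l : ι → F) (c : ι → ZMod p) : F := ∑ i, σF p F (c i) * l i

/-- Coefficient vectors supported in `S`. -/
def DS (p : ℕ) [NeZero p] {ι : Type*} [Fintype ι] [DecidableEq ι] (S : Finset ι) :
    Finset (ι → ZMod p) :=
  Fintype.piFinset (fun j => if j ∈ S then (univ : Finset (ZMod p)) else {0})

theorem mem_DS {S : Finset ι} {c : ι → ZMod p} : c ∈ DS p S ↔ ∀ j, j ∉ S → c j = 0 := by
  unfold DS
  rw [Fintype.mem_piFinset]
  refine forall_congr' fun j => ?_
  by_cases hj : j ∈ S <;> simp [hj]

theorem card_DS (S : Finset ι) : (DS p S).card = p ^ S.card := by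
  unfold DS
  rw [Fintype.card_piFinset]
  have : ∀ j : ι, (if j ∈ S then (univ : Finset (ZMod p)) else {0}).card =
      if j ∈ S then p else 1 := by
    intro j
    by_cases hj : j ∈ S <;> simp [hj, ZMod.card]
  simp only [this, Finset.prod_ite_mem, Finset.univ_inter, Finset.prod_const]

omit [DecidableEq ι] in
theorem comb_add (l : ι → F) (c c' : ι → ZMod p) :
    comb p l (c + c') = comb p l c + comb p l c' := by
  simp only [comb, Pi.add_apply, map_add, add_mul, Finset.sum_add_distrib]

omit [DecidableEq ι] in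
theorem comb_sub (l : ι → F) (c c' : ι → ZMod p) :
    comb p l (c - c') = comb p l c - comb p l c' := by
  simp only [comb, Pi.sub_apply, map_sub, sub_mul, Finset.sum_sub_distrib]

omit [DecidableEq ι] in
theorem comb_zero (l : ι → F) : comb p l 0 = 0 := by
  simp [comb]

/-- Linear independence over the prime field. -/
def Ind (p : ℕ) [NeZero p] {F : Type*} [Field F] [CharP F p] {ι : Type*} [Fintype ι]
    [DecidableEq ι] (l : ι → F) (S : Finset ι) : Prop :=
  ∀ c ∈ DS p S, comb p l c = 0 → c = 0

theorem Ind.injOn {l : ι → F} {S : Finset ι} (h : Ind p l S) :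
    Set.InjOn (comb p l) (DS p S : Finset (ι → ZMod p)) := by
  intro c hc c' hc' hcc
  have h1 : c - c' ∈ DS p S := by
    rw [mem_DS]
    intro j hj
    rw [Pi.sub_apply, mem_DS.1 hc j hj, mem_DS.1 hc' j hj, sub_zero]
  have h2 := h _ h1 (by rw [comb_sub, hcc, sub_self])
  exact sub_eq_zero.1 h2

theorem Ind.mono {l : ι → F} {S T : Finset ι} (h : Ind p l S) (hTS : T ⊆ S) : Ind p l T :=
  fun c hc hc0 => h c (mem_DS.2 fun j hj => mem_DS.1 hc j fun h' => hj (hTS h')) hc0

/-- The monic polynomial whose roots are the linear combinations. -/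
noncomputable def Q (p : ℕ) [NeZero p] {F : Type*} [Field F] [CharP F p] {ι : Type*} [Fintype ι]
    [DecidableEq ι] (l : ι → F) (S : Finset ι) : F[X] :=
  ∏ c ∈ DS p S, (X - C (comb p l c))

theorem Q_monic (l : ι → F) (S : Finset ι) : (Q p l S).Monic :=
  monic_prod_of_monic _ _ fun _ _ => monic_X_sub_C _

theorem Q_natDegree (l : ι → F) (S : Finset ι) : (Q p l S).natDegree = p ^ S.card := by
  unfold Q
  rw [natDegree_prod_of_monic _ _ fun c _ => monic_X_sub_C _]
  simp [card_DS]

theorem Q_degree (l : ι → F) (S : Finset ι) : (Q p l S).degree = ((p ^ S.card : ℕ) : WithBot ℕ) := by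
  rw [degree_eq_natDegree (Q_monic l S).ne_zero, Q_natDegree]

/-- The additive function. -/
noncomputable def q (p : ℕ) [NeZero p] {F : Type*} [Field F] [CharP F p] {ι : Type*} [Fintype ι]
    [DecidableEq ι] (l : ι → F) (S : Finset ι) (u : F) : F := ∏ c ∈ DS p S, (u - comb p l c)

theorem eval_Q (l : ι → F) (S : Finset ι) (u : F) : (Q p l S).eval u = q p l S u := by
  unfold Q q
  rw [eval_prod]
  simp

theorem q_comb (l : ι → F) (S : Finset ι) {c : ι → ZMod p} (hc : c ∈ DS p S) :
    q p l S (comb p l c) = 0 :=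
  Finset.prod_eq_zero hc (sub_self _)

theorem q_eq_zero {l : ι → F} {S : Finset ι} {u : F} (h : q p l S u = 0) :
    ∃ c ∈ DS p S, u = comb p l c := by
  unfold q at h
  rw [Finset.prod_eq_zero_iff] at h
  obtain ⟨c, hc, h1⟩ := h
  exact ⟨c, hc, sub_eq_zero.1 h1⟩

theorem q_add_comb (l : ι → F) (S : Finset ι) (u : F) {c : ι → ZMod p} (hc : c ∈ DS p S) :
    q p l S (comb p l c + u) = q p l S u := by
  unfold q
  refine Finset.prod_bij (fun c' _ => c' - c) ?_ ?_ ?_ ?_
  · intro c' hc'
    rw [mem_DS] at *
    intro j hj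
    rw [Pi.sub_apply, hc j hj, hc' j hj, sub_zero]
  · intro a _ b _ hab
    exact sub_left_injective hab
  · intro b hb
    refine ⟨b + c, ?_, by simp⟩
    rw [mem_DS] at *
    intro j hj
    rw [Pi.add_apply, hc j hj, hb j hj, add_zero]
  · intro c' _
    rw [comb_sub]
    ring

/-- Uniqueness. -/
theorem poly_eq_zero {l : ι → F} {S : Finset ι} (h : Ind p l S) {f : F[X]}
    (hd : f.degree < ((p ^ S.card : ℕ) : WithBot ℕ))
    (hf : ∀ c ∈ DS p S, f.eval (comb p l c) = 0) : f = 0 := by
  refine Polynomial.eq_zero_of_degree_lt_of_eval_index_eq_zero (DS p S) h.injOn ?_ hf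
  rw [card_DS]
  exact hd

theorem poly_eq {l : ι → F} {S : Finset ι} (h : Ind p l S) {f g : F[X]}
    (hf : f.Monic) (hg : g.Monic) (hfd : f.natDegree = p ^ S.card) (hgd : g.natDegree = p ^ S.card)
    (hfg : ∀ c ∈ DS p S, f.eval (comb p l c) = g.eval (comb p l c)) : f = g := by
  rw [← sub_eq_zero]
  refine poly_eq_zero h ?_ (fun c hc => by rw [eval_sub, hfg c hc, sub_self])
  have h1 : f.degree = g.degree := by
    rw [degree_eq_natDegree hf.ne_zero, degree_eq_natDegree hg.ne_zero, hfd, hgd]
  have h2 := degree_sub_lt_left h1 hf.ne_zero (by rw [hf.leadingCoeff, hg.leadingCoeff])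
  rwa [degree_eq_natDegree hf.ne_zero, hfd] at h2

theorem q_add {l : ι → F} {S : Finset ι} (h : Ind p l S) (u v : F) :
    q p l S (u + v) = q p l S u + q p l S v := by
  have hmon := Q_monic (p := p) l S
  have h1 : (Q p l S).comp (X + C v) - Q p l S - C (q p l S v) = 0 := by
    refine poly_eq_zero h ?_ (fun c hc => ?_)
    · have hm' : ((Q p l S).comp (X + C v)).Monic := by
        exact hmon.comp (monic_X_add_C v) (by simp)
      have hd' : ((Q p l S).comp (X + C v)).natDegree = p ^ S.card := by
        rw [natDegree_comp, natDegree_X_add_C, mul_one, Q_natDegree]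
      have h2 : ((Q p l S).comp (X + C v) - Q p l S).degree < ((p ^ S.card : ℕ) : WithBot ℕ) := by
        have h3 : ((Q p l S).comp (X + C v)).degree = (Q p l S).degree := by
          rw [degree_eq_natDegree hm'.ne_zero, degree_eq_natDegree hmon.ne_zero, hd', Q_natDegree]
        have h4 := degree_sub_lt_left h3 hm'.ne_zero (by rw [hm'.leadingCoeff, hmon.leadingCoeff])
        rwa [degree_eq_natDegree hm'.ne_zero, hd'] at h4
      refine lt_of_le_of_lt (degree_sub_le _ _) (max_lt h2 ?_)
      refine lt_of_le_of_lt degree_C_le ?_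
      have : 0 < p ^ S.card := pow_pos hp.out.pos _
      exact_mod_cast this
    · rw [eval_sub, eval_sub, eval_comp, eval_C, eval_add, eval_X, eval_C, eval_Q, eval_Q,
        q_add_comb l S v hc, q_comb l S hc]
      ring
  have h2 := congrArg (eval u) h1
  rw [eval_sub, eval_sub, eval_comp, eval_C, eval_add, eval_X, eval_C, eval_Q, eval_Q,
    eval_zero] at h2
  linear_combination h2

/-- `q` as an additive map. -/
noncomputable def qHom {l : ι → F} {S : Finset ι} (h : Ind p l S) : F →+ F :=
  AddMonoidHom.mk' (q p l S) (q_add h)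

theorem addHom_smul (f : F →+ F) (t : ZMod p) (u : F) :
    f (σF p F t * u) = σF p F t * f u := by
  have h1 : σF p F t = ((t.val : ℕ) : F) := by
    conv_lhs => rw [← ZMod.natCast_zmod_val t]
    rw [map_natCast]
  rw [h1, ← nsmul_eq_mul, map_nsmul, nsmul_eq_mul]

omit [DecidableEq ι] in
theorem addHom_comb (f : F →+ F) (l : ι → F) (c : ι → ZMod p) :
    f (comb p l c) = comb p (fun i => f (l i)) c := by
  unfold comb
  rw [map_sum]
  exact Finset.sum_congr rfl (fun i _ => addHom_smul f _ _)

theorem q_comb' {l : ι → F} {S : Finset ι} (h : Ind p l S) {i : ι}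
    {c : ι → ZMod p} (hc : c ∈ DS p (insert i S)) :
    q p l S (comb p l c) = σF p F (c i) * q p l S (l i) := by
  have h1 : comb p l c = comb p l (Function.update c i 0) + σF p F (c i) * l i := by
    unfold comb
    rw [← Finset.add_sum_erase _ _ (Finset.mem_univ i), ← Finset.add_sum_erase univ
      (fun x => σF p F (Function.update c i 0 x) * l x) (Finset.mem_univ i)]
    have : ∑ x ∈ univ.erase i, σF p F (Function.update c i 0 x) * l x =
        ∑ x ∈ univ.erase i, σF p F (c x) * l x :=
      Finset.sum_congr rfl (fun x hx => by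
        rw [Function.update_of_ne (Finset.ne_of_mem_erase hx)])
    rw [this, Function.update_self, map_zero]
    ring
  have h2 : Function.update c i 0 ∈ DS p S := by
    rw [mem_DS] at *
    intro j hj
    by_cases hji : j = i
    · rw [hji, Function.update_self]
    · rw [Function.update_of_ne hji]
      exact hc j (by simp [hji, hj])
  rw [h1, q_add_comb l S _ h2]
  exact addHom_smul (qHom h) _ _

theorem q_ne_zero {l : ι → F} {S : Finset ι} {i : ι} (hi : i ∉ S)
    (h : Ind p l (insert i S)) : q p l S (l i) ≠ 0 := by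
  intro h0
  obtain ⟨c, hc, h1⟩ := q_eq_zero h0
  have hci : c i = 0 := mem_DS.1 hc i hi
  have h2 : c - Pi.single i 1 ∈ DS p (insert i S) := by
    rw [mem_DS] at *
    intro j hj
    rw [Finset.mem_insert, not_or] at hj
    rw [Pi.sub_apply, hc j hj.2, Pi.single_eq_of_ne hj.1, sub_zero]
  have h3 : comb p l (Pi.single i (1 : ZMod p)) = l i := by
    unfold comb
    rw [Finset.sum_eq_single i]
    · rw [Pi.single_eq_same, map_one, one_mul]
    · intro j _ hj
      rw [Pi.single_eq_of_ne hj, map_zero, zero_mul]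
    · intro h; exact absurd (Finset.mem_univ i) h
  have h4 := h _ h2 (by rw [comb_sub, h3, ← h1, sub_self])
  have h5 := congrFun h4 i
  rw [Pi.sub_apply, hci, Pi.single_eq_same, Pi.zero_apply, zero_sub, neg_eq_zero] at h5
  exact one_ne_zero h5

theorem σF_pow (t : ZMod p) : (σF p F t) ^ p = σF p F t := by
  rw [← map_pow, ZMod.pow_card]

/-- The recursion formula. -/
theorem q_insert {l : ι → F} {S : Finset ι} {i : ι} (hi : i ∉ S) (h : Ind p l (insert i S))
    (u : F) : q p l (insert i S) u =
      q p l S u ^ p - q p l S (l i) ^ (p - 1) * q p l S u := by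
  have hS : Ind p l S := h.mono (Finset.subset_insert _ _)
  have hcard : (insert i S).card = S.card + 1 := Finset.card_insert_of_notMem hi
  have hlt : (C (q p l S (l i) ^ (p - 1)) * Q p l S).degree < ((Q p l S) ^ p).degree := by
    rw [degree_C_mul (pow_ne_zero _ (q_ne_zero hi h)), Q_degree,
      degree_eq_natDegree ((Q_monic l S).pow p).ne_zero, natDegree_pow, Q_natDegree]
    have h2 : p ^ S.card < p * p ^ S.card := by
      have := hp.out.one_lt
      have := pow_pos hp.out.pos S.card
      nlinarith
    exact_mod_cast h2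
  have h1 : Q p l (insert i S) = (Q p l S) ^ p - C (q p l S (l i) ^ (p - 1)) * Q p l S := by
    refine poly_eq h (Q_monic _ _) (((Q_monic l S).pow p).sub_of_left hlt) (Q_natDegree _ _) ?_
      (fun c hc => ?_)
    · rw [natDegree_sub_eq_left_of_natDegree_lt, natDegree_pow, Q_natDegree, hcard, pow_succ,
        mul_comm]
      refine natDegree_lt_natDegree ?_ hlt
      exact mul_ne_zero (by rw [Ne, C_eq_zero]; exact pow_ne_zero _ (q_ne_zero hi h))
        (Q_monic _ _).ne_zero
    · rw [eval_Q, q_comb l _ hc, eval_sub, eval_mul, eval_C, eval_pow, eval_Q,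
        q_comb' hS hc, mul_pow, σF_pow]
      have h3 : q p l S (l i) ^ (p - 1) * (σF p F (c i) * q p l S (l i)) =
          σF p F (c i) * q p l S (l i) ^ p := by
        have : q p l S (l i) ^ p = q p l S (l i) ^ (p - 1) * q p l S (l i) := by
          rw [← pow_succ, Nat.sub_add_cancel hp.out.one_lt.le]
        rw [this]; ring
      rw [h3, sub_self]
  have h2 := congrArg (eval u) h1
  rwa [eval_Q, eval_sub, eval_mul, eval_C, eval_pow, eval_Q] at h2

end

end Pool.Agent.NIPFields
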