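import Mathlib
import Pool.Agent.NIPFields.AddPoly

set_option autoImplicit false

/-!
# The parametrisation of the Artin-Schreier system
-/

namespace Pool.Agent.NIPFields

open Polynomial Finset

section

variable {p : ℕ} [hp : Fact p.Prime] {F : Type*} [Field F] [CharP F p] {ι : Type*} [Fintype ι]
  [DecidableEq ι]

theorem q_empty (l : ι → F) (u : F) : q p l ∅ u = u := by
  have h : DS p (∅ : Finset ι) = {0} := by
    ext c
    rw [mem_DS, Finset.mem_singleton]
    exact ⟨fun h => funext fun j => h j (by simp), fun h j _ => by rw [h]; rfl⟩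
  unfold q
  rw [h, Finset.prod_singleton, comb_zero, sub_zero]

/-- The roots of `X ^ p - X`. -/
theorem exists_σF {x : F} (hx : x ^ p = x) : ∃ t : ZMod p, x = σF p F t := by
  have hind : Ind p (fun _ : Unit => (1 : F)) (insert () ∅) := by
    intro c _ hc
    funext i
    have h1 : σF p F (c ()) = 0 := by
      simpa [comb] using hc
    rw [map_eq_zero] at h1
    exact h1
  have h1 := q_insert (F := F) (p := p) (l := fun _ : Unit => (1 : F)) (S := ∅) (i := ())
    (by simp) hind x
  rw [q_empty, q_empty, one_pow, one_mul, hx, sub_self] at h1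
  obtain ⟨c, _, hc⟩ := q_eq_zero h1
  refine ⟨c (), ?_⟩
  simpa [comb] using hc

/-- The additive map `u ↦ u ^ p - a ^ (p - 1) * u`. -/
noncomputable def hh (p : ℕ) [hp : Fact p.Prime] {F : Type*} [Field F] [CharP F p] (a : F) :
    F →+ F :=
  AddMonoidHom.mk' (fun u => u ^ p - a ^ (p - 1) * u) (fun u v => by
    rw [add_pow_char]; ring)

theorem hh_apply (a u : F) : hh p a u = u ^ p - a ^ (p - 1) * u := rfl

theorem hh_self (a : F) : hh p a a = 0 := by
  rw [hh_apply, ← pow_succ, Nat.sub_add_cancel hp.out.one_lt.le, sub_self]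

theorem hh_eq_zero {a u : F} (ha : a ≠ 0) (h : hh p a u = 0) : ∃ t : ZMod p, u = σF p F t * a := by
  rw [hh_apply, sub_eq_zero] at h
  have h1 : (u / a) ^ p = u / a := by
    rw [div_pow, h]
    have h2 : a ^ p = a ^ (p - 1) * a := by
      rw [← pow_succ, Nat.sub_add_cancel hp.out.one_lt.le]
    rw [h2]
    field_simp
  obtain ⟨t, ht⟩ := exists_σF h1
  exact ⟨t, by rw [← ht, div_mul_cancel₀ _ ha]⟩

theorem Ind.ne_zero {l : ι → F} {S : Finset ι} (h : Ind p l S) {i : ι} (hi : i ∈ S) :
    l i ≠ 0 := by
  intro h0
  have h3 : comb p l (Pi.single i (1 : ZMod p)) = l i := by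
    unfold comb
    rw [Finset.sum_eq_single i]
    · rw [Pi.single_eq_same, map_one, one_mul]
    · intro j _ hj
      rw [Pi.single_eq_of_ne hj, map_zero, zero_mul]
    · intro h; exact absurd (Finset.mem_univ i) h
  have h4 := h (Pi.single i 1) (by
    rw [mem_DS]
    intro j hj
    rw [Pi.single_eq_of_ne]
    rintro rfl
    exact hj hi) (by rw [h3, h0])
  have h5 := congrFun h4 i
  rw [Pi.single_eq_same, Pi.zero_apply] at h5
  exact one_ne_zero h5

theorem ind_hh {l : ι → F} {S : Finset ι} {i : ι} (hi : i ∉ S) (h : Ind p l (insert i S)) :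
    Ind p (fun j => hh p (l i) (l j)) S := by
  intro c hc h0
  have hli : l i ≠ 0 := h.ne_zero (Finset.mem_insert_self _ _)
  rw [← addHom_comb (hh p (l i)) l c] at h0
  obtain ⟨t, ht⟩ := hh_eq_zero hli h0
  have h3 : comb p l (Pi.single i t) = σF p F t * l i := by
    unfold comb
    rw [Finset.sum_eq_single i]
    · rw [Pi.single_eq_same]
    · intro j _ hj
      rw [Pi.single_eq_of_ne hj, map_zero, zero_mul]
    · intro h; exact absurd (Finset.mem_univ i) h
  have h4 : c - Pi.single i t ∈ DS p (insert i S) := by
    rw [mem_DS] at *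
    intro j hj
    rw [Finset.mem_insert, not_or] at hj
    rw [Pi.sub_apply, hc j hj.2, Pi.single_eq_of_ne hj.1, sub_zero]
  have h5 := h _ h4 (by rw [comb_sub, h3, ht, sub_self])
  have h6 := congrFun h5 i
  rw [Pi.sub_apply, mem_DS.1 hc i hi, Pi.single_eq_same, Pi.zero_apply, zero_sub,
    neg_eq_zero] at h6
  rw [h6, Pi.single_zero, sub_zero] at h5
  exact h5

/-- Factorisation through the first root. -/
theorem q_hh {l : ι → F} {S : Finset ι} {i : ι} (hi : i ∉ S) (h : Ind p l (insert i S)) (u : F) :
    q p l (insert i S) u = q p (fun j => hh p (l i) (l j)) S (hh p (l i) u) := by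
  set ν : ι → F := fun j => hh p (l i) (l j) with hν
  have hcard : (insert i S).card = S.card + 1 := Finset.card_insert_of_notMem hi
  have hli : l i ≠ 0 := h.ne_zero (Finset.mem_insert_self _ _)
  have hlt : (C (l i ^ (p - 1)) * X : F[X]).degree < (X ^ p : F[X]).degree := by
    rw [degree_C_mul_X (pow_ne_zero _ hli), degree_X_pow]
    exact_mod_cast hp.out.one_lt
  have hmon : (X ^ p - C (l i ^ (p - 1)) * X : F[X]).Monic := (monic_X_pow p).sub_of_left hlt
  have hdeg : (X ^ p - C (l i ^ (p - 1)) * X : F[X]).natDegree = p := by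
    rw [natDegree_sub_eq_left_of_natDegree_lt, natDegree_X_pow]
    refine natDegree_lt_natDegree ?_ hlt
    exact mul_ne_zero (by rw [Ne, C_eq_zero]; exact pow_ne_zero _ hli) X_ne_zero
  have h1 : Q p l (insert i S) = (Q p ν S).comp (X ^ p - C (l i ^ (p - 1)) * X) := by
    refine poly_eq h (Q_monic _ _) ((Q_monic ν S).comp hmon ?_) (Q_natDegree _ _) ?_
      (fun c hc => ?_)
    · rw [hdeg]; exact hp.out.ne_zero
    · rw [natDegree_comp, hdeg, Q_natDegree, hcard, pow_succ]
    · rw [eval_Q, q_comb l _ hc, eval_comp, eval_sub, eval_pow, eval_mul, eval_C, eval_X,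
        ← hh_apply (p := p), addHom_comb, eval_Q]
      have h2 : comb p ν c = comb p ν (Function.update c i 0) := by
        unfold comb
        refine Finset.sum_congr rfl (fun j _ => ?_)
        by_cases hj : j = i
        · subst hj
          simp only [hν]
          rw [hh_self, mul_zero, mul_zero]
        · rw [Function.update_of_ne hj]
      have h3 : Function.update c i 0 ∈ DS p S := by
        rw [mem_DS] at *
        intro j hj
        by_cases hji : j = i
        · rw [hji, Function.update_self]
        · rw [Function.update_of_ne hji]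
          exact hc j (by simp [hji, hj])
      rw [h2, q_comb ν S h3]
  have h2 := congrArg (eval u) h1
  rwa [eval_Q, eval_comp, eval_sub, eval_pow, eval_mul, eval_C, eval_X,
    ← hh_apply (p := p), eval_Q] at h2

/-- The interpolation identity. -/
theorem sum_q {l : ι → F} {S : Finset ι} (h : Ind p l S) (hS : S.Nonempty) (u : F) :
    ∑ i ∈ S, l i * (q p l (S.erase i) u / q p l (S.erase i) (l i)) = u := by
  have hμ : ∀ i ∈ S, q p l (S.erase i) (l i) ≠ 0 := fun i hi =>
    q_ne_zero (Finset.notMem_erase i S) (by rwa [Finset.insert_erase hi])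
  have hcard : 0 < S.card := Finset.card_pos.2 hS
  have h1 : (∑ i ∈ S, C (l i * (q p l (S.erase i) (l i))⁻¹) * Q p l (S.erase i)) - X = 0 := by
    refine poly_eq_zero h ?_ (fun c hc => ?_)
    · refine lt_of_le_of_lt (degree_sub_le _ _) (max_lt ?_ ?_)
      · refine lt_of_le_of_lt (degree_sum_le _ _) ?_
        rw [Finset.sup_lt_iff (by exact WithBot.bot_lt_coe _)]
        intro i hi
        refine lt_of_le_of_lt ((degree_mul_le _ _).trans (add_le_add degree_C_le le_rfl)) ?_
        rw [zero_add, Q_degree, Finset.card_erase_of_mem hi]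
        have : p ^ (S.card - 1) < p ^ S.card :=
          Nat.pow_lt_pow_right hp.out.one_lt (by omega)
        exact_mod_cast this
      · rw [degree_X]
        have : 1 < p ^ S.card := Nat.one_lt_pow hcard.ne' hp.out.one_lt
        exact_mod_cast this
    · rw [eval_sub, eval_X, eval_finsetSum, sub_eq_zero]
      have h2 : comb p l c = ∑ i ∈ S, σF p F (c i) * l i := by
        unfold comb
        symm
        refine Finset.sum_subset (Finset.subset_univ _) (fun i _ hi => ?_)
        rw [mem_DS.1 hc i hi, map_zero, zero_mul]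
      conv_rhs => rw [h2]
      refine Finset.sum_congr rfl (fun i hi => ?_)
      rw [eval_mul, eval_C, eval_Q, q_comb' (h.mono (Finset.erase_subset _ _)) (i := i)
        (by rwa [Finset.insert_erase hi])]
      have := hμ i hi
      field_simp
  have h2 := congrArg (eval u) h1
  rw [eval_sub, eval_X, eval_finsetSum, eval_zero, sub_eq_zero] at h2
  conv_rhs => rw [← h2]
  refine Finset.sum_congr rfl (fun i _ => ?_)
  rw [eval_mul, eval_C, eval_Q]
  ring

end

section naturality

variable {p : ℕ} [hp : Fact p.Prime] {F F' : Type*} [Field F] [CharP F p] [Field F']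
  [CharP F' p] {ι : Type*} [Fintype ι] [DecidableEq ι] (φ : F →+* F')

omit hp in
theorem map_σF (t : ZMod p) : φ (σF p F t) = σF p F' t :=
  RingHom.congr_fun (Subsingleton.elim (φ.comp (σF p F)) (σF p F')) t

omit hp [DecidableEq ι] in
theorem map_comb (l : ι → F) (c : ι → ZMod p) :
    φ (comb p l c) = comb p (fun i => φ (l i)) c := by
  unfold comb
  rw [map_sum]
  exact Finset.sum_congr rfl (fun i _ => by rw [map_mul, map_σF])

theorem map_q (l : ι → F) (S : Finset ι) (u : F) :
    φ (q p l S u) = q p (fun i => φ (l i)) S (φ u) := by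
  unfold q
  rw [map_prod]
  exact Finset.prod_congr rfl (fun c _ => by rw [map_sub, map_comb])

theorem Ind.map {l : ι → F} {S : Finset ι} (h : Ind p l S) :
    Ind p (fun i => φ (l i)) S := by
  intro c hc h0
  rw [← map_comb, map_eq_zero] at h0
  exact h c hc h0

end naturality

/-- The common solution. -/
theorem exists_common {p : ℕ} [hp : Fact p.Prime] {K : Type*} [Field K] [CharP K p] {ι : Type*}
    [Fintype ι] [DecidableEq ι] [Nonempty ι] {l : ι → K} (h : Ind p l univ) (x : ι → K) (t : K)
    (hx : ∀ i, q p l (univ.erase i) (l i) ^ p * (x i ^ p - x i) = t) :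
    ∀ i, q p l (univ.erase i) (∑ j, l j * x j) = q p l (univ.erase i) (l i) * x i := by
  set Kc := AlgebraicClosure K with hKc'
  have hchar : CharP Kc p := charP_of_injective_algebraMap (algebraMap K Kc).injective p
  let φ : K →+* Kc := algebraMap K Kc
  let L : ι → Kc := fun i => φ (l i)
  have hL : Ind p L univ := h.map φ
  have hμ : ∀ i, q p l (univ.erase i) (l i) ≠ 0 := fun i =>
    q_ne_zero (Finset.notMem_erase i _) (by rwa [Finset.insert_erase (Finset.mem_univ i)])
  have hμL : ∀ i, q p L (univ.erase i) (L i) = φ (q p l (univ.erase i) (l i)) := fun i =>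
    (map_q φ l _ _).symm
  have hdeg : (Q p L univ - C (φ t)).degree ≠ 0 := by
    have hlt : (C (φ t) : Kc[X]).degree < (Q p L univ).degree := by
      refine lt_of_le_of_lt degree_C_le ?_
      rw [Q_degree]
      have : 0 < p ^ (univ : Finset ι).card := pow_pos hp.out.pos _
      exact_mod_cast this
    rw [degree_sub_eq_left_of_degree_lt hlt, Q_degree]
    have : p ^ (univ : Finset ι).card ≠ 0 := (pow_pos hp.out.pos _).ne'
    exact_mod_cast this
  obtain ⟨v, hv⟩ := IsAlgClosed.exists_root _ hdeg
  rw [IsRoot.def, eval_sub, eval_C, eval_Q, sub_eq_zero] at hv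
  have hy : ∀ i, ∃ c : ZMod p, q p L (univ.erase i) v =
      φ (q p l (univ.erase i) (l i)) * (φ (x i) + σF p Kc c) := by
    intro i
    have h1 := q_insert (Finset.notMem_erase i univ)
      (by rwa [Finset.insert_erase (Finset.mem_univ i)] : Ind p L (insert i (univ.erase i))) v
    rw [Finset.insert_erase (Finset.mem_univ i), hv, ← hx i, hμL i] at h1
    set m := φ (q p l (univ.erase i) (l i)) with hm
    have hm0 : m ≠ 0 := by rw [hm, _root_.map_ne_zero]; exact hμ i
    have h2 : m ^ p = m ^ (p - 1) * m := by
      rw [← pow_succ, Nat.sub_add_cancel hp.out.one_lt.le]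
    have e0 := div_mul_cancel₀ (q p L (univ.erase i) v) hm0
    have h3 : (q p L (univ.erase i) v / m - φ (x i)) ^ p = q p L (univ.erase i) v / m - φ (x i) := by
      rw [sub_pow_char, div_pow]
      rw [map_mul, map_pow, map_sub, map_pow, ← hm] at h1
      have h4 : q p L (univ.erase i) v ^ p / m ^ p =
          (φ (x i) ^ p - φ (x i)) + q p L (univ.erase i) v / m := by
        rw [div_eq_iff (pow_ne_zero _ hm0)]
        have h5 : (φ (x i) ^ p - φ (x i) + q p L (univ.erase i) v / m) * m ^ p =
            m ^ p * (φ (x i) ^ p - φ (x i)) + m ^ (p - 1) * q p L (univ.erase i) v := by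
          rw [h2]
          linear_combination (m ^ (p - 1)) * e0
        rw [h5, h1]
        ring
      rw [h4]
      ring
    obtain ⟨c, hc⟩ := exists_σF h3
    refine ⟨c, ?_⟩
    rw [← hc]
    linear_combination -e0
  choose c hc using hy
  let w : Kc := v - comb p L c
  have hw : ∀ i, q p L (univ.erase i) w = φ (q p l (univ.erase i) (l i) * x i) := by
    intro i
    have hind : Ind p L (univ.erase i) := hL.mono (Finset.erase_subset _ _)
    have h1 : q p L (univ.erase i) w + q p L (univ.erase i) (comb p L c) =
        q p L (univ.erase i) v := by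
      rw [← q_add hind]
      simp [w]
    have h2 := q_comb' hind (i := i) (c := c) (by
      rw [Finset.insert_erase (Finset.mem_univ i), mem_DS]
      intro j hj
      exact absurd (Finset.mem_univ j) hj)
    rw [h2, hc i, hμL i] at h1
    rw [map_mul]
    linear_combination h1
  have hwu : w = φ (∑ j, l j * x j) := by
    rw [← sum_q hL Finset.univ_nonempty w, map_sum]
    refine Finset.sum_congr rfl (fun i _ => ?_)
    rw [hw i, hμL i, ← map_div₀, map_mul, mul_div_cancel_left₀ _ (hμ i)]
  intro i
  apply φ.injective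
  rw [← hw i, hwu, map_q]

end Pool.Agent.NIPFields
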