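import Mathlib

set_option autoImplicit false

namespace Pool.Agent.NIPFields

open Polynomial

section Extension

variable {K Ω : Type*} [Field K] [Field Ω] [Algebra K Ω]

/-- A valuation ring of `K` is the trace of a valuation ring of any extension field. -/
theorem exists_extension (A : ValuationSubring K) :
    ∃ B : ValuationSubring Ω, ∀ x : K,
      (B.valuation (algebraMap K Ω x) ≤ 1 ↔ A.valuation x ≤ 1) ∧
      (B.valuation (algebraMap K Ω x) < 1 ↔ A.valuation x < 1) := by
  obtain ⟨B, h, hloc⟩ := IsLocalRing.exists_factor_valuationRing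
    ((algebraMap K Ω).comp A.subtype)
  refine ⟨B, ?_⟩
  have h1 : ∀ x : K, A.valuation x ≤ 1 → B.valuation (algebraMap K Ω x) ≤ 1 := by
    intro x hx
    rw [ValuationSubring.valuation_le_one_iff] at hx ⊢
    exact h ⟨x, hx⟩
  have h2 : ∀ x : K, A.valuation x < 1 → B.valuation (algebraMap K Ω x) < 1 := by
    intro x hx
    have hxA : x ∈ A := (A.valuation_le_one_iff x).1 hx.le
    refine lt_of_le_of_ne (h1 x hx.le) ?_
    intro heq
    have hxB : algebraMap K Ω x ∈ B := (B.valuation_le_one_iff _).1 heq.le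
    have hu : IsUnit (⟨algebraMap K Ω x, hxB⟩ : B) := (B.valuation_eq_one_iff _).2 heq
    have hu' : IsUnit (((algebraMap K Ω).comp A.subtype).codRestrict B.toSubring h ⟨x, hxA⟩) := hu
    have := hloc.map_nonunit _ hu'
    have h3 := (A.valuation_eq_one_iff ⟨x, hxA⟩).1 this
    exact hx.ne h3
  have h3 : ∀ x : K, A.valuation x = 1 → B.valuation (algebraMap K Ω x) = 1 := by
    intro x hx
    have hx0 : x ≠ 0 := by rintro rfl; simp at hx
    have hinv : A.valuation x⁻¹ = 1 := by rw [map_inv₀, hx, inv_one]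
    have e1 := h1 x hx.le
    have e2 := h1 _ hinv.le
    rw [map_inv₀, map_inv₀] at e2
    refine le_antisymm e1 ?_
    have h0 : 0 < B.valuation (algebraMap K Ω x) := by
      rw [Valuation.pos_iff]; simpa using hx0
    rwa [inv_le_one₀ h0] at e2
  have h4 : ∀ x : K, 1 < A.valuation x → 1 < B.valuation (algebraMap K Ω x) := by
    intro x hx
    have hx0 : x ≠ 0 := by rintro rfl; simp at hx
    have e := h2 x⁻¹ (by rw [map_inv₀]; exact inv_lt_one_of_one_lt₀ hx)
    rw [map_inv₀, map_inv₀] at e
    have h0 : 0 < B.valuation (algebraMap K Ω x) := by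
      rw [Valuation.pos_iff]; simpa using hx0
    rwa [inv_lt_one₀ h0] at e
  intro x
  refine ⟨⟨?_, h1 x⟩, ⟨?_, h2 x⟩⟩
  · intro hx
    by_contra hcon
    exact absurd hx (not_le.2 (h4 x (not_le.1 hcon)))
  · intro hx
    by_contra hcon
    rcases (not_lt.1 hcon).eq_or_lt with h | h
    · exact hx.ne (h3 x h.symm)
    · exact absurd hx (not_lt.2 (h4 x h).le)

end Extension


section Cong

variable {Ω : Type*} [Field Ω] (B : ValuationSubring Ω)

theorem cong_mul {a b c d : Ω} (ha : B.valuation a ≤ 1) (hd : B.valuation d ≤ 1)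
    (hab : B.valuation (a - b) < 1) (hcd : B.valuation (c - d) < 1) :
    B.valuation (a * c - b * d) < 1 := by
  have h1 : a * c - b * d = a * (c - d) + (a - b) * d := by ring
  rw [h1]
  refine Valuation.map_add_lt _ ?_ ?_
  · rw [map_mul]; exact mul_lt_one_of_nonneg_of_lt_one_right ha zero_le hcd
  · rw [map_mul]; exact mul_lt_one_of_nonneg_of_lt_one_left zero_le hab hd

theorem cong_prod {ι : Type*} (s : Finset ι) (f g : ι → Ω)
    (hf : ∀ i ∈ s, B.valuation (f i) ≤ 1) (hg : ∀ i ∈ s, B.valuation (g i) ≤ 1)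
    (h : ∀ i ∈ s, B.valuation (f i - g i) < 1) :
    B.valuation (∏ i ∈ s, f i - ∏ i ∈ s, g i) < 1 := by
  classical
  induction s using Finset.induction_on with
  | empty => simp
  | insert k s hk ih =>
    rw [Finset.prod_insert hk, Finset.prod_insert hk]
    refine cong_mul B (hf k (Finset.mem_insert_self _ _)) ?_ (h k (Finset.mem_insert_self _ _))
      (ih (fun i hi => hf i (Finset.mem_insert_of_mem hi))
        (fun i hi => hg i (Finset.mem_insert_of_mem hi))
        (fun i hi => h i (Finset.mem_insert_of_mem hi)))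
    rw [map_prod]
    exact Finset.prod_le_one' (fun i hi => hg i (Finset.mem_insert_of_mem hi))

theorem cong_sum {ι : Type*} (s : Finset ι) (f g : ι → Ω)
    (h : ∀ i ∈ s, B.valuation (f i - g i) < 1) :
    B.valuation (∑ i ∈ s, f i - ∑ i ∈ s, g i) < 1 := by
  rw [← Finset.sum_sub_distrib]
  exact Valuation.map_sum_lt _ one_ne_zero h

theorem cong_pow {a b : Ω} (ha : B.valuation a ≤ 1) (hb : B.valuation b ≤ 1)
    (hab : B.valuation (a - b) < 1) (n : ℕ) : B.valuation (a ^ n - b ^ n) < 1 := by
  have := cong_prod B (Finset.range n) (fun _ => a) (fun _ => b) (fun _ _ => ha)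
    (fun _ _ => hb) (fun _ _ => hab)
  simpa using this

end Cong

section NormElem

variable {K : Type*} [Field K]

/-- The product of the conjugates of a suitable element of a Kummer extension. -/
theorem exists_norm_elem {ι : Type*} [Fintype ι] (ℓ : ℕ) [hℓp : Fact ℓ.Prime] (ζ : K)
    (hζ : IsPrimitiveRoot ζ ℓ) (A : ValuationSubring K) (hℓ : A.valuation (ℓ : K) = 1)
    (b : ι → K) (hb0 : ∀ j, b j ≠ 0) (hb : ∀ j, A.valuation (b j - 1) < 1)
    (u : K) (hu : A.valuation u ≤ 1) :
    ∃ (M : IntermediateField K (AlgebraicClosure K)) (_ : FiniteDimensional K M) (γ : ι → M)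
      (g : M), (∀ j, γ j ^ ℓ = algebraMap K M (b j)) ∧ A.valuation (Algebra.norm K g - u) < 1 := by
  classical
  obtain ⟨B, hB⟩ := exists_extension (Ω := AlgebraicClosure K) A
  set Ω := AlgebraicClosure K with hΩ
  have hℓ0 : (ℓ : K) ≠ 0 := by intro h; rw [h, map_zero] at hℓ; exact zero_ne_one hℓ
  have hℓpos : 0 < ℓ := hℓp.out.pos
  have hBone : ∀ x : K, A.valuation x = 1 → B.valuation (algebraMap K Ω x) = 1 := by
    intro x hx
    refine le_antisymm ((hB x).1.2 hx.le) ?_
    by_contra h
    exact (((hB x).2.1 (not_le.1 h)).ne) hx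
  -- the root of unity in `Ω`
  set z : Ω := algebraMap K Ω ζ with hz
  have hzprim : IsPrimitiveRoot z ℓ := hζ.map_of_injective (algebraMap K Ω).injective
  have hzval : B.valuation z = 1 := by
    have h1 : B.valuation z ^ ℓ = 1 := by rw [← map_pow, hzprim.pow_eq_one, map_one]
    exact (pow_eq_one_iff_of_nonneg zero_le hℓpos.ne').1 h1
  -- choose the roots close to `1`
  have hroot : ∀ j, ∃ β : Ω, β ^ ℓ = algebraMap K Ω (b j) ∧ B.valuation (β - 1) < 1 := by
    intro j
    obtain ⟨β, hβ⟩ := IsAlgClosed.exists_pow_nat_eq (algebraMap K Ω (b j)) hℓpos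
    have hprod : (∏ a ∈ nthRootsFinset ℓ (1 : Ω), (β - a)) = algebraMap K Ω (b j - 1) := by
      have h1 := X_pow_sub_one_eq_prod hℓpos hzprim
      have h2 := congrArg (Polynomial.eval β) h1
      simp only [eval_sub, eval_pow, eval_X, eval_one, eval_prod, eval_C] at h2
      rw [← h2, hβ, map_sub, map_one]
    have hlt : B.valuation (∏ a ∈ nthRootsFinset ℓ (1 : Ω), (β - a)) < 1 := by
      rw [hprod]; exact (hB _).2.2 (hb j)
    rw [map_prod] at hlt
    obtain ⟨a, ha, hlt'⟩ : ∃ a ∈ nthRootsFinset ℓ (1 : Ω), B.valuation (β - a) < 1 := by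
      by_contra hcon
      push Not at hcon
      exact absurd hlt (not_lt.2 (Finset.one_le_prod' (fun i hi => hcon i hi)))
    have haℓ : a ^ ℓ = 1 := (mem_nthRootsFinset hℓpos (1 : Ω)).1 ha
    have ha0 : a ≠ 0 := by rintro rfl; rw [zero_pow hℓpos.ne'] at haℓ; exact zero_ne_one haℓ
    have haval : B.valuation a = 1 := by
      have h1 : B.valuation a ^ ℓ = 1 := by rw [← map_pow, haℓ, map_one]
      exact (pow_eq_one_iff_of_nonneg zero_le hℓpos.ne').1 h1
    refine ⟨β / a, by rw [div_pow, hβ, haℓ, div_one], ?_⟩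
    have h3 : β / a - 1 = (β - a) / a := by rw [sub_div, div_self ha0]
    rw [h3, map_div₀, haval, div_one]
    exact hlt'
  choose β hβ hβ1 using hroot
  have hint : ∀ j, IsIntegral K (β j) := fun j => Algebra.IsIntegral.isIntegral _
  set M : IntermediateField K Ω := IntermediateField.adjoin K (Set.range β) with hM
  have hfin : FiniteDimensional K M :=
    IntermediateField.finiteDimensional_adjoin (fun x _ => Algebra.IsIntegral.isIntegral x)
  have hβM : ∀ j, β j ∈ M := fun j => IntermediateField.subset_adjoin _ _ ⟨j, rfl⟩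
  have hsep : Algebra.IsSeparable K M := by
    rw [IntermediateField.isSeparable_adjoin_iff_isSeparable]
    rintro x ⟨j, rfl⟩
    have h1 : (X ^ ℓ - C (b j)).Separable := separable_X_pow_sub_C (b j) hℓ0 (hb0 j)
    refine h1.of_dvd (minpoly.dvd K (β j) ?_)
    simp [hβ j]
  let γ : ι → M := fun j => ⟨β j, hβM j⟩
  have hγ : ∀ j, γ j ^ ℓ = algebraMap K M (b j) := by
    intro j
    apply Subtype.ext
    exact hβ j
  -- the element `g`
  let e : M → M := fun x => algebraMap K M (ℓ : K)⁻¹ * ∑ k ∈ Finset.range ℓ, x ^ k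
  let g : M := 1 + algebraMap K M (u - 1) * ∏ j, e (γ j)
  refine ⟨M, hfin, γ, g, hγ, ?_⟩
  -- the same polynomial expression in `Ω`
  let E : Ω → Ω := fun x => algebraMap K Ω (ℓ : K)⁻¹ * ∑ k ∈ Finset.range ℓ, x ^ k
  have hℓinv : B.valuation (algebraMap K Ω (ℓ : K)⁻¹) = 1 := by
    apply hBone; rw [map_inv₀, hℓ, inv_one]
  have hone : ∀ ξ : Ω, ξ ^ ℓ = 1 → B.valuation ξ = 1 := by
    intro ξ hξ
    have h1 : B.valuation ξ ^ ℓ = 1 := by rw [← map_pow, hξ, map_one]
    exact (pow_eq_one_iff_of_nonneg zero_le hℓpos.ne').1 h1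
  have hEone : E 1 = 1 := by
    simp only [E, one_pow, Finset.sum_const, Finset.card_range, nsmul_eq_mul, mul_one]
    rw [← map_natCast (algebraMap K Ω) ℓ, ← map_mul, inv_mul_cancel₀ hℓ0, map_one]
  have hEzero : ∀ ξ : Ω, ξ ^ ℓ = 1 → ξ ≠ 1 → E ξ = 0 := by
    intro ξ hξ hξ1
    have h1 : (∑ k ∈ Finset.range ℓ, ξ ^ k) * (ξ - 1) = 0 := by
      rw [geom_sum_mul, hξ, sub_self]
    have h2 : (∑ k ∈ Finset.range ℓ, ξ ^ k) = 0 := by
      rcases mul_eq_zero.1 h1 with h | h
      · exact h
      · exact absurd (sub_eq_zero.1 h) hξ1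
    simp only [E, h2, mul_zero]
  have hEle : ∀ x : Ω, B.valuation x = 1 → B.valuation (E x) ≤ 1 := by
    intro x hx
    simp only [E]
    rw [map_mul, hℓinv, one_mul]
    refine Valuation.map_sum_le _ ?_
    intro k _
    rw [map_pow, hx, one_pow]
  have hEcong : ∀ x ξ : Ω, B.valuation x = 1 → B.valuation ξ = 1 → B.valuation (x - ξ) < 1 →
      B.valuation (E x - E ξ) < 1 := by
    intro x ξ hx hξ hxξ
    simp only [E]
    rw [← mul_sub, map_mul, hℓinv, one_mul]
    exact cong_sum B _ _ _ (fun k _ => cong_pow B hx.le hξ.le hxξ k)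
  have hβval : ∀ j, B.valuation (β j) = 1 := by
    intro j
    have h1 : β j = (β j - 1) + 1 := by ring
    rw [h1, Valuation.map_add_eq_of_lt_right _ (by simpa using hβ1 j), map_one]
  have hβ0 : ∀ j, β j ≠ 0 := by
    intro j h
    have := hβval j
    rw [h, map_zero] at this
    exact zero_ne_one this
  have hu1 : B.valuation (algebraMap K Ω (u - 1)) ≤ 1 := by
    rw [map_sub, map_one]
    exact (Valuation.map_sub _ _ _).trans (max_le ((hB u).1.2 hu) (by rw [map_one]))
  -- values of the conjugates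
  have hσ : ∀ σ : M →ₐ[K] Ω, B.valuation (σ g) ≤ 1 ∧
      B.valuation (σ g - (if σ = M.val then algebraMap K Ω u else 1)) < 1 := by
    intro σ
    let ξ : ι → Ω := fun j => σ (γ j) / β j
    have hξ : ∀ j, ξ j ^ ℓ = 1 := by
      intro j
      have h1 : σ (γ j) ^ ℓ = algebraMap K Ω (b j) := by
        rw [← map_pow, hγ j, AlgHom.commutes]
      simp only [ξ]
      rw [div_pow, h1, hβ j, div_self]
      simpa using hb0 j
    have hσγ : ∀ j, σ (γ j) = ξ j * β j := by
      intro j
      simp only [ξ]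
      rw [div_mul_cancel₀ _ (hβ0 j)]
    have hσγval : ∀ j, B.valuation (σ (γ j)) = 1 := by
      intro j
      rw [hσγ j, map_mul, hone _ (hξ j), hβval j, one_mul]
    have hσγcong : ∀ j, B.valuation (σ (γ j) - ξ j) < 1 := by
      intro j
      have h1 : σ (γ j) - ξ j = ξ j * (β j - 1) := by rw [hσγ j]; ring
      rw [h1, map_mul, hone _ (hξ j), one_mul]
      exact hβ1 j
    have hσg : σ g = 1 + algebraMap K Ω (u - 1) * ∏ j, E (σ (γ j)) := by
      simp only [g, e, E, map_add, map_one, map_mul, map_prod, map_sum, map_pow,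
        AlgHom.commutes]
    have hprodle : B.valuation (∏ j, E (σ (γ j))) ≤ 1 := by
      rw [map_prod]
      exact Finset.prod_le_one' (fun j _ => hEle _ (hσγval j))
    have hprodcong : B.valuation (∏ j, E (σ (γ j)) - ∏ j, E (ξ j)) < 1 :=
      cong_prod B _ _ _ (fun j _ => hEle _ (hσγval j)) (fun j _ => hEle _ (hone _ (hξ j)))
        (fun j _ => hEcong _ _ (hσγval j) (hone _ (hξ j)) (hσγcong j))
    have hprodval : ∏ j, E (ξ j) = if σ = M.val then 1 else 0 := by
      split_ifs with hs
      · refine Finset.prod_eq_one (fun j _ => ?_)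
        have : ξ j = 1 := by
          simp only [ξ, hs]
          exact div_self (hβ0 j)
        rw [this, hEone]
      · obtain ⟨j, hj⟩ : ∃ j, ξ j ≠ 1 := by
          by_contra hcon
          push Not at hcon
          apply hs
          refine IntermediateField.algHom_ext_of_eq_adjoin K hM ?_
          rintro x ⟨j, rfl⟩
          have h1 : σ (γ j) = β j := by rw [hσγ j, hcon j, one_mul]
          exact h1
        exact Finset.prod_eq_zero (Finset.mem_univ j) (hEzero _ (hξ j) hj)
    constructor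
    · rw [hσg]
      refine (Valuation.map_add _ _ _).trans (max_le (by rw [map_one]) ?_)
      rw [map_mul]
      exact mul_le_one' hu1 hprodle
    · have h1 : σ g - (if σ = M.val then algebraMap K Ω u else 1) =
          algebraMap K Ω (u - 1) * (∏ j, E (σ (γ j)) - ∏ j, E (ξ j)) := by
        rw [hσg, hprodval]
        split_ifs with hs
        · rw [map_sub, map_one]; ring
        · ring
      rw [h1, map_mul]
      exact mul_lt_one_of_nonneg_of_lt_one_right hu1 zero_le hprodcong
  have hnorm := Algebra.norm_eq_prod_embeddings K Ω g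
  have hprod : (∏ σ : M →ₐ[K] Ω, (if σ = M.val then algebraMap K Ω u else 1)) =
      algebraMap K Ω u := by
    rw [Finset.prod_ite_eq']
    simp
  have hcong := cong_prod B Finset.univ (fun σ : M →ₐ[K] Ω => σ g)
    (fun σ => if σ = M.val then algebraMap K Ω u else 1) (fun σ _ => (hσ σ).1)
    (by
      intro σ _
      split_ifs
      · exact (hB u).1.2 hu
      · rw [map_one]) (fun σ _ => (hσ σ).2)
  rw [hprod, ← hnorm, ← map_sub] at hcong
  exact (hB _).2.1 hcong

end NormElem

end Pool.Agent.NIPFields
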