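import Mathlib
import Pool.Agent.NIPFields.Core

set_option autoImplicit false

namespace Pool.Agent.NIPFields

open Polynomial IntermediateField

/-- The matrix of multiplication by `∑ zᵢ γⁱ` on `R[γ]`, `γ ^ ℓ = b`. -/
def nmat (ℓ : ℕ) {R : Type*} [CommRing R] (b : R) (z : Fin ℓ → R) :
    Matrix (Fin ℓ) (Fin ℓ) R :=
  Matrix.of fun r s => (if s ≤ r then 1 else b) * z (r - s)

theorem nmat_map (ℓ : ℕ) {R S : Type*} [CommRing R] [CommRing S] (φ : R →+* S) (b : R)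
    (z : Fin ℓ → R) : φ (nmat ℓ b z).det = (nmat ℓ (φ b) (fun i => φ (z i))).det := by
  rw [RingHom.map_det]
  congr 1
  ext r s
  simp only [nmat, RingHom.mapMatrix_apply, Matrix.map_apply, Matrix.of_apply, map_mul]
  split_ifs <;> simp

section Basis

variable {K L : Type*} [Field K] [Field L] [Algebra K L] {ℓ : ℕ} [NeZero ℓ]

theorem norm_eq_det (B : Module.Basis (Fin ℓ) K L) (γ : L) (b : K)
    (hB : ∀ i, B i = γ ^ (i : ℕ)) (hγ : γ ^ ℓ = algebraMap K L b) (z : Fin ℓ → K) :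
    Algebra.norm K (∑ i, z i • B i) = (nmat ℓ b z).det := by
  rw [Algebra.norm_eq_matrix_det B]
  congr 1
  ext r s
  rw [Algebra.leftMulMatrix_eq_repr_mul]
  have h1 : (∑ i, z i • B i) * B s = ∑ i, (nmat ℓ b z) i s • B i := by
    rw [Finset.sum_mul]
    rw [← Equiv.sum_comp (Equiv.subRight s)]
    refine Finset.sum_congr rfl (fun i _ => ?_)
    simp only [Equiv.subRight_apply, nmat, Matrix.of_apply, hB]
    split_ifs with h
    · rw [smul_mul_assoc, ← pow_add, one_mul, Fin.sub_val_of_le h]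
      congr 2
      have : (s : ℕ) ≤ i := h
      omega
    · have hlt : i < s := not_le.1 h
      have h2 : ((i - s : Fin ℓ) : ℕ) + s = ℓ + i := by
        rw [Fin.sub_def]
        simp only
        have h3 : (i : ℕ) < s := hlt
        have h4 : (s : ℕ) < ℓ := s.2
        rw [Nat.mod_eq_of_lt (by omega)]
        omega
      rw [smul_mul_assoc, ← pow_add, h2, pow_add, hγ, Algebra.smul_def, Algebra.smul_def, map_mul]
      ring
  rw [h1, Module.Basis.repr_sum_self]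

end Basis

/-- The set of norms from `K[γ]`, `γ ^ ℓ = b`. -/
def NS (ℓ : ℕ) {K : Type*} [Field K] (b : K) : Set K :=
  {x | ∃ z : Fin ℓ → K, x = (nmat ℓ b z).det}

section

variable {K E : Type*} [Field K] [Field E] [Algebra K E] {ℓ : ℕ} [hℓp : Fact ℓ.Prime]

theorem exists_basis (γ : E) (b : K) (hγ : γ ^ ℓ = algebraMap K E b) (hb : ∀ c : K, c ^ ℓ ≠ b) :
    ∃ B : Module.Basis (Fin ℓ) K K⟮γ⟯, ∀ i, B i = (AdjoinSimple.gen K γ) ^ (i : ℕ) := by
  have hirr : Irreducible (X ^ ℓ - C b) := X_pow_sub_C_irreducible_of_prime hℓp.out hb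
  have hpos : ℓ ≠ 0 := hℓp.out.ne_zero
  have hmonic : (X ^ ℓ - C b).Monic := monic_X_pow_sub_C b hpos
  have hmin : minpoly K γ = X ^ ℓ - C b := by
    refine (minpoly.eq_of_irreducible_of_monic hirr ?_ hmonic).symm
    simp [hγ]
  have hint : IsIntegral K γ := ⟨X ^ ℓ - C b, hmonic, by simp [hγ]⟩
  let pb := IntermediateField.adjoin.powerBasis hint
  have hdim : pb.dim = ℓ := by
    rw [IntermediateField.adjoin.powerBasis_dim, hmin, natDegree_X_pow_sub_C]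
  refine ⟨pb.basis.reindex (finCongr hdim), ?_⟩
  intro i
  rw [Module.Basis.reindex_apply, PowerBasis.basis_eq_pow]
  rfl

theorem NS_eq_range (γ : E) (b : K) (hγ : γ ^ ℓ = algebraMap K E b) (hb : ∀ c : K, c ^ ℓ ≠ b)
    (x : K) : x ∈ NS ℓ b ↔ ∃ y : K⟮γ⟯, Algebra.norm K y = x := by
  obtain ⟨B, hB⟩ := exists_basis γ b hγ hb
  have hγ' : (AdjoinSimple.gen K γ) ^ ℓ = algebraMap K K⟮γ⟯ b := by
    apply Subtype.ext
    exact hγ
  have : NeZero ℓ := ⟨hℓp.out.ne_zero⟩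
  constructor
  · rintro ⟨z, rfl⟩
    exact ⟨_, norm_eq_det B _ b hB hγ' z⟩
  · rintro ⟨y, rfl⟩
    refine ⟨fun i => B.repr y i, ?_⟩
    rw [← norm_eq_det B _ b hB hγ', Module.Basis.sum_repr]

end

section

variable {K : Type*} [Field K] {ℓ : ℕ} [hℓp : Fact ℓ.Prime]

theorem NS_mul {b : K} (hb : ∀ c : K, c ^ ℓ ≠ b) {x y : K} (hx : x ∈ NS ℓ b)
    (hy : y ∈ NS ℓ b) : x * y ∈ NS ℓ b := by
  obtain ⟨γ, hγ⟩ := IsAlgClosed.exists_pow_nat_eq (algebraMap K (AlgebraicClosure K) b)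
    hℓp.out.pos
  rw [NS_eq_range γ b hγ hb] at *
  obtain ⟨x', rfl⟩ := hx
  obtain ⟨y', rfl⟩ := hy
  exact ⟨x' * y', map_mul _ _ _⟩

theorem NS_inv {b : K} (hb : ∀ c : K, c ^ ℓ ≠ b) {x : K} (hx : x ∈ NS ℓ b) (hx0 : x ≠ 0) :
    x⁻¹ ∈ NS ℓ b := by
  obtain ⟨γ, hγ⟩ := IsAlgClosed.exists_pow_nat_eq (algebraMap K (AlgebraicClosure K) b)
    hℓp.out.pos
  rw [NS_eq_range γ b hγ hb] at *
  obtain ⟨x', rfl⟩ := hx
  refine ⟨x'⁻¹, ?_⟩
  have hx' : x' ≠ 0 := by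
    rintro rfl
    apply hx0
    have hint : IsIntegral K γ := Algebra.IsIntegral.isIntegral γ
    have := IntermediateField.adjoin.finiteDimensional hint
    exact Algebra.norm_zero
  refine (inv_eq_of_mul_eq_one_left ?_).symm
  rw [← map_mul, inv_mul_cancel₀ hx', map_one]

theorem NS_one {b : K} (hb : ∀ c : K, c ^ ℓ ≠ b) : (1 : K) ∈ NS ℓ b := by
  obtain ⟨γ, hγ⟩ := IsAlgClosed.exists_pow_nat_eq (algebraMap K (AlgebraicClosure K) b)
    hℓp.out.pos
  rw [NS_eq_range γ b hγ hb]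
  exact ⟨1, map_one _⟩

end

/-- Norms from an extension containing an `ℓ`-th root of `b` are norms from `K(b^{1/ℓ})`. -/
theorem norm_mem_NS {K M : Type*} [Field K] [Field M] [Algebra K M] [FiniteDimensional K M]
    {ℓ : ℕ} [hℓp : Fact ℓ.Prime] (γ : M) (b : K) (hγ : γ ^ ℓ = algebraMap K M b)
    (hb : ∀ c : K, c ^ ℓ ≠ b) (g : M) : Algebra.norm K g ∈ NS ℓ b := by
  rw [NS_eq_range γ b hγ hb]
  exact ⟨Algebra.norm K⟮γ⟯ g, Algebra.norm_norm⟩

end Pool.Agent.NIPFields
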