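import Mathlib
import Pool.Agent.NIPFields.NormForm

set_option autoImplicit false

namespace Pool.Agent.NIPFields

open FirstOrder FirstOrder.Language FirstOrder.Ring

universe u

/-- No formula of the language of rings has the independence property in `K`. -/
def NIP (K : Type u) [Field K] [CompatibleRing K] : Prop :=
  ∀ (m k : ℕ) (φ : Language.ring.Formula (Fin m ⊕ Fin k)),
    ∃ n : ℕ, ∀ (a : Fin n → Fin m → K) (b : Finset (Fin n) → Fin k → K),
      ∃ (i : Fin n) (J : Finset (Fin n)), ¬ (φ.Realize (Sum.elim (a i) (b J)) ↔ i ∈ J)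

/-- In an NIP field no relation definable with finitely many parameters shatters arbitrarily
large finite sets. -/
theorem NIP.definable {K : Type u} [Field K] [CompatibleRing K] (hK : NIP K) {m k : ℕ}
    (A : Set K) (hA : A.Finite) (R : Set (Fin m ⊕ Fin k → K))
    (hR : A.Definable Language.ring R) :
    ∃ n : ℕ, ∀ (a : Fin n → Fin m → K) (b : Finset (Fin n) → Fin k → K),
      ∃ (i : Fin n) (J : Finset (Fin n)), ¬ (Sum.elim (a i) (b J) ∈ R ↔ i ∈ J) := by
  classical
  obtain ⟨φ, hφ⟩ := Set.definable_iff_exists_formula_sum.1 hR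
  have := hA.fintype
  let e : A ≃ Fin (Fintype.card A) := Fintype.equivFin A
  let g : A ⊕ (Fin m ⊕ Fin k) → Fin m ⊕ Fin (k + Fintype.card A) :=
    Sum.elim (fun a => Sum.inr (Fin.natAdd k (e a)))
      (Sum.elim Sum.inl (fun j => Sum.inr (Fin.castAdd _ j)))
  obtain ⟨n, hn⟩ := hK m (k + Fintype.card A) (φ.relabel g)
  refine ⟨n, fun a b => ?_⟩
  obtain ⟨i, J, h⟩ := hn a (fun J => Fin.append (b J) (fun j => ((e.symm j : A) : K)))
  refine ⟨i, J, ?_⟩
  rw [hφ]
  rw [Formula.realize_relabel] at h
  have hx : (Sum.elim (a i) (Fin.append (b J) fun j => ((e.symm j : A) : K)) ∘ g) =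
      Sum.elim (Subtype.val : A → K) (Sum.elim (a i) (b J)) := by
    funext x
    rcases x with x | x | x <;> simp [g]
  rw [hx] at h
  exact h

section

variable {K : Type*} [Field K]

variable {L : Type*} [Field L] [Algebra K L] {d : ℕ} (e : Module.Basis (Fin d) K L)

/-- The element with given coordinates. -/
noncomputable def toL (v : Fin d → K) : L := ∑ i, v i • e i

theorem toL_repr (x : L) : toL e (fun i => e.repr x i) = x := e.sum_repr x

theorem toL_eq_zero_iff (v : Fin d → K) : toL e v = 0 ↔ ∀ i, v i = 0 := by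
  constructor
  · intro h
    exact fun i => (Fintype.linearIndependent_iff.1 e.linearIndependent) v h i
  · intro h
    simp [toL, h]

end

open TensorProduct in
/-- The norm relation of a finite extension is definable over the base field, with finitely many
parameters. -/
theorem definable_NS {K : Type u} [Field K] [CompatibleRing K] {L : Type*} [Field L]
    [Algebra K L] {d : ℕ} (e : Module.Basis (Fin d) K L) (ℓ : ℕ) :
    ∃ A : Set K, A.Finite ∧ A.Definable Language.ring
      {v : Fin d ⊕ Fin d → K | toL e (v ∘ Sum.inr) ∈ NS ℓ (toL e (v ∘ Sum.inl))} := by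
  classical
  let β := (Fin d ⊕ Fin d) ⊕ (Fin ℓ × Fin d)
  let P := MvPolynomial β K
  let T := P ⊗[K] L
  let bT : Module.Basis (Fin d) P T := Algebra.TensorProduct.basis P e
  let gen : (Fin d → β) → T := fun idx => ∑ i, (MvPolynomial.X (idx i) : P) ⊗ₜ[K] e i
  let D : T := gen (fun i => Sum.inl (Sum.inr i)) -
    (nmat ℓ (gen (fun i => Sum.inl (Sum.inl i))) (fun j => gen (fun i => Sum.inr (j, i)))).det
  let p : Fin d → P := fun k => bT.repr D k
  -- evaluation
  have hex : ∀ v : β → K, ∃ φ : T →ₐ[K] L, ∀ (q : P) (x : L),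
      φ (q ⊗ₜ[K] x) = MvPolynomial.aeval (fun i => algebraMap K L (v i)) q * x := fun v =>
    ⟨Algebra.TensorProduct.lift (MvPolynomial.aeval (fun i => algebraMap K L (v i)))
      (AlgHom.id K L) (fun _ _ => Commute.all _ _),
      fun q x => Algebra.TensorProduct.lift_tmul _ _ _ q x⟩
  choose ev hev using hex
  have hevP : ∀ (v : β → K) (q : P),
      MvPolynomial.aeval (fun i => algebraMap K L (v i)) q =
        algebraMap K L (MvPolynomial.aeval v q) := by
    intro v q
    rw [← MvPolynomial.aeval_algebraMap_apply]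
    rfl
  have hgen : ∀ (v : β → K) (idx : Fin d → β), ev v (gen idx) = toL e (v ∘ idx) := by
    intro v idx
    simp only [gen, map_sum, hev, MvPolynomial.aeval_X, toL,
      Function.comp, Algebra.smul_def]
  have hD : ∀ v : β → K, ev v D = 0 ↔ ∀ k, MvPolynomial.aeval v (p k) = 0 := by
    intro v
    have h1 : D = ∑ k, p k • ((1 : P) ⊗ₜ[K] e k) := by
      conv_lhs => rw [← bT.sum_repr D]
      refine Finset.sum_congr rfl (fun k _ => ?_)
      rw [Algebra.TensorProduct.basis_apply]
    have h2 : ev v D = toL e (fun k => MvPolynomial.aeval v (p k)) := by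
      rw [h1, map_sum]
      refine Finset.sum_congr rfl (fun k _ => ?_)
      rw [TensorProduct.smul_tmul', smul_eq_mul, mul_one, hev, hevP, Algebra.smul_def]
    rw [h2, toL_eq_zero_iff]
  have hD' : ∀ v : β → K, ev v D = 0 ↔ toL e (v ∘ fun i => Sum.inl (Sum.inr i)) =
      (nmat ℓ (toL e (v ∘ fun i => Sum.inl (Sum.inl i)))
        (fun j => toL e (v ∘ fun i => Sum.inr (j, i)))).det := by
    intro v
    simp only [D]
    rw [map_sub, sub_eq_zero, hgen]
    have h1 := nmat_map ℓ (ev v : T →+* L) (gen (fun i => Sum.inl (Sum.inl i)))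
      (fun j => gen (fun i => Sum.inr (j, i)))
    have h2 : ∀ t : T, (ev v : T →+* L) t = ev v t := fun _ => rfl
    simp only [h2, hgen] at h1
    rw [h1]
  let S : Finset P := Finset.univ.image p
  refine ⟨⋃ q ∈ S, q.coeff '' q.support, ?_, ?_⟩
  · exact Set.Finite.biUnion (Finset.finite_toSet _)
      (fun q _ => (Finset.finite_toSet _).image _)
  · have h1 := mvPolynomial_zeroLocus_definable S
    have h2 := h1.image_comp (Sum.inl : Fin d ⊕ Fin d → β)
    convert h2 using 1
    ext v
    constructor
    · rintro ⟨z, hz⟩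
      refine ⟨Sum.elim v (fun q => e.repr (z q.1) q.2), ?_, by ext; simp⟩
      rw [MvPolynomial.zeroLocus_span]
      intro q hq
      simp only [S, Finset.coe_image, Finset.coe_univ, Set.image_univ, Set.mem_range] at hq
      obtain ⟨k, rfl⟩ := hq
      refine (hD _).1 ((hD' _).2 ?_) k
      have e1 : ((Sum.elim v fun q : Fin ℓ × Fin d => e.repr (z q.1) q.2) ∘
          fun i => Sum.inl (Sum.inr i)) = v ∘ Sum.inr := by ext; simp
      have e2 : ((Sum.elim v fun q : Fin ℓ × Fin d => e.repr (z q.1) q.2) ∘
          fun i => Sum.inl (Sum.inl i)) = v ∘ Sum.inl := by ext; simp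
      have e3 : ∀ j, toL e ((Sum.elim v fun q : Fin ℓ × Fin d => e.repr (z q.1) q.2) ∘
          fun i => Sum.inr (j, i)) = z j := by
        intro j
        have : ((Sum.elim v fun q : Fin ℓ × Fin d => e.repr (z q.1) q.2) ∘
          fun i => Sum.inr (j, i)) = fun i => e.repr (z j) i := by ext; simp
        rw [this, toL_repr]
      rw [e1, e2, hz]
      simp only [e3]
    · rintro ⟨w, hw, rfl⟩
      rw [MvPolynomial.zeroLocus_span] at hw
      have h3 : ev w D = 0 := (hD w).2 (fun k => hw _ (by simp [S]))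
      exact ⟨_, (hD' w).1 h3⟩

end Pool.Agent.NIPFields
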