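import Mathlib

set_option autoImplicit false

/-!
# Balls of V-topologies

A V-ball of a field is a set `B` such as a valuation ring or the interval `[-1, 1]` of an ordering.
-/

namespace Pool.Agent.NIPFields

/-- Abstract unit balls: multiplicatively closed, `x ∈ B` or `x⁻¹ ∈ B`, `B + B ⊆ c B`, `e ∉ B`. -/
structure VBall {E : Type*} [Field E] (B : Set E) (c e : E) : Prop where
  zero : (0 : E) ∈ B
  mul : ∀ x ∈ B, ∀ y ∈ B, x * y ∈ B
  inv : ∀ x, x ∉ B → x⁻¹ ∈ B
  add : ∀ x ∈ B, ∀ y ∈ B, ∃ z ∈ B, x + y = c * z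
  cne : c ≠ 0
  enot : e ∉ B

/-- `x ∈ y B`. -/
def BLe {E : Type*} [Field E] (B : Set E) (x y : E) : Prop := ∃ b ∈ B, x = b * y

section

variable {E : Type*} [Field E] {B : Set E} {c e : E}

namespace VBall

variable (h : VBall B c e)
include h

theorem one : (1 : E) ∈ B := by
  by_contra h1
  exact h1 (by simpa using h.inv 1 h1)

theorem neg_one : (-1 : E) ∈ B := by
  by_contra h1
  exact h1 (by simpa using h.inv _ h1)

theorem ene : e ≠ 0 := by
  rintro rfl
  exact h.enot h.zero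

theorem refl (x : E) : BLe B x x := ⟨1, h.one, (one_mul x).symm⟩

theorem zero_le (x : E) : BLe B 0 x := ⟨0, h.zero, (zero_mul x).symm⟩

omit h in
theorem of_le_zero {x : E} (hx : BLe B x 0) : x = 0 := by
  obtain ⟨b, _, rfl⟩ := hx
  simp

theorem trans {x y z : E} (h1 : BLe B x y) (h2 : BLe B y z) : BLe B x z := by
  obtain ⟨b, hb, rfl⟩ := h1
  obtain ⟨b', hb', rfl⟩ := h2
  exact ⟨b * b', h.mul _ hb _ hb', by ring⟩

theorem total (x y : E) : BLe B x y ∨ BLe B y x := by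
  by_cases hy : y = 0
  · right; rw [hy]; exact h.zero_le x
  by_cases hx : x = 0
  · left; rw [hx]; exact h.zero_le y
  by_cases hxy : x / y ∈ B
  · left; exact ⟨x / y, hxy, by field_simp⟩
  · right
    refine ⟨y / x, ?_, by field_simp⟩
    have := h.inv _ hxy
    rwa [inv_div] at this

theorem le_of_not {x y : E} (hn : ¬ BLe B x y) : BLe B y x := (h.total x y).resolve_left hn

omit h in
theorem mul_left {x y : E} (z : E) (h1 : BLe B x y) : BLe B (z * x) (z * y) := by
  obtain ⟨b, hb, rfl⟩ := h1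
  exact ⟨b, hb, by ring⟩

omit h in
theorem mul_right {x y : E} (z : E) (h1 : BLe B x y) : BLe B (x * z) (y * z) := by
  obtain ⟨b, hb, rfl⟩ := h1
  exact ⟨b, hb, by ring⟩

theorem mul_mul {x y z w : E} (h1 : BLe B x y) (h2 : BLe B z w) : BLe B (x * z) (y * w) :=
  h.trans (mul_right z h1) (mul_left y h2)

omit h in
theorem mul_left_iff {x y z : E} (hz : z ≠ 0) : BLe B (z * x) (z * y) ↔ BLe B x y := by
  constructor
  · intro h1
    have := mul_left z⁻¹ h1
    rwa [inv_mul_cancel_left₀ hz, inv_mul_cancel_left₀ hz] at this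
  · exact mul_left z

omit h in
theorem le_iff_div {x y : E} (hy : y ≠ 0) : BLe B x y ↔ x / y ∈ B := by
  constructor
  · rintro ⟨b, hb, rfl⟩
    rwa [mul_div_assoc, div_self hy, mul_one]
  · intro hxy
    exact ⟨x / y, hxy, by field_simp⟩

omit h in
theorem le_one_iff {x : E} : BLe B x 1 ↔ x ∈ B := by
  rw [le_iff_div one_ne_zero, div_one]

omit h in
theorem inv_le_inv {x y : E} (hx : x ≠ 0) (h1 : BLe B x y) : BLe B y⁻¹ x⁻¹ := by
  obtain ⟨b, hb, rfl⟩ := h1
  have hb0 : b ≠ 0 := left_ne_zero_of_mul hx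
  have hy0 : y ≠ 0 := right_ne_zero_of_mul hx
  exact ⟨b, hb, by field_simp⟩

theorem add_le {x y z : E} (h1 : BLe B x z) (h2 : BLe B y z) : BLe B (x + y) (c * z) := by
  obtain ⟨b, hb, rfl⟩ := h1
  obtain ⟨b', hb', rfl⟩ := h2
  obtain ⟨w, hw, h3⟩ := h.add _ hb _ hb'
  exact ⟨w, hw, by rw [← add_mul, h3]; ring⟩

theorem neg_le {x y : E} (h1 : BLe B x y) : BLe B (-x) y := by
  have := h.mul_mul (x := -1) (y := 1) ⟨-1, h.neg_one, by ring⟩ h1
  simpa using this

theorem sub_le {x y z : E} (h1 : BLe B x z) (h2 : BLe B y z) : BLe B (x - y) (c * z) := by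
  rw [sub_eq_add_neg]
  exact h.add_le h1 (h.neg_le h2)

theorem not_e_le_one : ¬ BLe B e 1 := fun h1 => h.enot (le_one_iff.1 h1)

/-- Finite sets are bounded. -/
theorem exists_upper {ι : Type*} (s : Finset ι) (f : ι → E) :
    ∃ D : E, D ≠ 0 ∧ ∀ i ∈ s, BLe B (f i) D := by
  classical
  induction s using Finset.induction_on with
  | empty => exact ⟨1, one_ne_zero, by simp⟩
  | insert a s _ ih =>
    obtain ⟨D, hD, h1⟩ := ih
    rcases h.total (f a) D with h2 | h2
    · exact ⟨D, hD, fun i hi => by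
        rcases Finset.mem_insert.1 hi with rfl | hi
        exacts [h2, h1 i hi]⟩
    · refine ⟨f a, ?_, fun i hi => ?_⟩
      · rintro h0
        rw [h0] at h2
        exact hD (of_le_zero h2)
      · rcases Finset.mem_insert.1 hi with rfl | hi
        exacts [h.refl _, h.trans (h1 i hi) h2]

/-- There are common non-zero lower bounds. -/
theorem exists_lower {ι : Type*} (s : Finset ι) (f : ι → E) (hf : ∀ i ∈ s, f i ≠ 0) :
    ∃ D : E, D ≠ 0 ∧ ∀ i ∈ s, BLe B D (f i) := by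
  obtain ⟨D, hD, h1⟩ := h.exists_upper s (fun i => (f i)⁻¹)
  refine ⟨D⁻¹, inv_ne_zero hD, fun i hi => ?_⟩
  have := inv_le_inv (inv_ne_zero (hf i hi)) (h1 i hi)
  rwa [inv_inv] at this

theorem infinite : Infinite E := by
  by_contra hfin
  rw [not_infinite_iff_finite] at hfin
  have hinv : e⁻¹ ∈ B := h.inv _ h.enot
  have hpow : ∀ n : ℕ, e⁻¹ ^ n ∈ B := by
    intro n
    induction n with
    | zero => simpa using h.one
    | succ n ih => rw [pow_succ]; exact h.mul _ ih _ hinv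
  let u : Eˣ := Units.mk0 e⁻¹ (inv_ne_zero h.ene)
  have hfo : IsOfFinOrder u := isOfFinOrder_of_finite u
  obtain ⟨n, hn, hun⟩ := isOfFinOrder_iff_pow_eq_one.1 hfo
  have h1 : e⁻¹ ^ n = 1 := by
    have := congrArg Units.val hun
    simpa [u] using this
  have h2 : e = e⁻¹ ^ (n - 1) := by
    have h3 : e⁻¹ ^ (n - 1) * e⁻¹ = 1 := by rw [← pow_succ, Nat.sub_add_cancel hn, h1]
    have h4 := eq_inv_of_mul_eq_one_left h3
    rw [inv_inv] at h4
    exact h4.symm
  exact h.enot (h2 ▸ hpow (n - 1))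

end VBall

/-- The V-balls `B₀` and `B` are independent: there are elements arbitrarily small with respect
to `B₀` and arbitrarily large with respect to `B`. -/
def Indep (B₀ B : Set E) : Prop :=
  ∀ δ d : E, δ ≠ 0 → d ≠ 0 → ∃ x, BLe B₀ x δ ∧ ¬ BLe B x d

theorem dep_of_not_indep {B₀ B : Set E} (hn : ¬ Indep B₀ B) (d : E) (hd : d ≠ 0) :
    ∃ δ, δ ≠ 0 ∧ ∀ x, BLe B₀ x δ → BLe B x d := by
  unfold Indep at hn
  push Not at hn
  obtain ⟨δ', d', hδ', hd', h1⟩ := hn
  refine ⟨d * d'⁻¹ * δ', mul_ne_zero (mul_ne_zero hd (inv_ne_zero hd')) hδ', fun x hx => ?_⟩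
  have h2 : BLe B₀ ((d * d'⁻¹)⁻¹ * x) δ' := by
    have := VBall.mul_left (d * d'⁻¹)⁻¹ hx
    rwa [inv_mul_cancel_left₀ (mul_ne_zero hd (inv_ne_zero hd'))] at this
  have h3 := VBall.mul_left (d * d'⁻¹) (h1 _ h2)
  rwa [mul_inv_cancel_left₀ (mul_ne_zero hd (inv_ne_zero hd')), inv_mul_cancel_right₀ hd'] at h3

/-- Weak approximation. -/
theorem exists_small_large {ι : Type*} {B₀ : Set E} {c₀ e₀ : E} (h₀ : VBall B₀ c₀ e₀)
    (B : ι → Set E) (c e : ι → E) (h : ∀ i, VBall (B i) (c i) (e i)) (s : Finset ι)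
    (hs : ∀ i ∈ s, Indep B₀ (B i)) (δ : E) (hδ : δ ≠ 0) (d : ι → E) (hd : ∀ i, d i ≠ 0) :
    ∃ x, BLe B₀ x δ ∧ ∀ i ∈ s, ¬ BLe (B i) x (d i) := by
  classical
  have hinf : Infinite E := h₀.infinite
  induction s using Finset.induction_on generalizing δ d with
  | empty => exact ⟨0, h₀.zero_le _, by simp⟩
  | insert k s hk ih =>
    obtain ⟨Λ, hΛ⟩ := Infinite.exists_subset_card_eq E (s.card + 2)
    -- the pairs of distinct elements
    let Q := (Λ ×ˢ Λ)
    have hQ : ∀ j, ∃ D : E, D ≠ 0 ∧ ∀ q ∈ Q,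
        BLe (B j) ((q.1 - q.2)⁻¹ * (c j * d j)) D ∧
        BLe (B j) (c j * (c j * d j)) D ∧ BLe (B j) (c j * d j) D ∧
        BLe (B j) (c j * (q.1 * ((q.1 - q.2)⁻¹ * (c j * d j)))) D := by
      intro j
      obtain ⟨D1, hD1, h1⟩ := (h j).exists_upper Q (fun q => (q.1 - q.2)⁻¹ * (c j * d j))
      obtain ⟨D2, hD2, h2⟩ := (h j).exists_upper Q
        (fun q => c j * (q.1 * ((q.1 - q.2)⁻¹ * (c j * d j))))
      obtain ⟨D, hD, h3⟩ := (h j).exists_upper Finset.univ
        (![D1, D2, c j * (c j * d j), c j * d j])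
      have e1 := h3 0 (Finset.mem_univ _)
      have e2 := h3 1 (Finset.mem_univ _)
      have e3 := h3 2 (Finset.mem_univ _)
      have e4 := h3 3 (Finset.mem_univ _)
      exact ⟨D, hD, fun q hq => ⟨(h j).trans (h1 q hq) e1, e3, e4, (h j).trans (h2 q hq) e2⟩⟩
    choose D hD0 hD using hQ
    obtain ⟨y, hy0, hy⟩ := ih (fun i hi => hs i (Finset.mem_insert_of_mem hi)) (c₀⁻¹ * δ)
      (mul_ne_zero (inv_ne_zero h₀.cne) hδ) D hD0
    obtain ⟨δ', hδ'0, hδ'⟩ := h₀.exists_lower (Λ.filter (· ≠ 0)) (fun a => a⁻¹ * (c₀⁻¹ * δ))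
      (fun a ha => mul_ne_zero (inv_ne_zero (Finset.mem_filter.1 ha).2)
        (mul_ne_zero (inv_ne_zero h₀.cne) hδ))
    obtain ⟨y', hy'0, hy'⟩ := hs k (Finset.mem_insert_self _ _) δ' (D k) hδ'0 (hD0 k)
    have hsmall : ∀ a ∈ Λ, BLe B₀ (y + a * y') δ := by
      intro a ha
      have h1 : BLe B₀ (a * y') (c₀⁻¹ * δ) := by
        by_cases ha0 : a = 0
        · rw [ha0, zero_mul]; exact h₀.zero_le _
        · have := VBall.mul_left a (h₀.trans hy'0 (hδ' a (Finset.mem_filter.2 ⟨ha, ha0⟩)))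
          rwa [mul_inv_cancel_left₀ ha0] at this
      have := h₀.add_le hy0 h1
      rwa [mul_inv_cancel_left₀ h₀.cne] at this
    by_contra hcon
    push Not at hcon
    have hbad : ∀ a ∈ Λ, ∃ i ∈ insert k s, BLe (B i) (y + a * y') (d i) :=
      fun a ha => hcon _ (hsmall a ha)
    have hne : Nonempty ι := ⟨k⟩
    choose! f hf1 hf2 using hbad
    have hcard : (insert k s).card < Λ.card := by
      rw [hΛ, Finset.card_insert_of_notMem hk]; omega
    obtain ⟨a, ha, b, hb, hab, hfab⟩ :=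
      Finset.exists_ne_map_eq_of_card_lt_of_maps_to hcard hf1
    have hab' : a - b ≠ 0 := sub_ne_zero.2 hab
    have h1 := hf2 a ha
    have h2 := hf2 b hb
    rw [← hfab] at h2
    have h3 : BLe (B (f a)) ((a - b) * y') (c (f a) * d (f a)) := by
      have := (h (f a)).sub_le h1 h2
      have e1 : y + a * y' - (y + b * y') = (a - b) * y' := by ring
      rwa [e1] at this
    have h4 : BLe (B (f a)) y' ((a - b)⁻¹ * (c (f a) * d (f a))) := by
      have := VBall.mul_left (a - b)⁻¹ h3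
      rwa [inv_mul_cancel_left₀ hab'] at this
    have hq : (a, b) ∈ Q := Finset.mem_product.2 ⟨ha, hb⟩
    rcases Finset.mem_insert.1 (hf1 a ha) with hk' | hk'
    · rw [hk'] at h4
      exact hy' ((h k).trans h4 (hD k (a, b) hq).1)
    · apply hy _ hk'
      have h5 := VBall.mul_left a h4
      have h6 : y = (y + a * y') - a * y' := by ring
      rw [h6]
      rcases (h (f a)).total (d (f a)) (a * ((a - b)⁻¹ * (c (f a) * d (f a)))) with h7 | h7
      · exact (h (f a)).trans ((h (f a)).sub_le ((h (f a)).trans h1 h7) h5)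
          (hD (f a) (a, b) hq).2.2.2
      · exact (h (f a)).trans ((h (f a)).sub_le h1 ((h (f a)).trans h5 h7))
          (hD (f a) (a, b) hq).2.2.1

end

end Pool.Agent.NIPFields
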