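import Mathlib
import Pool.Agent.NIPFields.VBall

set_option autoImplicit false

namespace Pool.Agent.NIPFields

section

variable {E : Type*} [Field E]

/-- Inverses of the complement. -/
def WSet (V : Set E) : Set E := {x | x = 0 ∨ x⁻¹ ∉ V}

/-- The set used to define a bounded neighbourhood. -/
def USet (V : Set E) (γ : E) : Set E := {x | ∃ w ∈ WSet V, (1 - γ * w) * x ∈ WSet V}

theorem exists_small_large' {ι : Type*} {B₀ : Set E} {c₀ e₀ : E} (h₀ : VBall B₀ c₀ e₀)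
    (B : ι → Set E) (c e : ι → E) (h : ∀ i, VBall (B i) (c i) (e i)) (s : Finset ι)
    (hs : ∀ i ∈ s, Indep B₀ (B i)) (δ : E) (hδ : δ ≠ 0) (d : ι → E) (hd : ∀ i, d i ≠ 0) :
    ∃ x, x ≠ 0 ∧ BLe B₀ x δ ∧ ∀ i ∈ s, ¬ BLe (B i) x (d i) := by
  obtain ⟨x, hx1, hx2⟩ := exists_small_large h₀ B c e h s hs δ hδ d hd
  by_cases hx : x = 0
  · refine ⟨δ, hδ, h₀.refl _, fun i hi => ?_⟩
    exact absurd (hx ▸ (h i).zero_le (d i)) (hx2 i hi)
  · exact ⟨x, hx, hx1, hx2⟩

theorem le_one_sub {B : Set E} {c e : E} (h : VBall B c e) {v : E}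
    (hv : BLe B v (c * e)⁻¹) : BLe B (c * e)⁻¹ (1 - v) := by
  by_contra hn
  have h1 := h.le_of_not hn
  have h2 := h.add_le h1 hv
  rw [sub_add_cancel, mul_inv, mul_inv_cancel_left₀ h.cne] at h2
  have h3 := VBall.inv_le_inv one_ne_zero h2
  rw [inv_inv, inv_one] at h3
  exact h.not_e_le_one h3

/-- The main construction of a bounded neighbourhood of `0`. -/
theorem exists_bounded_nbhd {ι : Type*} [Finite ι] {B₀ : Set E} {c₀ e₀ : E}
    (h₀ : VBall B₀ c₀ e₀) (B : ι → Set E) (c e : ι → E) (h : ∀ i, VBall (B i) (c i) (e i))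
    (V : Set E) (ε : E) (hε : ε ≠ 0) (hV1 : ∀ x, BLe B₀ x ε → x ∈ V) (a : ι → E)
    (ha : ∀ i, a i ≠ 0) (hV2 : ∀ x ∈ V, ∃ i, BLe (B i) x (a i)) :
    ∃ γ : E, (∃ s : E, s ≠ 0 ∧ ∀ x ∈ USet V γ, BLe B₀ x s) ∧
      ∃ t : E, t ≠ 0 ∧ ∀ x, BLe B₀ x t → x ∈ USet V γ := by
  classical
  have := Fintype.ofFinite ι
  let d : ι → E := fun i => (e i * a i)⁻¹
  have hd : ∀ i, d i ≠ 0 := fun i => inv_ne_zero (mul_ne_zero (h i).ene (ha i))
  have hW : ∀ x, (∀ i, BLe (B i) x (d i)) → x ∈ WSet V := by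
    intro x hx
    by_cases hx0 : x = 0
    · exact Or.inl hx0
    · right
      intro hxV
      obtain ⟨i, hi⟩ := hV2 _ hxV
      have h1 := (h i).mul_mul (hx i) hi
      have h2 : d i * a i = (e i)⁻¹ := by
        have := ha i; have := (h i).ene
        simp only [d]; field_simp
      rw [mul_inv_cancel₀ hx0, h2] at h1
      have h3 := VBall.inv_le_inv one_ne_zero h1
      rw [inv_inv, inv_one] at h3
      exact (h i).not_e_le_one h3
  have hWb : ∀ x ∈ WSet V, BLe B₀ x ε⁻¹ := by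
    rintro x (hx | hx)
    · rw [hx]; exact h₀.zero_le _
    · have h1 : ¬ BLe B₀ x⁻¹ ε := fun h1 => hx (hV1 _ h1)
      have h2 := VBall.inv_le_inv hε (h₀.le_of_not h1)
      rwa [inv_inv] at h2
  let s : E := (c₀ * e₀)⁻¹
  have hs : s ≠ 0 := inv_ne_zero (mul_ne_zero h₀.cne h₀.ene)
  let σ : ι → E := fun i => (c i * e i)⁻¹
  have hσ : ∀ i, σ i ≠ 0 := fun i => inv_ne_zero (mul_ne_zero (h i).cne (h i).ene)
  let I : Finset ι := Finset.univ.filter (fun i => Indep B₀ (B i))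
  have hI : ∀ i ∈ I, Indep B₀ (B i) := fun i hi => (Finset.mem_filter.1 hi).2
  have hI' : ∀ i, i ∉ I → ¬ Indep B₀ (B i) := fun i hi hn =>
    hi (Finset.mem_filter.2 ⟨Finset.mem_univ _, hn⟩)
  obtain ⟨γ, hγ0, hγ1, hγ2⟩ := exists_small_large' h₀ B c e h I hI (s * ε) (mul_ne_zero hs hε)
    (fun i => c i * (d i)⁻¹) (fun i => mul_ne_zero (h i).cne (inv_ne_zero (hd i)))
  refine ⟨γ, ⟨s⁻¹ * ε⁻¹, mul_ne_zero (inv_ne_zero hs) (inv_ne_zero hε), ?_⟩, ?_⟩
  · rintro x ⟨w, hw, hx⟩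
    have h1 : BLe B₀ (γ * w) s := by
      have := h₀.mul_mul hγ1 (hWb w hw)
      rwa [mul_inv_cancel_right₀ hε] at this
    have h2 : BLe B₀ s (1 - γ * w) := le_one_sub h₀ h1
    have h3 : (1 - γ * w) ≠ 0 := by
      intro h4
      rw [h4] at h2
      exact hs (VBall.of_le_zero h2)
    have h4 := h₀.mul_mul (VBall.inv_le_inv hs h2) (hWb _ hx)
    rwa [inv_mul_cancel_left₀ h3] at h4
  · -- the neighbourhood
    have hδ : ∀ i, ∃ δ, δ ≠ 0 ∧ (i ∉ I → ∀ x, BLe B₀ x δ → BLe (B i) x (d i * σ i)) := by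
      intro i
      by_cases hi : i ∈ I
      · exact ⟨1, one_ne_zero, fun h => absurd hi h⟩
      · obtain ⟨δ, hδ, h1⟩ := dep_of_not_indep (hI' i hi) (d i * σ i)
          (mul_ne_zero (hd i) (hσ i))
        exact ⟨δ, hδ, fun _ => h1⟩
    choose δ hδ0 hδ using hδ
    obtain ⟨t₀, ht₀, ht₀'⟩ := h₀.exists_lower Finset.univ δ (fun i _ => hδ0 i)
    refine ⟨t₀, ht₀, fun x hx => ?_⟩
    -- the thresholds for `t`
    have hη : ∀ i, ∃ η, η ≠ 0 ∧ BLe (B i) η (σ i) ∧ BLe (B i) η (γ * d i * σ i) := by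
      intro i
      obtain ⟨D, hD, h1⟩ := (h i).exists_lower Finset.univ ![σ i, γ * d i * σ i] (by
        intro j _
        fin_cases j
        · exact hσ i
        · exact mul_ne_zero (mul_ne_zero hγ0 (hd i)) (hσ i))
      exact ⟨D, hD, h1 0 (Finset.mem_univ _), h1 1 (Finset.mem_univ _)⟩
    choose η hη0 hη1 hη2 using hη
    have hδ' : ∀ i, ∃ δ, δ ≠ 0 ∧ (i ∉ I → ∀ x, BLe B₀ x δ → BLe (B i) x (η i)) := by
      intro i
      by_cases hi : i ∈ I
      · exact ⟨1, one_ne_zero, fun h => absurd hi h⟩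
      · obtain ⟨δ, hδ, h1⟩ := dep_of_not_indep (hI' i hi) (η i) (hη0 i)
        exact ⟨δ, hδ, fun _ => h1⟩
    choose δ' hδ'0 hδ' using hδ'
    obtain ⟨t₁, ht₁, ht₁'⟩ := h₀.exists_lower Finset.univ δ' (fun i _ => hδ'0 i)
    have hL : ∀ i, ∃ L, L ≠ 0 ∧ BLe (B i) 1 L ∧ BLe (B i) (x * (d i)⁻¹) L := by
      intro i
      obtain ⟨D, hD, h1⟩ := (h i).exists_upper Finset.univ ![1, x * (d i)⁻¹]
      exact ⟨D, hD, h1 0 (Finset.mem_univ _), h1 1 (Finset.mem_univ _)⟩
    choose L hL0 hL1 hL2 using hL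
    obtain ⟨t, ht0, ht1, ht2⟩ := exists_small_large' h₀ B c e h I hI t₁ ht₁
      (fun i => c i * L i) (fun i => mul_ne_zero (h i).cne (hL0 i))
    -- key estimates
    have key : ∀ i, 1 + t ≠ 0 ∧ BLe (B i) (t * (1 + t)⁻¹) (γ * d i) ∧
        BLe (B i) ((1 + t)⁻¹ * x) (d i) := by
      intro i
      by_cases hi : i ∈ I
      · have h1 : BLe (B i) (L i) (1 + t) := by
          by_contra hn
          have h2 := (h i).sub_le ((h i).le_of_not hn) (hL1 i)
          rw [add_sub_cancel_left] at h2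
          exact ht2 i hi h2
        have h2 : 1 + t ≠ 0 := by
          intro h3; rw [h3] at h1; exact hL0 i (VBall.of_le_zero h1)
        have h3 : BLe (B i) (1 + t)⁻¹ (L i)⁻¹ := VBall.inv_le_inv (hL0 i) h1
        have h4 : BLe (B i) (1 + t)⁻¹ 1 := by
          have := VBall.inv_le_inv one_ne_zero (hL1 i)
          rw [inv_one] at this
          exact (h i).trans h3 this
        have h5 : BLe (B i) (t * (1 + t)⁻¹) (c i) := by
          have h6 : t * (1 + t)⁻¹ = 1 - (1 + t)⁻¹ := by field_simp; ring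
          rw [h6]
          have := (h i).sub_le ((h i).refl 1) h4
          rwa [mul_one] at this
        have h6 : BLe (B i) (c i) (γ * d i) := by
          have := VBall.mul_right (d i) ((h i).le_of_not (hγ2 i hi))
          rwa [inv_mul_cancel_right₀ (hd i)] at this
        refine ⟨h2, (h i).trans h5 h6, ?_⟩
        have h7 := (h i).mul_mul h3 ((VBall.mul_left_iff (inv_ne_zero (hd i)) (x := x)
          (y := d i * L i)).1 (by
            rw [inv_mul_cancel_left₀ (hd i), mul_comm]; exact hL2 i))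
        have h8 : (L i)⁻¹ * (d i * L i) = d i := by
          have := hL0 i; field_simp
        rwa [h8] at h7
      · have h1 : BLe (B i) t (η i) := hδ' i hi t (h₀.trans ht1 (ht₁' i (Finset.mem_univ _)))
        have h2 : BLe (B i) (σ i) (1 + t) := by
          have := le_one_sub (h i) ((h i).neg_le ((h i).trans h1 (hη1 i)))
          rwa [sub_neg_eq_add] at this
        have h3 : 1 + t ≠ 0 := by
          intro h3; rw [h3] at h2; exact hσ i (VBall.of_le_zero h2)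
        have h4 : BLe (B i) (1 + t)⁻¹ (σ i)⁻¹ := VBall.inv_le_inv (hσ i) h2
        refine ⟨h3, ?_, ?_⟩
        · have h5 := (h i).mul_mul ((h i).trans h1 (hη2 i)) h4
          rwa [mul_inv_cancel_right₀ (hσ i)] at h5
        · have h5 := (h i).mul_mul h4 (hδ i hi x (h₀.trans hx (ht₀' i (Finset.mem_univ _))))
          have h6 : (σ i)⁻¹ * (d i * σ i) = d i := by
            have := hσ i; field_simp
          rwa [h6] at h5
    obtain ⟨i₀, _⟩ := hV2 0 (hV1 0 (h₀.zero_le _))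
    have h1t : 1 + t ≠ 0 := (key i₀).1
    refine ⟨γ⁻¹ * (t * (1 + t)⁻¹), hW _ (fun i => ?_), hW _ (fun i => ?_)⟩
    · have := VBall.mul_left γ⁻¹ (key i).2.1
      rwa [inv_mul_cancel_left₀ hγ0 (d i)] at this
    · have h5 : (1 - γ * (γ⁻¹ * (t * (1 + t)⁻¹))) = (1 + t)⁻¹ := by
        rw [mul_inv_cancel_left₀ hγ0]; field_simp; ring
      rw [h5]
      exact (key i).2.2

end

end Pool.Agent.NIPFields
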