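import Mathlib
import Pool.Agent.NIPFields.VNbhd

set_option autoImplicit false

/-!
# Definable functions and sets in the language of rings
-/

namespace Pool.Agent.NIPFields

open FirstOrder FirstOrder.Language FirstOrder.Ring Set

section

variable {E : Type*} [Field E] [CompatibleRing E] {A : Set E} {α : Type*}

theorem dfun_add {f g : (α → E) → E} (hf : A.DefinableFun Language.ring f)
    (hg : A.DefinableFun Language.ring g) :
    A.DefinableFun Language.ring (fun v => f v + g v) := by
  have h1 : A.DefinableFun Language.ring (fun v : Fin 2 → E => v 0 + v 1) := by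
    have := (DefinableFun.fun_symbol (M := E) (addFunc)).mono (empty_subset A)
    convert this using 2 with v
    exact (CompatibleRing.funMap_add v).symm
  exact DefinableFun.comp (g := fun v => ![f v, g v]) (by simp [DefinableMap, *]) h1

theorem dfun_mul {f g : (α → E) → E} (hf : A.DefinableFun Language.ring f)
    (hg : A.DefinableFun Language.ring g) :
    A.DefinableFun Language.ring (fun v => f v * g v) := by
  have h1 : A.DefinableFun Language.ring (fun v : Fin 2 → E => v 0 * v 1) := by
    have := (DefinableFun.fun_symbol (M := E) (mulFunc)).mono (empty_subset A)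
    convert this using 2 with v
    exact (CompatibleRing.funMap_mul v).symm
  exact DefinableFun.comp (g := fun v => ![f v, g v]) (by simp [DefinableMap, *]) h1

theorem dfun_neg {f : (α → E) → E} (hf : A.DefinableFun Language.ring f) :
    A.DefinableFun Language.ring (fun v => - f v) := by
  have h1 : A.DefinableFun Language.ring (fun v : Fin 1 → E => - v 0) := by
    have := (DefinableFun.fun_symbol (M := E) (negFunc)).mono (empty_subset A)
    convert this using 2 with v
    exact (CompatibleRing.funMap_neg v).symm
  exact DefinableFun.comp (g := fun v => ![f v]) (by simp [DefinableMap, *]) h1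

theorem dfun_zero : A.DefinableFun Language.ring (fun _ : α → E => (0 : E)) := by
  have h1 : A.DefinableFun Language.ring (fun _ : Fin 0 → E => (0 : E)) := by
    have := (DefinableFun.fun_symbol (M := E) (zeroFunc)).mono (empty_subset A)
    convert this using 2 with v
    exact (CompatibleRing.funMap_zero v).symm
  exact DefinableFun.comp (g := fun v => ![]) (by simp [DefinableMap]) h1

theorem dfun_one : A.DefinableFun Language.ring (fun _ : α → E => (1 : E)) := by
  have h1 : A.DefinableFun Language.ring (fun _ : Fin 0 → E => (1 : E)) := by
    have := (DefinableFun.fun_symbol (M := E) (oneFunc)).mono (empty_subset A)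
    convert this using 2 with v
    exact (CompatibleRing.funMap_one v).symm
  exact DefinableFun.comp (g := fun v => ![]) (by simp [DefinableMap]) h1

theorem dfun_sub {f g : (α → E) → E} (hf : A.DefinableFun Language.ring f)
    (hg : A.DefinableFun Language.ring g) :
    A.DefinableFun Language.ring (fun v => f v - g v) := by
  simp only [sub_eq_add_neg]
  exact dfun_add hf (dfun_neg hg)

theorem dfun_const {a : E} (ha : a ∈ A) :
    A.DefinableFun Language.ring (fun _ : α → E => a) :=
  Language.ring.definableFun_const α ha

theorem dfun_var (i : α) : A.DefinableFun Language.ring (fun v : α → E => v i) :=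
  (Language.definableFun_var Language.ring i).mono (empty_subset A)

theorem dfun_pow {f : (α → E) → E} (hf : A.DefinableFun Language.ring f) (n : ℕ) :
    A.DefinableFun Language.ring (fun v => f v ^ n) := by
  induction n with
  | zero => simpa using dfun_one
  | succ n ih => simpa only [pow_succ] using dfun_mul ih hf

theorem dfun_inv {f : (α → E) → E} (hf : A.DefinableFun Language.ring f) :
    A.DefinableFun Language.ring (fun v => (f v)⁻¹) := by
  have h1 : A.DefinableFun Language.ring (fun v : Fin 1 → E => (v 0)⁻¹) := by
    have e1 : A.Definable Language.ring {w : Option (Fin 1) → E | w (some 0) = 0} :=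
      (dfun_var (some 0)).ofPred_eq dfun_zero
    have e2 : A.Definable Language.ring {w : Option (Fin 1) → E | w none = 0} :=
      (dfun_var none).ofPred_eq dfun_zero
    have e3 : A.Definable Language.ring {w : Option (Fin 1) → E | w (some 0) * w none = 1} :=
      (dfun_mul (dfun_var (some 0)) (dfun_var none)).ofPred_eq dfun_one
    have := (e1.inter e2).union e3
    unfold DefinableFun
    convert this using 1
    ext w
    simp only [Function.tupleGraph, mem_ofPred_eq, mem_union, mem_inter_iff, Function.comp]
    constructor
    · intro h
      by_cases h0 : w (some 0) = 0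
      · left; exact ⟨h0, by rw [← h, h0, inv_zero]⟩
      · right; rw [← h, mul_inv_cancel₀ h0]
    · rintro (⟨h0, h1⟩ | h0)
      · rw [h0, h1, inv_zero]
      · exact inv_eq_of_mul_eq_one_right h0
  exact DefinableFun.comp (g := fun v => ![f v]) (by simp [DefinableMap, *]) h1

theorem def_mem {V : Set E} (hV : A.Definable₁ Language.ring V) {f : (α → E) → E}
    (hf : A.DefinableFun Language.ring f) : A.Definable Language.ring {v | f v ∈ V} := by
  have h := Set.Definable.preimage_map (F := fun v => fun _ : Fin 1 => f v)
    (fun _ => hf) hV
  exact h

theorem def_wset {V : Set E} (hV : A.Definable₁ Language.ring V) :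
    A.Definable₁ Language.ring (WSet V) := by
  have e1 : A.Definable Language.ring {w : Fin 1 → E | w 0 = 0} :=
    (dfun_var 0).ofPred_eq dfun_zero
  have e2 : A.Definable Language.ring {w : Fin 1 → E | (w 0)⁻¹ ∈ V} :=
    def_mem hV (dfun_inv (dfun_var 0))
  exact e1.union e2.compl

theorem def_uset {V : Set E} (hV : A.Definable₁ Language.ring V) {γ : E} (hγ : γ ∈ A) :
    A.Definable₁ Language.ring (USet V γ) := by
  have hW := def_wset hV
  have e1 : A.Definable Language.ring {u : Fin 1 ⊕ Fin 1 → E | u (Sum.inr 0) ∈ WSet V} :=
    def_mem hW (dfun_var _)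
  have e2 : A.Definable Language.ring {u : Fin 1 ⊕ Fin 1 → E |
      (1 - γ * u (Sum.inr 0)) * u (Sum.inl 0) ∈ WSet V} :=
    def_mem hW (dfun_mul (dfun_sub dfun_one (dfun_mul (dfun_const hγ) (dfun_var _)))
      (dfun_var _))
  have h := (e1.inter e2).exists_of_finite
  unfold Definable₁
  convert h using 1
  ext v
  constructor
  · rintro ⟨w, hw1, hw2⟩
    exact ⟨fun _ => w, hw1, hw2⟩
  · rintro ⟨u, hu1, hu2⟩
    exact ⟨u 0, hu1, hu2⟩

end

end Pool.Agent.NIPFields
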