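import Mathlib
import Pool.Agent.NIPFields.RingDef
import Pool.Agent.NIPFields.Definable

set_option autoImplicit false

/-!
# Relations on a finite extension that are definable over the base field
-/

namespace Pool.Agent.NIPFields

open FirstOrder FirstOrder.Language FirstOrder.Ring Set

universe u

section

variable {K : Type u} [Field K] [CompatibleRing K] {L : Type*} [Field L] [Algebra K L] {d : ℕ}
  (e : Module.Basis (Fin d) K L)

omit [CompatibleRing K] in
theorem repr_toL (w : Fin d → K) (k : Fin d) : e.repr (toL e w) k = w k :=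
  congrFun (e.repr_sum_self w) k

/-- The tuple of elements of `L` with given coordinates. -/
noncomputable def toLs {α : Type*} (v : α × Fin d → K) : α → L :=
  fun i => toL e (fun j => v (i, j))

/-- A relation on `L` that is definable over `K`. -/
def LDef {α : Type*} (S : Set (α → L)) : Prop :=
  (univ : Set K).Definable Language.ring {v : α × Fin d → K | toLs e v ∈ S}

/-- A function on `L` that is definable over `K`. -/
def LFun {α : Type*} (f : (α → L) → L) : Prop :=
  ∀ k, (univ : Set K).DefinableFun Language.ring (fun v : α × Fin d → K => e.repr (f (toLs e v)) k)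

variable {e} {α β : Type*}

theorem LDef.inter {S T : Set (α → L)} (hS : LDef e S) (hT : LDef e T) : LDef e (S ∩ T) :=
  Set.Definable.inter hS hT

theorem LDef.union {S T : Set (α → L)} (hS : LDef e S) (hT : LDef e T) : LDef e (S ∪ T) :=
  Set.Definable.union hS hT

theorem LDef.compl {S : Set (α → L)} (hS : LDef e S) : LDef e Sᶜ :=
  Set.Definable.compl hS

theorem LDef.imp {S T : Set (α → L)} (hS : LDef e S) (hT : LDef e T) :
    LDef e {v | v ∈ S → v ∈ T} := by
  have := hS.compl.union hT
  convert this using 1
  ext v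
  simp only [mem_ofPred_eq, mem_union, mem_compl_iff]
  tauto

theorem LDef.iInter {ι : Type*} [Finite ι] {S : ι → Set (α → L)} (hS : ∀ i, LDef e (S i)) :
    LDef e (⋂ i, S i) := by
  have := definable_iInter_of_finite hS
  unfold LDef
  convert this using 1
  ext v
  simp

theorem LDef.iUnion {ι : Type*} [Finite ι] {S : ι → Set (α → L)} (hS : ∀ i, LDef e (S i)) :
    LDef e (⋃ i, S i) := by
  have := definable_iUnion_of_finite hS
  unfold LDef
  convert this using 1
  ext v
  simp

theorem LDef.preimage_comp {S : Set (α → L)} (hS : LDef e S) (f : α → β) :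
    LDef e {v : β → L | v ∘ f ∈ S} := by
  have := Set.Definable.preimage_comp (Prod.map f id : α × Fin d → β × Fin d) hS
  exact this

theorem LFun.var (i : α) : LFun e (fun v : α → L => v i) := by
  intro k
  have : (fun v : α × Fin d → K => e.repr (toLs e v i) k) = fun v => v (i, k) := by
    funext v
    exact repr_toL e _ k
  rw [this]
  exact dfun_var _

theorem LFun.const (a : L) : LFun e (fun _ : α → L => a) := fun _ => dfun_const (mem_univ _)

theorem LFun.add {f g : (α → L) → L} (hf : LFun e f) (hg : LFun e g) :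
    LFun e (fun v => f v + g v) := by
  intro k
  simp only [map_add, Finsupp.add_apply]
  exact dfun_add (hf k) (hg k)

theorem LFun.neg {f : (α → L) → L} (hf : LFun e f) : LFun e (fun v => - f v) := by
  intro k
  simp only [map_neg, Finsupp.neg_apply]
  exact dfun_neg (hf k)

theorem LFun.sub {f g : (α → L) → L} (hf : LFun e f) (hg : LFun e g) :
    LFun e (fun v => f v - g v) := by
  simp only [sub_eq_add_neg]
  exact hf.add hg.neg

theorem dfun_sum {γ : Type*} {ι : Type*} (s : Finset ι) (f : ι → (γ → K) → K)
    (hf : ∀ i ∈ s, (univ : Set K).DefinableFun Language.ring (f i)) :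
    (univ : Set K).DefinableFun Language.ring (fun v => ∑ i ∈ s, f i v) := by
  classical
  induction s using Finset.induction_on with
  | empty => simpa using dfun_zero
  | insert a s ha ih =>
    simp only [Finset.sum_insert ha]
    exact dfun_add (hf a (Finset.mem_insert_self _ _))
      (ih fun i hi => hf i (Finset.mem_insert_of_mem hi))

theorem LFun.mul {f g : (α → L) → L} (hf : LFun e f) (hg : LFun e g) :
    LFun e (fun v => f v * g v) := by
  intro k
  have h1 : ∀ x y : L, e.repr (x * y) k =
      ∑ i, ∑ j, e.repr x i * e.repr y j * e.repr (e i * e j) k := by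
    intro x y
    conv_lhs => rw [← e.sum_repr x, ← e.sum_repr y]
    simp only [Finset.sum_mul_sum, map_sum, Finsupp.coe_finsetSum,
      Finset.sum_apply, smul_mul_smul_comm, map_smul, Finsupp.smul_apply, smul_eq_mul]
  have h2 : (fun v : α × Fin d → K => e.repr (f (toLs e v) * g (toLs e v)) k) = fun v =>
      ∑ i, ∑ j, e.repr (f (toLs e v)) i * e.repr (g (toLs e v)) j * e.repr (e i * e j) k :=
    funext fun v => h1 _ _
  rw [h2]
  refine dfun_sum _ _ (fun i _ => dfun_sum _ _ (fun j _ => ?_))
  exact dfun_mul (dfun_mul (hf i) (hg j)) (dfun_const (mem_univ _))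

theorem LFun.pow {f : (α → L) → L} (hf : LFun e f) (n : ℕ) : LFun e (fun v => f v ^ n) := by
  induction n with
  | zero => simpa using LFun.const (e := e) (α := α) 1
  | succ n ih => simpa only [pow_succ] using ih.mul hf

theorem LFun.sum {ι : Type*} (s : Finset ι) (f : ι → (α → L) → L)
    (hf : ∀ i ∈ s, LFun e (f i)) : LFun e (fun v => ∑ i ∈ s, f i v) := by
  intro k
  simp only [map_sum, Finsupp.coe_finsetSum, Finset.sum_apply]
  exact dfun_sum _ _ (fun i hi => hf i hi k)

theorem LFun.eq {f g : (α → L) → L} (hf : LFun e f) (hg : LFun e g) :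
    LDef e {v | f v = g v} := by
  have := definable_iInter_of_finite (fun k => DefinableFun.ofPred_eq (hf k) (hg k))
  unfold LDef
  convert this using 1
  ext v
  simp only [mem_ofPred_eq, mem_iInter]
  exact ⟨fun h k => by rw [h], fun h => e.repr.injective (Finsupp.ext h)⟩

theorem LFun.preimage {S : Set (β → L)} [Finite β] (hS : LDef e S) {f : β → (α → L) → L}
    (hf : ∀ i, LFun e (f i)) : LDef e {v | (fun i => f i v) ∈ S} := by
  have h := Set.Definable.preimage_map
    (F := fun (v : α × Fin d → K) (p : β × Fin d) => e.repr (f p.1 (toLs e v)) p.2)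
    (fun p => hf p.1 p.2) hS
  unfold LDef
  convert h using 1
  ext v
  simp only [mem_ofPred_eq, mem_preimage]
  have : (toLs e fun p : β × Fin d => e.repr (f p.1 (toLs e v)) p.2) =
      fun i => f i (toLs e v) := by
    funext i
    exact toL_repr e (f i (toLs e v))
  rw [this]

/-- The 1-dimensional version. -/
def LDef₁ (e : Module.Basis (Fin d) K L) (S : Set L) : Prop :=
  LDef e {v : Unit → L | v () ∈ S}

theorem LDef₁.mem {S : Set L} (hS : LDef₁ e S) {f : (α → L) → L} (hf : LFun e f) :
    LDef e {v | f v ∈ S} :=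
  LFun.preimage (f := fun _ : Unit => f) hS (fun _ => hf)

theorem LDef.exists [Finite β] {S : Set (α ⊕ β → L)} (hS : LDef e S) :
    LDef e {v : α → L | ∃ u : β → L, Sum.elim v u ∈ S} := by
  have h1 : (univ : Set K).Definable Language.ring
      {v : (α × Fin d) ⊕ (β × Fin d) → K |
        toLs e (fun p : (α ⊕ β) × Fin d => v (Equiv.sumProdDistrib α β (Fin d) p)) ∈ S} :=
    Set.Definable.preimage_comp (Equiv.sumProdDistrib α β (Fin d)) hS
  have h2 := h1.exists_of_finite
  unfold LDef
  convert h2 using 1
  ext v
  simp only [mem_ofPred_eq]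
  have key : ∀ u : β × Fin d → K, toLs e (fun p : (α ⊕ β) × Fin d =>
      (Sum.elim v u) (Equiv.sumProdDistrib α β (Fin d) p)) = Sum.elim (toLs e v) (toLs e u) := by
    intro u
    funext i
    rcases i with i | i <;> rfl
  constructor
  · rintro ⟨u, hu⟩
    refine ⟨fun p => e.repr (u p.1) p.2, ?_⟩
    rw [key]
    have : toLs e (fun p : β × Fin d => e.repr (u p.1) p.2) = u := by
      funext i
      exact toL_repr e (u i)
    rwa [this]
  · rintro ⟨u, hu⟩
    rw [key] at hu
    exact ⟨_, hu⟩

theorem LDef.forall [Finite β] {S : Set (α ⊕ β → L)} (hS : LDef e S) :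
    LDef e {v : α → L | ∀ u : β → L, Sum.elim v u ∈ S} := by
  have := hS.compl.exists.compl
  convert this using 1
  ext v
  simp

/-- Definable sets of the base field. -/
theorem LDef₁.of_base {O : Set K} (hO : (univ : Set K).Definable₁ Language.ring O) :
    LDef₁ e (algebraMap K L '' O) := by
  have h1 : (univ : Set K).Definable Language.ring {u : (Unit × Fin d) ⊕ Fin 1 → K |
      (u (Sum.inr 0) ∈ O) ∧ ∀ k, u (Sum.inl ((), k)) = u (Sum.inr 0) * e.repr 1 k} := by
    have e1 : (univ : Set K).Definable Language.ring {u : (Unit × Fin d) ⊕ Fin 1 → K |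
        (u (Sum.inr 0) ∈ O)} := def_mem hO (dfun_var _)
    have e2 := definable_iInter_of_finite (fun k : Fin d =>
      DefinableFun.ofPred_eq (A := (univ : Set K)) (L := Language.ring)
        (f := fun u : (Unit × Fin d) ⊕ Fin 1 → K => u (Sum.inl ((), k)))
        (g := fun u => u (Sum.inr 0) * e.repr 1 k) (dfun_var _)
        (dfun_mul (dfun_var _) (dfun_const (mem_univ _))))
    convert e1.inter e2 using 1
    ext u
    simp
  have h2 := h1.exists_of_finite
  unfold LDef₁ LDef
  convert h2 using 1
  ext v
  simp only [mem_ofPred_eq, mem_image]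
  constructor
  · rintro ⟨a, ha, hav⟩
    refine ⟨fun _ => a, ha, fun k => ?_⟩
    simp only [Sum.elim_inl, Sum.elim_inr]
    have h3 : e.repr (toLs e v ()) k = v ((), k) := repr_toL e _ k
    rw [← h3, ← hav, Algebra.algebraMap_eq_smul_one, map_smul, Finsupp.smul_apply, smul_eq_mul]
  · rintro ⟨u, hu, hk⟩
    refine ⟨u 0, hu, ?_⟩
    simp only [Sum.elim_inl, Sum.elim_inr] at hk
    apply e.repr.injective
    ext k
    have h3 : e.repr (toLs e v ()) k = v ((), k) := repr_toL e _ k
    rw [h3, hk, Algebra.algebraMap_eq_smul_one, map_smul, Finsupp.smul_apply, smul_eq_mul]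

/-- Restriction to the base field. -/
theorem LDef₁.restrict {S : Set L} (hS : LDef₁ e S) :
    (univ : Set K).Definable₁ Language.ring {a : K | algebraMap K L a ∈ S} := by
  have h := Set.Definable.preimage_map
    (F := fun (v : Fin 1 → K) (p : Unit × Fin d) => v 0 * e.repr 1 p.2)
    (fun p => dfun_mul (dfun_var _) (dfun_const (mem_univ _))) hS
  unfold Definable₁
  convert h using 1
  ext v
  simp only [mem_ofPred_eq, mem_preimage]
  have : (toLs e fun p : Unit × Fin d => v 0 * e.repr 1 p.2) () = algebraMap K L (v 0) := by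
    simp only [toLs, toL]
    rw [Algebra.algebraMap_eq_smul_one]
    conv_rhs => rw [← e.sum_repr 1]
    rw [Finset.smul_sum]
    exact Finset.sum_congr rfl (fun i _ => by rw [mul_smul])
  rw [this]

/-- Relations definable over the base do not shatter large sets. -/
theorem NIP.ldef (hK : NIP K) {m k : ℕ} {R : Set (Fin m ⊕ Fin k → L)} (hR : LDef e R) :
    ∃ n : ℕ, ∀ (a : Fin n → Fin m → L) (b : Finset (Fin n) → Fin k → L),
      ∃ (i : Fin n) (J : Finset (Fin n)), ¬ (Sum.elim (a i) (b J) ∈ R ↔ i ∈ J) := by
  classical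
  obtain ⟨A, hA, hAR⟩ := definable_iff_finitely_definable.1 hR
  -- reindexing
  let f : (Fin m ⊕ Fin k) × Fin d → Fin (m * d) ⊕ Fin (k * d) := fun p =>
    match p with
    | (Sum.inl i, j) => Sum.inl (finProdFinEquiv (i, j))
    | (Sum.inr i, j) => Sum.inr (finProdFinEquiv (i, j))
  have h1 := Set.Definable.preimage_comp f hAR
  obtain ⟨n, hn⟩ := hK.definable (A : Set K) A.finite_toSet _ h1
  refine ⟨n, fun a b => ?_⟩
  obtain ⟨i, J, hiJ⟩ := hn
    (fun i p => e.repr (a i (finProdFinEquiv.symm p).1) (finProdFinEquiv.symm p).2)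
    (fun J p => e.repr (b J (finProdFinEquiv.symm p).1) (finProdFinEquiv.symm p).2)
  refine ⟨i, J, ?_⟩
  have h2 : toLs e ((Sum.elim
      (fun p : Fin (m * d) => e.repr (a i (finProdFinEquiv.symm p).1) (finProdFinEquiv.symm p).2)
      (fun p : Fin (k * d) => e.repr (b J (finProdFinEquiv.symm p).1)
        (finProdFinEquiv.symm p).2)) ∘ f) = Sum.elim (a i) (b J) := by
    funext x
    rcases x with x | x
    · simp only [toLs, Function.comp_apply, f, Sum.elim_inl, Equiv.symm_apply_apply]
      exact toL_repr e _
    · simp only [toLs, Function.comp_apply, f, Sum.elim_inr, Equiv.symm_apply_apply]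
      exact toL_repr e _
  rw [← h2]
  exact hiJ

end

end Pool.Agent.NIPFields
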