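import Mathlib
import Pool.Agent.NIPFields.AddPoly2
import Pool.Agent.NIPFields.LDef

set_option autoImplicit false

/-!
# Infinite NIP fields of characteristic `p` are Artin-Schreier closed (Kaplan, Scanlon, Wagner)
-/

namespace Pool.Agent.NIPFields

open FirstOrder FirstOrder.Language FirstOrder.Ring Set

universe u

/-- The Baldwin-Saxl condition. -/
theorem baldwin_saxl {K : Type u} [Field K] [CompatibleRing K] (hK : NIP K) {L : Type*} [Field L]
    [Algebra K L] {d : ℕ} {e : Module.Basis (Fin d) K L} {m : ℕ}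
    (H : (Fin m → L) → AddSubgroup L)
    (hdef : LDef e {v : Fin m ⊕ Fin 1 → L | v (Sum.inr 0) ∈ H (v ∘ Sum.inl)}) :
    ∃ N : ℕ, ∀ a : Fin N → (Fin m → L), ∃ i, ∀ y, (∀ j, j ≠ i → y ∈ H (a j)) → y ∈ H (a i) := by
  classical
  obtain ⟨N, hN⟩ := hK.ldef hdef
  refine ⟨N, fun a => ?_⟩
  by_contra hcon
  push Not at hcon
  choose g hg1 hg2 using hcon
  obtain ⟨i, J, hiJ⟩ := hN a (fun J _ => ∑ k ∈ Jᶜ, g k)
  apply hiJ
  simp only [mem_ofPred_eq, Sum.elim_inr, Sum.elim_comp_inl]
  constructor
  · intro h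
    by_contra hi
    have hi' : i ∈ Jᶜ := Finset.mem_compl.2 hi
    rw [← Finset.add_sum_erase _ _ hi'] at h
    have h1 : ∑ k ∈ Jᶜ.erase i, g k ∈ H (a i) := by
      refine AddSubgroup.sum_mem _ (fun k hk => hg1 k i ?_)
      exact (Finset.ne_of_mem_erase hk).symm
    exact hg2 i ((AddSubgroup.add_mem_cancel_right _ h1).1 h)
  · intro hi
    refine AddSubgroup.sum_mem _ (fun k hk => hg1 k i ?_)
    rintro rfl
    exact (Finset.mem_compl.1 hk) hi

section

variable {p : ℕ} [hp : Fact p.Prime] {K : Type*} [Field K] [CharP K p]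

theorem exists_ind [Infinite K] (N : ℕ) : ∃ l : Fin N → K, Ind p l Finset.univ := by
  let _ : Algebra (ZMod p) K := ZMod.algebra K p
  let b := Module.Basis.ofVectorSpace (ZMod p) K
  have hinf : Infinite (Module.Basis.ofVectorSpaceIndex (ZMod p) K) := by
    by_contra h
    rw [not_infinite_iff_finite] at h
    have h1 : Module.Finite (ZMod p) K := Module.Finite.of_basis b
    have h2 : Finite K := Module.finite_of_finite (ZMod p)
    exact not_finite K
  let emb : Fin N ↪ Module.Basis.ofVectorSpaceIndex (ZMod p) K :=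
    Fin.valEmbedding.trans (Infinite.natEmbedding _)
  refine ⟨fun i => b (emb i), fun c _ hc => ?_⟩
  have h1 : LinearIndependent (ZMod p) (fun i => b (emb i)) :=
    b.linearIndependent.comp _ emb.injective
  rw [Fintype.linearIndependent_iff] at h1
  funext i
  refine h1 c ?_ i
  rw [← hc]
  unfold comb
  refine Finset.sum_congr rfl (fun i _ => ?_)
  rw [Algebra.smul_def]
  rfl

/-- The Baldwin-Saxl condition for the groups `a ℘(K)` implies that `K` is Artin-Schreier
closed. -/
theorem as_surj_of_bs [Infinite K] (N : ℕ)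
    (hN : ∀ a : Fin N → K, ∃ i, ∀ y, (∀ j, j ≠ i → ∃ x, y = a j * (x ^ p - x)) →
      ∃ x, y = a i * (x ^ p - x)) (w : K) : ∃ u : K, u ^ p - u = w := by
  classical
  obtain ⟨l, hl⟩ := exists_ind (p := p) (K := K) N
  let μ : Fin N → K := fun i => q p l (Finset.univ.erase i) (l i)
  have hμ : ∀ i, μ i ≠ 0 := fun i =>
    q_ne_zero (Finset.notMem_erase i _) (by rwa [Finset.insert_erase (Finset.mem_univ i)])
  obtain ⟨i, hi⟩ := hN (fun i => μ i ^ p)
  have hne : Nonempty (Fin N) := ⟨i⟩
  have hli : l i ≠ 0 := hl.ne_zero (Finset.mem_univ i)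
  let S' : Finset (Fin N) := Finset.univ.erase i
  have hiS : i ∉ S' := Finset.notMem_erase i _
  have hinsS : insert i S' = Finset.univ := Finset.insert_erase (Finset.mem_univ i)
  let ν : Fin N → K := fun j => hh p (l i) (l j)
  have hν : Ind p ν S' := ind_hh hiS (by rwa [hinsS])
  let W : K := l i ^ p * w
  by_cases hS' : S'.Nonempty
  swap
  · -- the trivial case
    rw [Finset.not_nonempty_iff_eq_empty] at hS'
    obtain ⟨x, hx⟩ := hi (μ i ^ p * w) (fun j hj => by
      have : j ∈ S' := Finset.mem_erase.2 ⟨hj, Finset.mem_univ _⟩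
      rw [hS'] at this
      exact absurd this (Finset.notMem_empty _))
    exact ⟨x, (mul_left_cancel₀ (pow_ne_zero _ (hμ i)) hx).symm⟩
  -- the coordinates
  have hμν : ∀ j ∈ S', q p ν (S'.erase j) (ν j) = μ j := by
    intro j hj
    have hji : j ≠ i := Finset.ne_of_mem_erase hj
    have h1 : insert i (S'.erase j) = Finset.univ.erase j := by
      ext k
      simp only [S', Finset.mem_insert, Finset.mem_erase, Finset.mem_univ, and_true]
      constructor
      · rintro (rfl | ⟨h, _⟩)
        exacts [hji.symm, h]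
      · intro h
        by_cases hki : k = i
        · exact Or.inl hki
        · exact Or.inr ⟨h, hki⟩
    have h2 := q_hh (l := l) (S := S'.erase j) (i := i)
      (fun h => hiS (Finset.mem_of_mem_erase h)) (hl.mono (Finset.subset_univ _)) (l j)
    rw [h1] at h2
    exact h2.symm
  let xx : Fin N → K := fun j => q p ν (S'.erase j) W / μ j
  let t : K := q p ν S' W
  have hxx : ∀ j ∈ S', t = μ j ^ p * (xx j ^ p - xx j) := by
    intro j hj
    have h1 := q_insert (l := ν) (S := S'.erase j) (i := j) (Finset.notMem_erase _ _)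
      (by rwa [Finset.insert_erase hj]) W
    rw [Finset.insert_erase hj, hμν j hj] at h1
    have h2 : μ j ^ p = μ j ^ (p - 1) * μ j := by
      rw [← pow_succ, Nat.sub_add_cancel hp.out.one_lt.le]
    have h3 : xx j * μ j = q p ν (S'.erase j) W := div_mul_cancel₀ _ (hμ j)
    change q p ν S' W = _
    rw [h1, ← h3, mul_pow, h2]
    ring
  obtain ⟨x₀, hx₀⟩ := hi t (fun j hj => ⟨xx j, hxx j (Finset.mem_erase.2 ⟨hj, Finset.mem_univ _⟩)⟩)
  let x : Fin N → K := Function.update xx i x₀
  have hx : ∀ j, μ j ^ p * (x j ^ p - x j) = t := by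
    intro j
    by_cases hj : j = i
    · subst hj
      simp only [x, Function.update_self]
      exact hx₀.symm
    · simp only [x, Function.update_of_ne hj]
      exact (hxx j (Finset.mem_erase.2 ⟨hj, Finset.mem_univ _⟩)).symm
  have h1 := exists_common hl x t hx
  set u : K := ∑ j, l j * x j with hu
  have h2 : ∀ j ∈ S', q p ν (S'.erase j) (hh p (l i) u) = q p ν (S'.erase j) W := by
    intro j hj
    have hji : j ≠ i := Finset.ne_of_mem_erase hj
    have h3 : insert i (S'.erase j) = Finset.univ.erase j := by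
      ext k
      simp only [S', Finset.mem_insert, Finset.mem_erase, Finset.mem_univ, and_true]
      constructor
      · rintro (rfl | ⟨h, _⟩)
        exacts [hji.symm, h]
      · intro h
        by_cases hki : k = i
        · exact Or.inl hki
        · exact Or.inr ⟨h, hki⟩
    have h4 := q_hh (l := l) (S := S'.erase j) (i := i)
      (fun h => hiS (Finset.mem_of_mem_erase h)) (hl.mono (Finset.subset_univ _)) u
    rw [h3, h1 j] at h4
    rw [← h4]
    simp only [x, Function.update_of_ne hji, xx]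
    exact mul_div_cancel₀ _ (hμ j)
  have h3 : hh p (l i) u = W := by
    rw [← sum_q hν hS' (hh p (l i) u), ← sum_q hν hS' W]
    exact Finset.sum_congr rfl (fun j hj => by rw [h2 j hj])
  refine ⟨u / l i, ?_⟩
  rw [hh_apply] at h3
  have h4 : l i ^ p = l i ^ (p - 1) * l i := by
    rw [← pow_succ, Nat.sub_add_cancel hp.out.one_lt.le]
  have h5 : l i ^ p * ((u / l i) ^ p - u / l i) = l i ^ p * w := by
    have h6 : u / l i * l i = u := div_mul_cancel₀ _ hli
    rw [mul_sub, div_pow, mul_div_cancel₀ _ (pow_ne_zero _ hli)]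
    change _ = W
    rw [← h3]
    have h7 : l i ^ p * (u / l i) = l i ^ (p - 1) * u := by
      rw [h4]; linear_combination (l i ^ (p - 1)) * h6
    rw [h7]
  exact mul_left_cancel₀ (pow_ne_zero _ hli) h5

end

/-- Kaplan, Scanlon, Wagner: infinite NIP fields of characteristic `p` are Artin-Schreier closed.
Here the statement is for a finite extension of an NIP field. -/
theorem NIP.artinSchreier {K : Type u} [Field K] [CompatibleRing K] (hK : NIP K) {L : Type*}
    [Field L] [Algebra K L] {d : ℕ} (e : Module.Basis (Fin d) K L) {p : ℕ} [hp : Fact p.Prime]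
    [CharP L p] [Infinite L] (w : L) : ∃ u : L, u ^ p - u = w := by
  let H : (Fin 1 → L) → AddSubgroup L := fun a =>
    ((AddMonoidHom.mulLeft (a 0)).comp (hh p (1 : L))).range
  have hH : ∀ a y, y ∈ H a ↔ ∃ x, y = a 0 * (x ^ p - x) := by
    intro a y
    simp only [H, AddMonoidHom.mem_range, AddMonoidHom.comp_apply, AddMonoidHom.coe_mulLeft,
      hh_apply, one_pow, one_mul]
    exact ⟨fun ⟨x, hx⟩ => ⟨x, hx.symm⟩, fun ⟨x, hx⟩ => ⟨x, hx.symm⟩⟩
  have hdef : LDef e {v : Fin 1 ⊕ Fin 1 → L | v (Sum.inr 0) ∈ H (v ∘ Sum.inl)} := by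
    have h1 : LDef e {v : (Fin 1 ⊕ Fin 1) ⊕ Unit → L | v (Sum.inl (Sum.inr 0)) =
        v (Sum.inl (Sum.inl 0)) * (v (Sum.inr ()) ^ p - v (Sum.inr ()))} :=
      LFun.eq (LFun.var _) (LFun.mul (LFun.var _) (LFun.sub (LFun.pow (LFun.var _) p)
        (LFun.var _)))
    have h2 := LDef.exists h1
    have h3 : {v : Fin 1 ⊕ Fin 1 → L | v (Sum.inr 0) ∈ H (v ∘ Sum.inl)} =
        {v | ∃ u : Unit → L, Sum.elim v u ∈ {v : (Fin 1 ⊕ Fin 1) ⊕ Unit → L |
          v (Sum.inl (Sum.inr 0)) =
          v (Sum.inl (Sum.inl 0)) * (v (Sum.inr ()) ^ p - v (Sum.inr ()))}} := by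
      ext v
      rw [mem_ofPred_eq, hH]
      constructor
      · rintro ⟨x, hx⟩
        exact ⟨fun _ => x, hx⟩
      · rintro ⟨x, hx⟩
        exact ⟨x (), hx⟩
    rw [h3]
    exact h2
  obtain ⟨N, hN⟩ := baldwin_saxl hK H hdef
  have hN' : ∀ a : Fin N → L, ∃ i, ∀ y, (∀ j, j ≠ i → ∃ x, y = a j * (x ^ p - x)) →
      ∃ x, y = a i * (x ^ p - x) := by
    intro a
    obtain ⟨i, hi⟩ := hN (fun j _ => a j)
    refine ⟨i, fun y hy => ?_⟩
    rw [← hH (fun _ => a i) y]
    refine hi y (fun j hj => ?_)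
    rw [hH (fun _ => a j) y]
    exact hy j hj
  exact as_surj_of_bs (p := p) N hN' w

end Pool.Agent.NIPFields
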