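import Mathlib

set_option autoImplicit false

namespace Pool.Agent.NIPFields

variable {K : Type*} [Field K]

/-- If `A ⊔ B = ⊤` and `B ≠ ⊤`, no non-zero multiple of `A` is contained in `B`. -/
theorem not_mul_le (A B : ValuationSubring K) (hAB : A ⊔ B = ⊤) (hB : B ≠ ⊤)
    (a : K) (ha : a ≠ 0) : ∃ x ∈ A, a * x ∉ B := by
  by_contra hcon
  push Not at hcon
  apply hB
  -- the set of finite sums of products is everything
  let S : Subalgebra B K := Algebra.adjoin B (A : Set K)
  have hBS : B.toSubring ≤ S.toSubring := by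
    intro x hx
    have : algebraMap B K ⟨x, hx⟩ ∈ S := S.algebraMap_mem _
    simpa using this
  have hAS : A ≤ ValuationSubring.ofLE B S.toSubring hBS := by
    intro x hx
    exact Algebra.subset_adjoin hx
  have hBS' : B ≤ ValuationSubring.ofLE B S.toSubring hBS := fun x hx => hBS hx
  have htop : ValuationSubring.ofLE B S.toSubring hBS = ⊤ := by
    rw [eq_top_iff, ← hAB]
    exact sup_le hAS hBS'
  have hmem : ∀ x : K, x ∈ Submodule.span B (A : Set K) := by
    intro x
    have hx : x ∈ S := by
      have : x ∈ ValuationSubring.ofLE B S.toSubring hBS := by rw [htop]; trivial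
      exact this
    have h2 : x ∈ Subalgebra.toSubmodule S := hx
    rw [Algebra.adjoin_eq_span] at h2
    have hcl : (Submonoid.closure (A : Set K) : Set K) = (A : Set K) := by
      have := Submonoid.closure_eq (A.toSubring.toSubmonoid)
      have h3 : ((A.toSubring.toSubmonoid : Submonoid K) : Set K) = (A : Set K) := rfl
      rw [h3] at this
      rw [this, h3]
    rw [hcl] at h2
    exact h2
  have hall : ∀ x ∈ Submodule.span B (A : Set K), a * x ∈ B := by
    intro x hx
    induction hx using Submodule.span_induction with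
    | mem x hx => exact hcon x hx
    | zero => simp
    | add x y _ _ hx hy => rw [mul_add]; exact B.add_mem _ _ hx hy
    | smul r x _ hx =>
      have : a * (r • x) = (r : K) * (a * x) := by
        rw [Algebra.smul_def]
        have : algebraMap B K r = (r : K) := rfl
        rw [this]; ring
      rw [this]
      exact B.mul_mem _ _ r.2 hx
  rw [eq_top_iff]
  intro x _
  have := hall (a⁻¹ * x) (hmem _)
  rwa [mul_inv_cancel_left₀ ha] at this

theorem exists_lt (A : ValuationSubring K) (hA : A ≠ ⊤) (a : K) (ha : a ≠ 0) :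
    ∃ a' : K, a' ≠ 0 ∧ A.valuation a' < A.valuation a := by
  obtain ⟨x, hx⟩ : ∃ x, x ∉ A := by
    by_contra h
    push Not at h
    exact hA (eq_top_iff.2 fun x _ => h x)
  have hx0 : x ≠ 0 := by rintro rfl; exact hx A.zero_mem
  have h1 : 1 < A.valuation x := by
    by_contra h
    exact hx (A.mem_of_valuation_le_one x (not_lt.1 h))
  refine ⟨a / x, div_ne_zero ha hx0, ?_⟩
  rw [map_div₀]
  have h0 : 0 < A.valuation a := (Valuation.pos_iff _).2 ha
  rw [div_lt_iff₀ (zero_lt_one.trans h1)]
  exact lt_mul_of_one_lt_right h0 h1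

/-- Two independent valuations: small at the first, large at the second. -/
theorem exists_small_large_val (A B : ValuationSubring K) (hAB : A ⊔ B = ⊤) (hA : A ≠ ⊤)
    (hB : B ≠ ⊤) (a b : K) (ha : a ≠ 0) (hb : b ≠ 0) :
    ∃ z : K, A.valuation z < A.valuation a ∧ B.valuation b < B.valuation z := by
  obtain ⟨a', ha', hlt⟩ := exists_lt A hA a ha
  obtain ⟨x, hxA, hxB⟩ := not_mul_le A B hAB hB (a' / b) (div_ne_zero ha' hb)
  refine ⟨a' * x, ?_, ?_⟩
  · rw [map_mul]
    calc A.valuation a' * A.valuation x ≤ A.valuation a' * 1 := by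
          gcongr
          exact (A.valuation_le_one_iff x).2 hxA
      _ < A.valuation a := by rwa [mul_one]
  · have h1 : 1 < B.valuation (a' / b * x) := by
      by_contra h
      exact hxB (B.mem_of_valuation_le_one _ (not_lt.1 h))
    have h0 : 0 < B.valuation b := (Valuation.pos_iff _).2 hb
    have : a' * x = b * (a' / b * x) := by field_simp
    rw [this, map_mul]
    exact lt_mul_of_one_lt_right h0 h1

theorem pow_eq_finite {Γ : Type*} [LinearOrderedCommGroupWithZero Γ] (γ δ : Γ) (hδ0 : δ ≠ 0)
    (hδ1 : δ ≠ 1) : {m : ℕ | γ = δ ^ m}.Finite := by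
  apply Set.Subsingleton.finite
  intro m hm n hn
  have h : δ ^ m = δ ^ n := hm.symm.trans hn
  rcases lt_or_gt_of_ne hδ1 with h1 | h1
  · exact (pow_right_strictAnti₀ (zero_lt_iff.2 hδ0) h1).injective h
  · exact (pow_right_strictMono₀ h1).injective h

/-- An element which is small at one valuation and large at finitely many others, all of them
pairwise independent. -/
theorem exists_small_large_finset {ι : Type*} [DecidableEq ι] (V : ι → ValuationSubring K)
    (hV : ∀ i, V i ≠ ⊤) (j : ι) (s : Finset ι) (hind : ∀ i ∈ s, V j ⊔ V i = ⊤)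
    (a : K) (ha : a ≠ 0) (ha1 : (V j).valuation a ≤ 1)
    (b : ι → K) (hb1 : ∀ i ∈ s, 1 ≤ (V i).valuation (b i)) :
    ∃ z : K, (V j).valuation z < (V j).valuation a ∧
      ∀ i ∈ s, (V i).valuation (b i) < (V i).valuation z := by
  induction s using Finset.induction_on with
  | empty => exact ⟨0, by rw [map_zero]; exact (Valuation.pos_iff _).2 ha, by simp⟩
  | insert k s hk ih =>
    obtain ⟨z₁, hz₁, hz₁'⟩ := ih (fun i hi => hind i (Finset.mem_insert_of_mem hi))
      (fun i hi => hb1 i (Finset.mem_insert_of_mem hi))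
    have hbk : b k ≠ 0 := by
      rintro h
      have := hb1 k (Finset.mem_insert_self _ _)
      rw [h, map_zero] at this
      exact absurd this (not_le.2 zero_lt_one)
    obtain ⟨z₂, hz₂, hz₂'⟩ := exists_small_large_val (V j) (V k) (hind k (Finset.mem_insert_self _ _))
      (hV j) (hV k) a (b k) ha hbk
    have hz₂k : 1 < (V k).valuation z₂ :=
      (hb1 k (Finset.mem_insert_self _ _)).trans_lt hz₂'
    have hz₂0 : z₂ ≠ 0 := by
      rintro rfl
      rw [map_zero] at hz₂k
      exact absurd hz₂k (not_lt.2 zero_le_one)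
    -- the exponents to be avoided
    have hfin : (⋃ i ∈ (insert k s : Finset ι),
        {m : ℕ | (V i).valuation z₁ = (V i).valuation z₂ ^ m}).Finite := by
      refine Set.Finite.biUnion (Finset.finite_toSet _) ?_
      intro i hi
      by_cases h1 : (V i).valuation z₂ = 1
      · have hik : i ≠ k := by rintro rfl; exact absurd h1 hz₂k.ne'
        have his : i ∈ s := by
          rcases Finset.mem_insert.1 hi with h | h
          · exact absurd h hik
          · exact h
        convert Set.finite_empty
        ext m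
        simp only [Set.mem_ofPred_eq, h1, one_pow, Set.mem_empty_iff_false, iff_false]
        exact ((hb1 i hi).trans_lt (hz₁' i his)).ne'
      · exact pow_eq_finite _ _ ((Valuation.ne_zero_iff _).2 hz₂0) h1
    obtain ⟨m, hm⟩ := (hfin.union (Set.finite_singleton 0)).exists_notMem
    simp only [Set.mem_union, Set.mem_iUnion, Set.mem_ofPred_eq, Set.mem_singleton_iff,
      not_or, not_exists] at hm
    obtain ⟨hm, hm0⟩ := hm
    refine ⟨z₁ + z₂ ^ m, ?_, ?_⟩
    · refine (Valuation.map_add_lt _ hz₁ ?_)
      rw [map_pow]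
      calc (V j).valuation z₂ ^ m ≤ (V j).valuation z₂ ^ 1 :=
            pow_le_pow_of_le_one zero_le (hz₂.le.trans ha1) (Nat.one_le_iff_ne_zero.2 hm0)
        _ < _ := by rwa [pow_one]
    · intro i hi
      have hne : (V i).valuation z₁ ≠ (V i).valuation (z₂ ^ m) := by
        rw [map_pow]; exact hm i hi
      rw [Valuation.map_add_of_distinct_val _ hne, map_pow]
      rcases Finset.mem_insert.1 hi with h | h
      · subst h
        refine lt_max_of_lt_right ?_
        calc _ < (V i).valuation z₂ ^ 1 := by rwa [pow_one]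
          _ ≤ _ := pow_le_pow_right₀ hz₂k.le (Nat.one_le_iff_ne_zero.2 hm0)
      · exact lt_max_of_lt_left (hz₁' i h)

/-- The approximation statement we need: `b` looks like `π` at one valuation and like `1` at
the others. -/
theorem exists_approx_val {ι : Type*} [DecidableEq ι] (V : ι → ValuationSubring K)
    (hV : ∀ i, V i ≠ ⊤) (j : ι) (s : Finset ι) (hind : ∀ i ∈ s, V j ⊔ V i = ⊤)
    (π : K) (hπ : π ≠ 0) :
    ∃ b : K, (V j).valuation b = (V j).valuation π ∧
      ∀ i ∈ s, (V i).valuation (b - 1) < 1 := by
  classical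
  obtain ⟨a, ha, ha1, haπ⟩ : ∃ a : K, a ≠ 0 ∧ (V j).valuation a ≤ 1 ∧
      (V j).valuation a ≤ (V j).valuation π := by
    rcases le_total ((V j).valuation π) 1 with h | h
    · exact ⟨π, hπ, h, le_rfl⟩
    · exact ⟨1, one_ne_zero, by simp, by simpa using h⟩
  obtain ⟨z, hz, hz'⟩ := exists_small_large_finset V hV j s hind a ha ha1
    (fun i => if 1 ≤ (V i).valuation (π - 1) then π - 1 else 1)
    (by intro i _; split_ifs with h <;> simp_all)
  have hz1 : (V j).valuation z < 1 := hz.trans_le ha1
  have hz1' : (V j).valuation (1 + z) = 1 := by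
    rw [Valuation.map_add_eq_of_lt_left _ (by simpa using hz1), map_one]
  refine ⟨(π + z) / (1 + z), ?_, ?_⟩
  · rw [map_div₀, hz1', div_one]
    exact Valuation.map_add_eq_of_lt_left _ (hz.trans_le haπ)
  · intro i hi
    have h := hz' i hi
    have hbig : 1 < (V i).valuation z ∧ (V i).valuation (π - 1) < (V i).valuation z := by
      split_ifs at h with h1
      · exact ⟨h1.trans_lt h, h⟩
      · rw [map_one] at h
        exact ⟨h, (not_le.1 h1).trans h⟩
    have hzi : (V i).valuation (1 + z) = (V i).valuation z := by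
      exact Valuation.map_add_eq_of_lt_right _ (by simpa using hbig.1)
    have h1z : (1 + z) ≠ 0 := by
      intro h0
      rw [h0, map_zero] at hzi
      have := hbig.1
      rw [← hzi] at this
      exact absurd this (not_lt.2 zero_le_one)
    have : (π + z) / (1 + z) - 1 = (π - 1) / (1 + z) := by field_simp; ring
    rw [this, map_div₀, hzi, div_lt_iff₀ (zero_lt_one.trans hbig.1), one_mul]
    exact hbig.2

end Pool.Agent.NIPFields
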