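import Mathlib
import Pool.Agent.NIPFields.RingDef

set_option autoImplicit false

/-!
# Ultrapowers as germs, in the language of rings
-/

namespace Pool.Agent.NIPFields

open FirstOrder FirstOrder.Language FirstOrder.Ring Set Filter

universe u

section

variable {I : Type u} (U : Ultrafilter I) (E : Type u) [Field E] [CompatibleRing E]

/-- The ring language structure on the ultrapower. -/
@[reducible]
noncomputable def germStr : Language.ring.Structure (Germ (U : Filter I) E) :=
  inferInstanceAs (Language.ring.Structure ((U : Filter I).Product (fun _ => E)))

variable {U E}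

omit [Field E] [CompatibleRing E] in
theorem exists_rep {β : Type*} (x : β → Germ (U : Filter I) E) :
    ∃ f : β → I → E, x = fun i => (↑(f i) : Germ (U : Filter I) E) := by
  have h : ∀ i, ∃ g : I → E, (↑g : Germ (U : Filter I) E) = x i := fun i =>
    Germ.inductionOn (x i) (fun g => ⟨g, rfl⟩)
  choose f hf using h
  exact ⟨f, funext fun i => (hf i).symm⟩

variable (U E)

/-- The ultrapower is a compatible ring. -/
@[reducible]
noncomputable def germCompat : CompatibleRing (Germ (U : Filter I) E) where
  toStructure := germStr U E
  funMap_add := by
    intro x
    obtain ⟨f, rfl⟩ := exists_rep x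
    refine (Ultraproduct.funMap_cast (M := fun _ : I => E) (u := U) addFunc f).trans ?_
    have : (fun a => Structure.funMap (addFunc) fun i => f i a) = f 0 + f 1 := by
      funext a; exact CompatibleRing.funMap_add _
    rw [this]
    rfl
  funMap_mul := by
    intro x
    obtain ⟨f, rfl⟩ := exists_rep x
    refine (Ultraproduct.funMap_cast (M := fun _ : I => E) (u := U) mulFunc f).trans ?_
    have : (fun a => Structure.funMap (mulFunc) fun i => f i a) = f 0 * f 1 := by
      funext a; exact CompatibleRing.funMap_mul _
    rw [this]
    rfl
  funMap_neg := by
    intro x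
    obtain ⟨f, rfl⟩ := exists_rep x
    refine (Ultraproduct.funMap_cast (M := fun _ : I => E) (u := U) negFunc f).trans ?_
    have : (fun a => Structure.funMap (negFunc) fun i => f i a) = - f 0 := by
      funext a; exact CompatibleRing.funMap_neg _
    rw [this]
    rfl
  funMap_zero := by
    intro x
    obtain ⟨f, rfl⟩ := exists_rep x
    refine (Ultraproduct.funMap_cast (M := fun _ : I => E) (u := U) zeroFunc f).trans ?_
    have : (fun a => Structure.funMap (zeroFunc : Language.ring.Constants) fun i => f i a) =
        (0 : I → E) := by
      funext a; exact CompatibleRing.funMap_zero _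
    rw [this]
    rfl
  funMap_one := by
    intro x
    obtain ⟨f, rfl⟩ := exists_rep x
    refine (Ultraproduct.funMap_cast (M := fun _ : I => E) (u := U) oneFunc f).trans ?_
    have : (fun a => Structure.funMap (oneFunc : Language.ring.Constants) fun i => f i a) =
        (1 : I → E) := by
      funext a; exact CompatibleRing.funMap_one _
    rw [this]
    rfl

variable {U E}

theorem germ_realize {β : Type*} (φ : Language.ring.Formula β) (x : β → I → E) :
    (@Formula.Realize Language.ring (Germ (U : Filter I) E) (germStr U E) β φ
      fun i => (↑(x i) : Germ (U : Filter I) E)) ↔ ∀ᶠ a in (U : Filter I), φ.Realize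
        fun i => x i a :=
  Ultraproduct.realize_formula_cast (M := fun _ : I => E) (u := U) φ x

end

end Pool.Agent.NIPFields
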