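import Mathlib
import Pool.Agent.NIPFields.Ultra

set_option autoImplicit false

/-!
# Ultrafilters agreeing on a Boolean algebra of sets
-/

namespace Pool.Agent.NIPFields

open FirstOrder FirstOrder.Language FirstOrder.Ring Set Filter

universe u

theorem sInter_mem_of_finite {X : Type*} {D : Set (Set X)} (huniv : univ ∈ D)
    (hinter : ∀ s ∈ D, ∀ t ∈ D, s ∩ t ∈ D) {T : Set (Set X)} (hT : T.Finite) (hTD : T ⊆ D) :
    ⋂₀ T ∈ D := by
  induction T, hT using Set.Finite.induction_on with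
  | empty => simpa using huniv
  | insert _ _ ih =>
    rw [sInter_insert]
    exact hinter _ (hTD (mem_insert _ _)) _ (ih fun x hx => hTD (mem_insert_of_mem _ hx))

theorem exists_agreeing {X ι : Type*} [Finite ι] (F : ι → Filter X)
    (D : Set (Set X)) (huniv : univ ∈ D) (hinter : ∀ s ∈ D, ∀ t ∈ D, s ∩ t ∈ D)
    (hcompl : ∀ s ∈ D, sᶜ ∈ D)
    (hno : ∀ V : ι → Set X, (∀ i, V i ∈ D) → (∀ i, V i ∈ F i) → (⋂ i, V i).Nonempty) :
    ∃ U : ι → Ultrafilter X, (∀ i, (U i : Filter X) ≤ F i) ∧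
      ∀ i j, ∀ V ∈ D, (V ∈ U i ↔ V ∈ U j) := by
  classical
  let G : Set (Set X) := {V | V ∈ D ∧ ∃ i, V ∈ F i}
  have hG : (generate G).NeBot := by
    rw [generate_neBot_iff]
    intro T hTG hT
    let V : ι → Set X := fun i => ⋂₀ {W ∈ T | W ∈ F i}
    have h1 : ∀ i, V i ∈ D := fun i => sInter_mem_of_finite huniv hinter
      (hT.subset (sep_subset _ _)) (fun W hW => (hTG hW.1).1)
    have h2 : ∀ i, V i ∈ F i := fun i => (sInter_mem (hT.subset (sep_subset _ _))).2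
      (fun W hW => hW.2)
    obtain ⟨x, hx⟩ := hno V h1 h2
    refine ⟨x, fun W hW => ?_⟩
    obtain ⟨i, hi⟩ := (hTG hW).2
    exact mem_iInter.1 hx i W ⟨hW, hi⟩
  let Us : Ultrafilter X := Ultrafilter.of (generate G)
  have hUs : ∀ V ∈ D, (∃ i, V ∈ F i) → V ∈ Us := fun V hV hi =>
    (Ultrafilter.of_le (generate G)) (mem_generate_of_mem ⟨hV, hi⟩)
  let H : Filter X := generate {V | V ∈ D ∧ V ∈ Us}
  have hH : ∀ t ∈ H, ∃ V ∈ D, V ∈ Us ∧ V ⊆ t := by
    intro t ht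
    obtain ⟨T, hTG, hT, hTt⟩ := mem_generate_iff.1 ht
    refine ⟨⋂₀ T, sInter_mem_of_finite huniv hinter hT (fun W hW => (hTG hW).1), ?_, hTt⟩
    exact (sInter_mem hT).2 (fun W hW => (hTG hW).2)
  have hne : ∀ i, (F i ⊓ H).NeBot := by
    intro i
    rw [inf_neBot_iff]
    intro s hs t ht
    obtain ⟨V, hVD, hVU, hVt⟩ := hH t ht
    by_contra hcon
    rw [not_nonempty_iff_eq_empty] at hcon
    have h1 : s ⊆ Vᶜ := by
      intro x hx hxV
      have : x ∈ s ∩ t := ⟨hx, hVt hxV⟩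
      rw [hcon] at this
      exact this
    have h2 : Vᶜ ∈ Us := hUs _ (hcompl V hVD) ⟨i, mem_of_superset hs h1⟩
    exact (Ultrafilter.compl_notMem_iff.2 hVU) h2
  have hagree : ∀ i, ∀ V ∈ D, (V ∈ (@Ultrafilter.of X (F i ⊓ H) (hne i)) ↔ V ∈ Us) := by
    intro i V hVD
    have hle := @Ultrafilter.of_le X (F i ⊓ H) (hne i)
    have hmem : ∀ W ∈ D, W ∈ Us → W ∈ (@Ultrafilter.of X (F i ⊓ H) (hne i)) := by
      intro W hW hWU
      exact hle (mem_inf_of_right (mem_generate_of_mem ⟨hW, hWU⟩))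
    constructor
    · intro hV
      by_contra hn
      have := hmem _ (hcompl V hVD) (Ultrafilter.compl_mem_iff_notMem.2 hn)
      exact (Ultrafilter.compl_notMem_iff.2 hV) this
    · exact hmem V hVD
  refine ⟨fun i => @Ultrafilter.of X (F i ⊓ H) (hne i), fun i => ?_, fun i j V hV => ?_⟩
  · exact (@Ultrafilter.of_le X (F i ⊓ H) (hne i)).trans inf_le_left
  · rw [hagree i V hV, hagree j V hV]

end Pool.Agent.NIPFields
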