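import Mathlib
import Pool.Agent.NIPFields.Agree

set_option autoImplicit false

/-!
# Embedding one ultrapower in another one
-/

namespace Pool.Agent.NIPFields

open FirstOrder FirstOrder.Language FirstOrder.Ring Set Filter

universe u

/-- The diagonal embedding in an ultrapower. -/
noncomputable def germConst {I : Type u} (l : Filter I) (E : Type u) [Field E] :
    E →+* Germ l E := (Germ.coeRingHom l).comp (Pi.constRingHom I E)

theorem germConst_apply {I : Type u} (l : Filter I) (E : Type u) [Field E] (a : E) :
    germConst l E a = Germ.ofFun (fun _ => a) := rfl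

theorem eval_germ {I : Type u} {l : Filter I} {E : Type u} [Field E] {σ : Type u}
    (rep : σ → I → E) (f : MvPolynomial σ E) :
    MvPolynomial.eval₂Hom (germConst l E) (fun x => (Germ.ofFun (rep x) : Germ l E)) f =
      Germ.ofFun (fun t => MvPolynomial.eval (fun x => rep x t) f) := by
  have h : MvPolynomial.eval₂Hom (germConst l E) (fun x => (Germ.ofFun (rep x) : Germ l E)) =
      (Germ.coeRingHom l).comp (RingHom.pi (fun t => MvPolynomial.eval (fun x => rep x t))) := by
    apply MvPolynomial.ringHom_ext
    · intro a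
      simp only [MvPolynomial.coe_eval₂Hom, MvPolynomial.eval₂_C, RingHom.comp_apply]
      rw [germConst_apply]
      change _ = Germ.ofFun (fun t => MvPolynomial.eval (fun x => rep x t) (MvPolynomial.C a))
      simp only [MvPolynomial.eval_C]
    · intro i
      simp only [MvPolynomial.coe_eval₂Hom, MvPolynomial.eval₂_X, RingHom.comp_apply]
      change _ = Germ.ofFun (fun t => MvPolynomial.eval (fun x => rep x t) (MvPolynomial.X i))
      simp only [MvPolynomial.eval_X]
  rw [h]
  rfl

theorem definable_solutions {E : Type u} [Field E] [CompatibleRing E] {σ : Type u}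
    (z : σ) (s : Finset (MvPolynomial σ E)) :
    (univ : Set E).Definable₁ Language.ring
      {t : E | ∃ h : σ → E, h z = t ∧ ∀ f ∈ s, MvPolynomial.eval h f = 0} := by
  classical
  let V : Finset σ := insert z (s.biUnion (fun f => f.vars))
  have hq : ∀ f ∈ s, ∃ q : MvPolynomial V E, MvPolynomial.rename Subtype.val q = f := by
    intro f hf
    apply MvPolynomial.exists_rename_eq_of_vars_subset_range f (Subtype.val : V → σ)
      Subtype.val_injective
    intro x hx
    have : x ∈ V := Finset.mem_insert_of_mem (Finset.mem_biUnion.2 ⟨f, hf, hx⟩)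
    exact ⟨⟨x, this⟩, rfl⟩
  choose! q hq using hq
  have hzV : z ∈ V := Finset.mem_insert_self _ _
  have h1 := (mvPolynomial_zeroLocus_definable (s.image q)).mono (subset_univ _)
  have h2 := h1.image_comp (fun _ : Fin 1 => (⟨z, hzV⟩ : V))
  unfold Definable₁
  convert h2 using 1
  ext x
  simp only [mem_ofPred_eq, mem_image]
  constructor
  · rintro ⟨h, hz, hs⟩
    refine ⟨fun v => h v.1, ?_, ?_⟩
    · rw [MvPolynomial.zeroLocus_span]
      intro p hp
      obtain ⟨f, hf, rfl⟩ := Finset.mem_image.1 (Finset.mem_coe.1 hp)
      have h3 := hs f hf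
      rw [← hq f hf, MvPolynomial.eval_rename] at h3
      exact h3
    · funext i
      have : i = 0 := Subsingleton.elim _ _
      subst this
      exact hz
  · rintro ⟨h', hh', hx⟩
    rw [MvPolynomial.zeroLocus_span] at hh'
    refine ⟨fun y => if hy : y ∈ V then h' ⟨y, hy⟩ else 0, ?_, ?_⟩
    · change (if hy : z ∈ V then h' ⟨z, hy⟩ else 0) = x 0
      rw [dif_pos hzV, ← hx]
      rfl
    · intro f hf
      rw [← hq f hf, MvPolynomial.eval_rename]
      have h3 := hh' (q f) (by simpa using ⟨f, hf, rfl⟩)
      have h4 : ((fun y => if hy : y ∈ V then h' ⟨y, hy⟩ else 0) ∘ (Subtype.val : V → σ)) = h' := by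
        funext y
        simp
      rw [h4]
      exact h3

/-- If two ultrafilters on the field `E` contain the same definable sets, then the first
ultrapower embeds in an ultrapower, over `E`, in such a way that the class of the identity is
sent to an element that is generic for the second ultrafilter. -/
theorem exists_approx {E : Type u} [Field E] [CompatibleRing E] (U₀ U₁ : Ultrafilter E)
    (hag : ∀ V : Set E, (univ : Set E).Definable₁ Language.ring V → (V ∈ U₀ ↔ V ∈ U₁)) :
    ∃ (I : Type u) (W : Ultrafilter I)
      (g : Germ (U₀ : Filter E) E →+* Germ (W : Filter I) E),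
      (∀ a : E, g (germConst _ E a) = germConst _ E a) ∧
      ∃ t : I → E, g (Germ.ofFun id) = Germ.ofFun t ∧
        ∀ X ∈ U₁, ∀ᶠ i in (W : Filter I), t i ∈ X := by
  classical
  let E' := Germ (U₀ : Filter E) E
  let z : E' := Germ.ofFun id
  let ev : MvPolynomial E' E →+* E' := MvPolynomial.eval₂Hom (germConst _ E) id
  have key : ∀ (s : Finset (MvPolynomial E' E)), (∀ f ∈ s, ev f = 0) → ∀ X ∈ U₁,
      ∃ h : E' → E, h z ∈ X ∧ ∀ f ∈ s, MvPolynomial.eval h f = 0 := by
    intro s hs X hX
    have hdef := definable_solutions z s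
    have hT : {t : E | ∃ h : E' → E, h z = t ∧ ∀ f ∈ s, MvPolynomial.eval h f = 0} ∈ U₀ := by
      obtain ⟨rep₀, hrep₀⟩ := exists_rep (U := U₀) (E := E) (id : E' → E')
      let rep : E' → E → E := fun x => if x = z then id else rep₀ x
      have hrep : ∀ x : E', Germ.ofFun (rep x) = x := by
        intro x
        simp only [rep]
        split_ifs with h
        · exact h.symm
        · exact (congrFun hrep₀ x).symm
      have hrz : rep z = id := by simp [rep]
      have h1 : ∀ f ∈ s, ∀ᶠ t in (U₀ : Filter E),
          MvPolynomial.eval (fun x => rep x t) f = 0 := by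
        intro f hf
        have h2 := eval_germ (l := (U₀ : Filter E)) rep f
        have h3 : (fun x => (Germ.ofFun (rep x) : E')) = id := funext hrep
        rw [h3] at h2
        have h4 : (Germ.ofFun (fun t => MvPolynomial.eval (fun x => rep x t) f) : E') =
            Germ.ofFun (fun _ => (0 : E)) := h2.symm.trans (hs f hf)
        exact Germ.coe_eq.1 h4
      have h2 := (Finset.eventually_all s).2 h1
      refine Filter.mem_of_superset h2 (fun t ht => ?_)
      refine ⟨fun x => rep x t, ?_, ht⟩
      change rep z t = t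
      rw [hrz]
      rfl
    rw [← Ultrafilter.mem_coe, Ultrafilter.mem_coe, hag _ hdef] at hT
    obtain ⟨t, ⟨h, hz, hh⟩, htX⟩ := U₁.nonempty_of_mem (Filter.inter_mem hT hX)
    exact ⟨h, hz ▸ htX, hh⟩
  let 𝔎 := {f : MvPolynomial E' E // ev f = 0}
  let J := ({X : Set E // X ∈ U₁})ᵒᵈ
  have hJne : Nonempty J := ⟨OrderDual.toDual ⟨univ, Filter.univ_mem⟩⟩
  have hJdir : IsDirected J (· ≤ ·) := by
    constructor
    intro X Y
    refine ⟨OrderDual.toDual ⟨(OrderDual.ofDual X).1 ∩ (OrderDual.ofDual Y).1,
      Filter.inter_mem (OrderDual.ofDual X).2 (OrderDual.ofDual Y).2⟩, ?_, ?_⟩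
    · exact inter_subset_left
    · exact inter_subset_right
  let I := Finset 𝔎 × J
  have hch : ∀ i : I, ∃ h : E' → E, h z ∈ (OrderDual.ofDual i.2).1 ∧
      ∀ f ∈ i.1, MvPolynomial.eval h f.1 = 0 := by
    intro i
    obtain ⟨h, h1, h2⟩ := key (i.1.image Subtype.val) (by
      intro f hf
      obtain ⟨f', _, rfl⟩ := Finset.mem_image.1 hf
      exact f'.2) _ (OrderDual.ofDual i.2).2
    exact ⟨h, h1, fun f hf => h2 _ (Finset.mem_image_of_mem _ hf)⟩
  choose h hhz hhf using hch
  have hIdir : IsDirected I (· ≤ ·) := by
    constructor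
    intro p q
    obtain ⟨r, hr1, hr2⟩ := hJdir.directed p.2 q.2
    exact ⟨(p.1 ∪ q.1, r), ⟨Finset.subset_union_left, hr1⟩, ⟨Finset.subset_union_right, hr2⟩⟩
  have hIne : Nonempty I := inferInstance
  have hneb : (atTop : Filter I).NeBot := atTop_neBot
  let W : Ultrafilter I := Ultrafilter.of atTop
  have hWle : (W : Filter I) ≤ atTop := Ultrafilter.of_le _
  have hev : ∀ f : MvPolynomial E' E, ev f = 0 →
      ∀ᶠ i in (W : Filter I), MvPolynomial.eval (h i) f = 0 := by
    intro f hf
    apply hWle
    filter_upwards [Filter.eventually_ge_atTop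
      (({⟨f, hf⟩}, OrderDual.toDual ⟨univ, Filter.univ_mem⟩) : I)] with i hi
    exact hhf i ⟨f, hf⟩ (hi.1 (Finset.mem_singleton_self _))
  have hevX : ∀ x : E', ev (MvPolynomial.X x) = x := fun x => by simp [ev]
  have hevC : ∀ a : E, ev (MvPolynomial.C a) = germConst _ E a := fun a => by simp [ev]
  let g : E' →+* Germ (W : Filter I) E :=
    { toFun := fun x => Germ.ofFun (fun i => h i x)
      map_one' := by
        refine Germ.coe_eq.2 ?_
        filter_upwards [hev (MvPolynomial.X 1 - 1) (by rw [map_sub, hevX, map_one, sub_self])]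
          with i hi
        rw [map_sub, MvPolynomial.eval_X, map_one, sub_eq_zero] at hi
        exact hi
      map_zero' := by
        refine Germ.coe_eq.2 ?_
        filter_upwards [hev (MvPolynomial.X 0) (by rw [hevX])] with i hi
        rw [MvPolynomial.eval_X] at hi
        exact hi
      map_add' := by
        intro x y
        refine Germ.coe_eq.2 ?_
        filter_upwards [hev (MvPolynomial.X (x + y) - (MvPolynomial.X x + MvPolynomial.X y))
          (by rw [map_sub, map_add, hevX, hevX, hevX, sub_self])] with i hi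
        rw [map_sub, map_add, MvPolynomial.eval_X, MvPolynomial.eval_X, MvPolynomial.eval_X,
          sub_eq_zero] at hi
        exact hi
      map_mul' := by
        intro x y
        refine Germ.coe_eq.2 ?_
        filter_upwards [hev (MvPolynomial.X (x * y) - (MvPolynomial.X x * MvPolynomial.X y))
          (by rw [map_sub, map_mul, hevX, hevX, hevX, sub_self])] with i hi
        rw [map_sub, map_mul, MvPolynomial.eval_X, MvPolynomial.eval_X, MvPolynomial.eval_X,
          sub_eq_zero] at hi
        exact hi }
  refine ⟨I, W, g, fun a => ?_, fun i => h i z, rfl, fun X hX => ?_⟩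
  · refine Germ.coe_eq.2 ?_
    filter_upwards [hev (MvPolynomial.X (germConst _ E a) - MvPolynomial.C a)
      (by rw [map_sub, hevX, hevC, sub_self])] with i hi
    rw [map_sub, MvPolynomial.eval_X, MvPolynomial.eval_C, sub_eq_zero] at hi
    exact hi
  · apply hWle
    filter_upwards [Filter.eventually_ge_atTop
      ((∅, OrderDual.toDual ⟨X, hX⟩) : I)] with i hi
    exact hi.2 (hhz i)

end Pool.Agent.NIPFields
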