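import Mathlib
import Pool.Agent.NIPFields.NormForm

set_option autoImplicit false

/-!
# The norm relation over commutative rings

`NSR ℓ b` is the set of norms from `R[X]/(X ^ ℓ - b)`.
-/

namespace Pool.Agent.NIPFields

open Polynomial

universe u

/-- The set of norms from `R[X]/(X ^ ℓ - b)`. -/
def NSR (ℓ : ℕ) {R : Type*} [CommRing R] (b : R) : Set R :=
  {x | ∃ z : Fin ℓ → R, x = (nmat ℓ b z).det}

theorem NSR_eq_NS (ℓ : ℕ) {K : Type*} [Field K] (b : K) : NSR ℓ b = NS ℓ b := rfl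

theorem NSR_map {ℓ : ℕ} {R S : Type*} [CommRing R] [CommRing S] (φ : R →+* S) {b x : R}
    (h : x ∈ NSR ℓ b) : φ x ∈ NSR ℓ (φ b) := by
  obtain ⟨z, rfl⟩ := h
  exact ⟨_, nmat_map ℓ φ b z⟩

section Basis

variable {R S : Type*} [CommRing R] [CommRing S] [Algebra R S] {ℓ : ℕ} [NeZero ℓ]

theorem norm_eq_det' (B : Module.Basis (Fin ℓ) R S) (γ : S) (b : R)
    (hB : ∀ i, B i = γ ^ (i : ℕ)) (hγ : γ ^ ℓ = algebraMap R S b) (z : Fin ℓ → R) :
    Algebra.norm R (∑ i, z i • B i) = (nmat ℓ b z).det := by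
  rw [Algebra.norm_eq_matrix_det B]
  congr 1
  ext r s
  rw [Algebra.leftMulMatrix_eq_repr_mul]
  have h1 : (∑ i, z i • B i) * B s = ∑ i, (nmat ℓ b z) i s • B i := by
    rw [Finset.sum_mul]
    rw [← Equiv.sum_comp (Equiv.subRight s)]
    refine Finset.sum_congr rfl (fun i _ => ?_)
    simp only [Equiv.subRight_apply, nmat, Matrix.of_apply, hB]
    split_ifs with h
    · rw [smul_mul_assoc, ← pow_add, one_mul, Fin.sub_val_of_le h]
      congr 2
      have : (s : ℕ) ≤ i := h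
      omega
    · have hlt : i < s := not_le.1 h
      have h2 : ((i - s : Fin ℓ) : ℕ) + s = ℓ + i := by
        rw [Fin.sub_def]
        simp only
        have h3 : (i : ℕ) < s := hlt
        have h4 : (s : ℕ) < ℓ := s.2
        rw [Nat.mod_eq_of_lt (by omega)]
        omega
      rw [smul_mul_assoc, ← pow_add, h2, pow_add, hγ, Algebra.smul_def, Algebra.smul_def, map_mul]
      ring
  rw [h1, Module.Basis.repr_sum_self]

theorem mem_NSR_iff (B : Module.Basis (Fin ℓ) R S) (γ : S) (b : R)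
    (hB : ∀ i, B i = γ ^ (i : ℕ)) (hγ : γ ^ ℓ = algebraMap R S b) (x : R) :
    x ∈ NSR ℓ b ↔ ∃ s : S, Algebra.norm R s = x := by
  constructor
  · rintro ⟨z, rfl⟩
    exact ⟨_, norm_eq_det' B γ b hB hγ z⟩
  · rintro ⟨s, rfl⟩
    refine ⟨fun i => B.repr s i, ?_⟩
    rw [← norm_eq_det' B γ b hB hγ, Module.Basis.sum_repr]

end Basis

section Adjoin

variable {R : Type u} [CommRing R] [Nontrivial R] {ℓ : ℕ} [NeZero ℓ]

/-- The `R`-algebra `R[X]/(X ^ ℓ - b)`. -/
abbrev Adj (ℓ : ℕ) {R : Type u} [CommRing R] (b : R) : Type u := AdjoinRoot (X ^ ℓ - C b)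

omit [Nontrivial R] in
theorem monic_adj (b : R) : (X ^ ℓ - C b : R[X]).Monic := monic_X_pow_sub_C b (NeZero.ne ℓ)

/-- The basis of powers of the root. -/
noncomputable def adjBasis (ℓ : ℕ) [NeZero ℓ] {R : Type u} [CommRing R] [Nontrivial R] (b : R) :
    Module.Basis (Fin ℓ) R (Adj ℓ b) :=
  (AdjoinRoot.powerBasis' (monic_adj (ℓ := ℓ) b)).basis.reindex
    (finCongr (natDegree_X_pow_sub_C (n := ℓ) (r := b)))

theorem adjBasis_apply (b : R) (i : Fin ℓ) :
    adjBasis ℓ b i = (AdjoinRoot.root (X ^ ℓ - C b)) ^ (i : ℕ) := by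
  rw [adjBasis, Module.Basis.reindex_apply, PowerBasis.basis_eq_pow]
  rfl

omit [Nontrivial R] [NeZero ℓ] in
theorem adj_root_pow (b : R) :
    (AdjoinRoot.root (X ^ ℓ - C b)) ^ ℓ = algebraMap R (Adj ℓ b) b := by
  have h := AdjoinRoot.eval₂_root (X ^ ℓ - C b)
  rw [eval₂_sub, eval₂_pow, eval₂_X, eval₂_C, sub_eq_zero] at h
  exact h

instance adj_free (b : R) : Module.Free R (Adj ℓ b) := Module.Free.of_basis (adjBasis ℓ b)

instance adj_finite (b : R) : Module.Finite R (Adj ℓ b) := Module.Finite.of_basis (adjBasis ℓ b)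

instance adj_nontrivial (b : R) : Nontrivial (Adj ℓ b) := by
  have hpos : 0 < ℓ := Nat.pos_of_ne_zero (NeZero.ne ℓ)
  have := (adjBasis ℓ b).ne_zero ⟨0, hpos⟩
  exact ⟨⟨_, _, this⟩⟩

theorem mem_NSR_iff_adj (b x : R) :
    x ∈ NSR ℓ b ↔ ∃ s : Adj ℓ b, Algebra.norm R s = x :=
  mem_NSR_iff (adjBasis ℓ b) _ b (adjBasis_apply b) (adj_root_pow b) x

theorem norm_adj_mem (b : R) (s : Adj ℓ b) : Algebra.norm R s ∈ NSR ℓ b :=
  (mem_NSR_iff_adj b _).2 ⟨s, rfl⟩

open TensorProduct in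
/-- Norms of norms. -/
theorem norm_mem_NSR (b c : R) (x : Adj ℓ b) (hx : x ∈ NSR ℓ (algebraMap R (Adj ℓ b) c)) :
    Algebra.norm R x ∈ NSR ℓ c := by
  let S := Adj ℓ b
  let S' := Adj ℓ c
  let T := S ⊗[R] S'
  let B : Module.Basis (Fin ℓ) S T := Algebra.TensorProduct.basis S (adjBasis ℓ c)
  have hB : ∀ i, B i = ((1 : S) ⊗ₜ[R] (AdjoinRoot.root (X ^ ℓ - C c))) ^ (i : ℕ) := by
    intro i
    rw [Algebra.TensorProduct.basis_apply, adjBasis_apply, Algebra.TensorProduct.tmul_pow,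
      one_pow]
  have hγ : ((1 : S) ⊗ₜ[R] (AdjoinRoot.root (X ^ ℓ - C c)) : T) ^ ℓ =
      algebraMap S T (algebraMap R S c) := by
    rw [Algebra.TensorProduct.tmul_pow, one_pow, adj_root_pow,
      Algebra.TensorProduct.algebraMap_apply, Algebra.algebraMap_eq_smul_one,
      TensorProduct.tmul_smul, Algebra.algebraMap_eq_smul_one, ← TensorProduct.smul_tmul']
    exact (algebraMap_smul S c _).symm
  obtain ⟨t, rfl⟩ := (mem_NSR_iff B _ _ hB hγ x).1 hx
  let T' := S' ⊗[R] S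
  let e : T ≃ₐ[R] T' := Algebra.TensorProduct.comm R S S'
  have hfree : Module.Free S T := Module.Free.of_basis B
  let B' : Module.Basis (Fin ℓ) S' T' := Algebra.TensorProduct.basis S' (adjBasis ℓ b)
  have hfree' : Module.Free S' T' := Module.Free.of_basis B'
  have h1 : Algebra.norm R (Algebra.norm S t) = Algebra.norm R t := Algebra.norm_norm
  have h2 : Algebra.norm R (Algebra.norm S' (e t)) = Algebra.norm R (e t) := Algebra.norm_norm
  have h3 : Algebra.norm R (e t) = Algebra.norm R t := Algebra.norm_eq_of_algEquiv e t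
  rw [h1, ← h3, ← h2]
  exact norm_adj_mem c _

end Adjoin

end Pool.Agent.NIPFields
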