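import Mathlib
import Pool.Agent.NIPFields.NormRing

set_option autoImplicit false

/-!
# Common norms

`Phi ℓ m R c b p` is the norm of `1 + p * e₁ ⋯ eₘ` from `R[γ₁,…,γₘ]`, `γⱼ ^ ℓ = bⱼ`, where
`eⱼ = c * (1 + γⱼ + ⋯ + γⱼ^(ℓ-1))`.
-/

namespace Pool.Agent.NIPFields

open Polynomial

universe u

section

variable {R S : Type u} [CommRing R] [CommRing S] {ℓ : ℕ} [NeZero ℓ]

omit [NeZero ℓ] in
theorem adj_root_pow' (b : R) :
    (AdjoinRoot.root (X ^ ℓ - C b)) ^ ℓ = algebraMap R (Adj ℓ b) b := by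
  have h := AdjoinRoot.eval₂_root (X ^ ℓ - C b)
  rw [eval₂_sub, eval₂_pow, eval₂_X, eval₂_C, sub_eq_zero] at h
  exact h

/-- Base change. -/
noncomputable def adjMap (ℓ : ℕ) (φ : R →+* S) (b : R) : Adj ℓ b →+* Adj ℓ (φ b) :=
  AdjoinRoot.lift ((algebraMap S (Adj ℓ (φ b))).comp φ) (AdjoinRoot.root _) (by
    rw [eval₂_sub, eval₂_pow, eval₂_X, eval₂_C, sub_eq_zero, adj_root_pow' (ℓ := ℓ) (φ b)]
    rfl)

omit [NeZero ℓ] in
theorem adjMap_algebraMap (φ : R →+* S) (b r : R) :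
    adjMap ℓ φ b (algebraMap R _ r) = algebraMap S _ (φ r) := by
  exact AdjoinRoot.lift_of _

omit [NeZero ℓ] in
theorem adjMap_root (φ : R →+* S) (b : R) :
    adjMap ℓ φ b (AdjoinRoot.root _) = AdjoinRoot.root _ :=
  AdjoinRoot.lift_root _

theorem norm_adjMap [Nontrivial R] [Nontrivial S] (φ : R →+* S) (b : R) (x : Adj ℓ b) :
    Algebra.norm S (adjMap ℓ φ b x) = φ (Algebra.norm R x) := by
  have h1 : x = ∑ i, (adjBasis ℓ b).repr x i • adjBasis ℓ b i := ((adjBasis ℓ b).sum_repr x).symm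
  have h2 : adjMap ℓ φ b x =
      ∑ i, φ ((adjBasis ℓ b).repr x i) • adjBasis ℓ (φ b) i := by
    conv_lhs => rw [h1]
    rw [map_sum]
    refine Finset.sum_congr rfl (fun i _ => ?_)
    rw [Algebra.smul_def, map_mul, adjMap_algebraMap, adjBasis_apply, map_pow, adjMap_root,
      adjBasis_apply, Algebra.smul_def]
  rw [h2, norm_eq_det' (adjBasis ℓ (φ b)) _ (φ b) (adjBasis_apply _) (adj_root_pow _)]
  conv_rhs => rw [h1]
  rw [norm_eq_det' (adjBasis ℓ b) _ b (adjBasis_apply _) (adj_root_pow _), nmat_map]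

end

/-- The iterated norm of `1 + p * e₁ ⋯ eₘ`. -/
noncomputable def Phi (ℓ : ℕ) : (m : ℕ) → (R : Type u) → [CommRing R] → R → (Fin m → R) → R → R
  | 0, _, _, _, _, p => 1 + p
  | (m + 1), R, _, c, b, p => Algebra.norm R (Phi ℓ m (Adj ℓ (b (Fin.last m)))
      (algebraMap R _ c) (fun j => algebraMap R _ (b j.castSucc))
      (algebraMap R _ p * (algebraMap R _ c *
        ∑ k ∈ Finset.range ℓ, (AdjoinRoot.root (X ^ ℓ - C (b (Fin.last m)))) ^ k)))

section

variable {ℓ : ℕ} [NeZero ℓ]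

theorem Phi_map (m : ℕ) {R S : Type u} [CommRing R] [CommRing S] [Nontrivial R] [Nontrivial S]
    (φ : R →+* S) (c : R) (b : Fin m → R) (p : R) :
    φ (Phi ℓ m R c b p) = Phi ℓ m S (φ c) (fun j => φ (b j)) (φ p) := by
  induction m generalizing R S with
  | zero => simp [Phi]
  | succ m ih =>
    rw [Phi, Phi, ← norm_adjMap (ℓ := ℓ) φ (b (Fin.last m)), ih (adjMap ℓ φ (b (Fin.last m)))]
    simp only [map_mul, map_sum, map_pow, adjMap_algebraMap, adjMap_root]

theorem Phi_mem (m : ℕ) {R : Type u} [CommRing R] [Nontrivial R] (c : R) (b : Fin m → R) (p : R)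
    (j : Fin m) : Phi ℓ m R c b p ∈ NSR ℓ (b j) := by
  induction m generalizing R with
  | zero => exact j.elim0
  | succ m ih =>
    rw [Phi]
    refine Fin.lastCases ?_ (fun j => ?_) j
    · exact norm_adj_mem _ _
    · exact norm_mem_NSR _ _ _ (ih _ _ _ j)

theorem norm_idem {R : Type u} [CommRing R] [Nontrivial R] (c p : R) (hc : c * (ℓ : R) = 1)
    (b : R) (hb : b = 1) :
    Algebra.norm R (1 + algebraMap R (Adj ℓ b) p * (algebraMap R (Adj ℓ b) c *
        ∑ k ∈ Finset.range ℓ, (AdjoinRoot.root (X ^ ℓ - C b)) ^ k)) = 1 + p := by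
  subst hb
  have hpos : 0 < ℓ := Nat.pos_of_ne_zero (NeZero.ne ℓ)
  let z : Fin ℓ → R := fun k => (if k = ⟨0, hpos⟩ then 1 else 0) + p * c
  have h1 : (1 + algebraMap R (Adj ℓ (1 : R)) p * (algebraMap R (Adj ℓ (1 : R)) c *
        ∑ k ∈ Finset.range ℓ, (AdjoinRoot.root (X ^ ℓ - C (1 : R))) ^ k)) =
      ∑ i, z i • adjBasis ℓ (1 : R) i := by
    simp only [z, add_smul, Finset.sum_add_distrib, ite_smul, one_smul, zero_smul,
      Finset.sum_ite_eq', Finset.mem_univ, if_true]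
    rw [adjBasis_apply, pow_zero, Finset.sum_range, ← mul_assoc, Finset.mul_sum]
    congr 1
    refine Finset.sum_congr rfl (fun i _ => ?_)
    rw [adjBasis_apply, Algebra.smul_def, map_mul]
  rw [h1, norm_eq_det' (adjBasis ℓ (1 : R)) _ 1 (adjBasis_apply _) (adj_root_pow _)]
  have h2 : nmat ℓ (1 : R) z = 1 + Matrix.replicateCol Unit (fun _ : Fin ℓ => p * c) *
      Matrix.replicateRow Unit (fun _ : Fin ℓ => (1 : R)) := by
    ext r s
    have h0 : (⟨0, hpos⟩ : Fin ℓ) = 0 := rfl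
    simp only [nmat, Matrix.of_apply, ite_self, one_mul, z, Matrix.add_apply, Matrix.one_apply,
      Matrix.mul_apply, Matrix.replicateCol_apply, Matrix.replicateRow_apply, h0, sub_eq_zero,
      Finset.univ_unique, Finset.sum_singleton, mul_one]
  rw [h2, Matrix.det_one_add_replicateCol_mul_replicateRow]
  simp only [dotProduct, one_mul, Finset.sum_const, Finset.card_univ, Fintype.card_fin,
    nsmul_eq_mul]
  rw [mul_comm (ℓ : R), mul_assoc, hc, mul_one]

theorem Phi_one (m : ℕ) {R : Type u} [CommRing R] [Nontrivial R] (c p : R)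
    (hc : c * (ℓ : R) = 1) (b : Fin m → R) (hb : ∀ j, b j = 1) :
    Phi ℓ m R c b p = 1 + p := by
  induction m generalizing R with
  | zero => simp [Phi]
  | succ m ih =>
    rw [Phi, ih, norm_idem c p hc _ (hb _)]
    · rw [← map_natCast (algebraMap R (Adj ℓ (b (Fin.last m)))) ℓ, ← map_mul, hc, map_one]
    · intro j
      rw [hb j.castSucc, map_one]

end

end Pool.Agent.NIPFields
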