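import Mathlib
import Pool.Agent.NIPFields.Phi
import Pool.Agent.NIPFields.VBall

set_option autoImplicit false

/-!
# Shattering from a pattern
-/

namespace Pool.Agent.NIPFields

universe u

section NSmul

variable {K : Type u} [Field K] {ℓ : ℕ} [NeZero ℓ]

theorem NS_mul' {b x y : K} (hx : x ∈ NS ℓ b) (hy : y ∈ NS ℓ b) : x * y ∈ NS ℓ b := by
  rw [← NSR_eq_NS, mem_NSR_iff_adj] at *
  obtain ⟨s, rfl⟩ := hx
  obtain ⟨t, rfl⟩ := hy
  exact ⟨s * t, map_mul _ _ _⟩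

theorem pow_mem_NS (b x : K) : x ^ ℓ ∈ NS ℓ b := by
  rw [← NSR_eq_NS, mem_NSR_iff_adj]
  refine ⟨algebraMap K _ x, ?_⟩
  rw [Algebra.norm_algebraMap_of_basis (adjBasis ℓ b), Fintype.card_fin]

theorem one_mem_NS (b : K) : (1 : K) ∈ NS ℓ b := by
  simpa using pow_mem_NS (ℓ := ℓ) b 1

theorem zero_mem_NS (b : K) : (0 : K) ∈ NS ℓ b := by
  simpa [NeZero.ne ℓ] using pow_mem_NS (ℓ := ℓ) b 0

theorem NS_pow' {b x : K} (hx : x ∈ NS ℓ b) (n : ℕ) : x ^ n ∈ NS ℓ b := by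
  induction n with
  | zero => simpa using one_mem_NS b
  | succ n ih => rw [pow_succ]; exact NS_mul' ih hx

theorem NS_inv' {b x : K} (hx : x ∈ NS ℓ b) : x⁻¹ ∈ NS ℓ b := by
  by_cases h0 : x = 0
  · rw [h0, inv_zero]; exact zero_mem_NS b
  have h1 : x⁻¹ = x ^ (ℓ - 1) * x⁻¹ ^ ℓ := by
    have h2 : x ^ ℓ = x ^ (ℓ - 1) * x := by
      rw [← pow_succ, Nat.sub_add_cancel (Nat.pos_of_ne_zero (NeZero.ne ℓ))]
    have h3 : x ^ ℓ * x⁻¹ ^ ℓ = 1 := by rw [← mul_pow, mul_inv_cancel₀ h0, one_pow]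
    rw [h2] at h3
    calc x⁻¹ = x⁻¹ * (x ^ (ℓ - 1) * x * x⁻¹ ^ ℓ) := by rw [h3, mul_one]
      _ = x ^ (ℓ - 1) * x⁻¹ ^ ℓ := by field_simp
  rw [h1]
  exact NS_mul' (NS_pow' hx _) (pow_mem_NS _ _)

theorem NS_prod {ι : Type*} (s : Finset ι) (f : ι → K) (b : K) (h : ∀ i ∈ s, f i ∈ NS ℓ b) :
    ∏ i ∈ s, f i ∈ NS ℓ b := by
  classical
  induction s using Finset.induction_on with
  | empty => simpa using one_mem_NS b
  | insert a s ha ih =>
    rw [Finset.prod_insert ha]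
    exact NS_mul' (h a (Finset.mem_insert_self _ _))
      (ih fun i hi => h i (Finset.mem_insert_of_mem hi))

end NSmul

section

variable {K E : Type u} [Field K] [Field E]

/-- Infinitesimal over `K`. -/
def KInf (ι : K →+* E) (B : Set E) (x : E) : Prop := ∀ a : K, a ≠ 0 → BLe B x (ι a)

/-- Bounded over `K`. -/
def KBdd (ι : K →+* E) (B : Set E) (x : E) : Prop := ∃ a : K, a ≠ 0 ∧ BLe B x (ι a)

/-- Infinite over `K`. -/
def KLarge (ι : K →+* E) (B : Set E) (x : E) : Prop := ∀ a : K, ¬ BLe B x (ι a)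

variable {ι : K →+* E} {B : Set E} {c e : K} (h : VBall B (ι c) (ι e))

include h

theorem cne_of : c ≠ 0 := by
  rintro rfl
  exact h.cne (map_zero ι)

theorem KInf.add {x y : E} (hx : KInf ι B x) (hy : KInf ι B y) : KInf ι B (x + y) := by
  intro a ha
  have hc := cne_of h
  have h1 := h.add_le (hx (c⁻¹ * a) (mul_ne_zero (inv_ne_zero hc) ha))
    (hy (c⁻¹ * a) (mul_ne_zero (inv_ne_zero hc) ha))
  rwa [← map_mul, mul_inv_cancel_left₀ hc] at h1

theorem KInf.mul_bdd {x y : E} (hx : KInf ι B x) (hy : KBdd ι B y) : KInf ι B (x * y) := by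
  intro a ha
  obtain ⟨d, hd, hy⟩ := hy
  have h1 := h.mul_mul (hx (a * d⁻¹) (mul_ne_zero ha (inv_ne_zero hd))) hy
  rwa [← map_mul, inv_mul_cancel_right₀ hd] at h1

theorem KInf.bdd {x : E} (hx : KInf ι B x) : KBdd ι B x := ⟨1, one_ne_zero, hx 1 one_ne_zero⟩

theorem KBdd.const (a : K) : KBdd ι B (ι a) := by
  by_cases ha : a = 0
  · exact ⟨1, one_ne_zero, by rw [ha, map_zero]; exact h.zero_le _⟩
  · exact ⟨a, ha, h.refl _⟩

theorem KBdd.add {x y : E} (hx : KBdd ι B x) (hy : KBdd ι B y) : KBdd ι B (x + y) := by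
  obtain ⟨a, ha, hx⟩ := hx
  obtain ⟨b, hb, hy⟩ := hy
  have hc := cne_of h
  rcases h.total (ι a) (ι b) with h1 | h1
  · refine ⟨c * b, mul_ne_zero hc hb, ?_⟩
    rw [map_mul]
    exact h.add_le (h.trans hx h1) hy
  · refine ⟨c * a, mul_ne_zero hc ha, ?_⟩
    rw [map_mul]
    exact h.add_le hx (h.trans hy h1)

theorem kinf_eval {σ : Type*} (b : σ → E) (hb : ∀ j, KInf ι B (b j - 1))
    (P : MvPolynomial σ K) :
    KInf ι B (MvPolynomial.eval₂ ι b P - ι (MvPolynomial.eval (fun _ => 1) P)) := by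
  induction P using MvPolynomial.induction_on with
  | C a =>
    rw [MvPolynomial.eval₂_C, MvPolynomial.eval_C, sub_self]
    exact fun a _ => h.zero_le _
  | add p q hp hq =>
    have h1 := KInf.add h hp hq
    convert h1 using 1
    rw [MvPolynomial.eval₂_add, map_add, map_add]
    ring
  | mul_X p i hp =>
    have h0 : KBdd ι B (MvPolynomial.eval₂ ι b p) := by
      have := KBdd.add h (KInf.bdd h hp) (KBdd.const h (MvPolynomial.eval (fun _ => 1) p))
      rwa [sub_add_cancel] at this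
    have h1 := KInf.add h (KInf.mul_bdd h (hb i) h0) hp
    convert h1 using 1
    rw [MvPolynomial.eval₂_mul, MvPolynomial.eval₂_X, map_mul, map_mul, MvPolynomial.eval_X,
      map_one]
    ring

theorem kinf_not_large {x : E} (hx : KInf ι B x) : ¬ KLarge ι B x := fun h1 =>
  h1 1 (hx 1 one_ne_zero)

theorem ene_of : e ≠ 0 := by
  rintro rfl
  exact h.ene (map_zero ι)

theorem not_kinf_const {a : K} (ha : a ≠ 0) : ¬ KInf ι B (ι a) := by
  intro h1
  have h2 := h1 (e⁻¹ * a) (mul_ne_zero (inv_ne_zero (ene_of h)) ha)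
  rw [map_mul] at h2
  have h3 := VBall.mul_right (ι a)⁻¹ h2
  have hιa : ι a ≠ 0 := by rwa [map_ne_zero]
  rw [mul_inv_cancel₀ hιa, mul_inv_cancel_right₀ hιa] at h3
  have h4 := VBall.inv_le_inv one_ne_zero h3
  rw [map_inv₀, inv_inv, inv_one] at h4
  exact h.not_e_le_one h4

/-- If `z` is infinitesimal then `1 + z ≠ 0` and its inverse is bounded. -/
theorem kinf_one_add {z : E} (hz : KInf ι B z) : 1 + z ≠ 0 ∧ KBdd ι B (1 + z)⁻¹ := by
  have hc := cne_of h
  have he := ene_of h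
  have h1 : BLe B (-z) (ι c * ι e)⁻¹ := by
    rw [← map_mul, ← map_inv₀]
    exact h.neg_le (hz _ (inv_ne_zero (mul_ne_zero hc he)))
  have h2 : BLe B (ι c * ι e)⁻¹ (1 + z) := by
    by_contra hn
    have h3 := h.le_of_not hn
    have h4 := h.add_le h3 h1
    rw [add_neg_cancel_right, mul_inv, mul_inv_cancel_left₀ h.cne] at h4
    have h5 := VBall.inv_le_inv one_ne_zero h4
    rw [inv_inv, inv_one] at h5
    exact h.not_e_le_one h5
  have h3 : (ι c * ι e)⁻¹ ≠ 0 := inv_ne_zero (mul_ne_zero h.cne h.ene)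
  have h4 : 1 + z ≠ 0 := by
    intro h5; rw [h5] at h2; exact h3 (VBall.of_le_zero h2)
  refine ⟨h4, c * e, mul_ne_zero hc he, ?_⟩
  have := VBall.inv_le_inv h3 h2
  rwa [inv_inv, ← map_mul] at this

theorem klarge_one_add {z : E} (hz : KLarge ι B z) : 1 + z ≠ 0 ∧ KInf ι B (1 + z)⁻¹ := by
  have hc := cne_of h
  have key : ∀ a : K, ¬ BLe B (1 + z) (ι a) := by
    intro a h1
    rcases h.total (ι a) 1 with h2 | h2
    · have h3 := h.sub_le (h.trans h1 h2) (h.refl 1)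
      rw [add_sub_cancel_left, mul_one] at h3
      exact hz _ h3
    · have h3 := h.sub_le h1 h2
      rw [add_sub_cancel_left, ← map_mul] at h3
      exact hz _ h3
  refine ⟨fun h0 => key 0 (by rw [h0]; exact h.zero_le _), fun a ha => ?_⟩
  have h1 := h.le_of_not (key a⁻¹)
  have h2 := VBall.inv_le_inv (by rwa [map_ne_zero, ne_eq, inv_eq_zero]) h1
  rwa [map_inv₀, inv_inv] at h2

end

/-- The pattern `zᵢ` infinitesimal for `Bᵢ` and infinite for `Bⱼ`, `j ≠ i`, gives a shattered set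
for the norm relation. -/
theorem shatter_of_pattern {K E : Type u} [Field K] [Field E] (ι : K →+* E) {ℓ : ℕ} [NeZero ℓ]
    (hℓ : (ℓ : K) ≠ 0) (n : ℕ) (B : Fin n → Set E) (c e : Fin n → K)
    (h : ∀ i, VBall (B i) (ι (c i)) (ι (e i))) (a b r : Fin n → K) (hr : ∀ i, r i ≠ 0)
    (hbox : ∀ i x y, BLe (B i) (x - ι (a i)) (ι (r i)) → BLe (B i) (y - ι (b i)) (ι (r i)) →
      x ∉ NS ℓ y)
    (z : Fin n → E) (hz1 : ∀ i, KInf ι (B i) (z i))
    (hz2 : ∀ i j, j ≠ i → KLarge ι (B i) (z j)) :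
    ∃ (b : Fin n → E) (x : Finset (Fin n) → E), ∀ i J, x J ∈ NS ℓ (b i) ↔ i ∈ J := by
  classical
  let b' : Fin n → E := fun j => (ι (b j) + z j) * (1 + z j)⁻¹
  have hb1 : ∀ i, KInf ι (B i) (b' i - ι (b i)) := by
    intro i
    obtain ⟨h1, h2⟩ := kinf_one_add (h i) (hz1 i)
    have h3 : b' i - ι (b i) = z i * (1 + z i)⁻¹ * (ι (1 - b i)) := by
      simp only [b', map_sub, map_one]; field_simp; ring
    rw [h3]
    exact KInf.mul_bdd (h i) (KInf.mul_bdd (h i) (hz1 i) h2) (KBdd.const (h i) _)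
  have hb2 : ∀ i j, j ≠ i → KInf ι (B i) (b' j - 1) := by
    intro i j hj
    obtain ⟨h1, h2⟩ := klarge_one_add (h i) (hz2 i j hj)
    have h3 : b' j - 1 = (1 + z j)⁻¹ * (ι (b j - 1)) := by
      simp only [b', map_sub, map_one]; field_simp; ring
    rw [h3]
    exact KInf.mul_bdd (h i) h2 (KBdd.const (h i) _)
  -- the elements `f`
  let bb : Fin n → Fin n → E := fun i j => if j = i then 1 else b' j
  let f : Fin n → E := fun i => Phi ℓ n E (ι (ℓ : K)⁻¹) (bb i) (ι (a i - 1))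
  have hf1 : ∀ i j, j ≠ i → f i ∈ NS ℓ (b' j) := by
    intro i j hj
    have := Phi_mem (ℓ := ℓ) n (ι (ℓ : K)⁻¹) (bb i) (ι (a i - 1)) j
    simp only [bb, if_neg hj] at this
    exact this
  have hf2 : ∀ i, KInf ι (B i) (f i - ι (a i)) := by
    intro i
    have h1 : ∀ j, KInf ι (B i) (bb i j - 1) := by
      intro j
      by_cases hj : j = i
      · simp only [bb, if_pos hj, sub_self]
        exact fun a _ => (h i).zero_le _
      · simp only [bb, if_neg hj]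
        exact hb2 i j hj
    let P : MvPolynomial (Fin n) K := Phi ℓ n (MvPolynomial (Fin n) K)
      (MvPolynomial.C (ℓ : K)⁻¹) MvPolynomial.X (MvPolynomial.C (a i - 1))
    have h2 := kinf_eval (h i) (bb i) h1 P
    have h3 : MvPolynomial.eval (fun _ => 1) P = a i := by
      simp only [P]
      rw [Phi_map n (MvPolynomial.eval (fun _ => (1 : K)))]
      simp only [MvPolynomial.eval_C, MvPolynomial.eval_X]
      rw [Phi_one n _ _ (inv_mul_cancel₀ hℓ) _ (fun _ => rfl)]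
      ring
    have h4 : MvPolynomial.eval₂ ι (bb i) P = f i := by
      change MvPolynomial.eval₂Hom ι (bb i) P = f i
      simp only [P]
      rw [Phi_map n (MvPolynomial.eval₂Hom ι (bb i))]
      simp only [MvPolynomial.coe_eval₂Hom, MvPolynomial.eval₂_C, MvPolynomial.eval₂_X]
      rfl
    rwa [h3, h4] at h2
  have hf3 : ∀ i, f i ∉ NS ℓ (b' i) := fun i =>
    hbox i (f i) (b' i) (hf2 i _ (hr i)) (hb1 i _ (hr i))
  have hf0 : ∀ i, f i ≠ 0 := by
    intro i h0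
    exact hf3 i (h0 ▸ zero_mem_NS _)
  have hprod : ∀ (i : Fin n) (s : Finset (Fin n)), i ∉ s → (∏ k ∈ s, f k) ∈ NS ℓ (b' i) := by
    intro i s hi
    refine NS_prod s f _ (fun k hk => hf1 k i ?_)
    rintro rfl
    exact hi hk
  refine ⟨b', fun J => ∏ k ∈ Jᶜ, f k, fun i J => ⟨fun h1 => ?_, fun h1 => ?_⟩⟩
  · by_contra hi
    have hi' : i ∈ Jᶜ := Finset.mem_compl.2 hi
    have h1 : (∏ k ∈ Jᶜ, f k) ∈ NS ℓ (b' i) := h1
    rw [← Finset.mul_prod_erase _ _ hi'] at h1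
    have hP := hprod i (Jᶜ.erase i) (Finset.notMem_erase i _)
    have hP0 : (∏ k ∈ Jᶜ.erase i, f k) ≠ 0 := Finset.prod_ne_zero_iff.2 (fun k _ => hf0 k)
    apply hf3 i
    have := NS_mul' h1 (NS_inv' hP)
    rwa [mul_assoc, mul_inv_cancel₀ hP0, mul_one] at this
  · exact hprod i Jᶜ (by simpa using h1)

end Pool.Agent.NIPFields
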