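import Mathlib
import Pool.Agent.NIPFields.Pattern
import Pool.Agent.NIPFields.Approximate

set_option autoImplicit false

/-!
# Pulling back balls from ultrapowers
-/

namespace Pool.Agent.NIPFields

open FirstOrder FirstOrder.Language FirstOrder.Ring Set Filter

universe u

section

variable {E E' : Type u} [Field E] [Field E']

/-- The pull back of a ball of an ultrapower. -/
def pullB {I : Type u} (W : Ultrafilter I) (g : E' →+* Germ (W : Filter I) E) (B : Set E) :
    Set E' := {x | Germ.LiftPred (· ∈ B) (g x)}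

theorem ble_iff {B : Set E} (h0 : (0 : E) ∈ B) {x y : E} :
    BLe B x y ↔ x / y ∈ B ∧ (y = 0 → x = 0) := by
  by_cases hy : y = 0
  · subst hy
    simp only [div_zero, h0, true_and, forall_const]
    constructor
    · exact VBall.of_le_zero
    · rintro rfl; exact ⟨0, h0, by simp⟩
  · simp only [hy, false_imp_iff, and_true]
    exact VBall.le_iff_div hy

variable {I : Type u} {W : Ultrafilter I} {g : E' →+* Germ (W : Filter I) E} {B : Set E}

theorem mem_pullB {x : E'} {f : I → E} (hf : g x = Germ.ofFun f) :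
    x ∈ pullB W g B ↔ ∀ᶠ i in (W : Filter I), f i ∈ B := by
  unfold pullB
  rw [mem_ofPred_eq, hf]
  exact Germ.liftPred_coe

omit [Field E] in
theorem ofFun_inj {f h : I → E} : (Germ.ofFun f : Germ (W : Filter I) E) = Germ.ofFun h ↔
    ∀ᶠ i in (W : Filter I), f i = h i := Germ.coe_eq

theorem eq_zero_iff {x : E'} {f : I → E} (hf : g x = Germ.ofFun f) :
    x = 0 ↔ ∀ᶠ i in (W : Filter I), f i = 0 := by
  rw [← map_eq_zero g, hf]
  exact ofFun_inj (h := fun _ => (0 : E))

theorem ble_pullB (h0 : (0 : E) ∈ B) {x y : E'} {f h : I → E} (hf : g x = Germ.ofFun f)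
    (hh : g y = Germ.ofFun h) :
    BLe (pullB W g B) x y ↔ ∀ᶠ i in (W : Filter I), BLe B (f i) (h i) := by
  have h0' : (0 : E') ∈ pullB W g B := by
    rw [mem_pullB (f := fun _ => 0) (by rw [map_zero]; rfl)]
    exact Filter.Eventually.of_forall fun _ => h0
  rw [ble_iff h0', mem_pullB (f := fun i => f i / h i) (by rw [map_div₀, hf, hh]; rfl),
    eq_zero_iff hf, eq_zero_iff hh, ← Ultrafilter.eventually_imp, ← Filter.eventually_and]
  simp only [ble_iff h0]

theorem vball_pullB {c e : E} {c' e' : E'} (hc : g c' = germConst _ E c)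
    (he : g e' = germConst _ E e) (h : VBall B c e) : VBall (pullB W g B) c' e' := by
  have hex : ∀ x : E', ∃ f : I → E, g x = Germ.ofFun f := fun x =>
    Germ.inductionOn (g x) (fun f => ⟨f, rfl⟩)
  have hcne : c' ≠ 0 := by
    rw [ne_eq, eq_zero_iff (f := fun _ => c) hc, Filter.eventually_const]
    exact h.cne
  refine ⟨?_, ?_, ?_, ?_, hcne, ?_⟩
  · rw [mem_pullB (f := fun _ => 0) (by rw [map_zero]; rfl)]
    exact Filter.Eventually.of_forall fun _ => h.zero
  · intro x hx y hy
    obtain ⟨f, hf⟩ := hex x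
    obtain ⟨k, hk⟩ := hex y
    rw [mem_pullB hf] at hx
    rw [mem_pullB hk] at hy
    rw [mem_pullB (f := fun i => f i * k i) (by rw [map_mul, hf, hk]; rfl)]
    filter_upwards [hx, hy] with i hi1 hi2
    exact h.mul _ hi1 _ hi2
  · intro x hx
    obtain ⟨f, hf⟩ := hex x
    rw [mem_pullB hf, ← Ultrafilter.eventually_not] at hx
    rw [mem_pullB (f := fun i => (f i)⁻¹) (by rw [map_inv₀, hf]; rfl)]
    filter_upwards [hx] with i hi
    exact h.inv _ hi
  · intro x hx y hy
    obtain ⟨f, hf⟩ := hex x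
    obtain ⟨k, hk⟩ := hex y
    rw [mem_pullB hf] at hx
    rw [mem_pullB hk] at hy
    refine ⟨(x + y) / c', ?_, by field_simp⟩
    rw [mem_pullB (f := fun i => (f i + k i) / c)
      (by rw [map_div₀, map_add, hf, hk, hc]; rfl)]
    filter_upwards [hx, hy] with i hi1 hi2
    obtain ⟨z, hz, h1⟩ := h.add _ hi1 _ hi2
    rw [h1, mul_div_cancel_left₀ _ h.cne]
    exact hz
  · rw [mem_pullB (f := fun _ => e) he, Filter.eventually_const]
    exact h.enot

theorem ns_germ_iff {ℓ : ℕ} {f h : I → E} :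
    (Germ.ofFun f : Germ (W : Filter I) E) ∈ NS ℓ (Germ.ofFun h : Germ (W : Filter I) E) ↔
      ∀ᶠ i in (W : Filter I), f i ∈ NS ℓ (h i) := by
  have hdet : ∀ z : Fin ℓ → I → E,
      (nmat ℓ (Germ.ofFun h : Germ (W : Filter I) E) (fun j => Germ.ofFun (z j))).det =
        Germ.ofFun (fun i => (nmat ℓ (h i) (fun j => z j i)).det) := by
    intro z
    have h1 := nmat_map ℓ (Germ.coeRingHom (W : Filter I)) h z
    have h2 : (nmat ℓ h z).det = fun i => (nmat ℓ (h i) (fun j => z j i)).det := by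
      funext i
      exact nmat_map ℓ (Pi.evalRingHom (fun _ : I => E) i) h z
    rw [h2] at h1
    exact h1.symm
  constructor
  · rintro ⟨z, hz⟩
    obtain ⟨z', rfl⟩ := exists_rep z
    rw [hdet, ofFun_inj] at hz
    filter_upwards [hz] with i hi
    exact ⟨_, hi⟩
  · intro hev
    have h1 : ∀ i, ∃ z : Fin ℓ → E, f i ∈ NS ℓ (h i) → f i = (nmat ℓ (h i) z).det := by
      intro i
      by_cases hi : f i ∈ NS ℓ (h i)
      · obtain ⟨z, hz⟩ := hi
        exact ⟨z, fun _ => hz⟩
      · exact ⟨0, fun h => absurd h hi⟩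
    choose z hz using h1
    refine ⟨fun j => Germ.ofFun (fun i => z i j), ?_⟩
    rw [hdet (fun j i => z i j), ofFun_inj]
    filter_upwards [hev] with i hi
    exact hz i hi

end

/-- The class of balls that is used: V-balls such that the norm relation is avoided in a box. -/
structure Good (ℓ : ℕ) {K E : Type u} [Field K] [Field E] (ι : K →+* E) (B : Set E)
    (c e a b r : K) : Prop where
  ball : VBall B (ι c) (ι e)
  box : ∀ x y, BLe B (x - ι a) (ι r) → BLe B (y - ι b) (ι r) → x ∉ NS ℓ y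

theorem Good.pull {ℓ : ℕ} {K E E' : Type u} [Field K] [Field E] [Field E'] {ι : K →+* E}
    {ι' : K →+* E'} {B : Set E} {c e a b r : K} (h : Good ℓ ι B c e a b r) {I : Type u}
    {W : Ultrafilter I} {g : E' →+* Germ (W : Filter I) E}
    (hg : ∀ k, g (ι' k) = germConst _ E (ι k)) : Good ℓ ι' (pullB W g B) c e a b r := by
  refine ⟨vball_pullB (hg c) (hg e) h.ball, fun x y hx hy hxy => ?_⟩
  have hex : ∀ x : E', ∃ f : I → E, g x = Germ.ofFun f := fun x =>
    Germ.inductionOn (g x) (fun f => ⟨f, rfl⟩)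
  obtain ⟨f, hf⟩ := hex x
  obtain ⟨k, hk⟩ := hex y
  have h1 : g x ∈ NS ℓ (g y) := NSR_map g hxy
  rw [hf, hk, ns_germ_iff] at h1
  rw [ble_pullB h.ball.zero (f := fun i => f i - ι a) (h := fun _ => ι r)
    (by rw [map_sub, hf, hg]; rfl) (hg r)] at hx
  rw [ble_pullB h.ball.zero (f := fun i => k i - ι b) (h := fun _ => ι r)
    (by rw [map_sub, hk, hg]; rfl) (hg r)] at hy
  obtain ⟨i, ⟨hi1, hi2⟩, hi3⟩ := ((hx.and hy).and h1).exists
  exact h.box _ _ hi1 hi2 hi3

end Pool.Agent.NIPFields
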