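import Mathlib
import Pool.Agent.NIPFields.Pull

set_option autoImplicit false

/-!
# The inductive construction of configurations of balls
-/

namespace Pool.Agent.NIPFields

open FirstOrder FirstOrder.Language FirstOrder.Ring Set Filter

universe u

/-- No ring definable set is a bounded neighbourhood of `0`. -/
def ND (E : Type u) [Field E] [CompatibleRing E] (B : Set E) : Prop :=
  ∀ U : Set E, (univ : Set E).Definable₁ Language.ring U →
    (∃ s : E, s ≠ 0 ∧ ∀ x ∈ U, BLe B x s) → (∃ t : E, t ≠ 0 ∧ ∀ x, BLe B x t → x ∈ U) → False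

/-- The norm relation shatters a set with `m` elements. -/
def ShatE (ℓ : ℕ) (E : Type u) [Field E] (m : ℕ) : Prop :=
  ∃ (b : Fin m → E) (x : Finset (Fin m) → E), ∀ i J, x J ∈ NS ℓ (b i) ↔ i ∈ J

section filters

variable {E : Type u} [Field E] {B : Set E} {c e : E}

/-- The filter of cobounded sets. -/
def coB (h : VBall B c e) : Filter E where
  sets := {V | ∃ a, a ≠ 0 ∧ ∀ x, ¬ BLe B x a → x ∈ V}
  univ_sets := ⟨1, one_ne_zero, fun _ _ => trivial⟩
  sets_of_superset := by
    rintro V W ⟨a, ha, h1⟩ hVW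
    exact ⟨a, ha, fun x hx => hVW (h1 x hx)⟩
  inter_sets := by
    rintro V W ⟨a, ha, h1⟩ ⟨b, hb, h2⟩
    rcases h.total a b with hab | hab
    · exact ⟨b, hb, fun x hx => ⟨h1 x fun h3 => hx (h.trans h3 hab), h2 x hx⟩⟩
    · exact ⟨a, ha, fun x hx => ⟨h1 x hx, h2 x fun h3 => hx (h.trans h3 hab)⟩⟩

/-- The filter of punctured neighbourhoods of `0`. -/
def nb0 (h : VBall B c e) : Filter E where
  sets := {V | ∃ a, a ≠ 0 ∧ ∀ x, x ≠ 0 → BLe B x a → x ∈ V}
  univ_sets := ⟨1, one_ne_zero, fun _ _ _ => trivial⟩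
  sets_of_superset := by
    rintro V W ⟨a, ha, h1⟩ hVW
    exact ⟨a, ha, fun x hx0 hx => hVW (h1 x hx0 hx)⟩
  inter_sets := by
    rintro V W ⟨a, ha, h1⟩ ⟨b, hb, h2⟩
    rcases h.total a b with hab | hab
    · exact ⟨a, ha, fun x hx0 hx => ⟨h1 x hx0 hx, h2 x hx0 (h.trans hx hab)⟩⟩
    · exact ⟨b, hb, fun x hx0 hx => ⟨h1 x hx0 (h.trans hx hab), h2 x hx0 hx⟩⟩

theorem mem_coB (h : VBall B c e) {a : E} : {x | ¬ BLe B x a} ∈ coB h := by
  by_cases ha : a = 0
  · refine ⟨1, one_ne_zero, fun x hx h1 => hx ?_⟩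
    rw [ha] at h1
    rw [VBall.of_le_zero h1]
    exact h.zero_le _
  · exact ⟨a, ha, fun x hx => hx⟩

theorem mem_nb0 (h : VBall B c e) {a : E} (ha : a ≠ 0) : {x | BLe B x a} ∈ nb0 h :=
  ⟨a, ha, fun _ _ hx => hx⟩

end filters

theorem shatE_germ {ℓ : ℕ} {E I : Type u} [Field E] (W : Ultrafilter I) (m : ℕ)
    (h : ShatE ℓ (Germ (W : Filter I) E) m) : ShatE ℓ E m := by
  obtain ⟨b, x, hbx⟩ := h
  obtain ⟨b', rfl⟩ := exists_rep b
  obtain ⟨x', rfl⟩ := exists_rep x
  have h1 : ∀ i J, ∀ᶠ t in (W : Filter I), (x' J t ∈ NS ℓ (b' i t) ↔ i ∈ J) := by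
    intro i J
    have h2 := hbx i J
    rw [ns_germ_iff] at h2
    by_cases hi : i ∈ J
    · filter_upwards [h2.2 hi] with t ht
      exact ⟨fun _ => hi, fun _ => ht⟩
    · have h3 := mt h2.1 hi
      rw [← Ultrafilter.eventually_not] at h3
      filter_upwards [h3] with t ht
      exact ⟨fun h => absurd h ht, fun h => absurd h hi⟩
  have h2 : ∀ᶠ t in (W : Filter I), ∀ i J, (x' J t ∈ NS ℓ (b' i t) ↔ i ∈ J) := by
    rw [Filter.eventually_all]
    intro i
    rw [Filter.eventually_all]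
    exact h1 i
  obtain ⟨t, ht⟩ := h2.exists
  exact ⟨fun i => b' i t, fun J => x' J t, ht⟩

/-- The property `ND` passes to ultrapowers. -/
theorem nd_germ {E I : Type u} [Field E] [CompatibleRing E] (W : Ultrafilter I) {B : Set E}
    {c e : E} (hB : VBall B c e) (h : ND E B) :
    @ND (Germ (W : Filter I) E) _ (germCompat W E) (pullB W (RingHom.id _) B) := by
  let _ := germCompat W E
  intro U hU hbd hnb
  obtain ⟨s, hs0, hs⟩ := hbd
  obtain ⟨t, ht0, ht⟩ := hnb
  obtain ⟨φ, hφ⟩ := Set.definable_iff_exists_formula_sum.1 hU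
  obtain ⟨rep, hrep⟩ := exists_rep (U := W) (E := E)
    (fun p : (univ : Set (Germ (W : Filter I) E)) => (p : Germ (W : Filter I) E))
  let Ut : I → Set E := fun τ => {y | φ.Realize (Sum.elim (fun p => rep p τ) (fun _ => y))}
  have hdef : ∀ τ, (univ : Set E).Definable₁ Language.ring (Ut τ) := by
    intro τ
    unfold Definable₁
    rw [Set.definable_iff_exists_formula_sum]
    refine ⟨φ.relabel (Sum.map (fun p => ⟨rep p τ, mem_univ _⟩) id), ?_⟩
    ext v
    simp only [Ut, mem_ofPred_eq, Formula.realize_relabel]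
    have : (Sum.elim (fun p => rep p τ) fun _ => v 0) =
        (Sum.elim (Subtype.val : ↥(univ : Set E) → E) v ∘
          Sum.map (fun p => (⟨rep p τ, mem_univ _⟩ : ↥(univ : Set E))) id) := by
      funext x
      rcases x with x | x
      · rfl
      · have : x = 0 := Subsingleton.elim _ _
        subst this
        rfl
    rw [this]
  have hmem : ∀ f : I → E, (Germ.ofFun f : Germ (W : Filter I) E) ∈ U ↔
      ∀ᶠ τ in (W : Filter I), f τ ∈ Ut τ := by
    intro f
    have h1 : (Germ.ofFun f : Germ (W : Filter I) E) ∈ U ↔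
        (fun _ : Fin 1 => (Germ.ofFun f : Germ (W : Filter I) E)) ∈
          {x : Fin 1 → Germ (W : Filter I) E | x 0 ∈ U} := Iff.rfl
    rw [h1, hφ, mem_ofPred_eq]
    have h2 := germ_realize (U := W) (E := E) φ (Sum.elim rep (fun _ => f))
    have h3 : (fun i => (↑((Sum.elim rep (fun _ : Fin 1 => f)) i) : Germ (W : Filter I) E)) =
        Sum.elim (Subtype.val) (fun _ : Fin 1 => (Germ.ofFun f : Germ (W : Filter I) E)) := by
      funext x
      rcases x with x | x
      · exact (congrFun hrep x).symm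
      · rfl
    rw [h3] at h2
    refine h2.trans ?_
    refine Filter.eventually_congr (Filter.Eventually.of_forall fun τ => ?_)
    simp only [Ut, mem_ofPred_eq]
    have h4 : (fun i => (Sum.elim rep (fun _ : Fin 1 => f)) i τ) =
        Sum.elim (fun p => rep p τ) (fun _ => f τ) := by
      funext x
      rcases x with x | x <;> rfl
    rw [h4]
  obtain ⟨s', rfl⟩ : ∃ s' : I → E, s = Germ.ofFun s' :=
    Germ.inductionOn s (fun f => ⟨f, rfl⟩)
  obtain ⟨t', rfl⟩ : ∃ t' : I → E, t = Germ.ofFun t' :=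
    Germ.inductionOn t (fun f => ⟨f, rfl⟩)
  have hble : ∀ f k : I → E, BLe (pullB W (RingHom.id _) B) (Germ.ofFun f) (Germ.ofFun k) ↔
      ∀ᶠ i in (W : Filter I), BLe B (f i) (k i) := fun f k => ble_pullB hB.zero rfl rfl
  have e1 : ∀ᶠ τ in (W : Filter I), s' τ ≠ 0 := by
    rw [Ultrafilter.eventually_not]
    intro h0
    exact hs0 (ofFun_inj (h := fun _ => (0 : E)).2 h0)
  have e2 : ∀ᶠ τ in (W : Filter I), t' τ ≠ 0 := by
    rw [Ultrafilter.eventually_not]
    intro h0
    exact ht0 (ofFun_inj (h := fun _ => (0 : E)).2 h0)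
  have e3 : ∀ᶠ τ in (W : Filter I), ∀ x ∈ Ut τ, BLe B x (s' τ) := by
    by_contra hcon
    rw [← Ultrafilter.eventually_not] at hcon
    have h1 : ∀ τ, ∃ x, (¬ ∀ x ∈ Ut τ, BLe B x (s' τ)) → x ∈ Ut τ ∧ ¬ BLe B x (s' τ) := by
      intro τ
      by_cases hτ : ∀ x ∈ Ut τ, BLe B x (s' τ)
      · exact ⟨0, fun h => absurd hτ h⟩
      · push Not at hτ
        obtain ⟨x, hx1, hx2⟩ := hτ
        exact ⟨x, fun _ => ⟨hx1, hx2⟩⟩
    choose f hf using h1
    have h2 : (Germ.ofFun f : Germ (W : Filter I) E) ∈ U := by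
      rw [hmem]
      filter_upwards [hcon] with τ hτ
      exact (hf τ hτ).1
    have h3 := (hble f s').1 (hs _ h2)
    obtain ⟨τ, hτ1, hτ2⟩ := (hcon.and h3).exists
    exact (hf τ hτ1).2 hτ2
  have e4 : ∀ᶠ τ in (W : Filter I), ∀ x, BLe B x (t' τ) → x ∈ Ut τ := by
    by_contra hcon
    rw [← Ultrafilter.eventually_not] at hcon
    have h1 : ∀ τ, ∃ x, (¬ ∀ x, BLe B x (t' τ) → x ∈ Ut τ) → BLe B x (t' τ) ∧ x ∉ Ut τ := by
      intro τ
      by_cases hτ : ∀ x, BLe B x (t' τ) → x ∈ Ut τ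
      · exact ⟨0, fun h => absurd hτ h⟩
      · push Not at hτ
        obtain ⟨x, hx1, hx2⟩ := hτ
        exact ⟨x, fun _ => ⟨hx1, hx2⟩⟩
    choose f hf using h1
    have h2 : BLe (pullB W (RingHom.id _) B) (Germ.ofFun f) (Germ.ofFun t') := by
      rw [hble]
      filter_upwards [hcon] with τ hτ
      exact (hf τ hτ).1
    have h3 := (hmem f).1 (ht _ h2)
    obtain ⟨τ, hτ1, hτ2⟩ := (hcon.and h3).exists
    exact (hf τ hτ1).2 hτ2
  obtain ⟨τ, ⟨⟨h1, h2⟩, h3⟩, h4⟩ := (((e1.and e2).and e3).and e4).exists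
  exact h (Ut τ) (hdef τ) ⟨_, h1, h3⟩ ⟨_, h2, h4⟩

/-- A configuration of balls. -/
def Config (ℓ : ℕ) (K : Type u) [Field K] (c e a b r : K) (n : ℕ) : Prop :=
  ∃ (E : Type u) (_ : Field E) (_ : CompatibleRing E) (ι : K →+* E) (B₀ : Set E)
    (B : Fin n → Set E) (z : Fin n → E),
    Good ℓ ι B₀ c e a b r ∧ (∀ i, Good ℓ ι (B i) c e a b r) ∧ ND E B₀ ∧
    (∀ m, ShatE ℓ E m → ShatE ℓ K m) ∧ (∀ i, KLarge ι B₀ (z i)) ∧
    (∀ i, KInf ι (B i) (z i)) ∧ (∀ i j, j ≠ i → KLarge ι (B i) (z j))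

theorem config_zero (ℓ : ℕ) (K : Type u) [Field K] [CompatibleRing K] (B : Set K)
    (c e a b r : K) (hB : Good ℓ (RingHom.id K) B c e a b r) (hND : ND K B) :
    Config ℓ K c e a b r 0 :=
  ⟨K, inferInstance, inferInstance, RingHom.id K, B, Fin.elim0, Fin.elim0, hB,
    fun i => i.elim0, hND, fun _ h => h, fun i => i.elim0, fun i => i.elim0, fun i => i.elim0⟩

theorem config_succ (ℓ : ℕ) (K : Type u) [Field K] (c e a b r : K) (n : ℕ)
    (h : Config ℓ K c e a b r n) : Config ℓ K c e a b r (n + 1) := by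
  obtain ⟨E, _, _, ι, B₀, B, z, hB₀, hB, hND, hSh, hz0, hz1, hz2⟩ := h
  -- the balls and filters
  let BB : Fin (n + 1) → Set E := Fin.cons B₀ B
  have hBB : ∀ j, VBall (BB j) (ι c) (ι e) := by
    intro j
    refine Fin.cases ?_ (fun j => ?_) j
    · exact hB₀.ball
    · exact (hB j).ball
  let F : Option (Fin (n + 1)) → Filter E := fun i =>
    match i with
    | none => nb0 hB₀.ball
    | some j => coB (hBB j)
  obtain ⟨U, hUF, hUag⟩ := exists_agreeing F
    {V : Set E | (univ : Set E).Definable₁ Language.ring V}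
    (by simp only [mem_ofPred_eq, Definable₁, mem_univ, ofPred_true]; exact definable_univ)
    (fun s hs t ht => by
      have := Set.Definable.inter hs ht
      exact this)
    (fun s hs => by
      have := Set.Definable.compl hs
      exact this)
    (by
      intro V hV hVF
      by_contra hcon
      rw [not_nonempty_iff_eq_empty] at hcon
      have hj : ∀ j : Fin (n + 1), ∃ a, a ≠ 0 ∧ ∀ x, ¬ BLe (BB j) x a → x ∈ V (some j) :=
        fun j => hVF (some j)
      choose av hav0 hav using hj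
      obtain ⟨ε, hε0, hε⟩ : ∃ a, a ≠ 0 ∧ ∀ x, x ≠ 0 → BLe B₀ x a → x ∈ V none := hVF none
      let Vs : Set E := {x | x = 0 ∨ ∃ j : Fin (n + 1), x ∉ V (some j)}
      have hVs1 : ∀ x, BLe B₀ x ε → x ∈ Vs := by
        intro x hx
        by_cases hx0 : x = 0
        · exact Or.inl hx0
        · right
          by_contra hno
          push Not at hno
          have : x ∈ ⋂ i, V i := by
            rw [mem_iInter]
            intro i
            cases i with
            | none => exact hε x hx0 hx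
            | some j => exact hno j
          rw [hcon] at this
          exact this
      have hVs2 : ∀ x ∈ Vs, ∃ j, BLe (BB j) x (av j) := by
        rintro x (rfl | ⟨j, hj⟩)
        · exact ⟨0, (hBB 0).zero_le _⟩
        · refine ⟨j, ?_⟩
          by_contra hno
          exact hj (hav j x hno)
      obtain ⟨γ, hbd, hnb⟩ := exists_bounded_nbhd hB₀.ball BB (fun _ => ι c) (fun _ => ι e) hBB
        Vs ε hε0 hVs1 av hav0 hVs2
      refine hND (USet Vs γ) (def_uset ?_ (mem_univ _)) hbd hnb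
      have h1 : (univ : Set E).Definable Language.ring
          ({x : Fin 1 → E | x 0 = 0} ∪ ⋃ j : Fin (n + 1), {x : Fin 1 → E | x 0 ∈ V (some j)}ᶜ) := by
        refine Definable.union ((dfun_var 0).ofPred_eq dfun_zero) ?_
        exact definable_iUnion_of_finite fun j => Definable.compl (hV (some j))
      unfold Definable₁
      convert h1 using 1
      ext x
      simp [Vs])
  have hag : ∀ i j, ∀ V : Set E, (univ : Set E).Definable₁ Language.ring V →
      (V ∈ U i ↔ V ∈ U j) := fun i j V hV => hUag i j V hV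
  let U₀ := U (some 0)
  let E' := Germ (U₀ : Filter E) E
  let κ : E →+* E' := germConst _ E
  let ι' : K →+* E' := κ.comp ι
  -- the embeddings
  choose I W g hg t ht htU using fun i : Fin n => exists_approx U₀ (U (some i.succ))
    (hag (some 0) (some i.succ))
  obtain ⟨I', W', g', hg', t', ht', htU'⟩ := exists_approx U₀ (U none) (hag (some 0) none)
  let B₀' : Set E' := pullB U₀ (RingHom.id _) B₀
  let B' : Fin (n + 1) → Set E' := Fin.snoc (α := fun _ => Set E')
    (fun i => pullB (W i) (g i) (B i)) (pullB W' g' B₀)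
  let z' : Fin (n + 1) → E' := Fin.snoc (α := fun _ => E') (fun i => κ (z i)) (Germ.ofFun id)
  have hB'1 : ∀ i : Fin n, B' i.castSucc = pullB (W i) (g i) (B i) := fun i => by
    simp [B']
  have hB'2 : B' (Fin.last n) = pullB W' g' B₀ := by simp [B']
  have hz'1 : ∀ i : Fin n, z' i.castSucc = κ (z i) := fun i => by simp [z']
  have hz'2 : z' (Fin.last n) = Germ.ofFun id := by simp [z']
  have hU0 : ∀ a : E, {x | ¬ BLe B₀ x a} ∈ U₀ := fun a => hUF (some 0) (mem_coB hB₀.ball)
  have hUi : ∀ (i : Fin n) (a : E), {x | ¬ BLe (B i) x a} ∈ U (some i.succ) := fun i a =>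
    hUF (some i.succ) (mem_coB (hB i).ball)
  have hUn : ∀ a : E, a ≠ 0 → {x | BLe B₀ x a} ∈ U none := fun a ha =>
    hUF none (mem_nb0 hB₀.ball ha)
  have hgι : ∀ i k, g i (ι' k) = germConst _ E (ι k) := fun i k => hg i (ι k)
  have hgι' : ∀ k, g' (ι' k) = germConst _ E (ι k) := fun k => hg' (ι k)
  have hgκ : ∀ i x, g i (κ x) = germConst _ E x := fun i x => hg i x
  have hgκ' : ∀ x, g' (κ x) = germConst _ E x := fun x => hg' x
  refine ⟨E', Germ.instField, germCompat U₀ E, ι', B₀', B', z', ?_, ?_, ?_, ?_, ?_, ?_, ?_⟩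
  · exact hB₀.pull (fun k => rfl)
  · intro i
    refine Fin.lastCases ?_ (fun i => ?_) i
    · rw [hB'2]; exact hB₀.pull (fun k => hg' _)
    · rw [hB'1]; exact (hB i).pull (fun k => hg i _)
  · exact nd_germ U₀ hB₀.ball hND
  · intro m hm
    exact hSh m (shatE_germ U₀ m hm)
  · intro i k
    refine Fin.lastCases ?_ (fun i => ?_) i
    · rw [hz'2, ble_pullB hB₀.ball.zero (f := id) (h := fun _ => ι k) rfl rfl,
        ← Ultrafilter.eventually_not]
      exact hU0 (ι k)
    · rw [hz'1, ble_pullB hB₀.ball.zero (f := fun _ => z i) (h := fun _ => ι k) rfl rfl,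
        Filter.eventually_const]
      exact hz0 i k
  · intro i k hk
    have hk' : ι k ≠ 0 := by rwa [map_ne_zero]
    refine Fin.lastCases ?_ (fun i => ?_) i
    · rw [hz'2, hB'2, ble_pullB hB₀.ball.zero (f := t') (h := fun _ => ι k) ht' (hgι' k)]
      exact htU' _ (hUn _ hk')
    · rw [hz'1, hB'1, ble_pullB (hB i).ball.zero (f := fun _ => z i) (h := fun _ => ι k)
        (hgκ i _) (hgι i k), Filter.eventually_const]
      exact hz1 i k hk
  · intro i j hj k
    revert hj
    refine Fin.lastCases ?_ (fun i => ?_) i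
    · refine Fin.lastCases ?_ (fun j => ?_) j
      · intro hj; exact absurd rfl hj
      · intro _
        rw [hz'1, hB'2, ble_pullB hB₀.ball.zero (f := fun _ => z j) (h := fun _ => ι k)
          (hgκ' _) (hgι' k), Filter.eventually_const]
        exact hz0 j k
    · refine Fin.lastCases ?_ (fun j => ?_) j
      · intro _
        rw [hz'2, hB'1, ble_pullB (hB i).ball.zero (f := t i) (h := fun _ => ι k) (ht i)
          (hgι i k), ← Ultrafilter.eventually_not]
        exact htU i _ (hUi i (ι k))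
      · intro hj
        rw [hz'1, hB'1, ble_pullB (hB i).ball.zero (f := fun _ => z j) (h := fun _ => ι k)
          (hgκ i _) (hgι i k), Filter.eventually_const]
        exact hz2 i j (fun h => hj (by rw [h])) k

end Pool.Agent.NIPFields
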