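import Mathlib
import Pool.Agent.NIPFields.Config
import Pool.Agent.NIPFields.Definable

set_option autoImplicit false

/-!
# Definability of V-topologies in NIP fields
-/

namespace Pool.Agent.NIPFields

open FirstOrder FirstOrder.Language FirstOrder.Ring Set Filter

universe u

/-- In an NIP field the norm relation does not shatter arbitrarily large finite sets. -/
theorem NIP.exists_not_shatE {K : Type u} [Field K] [CompatibleRing K] (hK : NIP K) (ℓ : ℕ) :
    ∃ n, ¬ ShatE ℓ K n := by
  let e : Module.Basis (Fin (Module.finrank K K)) K K := Module.finBasis K K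
  obtain ⟨A, hA, hdef⟩ := definable_NS e ℓ
  obtain ⟨n, hn⟩ := hK.definable A hA _ hdef
  refine ⟨n, ?_⟩
  rintro ⟨b, x, hbx⟩
  obtain ⟨i, J, hiJ⟩ := hn (fun i k => e.repr (b i) k) (fun J k => e.repr (x J) k)
  apply hiJ
  rw [Set.mem_ofPred_eq, Sum.elim_comp_inl, Sum.elim_comp_inr, toL_repr, toL_repr]
  exact hbx i J

theorem config_all (ℓ : ℕ) (K : Type u) [Field K] [CompatibleRing K] (B : Set K)
    (c e a b r : K) (hB : Good ℓ (RingHom.id K) B c e a b r) (hND : ND K B) (n : ℕ) :
    Config ℓ K c e a b r n := by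
  induction n with
  | zero => exact config_zero ℓ K B c e a b r hB hND
  | succ n ih => exact config_succ ℓ K c e a b r n ih

/-- In an NIP field the topology of every V-ball for which the norm relation is not dense is
definable in the language of rings. -/
theorem exists_definable_nbhd {K : Type u} [Field K] [CompatibleRing K] (hK : NIP K) (ℓ : ℕ)
    [NeZero ℓ] (hℓ : (ℓ : K) ≠ 0) (B : Set K) (c e a b r : K) (hr : r ≠ 0) (hB : VBall B c e)
    (hbox : ∀ x y, BLe B (x - a) r → BLe B (y - b) r → x ∉ NS ℓ y) :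
    ∃ U : Set K, (univ : Set K).Definable₁ Language.ring U ∧
      (∃ s : K, s ≠ 0 ∧ ∀ x ∈ U, BLe B x s) ∧ (∃ t : K, t ≠ 0 ∧ ∀ x, BLe B x t → x ∈ U) := by
  by_contra hcon
  have hND : ND K B := fun U hU h1 h2 => hcon ⟨U, hU, h1, h2⟩
  have hG : Good ℓ (RingHom.id K) B c e a b r := ⟨hB, hbox⟩
  obtain ⟨n, hn⟩ := hK.exists_not_shatE ℓ
  obtain ⟨E, _, _, ι, B₀, BB, z, _, hBB, _, hSh, _, hz1, hz2⟩ :=
    config_all ℓ K B c e a b r hG hND n
  apply hn
  apply hSh
  exact shatter_of_pattern ι hℓ n BB (fun _ => c) (fun _ => e) (fun i => (hBB i).ball)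
    (fun _ => a) (fun _ => b) (fun _ => r) (fun _ => hr) (fun i => (hBB i).box) z hz1 hz2

end Pool.Agent.NIPFields
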