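import Mathlib
import Pool.Agent.NIPFields.NormForm

set_option autoImplicit false

namespace Pool.Agent.NIPFields

open Polynomial IntermediateField

variable {K : Type*} [Field K] {ℓ : ℕ} [hℓp : Fact ℓ.Prime]

theorem val_pow_ne (A : ValuationSubring K) (b : K)
    (hb : ∀ c : K, A.valuation b ≠ A.valuation c ^ ℓ) (k : ℕ) (hk0 : 0 < k) (hkℓ : k < ℓ)
    (c : K) : A.valuation b ^ k ≠ A.valuation c ^ ℓ := by
  intro h
  have hcop : Nat.Coprime k ℓ :=
    (Nat.coprime_of_lt_prime hk0.ne' hkℓ hℓp.out).symm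
  have hb0 : b ≠ 0 := by
    rintro rfl
    exact hb 0 (by rw [map_zero, zero_pow hℓp.out.ne_zero])
  have hvb : A.valuation b ≠ 0 := (Valuation.ne_zero_iff _).2 hb0
  obtain ⟨s, -, hs⟩ := Nat.exists_mul_mod_eq_one_of_coprime hcop hℓp.out.one_lt
  obtain ⟨t, ht⟩ : ∃ t, k * s = 1 + ℓ * t := ⟨k * s / ℓ, by
    rw [← hs]; exact (Nat.mod_add_div _ _).symm⟩
  apply hb (c ^ s / b ^ t)
  have h1 : A.valuation b ^ (k * s) = A.valuation c ^ (ℓ * s) := by
    rw [pow_mul, h, pow_mul]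
  rw [ht, pow_add, pow_one] at h1
  rw [map_div₀, map_pow, map_pow, div_pow, ← pow_mul, ← pow_mul, eq_div_iff (pow_ne_zero _ hvb),
    mul_comm t ℓ, h1, mul_comm s ℓ]

/-- If the value of `b` is not divisible by `ℓ` and `f` is a unit whose residue is not an
`ℓ`-th power, then `f` is not a norm from `K(b^{1/ℓ})`. -/
theorem not_mem_NS (A : ValuationSubring K) (hℓ0 : (ℓ : K) ≠ 0) (b f u : K)
    (hb : ∀ c : K, A.valuation b ≠ A.valuation c ^ ℓ) (hu1 : A.valuation u = 1)
    (hu : ∀ c : K, ¬ A.valuation (u - c ^ ℓ) < 1) (hf : A.valuation (f - u) < 1) :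
    f ∉ NS ℓ b := by
  classical
  have hℓpos : 0 < ℓ := hℓp.out.pos
  have hb0 : b ≠ 0 := by
    rintro rfl
    exact hb 0 (by rw [map_zero, zero_pow hℓp.out.ne_zero])
  have hbpow : ∀ c : K, c ^ ℓ ≠ b := by
    intro c hc
    exact hb c (by rw [← hc, map_pow])
  have hf1 : A.valuation f = 1 := by
    have h1 : f = (f - u) + u := by ring
    rw [h1, Valuation.map_add_eq_of_lt_right _ (by rwa [hu1]), hu1]
  have hf0 : f ≠ 0 := by rintro rfl; rw [map_zero] at hf1; exact zero_ne_one hf1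
  intro hmem
  set Ω := AlgebraicClosure K with hΩ
  obtain ⟨B, hB⟩ := exists_extension (Ω := Ω) A
  have hBone : ∀ x : K, B.valuation (algebraMap K Ω x) = 1 ↔ A.valuation x = 1 := by
    intro x
    constructor
    · intro hx
      refine le_antisymm ((hB x).1.1 hx.le) (not_lt.1 fun h => ?_)
      exact ((hB x).2.2 h).ne hx
    · intro hx
      refine le_antisymm ((hB x).1.2 hx.le) (not_lt.1 fun h => ?_)
      exact ((hB x).2.1 h).ne hx
  have hBeq : ∀ x y : K, y ≠ 0 → B.valuation (algebraMap K Ω x) = B.valuation (algebraMap K Ω y) →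
      A.valuation x = A.valuation y := by
    intro x y hy h
    have hy' : B.valuation (algebraMap K Ω y) ≠ 0 := by
      rw [Valuation.ne_zero_iff]; simpa using hy
    have hy'' : A.valuation y ≠ 0 := by rwa [Valuation.ne_zero_iff]
    have h1 : B.valuation (algebraMap K Ω (x / y)) = 1 := by
      rw [map_div₀, map_div₀, h, div_self hy']
    rw [hBone, map_div₀, div_eq_one_iff_eq hy''] at h1
    exact h1
  obtain ⟨γ, hγ⟩ := IsAlgClosed.exists_pow_nat_eq (algebraMap K Ω b) hℓpos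
  have hγint : IsIntegral K γ := Algebra.IsIntegral.isIntegral γ
  have hfd := IntermediateField.adjoin.finiteDimensional hγint
  have hγsep : IsSeparable K γ := by
    have h1 : (X ^ ℓ - C b).Separable := separable_X_pow_sub_C b hℓ0 hb0
    refine h1.of_dvd (minpoly.dvd K γ ?_)
    simp [hγ]
  have hsep : Algebra.IsSeparable K K⟮γ⟯ :=
    (IntermediateField.isSeparable_adjoin_simple_iff_isSeparable K Ω).2 hγsep
  obtain ⟨𝓑, h𝓑⟩ := exists_basis γ b hγ hbpow
  set δ := AdjoinSimple.gen K γ with hδ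
  have hδℓ : δ ^ ℓ = algebraMap K K⟮γ⟯ b := Subtype.ext hγ
  have hδ0 : δ ≠ 0 := by
    intro h
    rw [h, zero_pow hℓpos.ne'] at hδℓ
    exact hb0 (by simpa using hδℓ.symm)
  obtain ⟨x, hx⟩ := (NS_eq_range γ b hγ hbpow f).1 hmem
  have hx0 : x ≠ 0 := by rintro rfl; rw [Algebra.norm_zero] at hx; exact hf0 hx.symm
  set w := B.valuation with hw
  -- the common value of the conjugates of `δ`
  set c := w γ with hc
  have hcℓ : c ^ ℓ = w (algebraMap K Ω b) := by rw [hc, ← map_pow, hγ]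
  have hc0 : c ≠ 0 := by
    rw [hc, Valuation.ne_zero_iff]
    rintro rfl
    rw [zero_pow hℓpos.ne'] at hγ
    exact hb0 (by simpa using hγ.symm)
  have hσδ : ∀ σ : K⟮γ⟯ →ₐ[K] Ω, w (σ δ) = c := by
    intro σ
    have h1 : w (σ δ) ^ ℓ = c ^ ℓ := by
      rw [← map_pow, ← map_pow, hδℓ, AlgHom.commutes, hcℓ]
    exact (pow_left_inj₀ zero_le zero_le hℓpos.ne').1 h1
  -- the coordinates
  let z : Fin ℓ → K := fun i => 𝓑.repr x i
  have hxz : x = ∑ i, z i • δ ^ (i : ℕ) := by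
    conv_lhs => rw [← 𝓑.sum_repr x]
    exact Finset.sum_congr rfl (fun i _ => by rw [h𝓑])
  let t : Fin ℓ → B.ValueGroup := fun i => w (algebraMap K Ω (z i)) * c ^ (i : ℕ)
  have hne : Nonempty (Fin ℓ) := ⟨⟨0, hℓpos⟩⟩
  obtain ⟨i₀, hi₀⟩ := Finite.exists_max t
  have hzi₀ : z i₀ ≠ 0 := by
    intro h
    apply hx0
    rw [hxz]
    refine Finset.sum_eq_zero (fun i _ => ?_)
    have h1 : t i₀ = 0 := by simp [t, h]
    have h2 : t i = 0 := le_antisymm (by rw [← h1]; exact hi₀ i) zero_le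
    have h3 : z i = 0 := by
      simp only [t, mul_eq_zero, pow_eq_zero_iff', hc0, false_and, or_false] at h2
      simpa using h2
    rw [h3, zero_smul]
  have ht₀ : t i₀ ≠ 0 := by
    simp only [t]
    refine mul_ne_zero ?_ (pow_ne_zero _ hc0)
    rw [Valuation.ne_zero_iff]; simpa using hzi₀
  have huniq : ∀ i, i ≠ i₀ → t i < t i₀ := by
    intro i hi
    refine lt_of_le_of_ne (hi₀ i) (fun heq => ?_)
    have hzi : z i ≠ 0 := by
      intro h
      have : t i = 0 := by simp [t, h]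
      exact ht₀ (heq ▸ this)
    have h1 : t i ^ ℓ = t i₀ ^ ℓ := by rw [heq]
    have h2 : ∀ k, t k ^ ℓ = w (algebraMap K Ω (z k ^ ℓ * b ^ (k : ℕ))) := by
      intro k
      have e1 : w (algebraMap K Ω (z k ^ ℓ * b ^ (k : ℕ))) =
          w (algebraMap K Ω (z k)) ^ ℓ * (w (algebraMap K Ω b)) ^ (k : ℕ) := by
        simp only [map_mul, map_pow]
      rw [e1, ← hcℓ]
      simp only [t]
      rw [mul_pow, ← pow_mul, ← pow_mul, mul_comm (k : ℕ) ℓ]
    rw [h2, h2] at h1
    have h3 := hBeq _ _ (mul_ne_zero (pow_ne_zero _ hzi₀) (pow_ne_zero _ hb0)) h1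
    rw [map_mul, map_mul, map_pow, map_pow, map_pow, map_pow] at h3
    have hv1 : A.valuation (z i) ≠ 0 := (Valuation.ne_zero_iff _).2 hzi
    have hv2 : A.valuation (z i₀) ≠ 0 := (Valuation.ne_zero_iff _).2 hzi₀
    have hvb : A.valuation b ≠ 0 := (Valuation.ne_zero_iff _).2 hb0
    rcases lt_or_gt_of_ne (fun h => hi (Fin.ext h) : (i : ℕ) ≠ i₀) with hlt | hlt
    · refine val_pow_ne A b hb (i₀ - i) (by omega) (by omega) (z i / z i₀) ?_
      rw [map_div₀, div_pow, eq_div_iff (pow_ne_zero _ hv2)]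
      have h4 : A.valuation b ^ (i₀ : ℕ) = A.valuation b ^ ((i₀ : ℕ) - i) *
          A.valuation b ^ (i : ℕ) := by rw [← pow_add]; congr 1; omega
      rw [h4] at h3
      have h5 : A.valuation (z i) ^ ℓ * A.valuation b ^ (i : ℕ) =
          (A.valuation b ^ ((i₀ : ℕ) - i) * A.valuation (z i₀) ^ ℓ) *
            A.valuation b ^ (i : ℕ) := by rw [h3]; ac_rfl
      exact (mul_right_cancel₀ (pow_ne_zero _ hvb) h5).symm
    · refine val_pow_ne A b hb (i - i₀) (by omega) (by omega) (z i₀ / z i) ?_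
      rw [map_div₀, div_pow, eq_div_iff (pow_ne_zero _ hv1)]
      have h4 : A.valuation b ^ (i : ℕ) = A.valuation b ^ ((i : ℕ) - i₀) *
          A.valuation b ^ (i₀ : ℕ) := by rw [← pow_add]; congr 1; omega
      rw [h4] at h3
      have h5 : A.valuation (z i₀) ^ ℓ * A.valuation b ^ (i₀ : ℕ) =
          (A.valuation b ^ ((i : ℕ) - i₀) * A.valuation (z i) ^ ℓ) *
            A.valuation b ^ (i₀ : ℕ) := by rw [← h3]; ac_rfl
      exact (mul_right_cancel₀ (pow_ne_zero _ hvb) h5).symm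
  -- the quotient of `x` by its dominating term
  set m : K⟮γ⟯ := algebraMap K K⟮γ⟯ (z i₀) * δ ^ (i₀ : ℕ) with hm
  have hm0 : m ≠ 0 := mul_ne_zero (by simpa using hzi₀) (pow_ne_zero _ hδ0)
  have hσm : ∀ σ : K⟮γ⟯ →ₐ[K] Ω, w (σ m) = t i₀ := by
    intro σ
    simp only [hm, t]
    rw [map_mul, map_pow, AlgHom.commutes, map_mul, map_pow, hσδ]
  have hσx : ∀ σ : K⟮γ⟯ →ₐ[K] Ω, w (σ (x / m) - 1) < 1 := by
    intro σ
    have h1 : σ x - σ m = ∑ i ∈ Finset.univ.erase i₀, algebraMap K Ω (z i) * σ δ ^ (i : ℕ) := by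
      have h2 : σ x = ∑ i, algebraMap K Ω (z i) * σ δ ^ (i : ℕ) := by
        conv_lhs => rw [hxz]
        rw [map_sum]
        refine Finset.sum_congr rfl (fun i _ => ?_)
        rw [Algebra.smul_def, map_mul, map_pow, AlgHom.commutes]
      have h3 : σ m = algebraMap K Ω (z i₀) * σ δ ^ (i₀ : ℕ) := by
        simp only [hm]
        rw [map_mul, map_pow, AlgHom.commutes]
      rw [h2, h3, ← Finset.add_sum_erase _ _ (Finset.mem_univ i₀)]
      ring
    have h4 : w (σ x - σ m) < t i₀ := by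
      rw [h1]
      refine Valuation.map_sum_lt _ ht₀ (fun i hi => ?_)
      rw [map_mul, map_pow, hσδ]
      exact huniq i (Finset.ne_of_mem_erase hi)
    have hσm0 : σ m ≠ 0 := by
      intro h
      have := hσm σ
      rw [h, map_zero] at this
      exact ht₀ this.symm
    have h5 : σ (x / m) - 1 = (σ x - σ m) / σ m := by
      rw [map_div₀, sub_div, div_self hσm0]
    rw [h5, map_div₀, hσm, div_lt_one₀ (zero_lt_iff.2 ht₀)]
    exact h4
  have hNy : A.valuation (Algebra.norm K (x / m) - 1) < 1 := by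
    have h1 := cong_prod B Finset.univ (fun σ : K⟮γ⟯ →ₐ[K] Ω => σ (x / m)) (fun _ => 1)
      (fun σ _ => by
        have h2 : σ (x / m) = (σ (x / m) - 1) + 1 := by ring
        rw [h2]
        exact (Valuation.map_add _ _ _).trans (max_le (hσx σ).le (by rw [map_one])))
      (fun _ _ => by rw [map_one]) (fun σ _ => hσx σ)
    rw [← Algebra.norm_eq_prod_embeddings, Finset.prod_const_one, ← map_one (algebraMap K Ω),
      ← map_sub] at h1
    exact (hB _).2.1 h1
  have hNy1 : A.valuation (Algebra.norm K (x / m)) = 1 := by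
    have h2 : Algebra.norm K (x / m) = (Algebra.norm K (x / m) - 1) + 1 := by ring
    rw [h2, Valuation.map_add_eq_of_lt_right _ (by simpa using hNy), map_one]
  have hfinrank : Module.finrank K K⟮γ⟯ = ℓ := by
    rw [Module.finrank_eq_card_basis 𝓑, Fintype.card_fin]
  have hNm : Algebra.norm K m = z i₀ ^ ℓ * Algebra.norm K δ ^ (i₀ : ℕ) := by
    rw [hm, map_mul, map_pow, Algebra.norm_algebraMap, hfinrank]
  have hNδ : A.valuation (Algebra.norm K δ) = A.valuation b := by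
    have h1 : Algebra.norm K δ ^ ℓ = b ^ ℓ := by
      rw [← map_pow, hδℓ, Algebra.norm_algebraMap, hfinrank]
    have h2 : A.valuation (Algebra.norm K δ) ^ ℓ = A.valuation b ^ ℓ := by
      rw [← map_pow, h1, map_pow]
    exact (pow_left_inj₀ zero_le zero_le hℓpos.ne').1 h2
  have hfeq : f = z i₀ ^ ℓ * Algebra.norm K δ ^ (i₀ : ℕ) * Algebra.norm K (x / m) := by
    rw [← hNm, ← map_mul, mul_div_cancel₀ _ hm0, hx]
  have hvz : A.valuation (z i₀) ≠ 0 := (Valuation.ne_zero_iff _).2 hzi₀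
  have hval : A.valuation b ^ (i₀ : ℕ) = A.valuation (z i₀)⁻¹ ^ ℓ := by
    have h1 := congrArg A.valuation hfeq
    rw [hf1, map_mul, map_mul, hNy1, mul_one, map_pow, map_pow, hNδ] at h1
    rw [map_inv₀, inv_pow]
    exact eq_inv_of_mul_eq_one_right h1.symm
  by_cases hi : (i₀ : ℕ) = 0
  · rw [hi, pow_zero, mul_one] at hfeq
    rw [hi, pow_zero, map_inv₀, inv_pow, eq_comm, inv_eq_one] at hval
    apply hu (z i₀)
    have h1 : u - z i₀ ^ ℓ = (f - z i₀ ^ ℓ) - (f - u) := by ring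
    rw [h1]
    refine Valuation.map_sub_lt _ ?_ hf
    have h2 : f - z i₀ ^ ℓ = z i₀ ^ ℓ * (Algebra.norm K (x / m) - 1) := by rw [hfeq]; ring
    rw [h2, map_mul, map_pow, hval, one_mul]
    exact hNy
  · exact val_pow_ne A b hb i₀ (Nat.pos_of_ne_zero hi) i₀.2 _ hval

end Pool.Agent.NIPFields
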