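import Mathlib
import Pool.Agent.NIPFields.AddPoly2

set_option autoImplicit false

/-!
# Frobenius-fixed elements
-/

namespace Pool.Agent.NIPFields

open IsLocalRing

section

variable {p : ℕ} [hp : Fact p.Prime]

theorem exists_nat_of_pow {F : Type*} [Field F] [CharP F p] {x : F} (hx : x ^ p = x) :
    ∃ n : ℕ, x = n := by
  obtain ⟨t, ht⟩ := exists_σF hx
  refine ⟨t.val, ?_⟩
  rw [ht]
  conv_lhs => rw [← ZMod.natCast_zmod_val t]
  rw [map_natCast]

variable {O : Type*} [CommRing O] [IsLocalRing O] [CharP (ResidueField O) p]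
  {C : Type*} [CommRing C] [Algebra O C] [CharP C p]

/-- A linear relation between Frobenius-fixed elements gives a linear relation over the prime
field. -/
theorem exists_dep (hC : ∀ m ∈ maximalIdeal O, algebraMap O C m = 0) {ι : Type*} [DecidableEq ι]
    (x : ι → C) (hx : ∀ i, x i ^ p = x i) (s : Finset ι) :
    ∀ a : ι → O, (∃ i ∈ s, IsUnit (a i)) → ∑ i ∈ s, a i • x i = 0 →
      ∃ ν : ι → ℕ, (∃ i ∈ s, ¬ p ∣ ν i) ∧ ∑ i ∈ s, ν i • x i = 0 := by
  induction s using Finset.strongInduction with
  | H s ih =>
    rintro a ⟨i, his, u, hu⟩ hsum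
    let b : ι → O := fun j => (↑u⁻¹ : O) * a j
    have hbi : b i = 1 := by
      simp only [b, ← hu, Units.inv_mul]
    have hbsum : ∑ j ∈ s, b j • x j = 0 := by
      simp only [b, mul_smul, ← Finset.smul_sum, hsum, smul_zero]
    by_cases hall : ∀ j ∈ s, b j ^ p - b j ∈ maximalIdeal O
    · have hν : ∀ j, ∃ n : ℕ, j ∈ s → b j - n ∈ maximalIdeal O := by
        intro j
        by_cases hj : j ∈ s
        · have h1 : (residue O (b j)) ^ p = residue O (b j) := by
            rw [← map_pow, ← sub_eq_zero, ← map_sub, residue_eq_zero_iff]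
            exact hall j hj
          obtain ⟨n, hn⟩ := exists_nat_of_pow h1
          refine ⟨n, fun _ => ?_⟩
          rw [← residue_eq_zero_iff, map_sub, hn, map_natCast, sub_self]
        · exact ⟨0, fun h => absurd h hj⟩
      choose ν hν using hν
      refine ⟨ν, ⟨i, his, ?_⟩, ?_⟩
      · intro hdvd
        have h1 := hν i his
        rw [hbi, ← residue_eq_zero_iff, map_sub, map_one, map_natCast,
          (CharP.cast_eq_zero_iff (ResidueField O) p _).2 hdvd, sub_zero] at h1
        exact one_ne_zero h1
      · rw [← hbsum]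
        refine Finset.sum_congr rfl (fun j hj => ?_)
        have h1 := hC _ (hν j hj)
        rw [map_sub, map_natCast, sub_eq_zero] at h1
        rw [nsmul_eq_mul, Algebra.smul_def (b j), h1]
    · push Not at hall
      obtain ⟨j, hjs, hj⟩ := hall
      have hji : j ≠ i := by
        rintro rfl
        apply hj
        rw [hbi, one_pow, sub_self]
        exact Submodule.zero_mem _
      have hfrob : ∑ j ∈ s, (b j ^ p - b j) • x j = 0 := by
        simp only [sub_smul, Finset.sum_sub_distrib, hbsum, sub_zero]
        have h1 : (∑ j ∈ s, b j • x j) ^ p = ∑ j ∈ s, b j ^ p • x j := by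
          rw [sum_pow_char]
          refine Finset.sum_congr rfl (fun j _ => ?_)
          rw [smul_pow, hx]
        rw [← h1, hbsum, zero_pow hp.out.ne_zero]
      have hfrob' : ∑ j ∈ s.erase i, (b j ^ p - b j) • x j = 0 := by
        rw [← Finset.add_sum_erase _ _ his, hbi, one_pow, sub_self, zero_smul, zero_add] at hfrob
        exact hfrob
      obtain ⟨ν, ⟨i', hi', hνi'⟩, hν⟩ := ih (s.erase i) (Finset.erase_ssubset his)
        (fun j => b j ^ p - b j) ⟨j, Finset.mem_erase.2 ⟨hji, hjs⟩, by
          by_contra h
          exact hj ((mem_maximalIdeal _).2 h)⟩ hfrob'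
      refine ⟨Function.update ν i 0, ⟨i', Finset.mem_of_mem_erase hi', ?_⟩, ?_⟩
      · rwa [Function.update_of_ne (Finset.ne_of_mem_erase hi')]
      · rw [← Finset.add_sum_erase _ _ his, Function.update_self, zero_smul, zero_add, ← hν]
        refine Finset.sum_congr rfl (fun j hj => ?_)
        rw [Function.update_of_ne (Finset.ne_of_mem_erase hj)]

/-- The set of Frobenius-fixed elements is finite if it contains no `n + 1` independent
elements. -/
theorem finite_fixed (hC : ∀ m ∈ maximalIdeal O, algebraMap O C m = 0) (n : ℕ)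
    (hdep : ∀ x : Fin n → C, (∀ i, x i ^ p = x i) → ∃ a : Fin n → O, (∃ i, IsUnit (a i)) ∧
      ∑ i, a i • x i = 0) : {x : C | x ^ p = x}.Finite := by
  classical
  let _ : Algebra (ZMod p) C := ZMod.algebra C p
  let V : Submodule (ZMod p) C :=
    { carrier := {x : C | x ^ p = x}
      zero_mem' := by
        change (0 : C) ^ p = 0
        rw [zero_pow hp.out.ne_zero]
      add_mem' := by
        intro x y hx hy
        change (x + y) ^ p = x + y
        rw [add_pow_char, show x ^ p = x from hx, show y ^ p = y from hy]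
      smul_mem' := by
        intro c x hx
        change (c • x) ^ p = c • x
        rw [smul_pow, show x ^ p = x from hx, ZMod.pow_card] }
  suffices h : Finite V by exact h
  by_contra hV
  have hV' : Infinite V := not_finite_iff_infinite.1 hV
  let b := Module.Basis.ofVectorSpace (ZMod p) V
  have hinf : Infinite (Module.Basis.ofVectorSpaceIndex (ZMod p) V) := by
    by_contra h
    rw [not_infinite_iff_finite] at h
    have h1 : Module.Finite (ZMod p) V := Module.Finite.of_basis b
    exact hV (Module.finite_of_finite (ZMod p))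
  let emb : Fin n ↪ Module.Basis.ofVectorSpaceIndex (ZMod p) V :=
    Fin.valEmbedding.trans (Infinite.natEmbedding _)
  have hli : LinearIndependent (ZMod p) (fun i => b (emb i)) :=
    b.linearIndependent.comp _ emb.injective
  obtain ⟨a, ⟨i, hi⟩, ha⟩ := hdep (fun i => ((b (emb i) : V) : C)) (fun i => (b (emb i)).2)
  obtain ⟨ν, ⟨j, _, hj⟩, hν⟩ := exists_dep (p := p) hC (fun i => ((b (emb i) : V) : C))
    (fun i => (b (emb i)).2) Finset.univ a ⟨i, Finset.mem_univ _, hi⟩ ha
  rw [Fintype.linearIndependent_iff] at hli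
  have h1 := hli (fun i => (ν i : ZMod p)) (by
    apply Subtype.ext
    rw [AddSubmonoidClass.coe_finsetSum, ZeroMemClass.coe_zero, ← hν]
    refine Finset.sum_congr rfl (fun k _ => ?_)
    rw [SetLike.val_smul, Nat.cast_smul_eq_nsmul]) j
  exact hj ((ZMod.natCast_eq_zero_iff _ _).1 h1)

end

end Pool.Agent.NIPFields
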