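import Mathlib
import Pool.Agent.NIPFields.Frob

set_option autoImplicit false

/-!
# Integral closures of valuation rings in finite extensions
-/

namespace Pool.Agent.NIPFields

open IsLocalRing

section

variable {O : Type*} [CommRing O] [IsDomain O] [ValuationRing O] {K : Type*} [Field K]
  [Algebra O K] [IsFractionRing O K] {L : Type*} [Field L] [Algebra K L] [FiniteDimensional K L]
  [Algebra O L] [IsScalarTower O K L]

variable (O L) in
/-- The ideal generated by the maximal ideal of the valuation ring. -/
noncomputable def JId : Ideal (integralClosure O L) :=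
  (maximalIdeal O).map (algebraMap O (integralClosure O L))

theorem JId_le (n : Ideal (integralClosure O L)) [n.IsMaximal] : JId O L ≤ n := by
  have h1 : (n.comap (algebraMap O (integralClosure O L))).IsMaximal :=
    Ideal.isMaximal_comap_of_isIntegral_of_isMaximal n
  have h2 := IsLocalRing.eq_maximalIdeal h1
  unfold JId
  rw [Ideal.map_le_iff_le_comap, h2]

theorem mem_maximal_of_mem (n : Ideal (integralClosure O L)) [n.IsMaximal] {a : O}
    (h : algebraMap O (integralClosure O L) a ∈ n) : a ∈ maximalIdeal O := by
  have h1 : (n.comap (algebraMap O (integralClosure O L))).IsMaximal :=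
    Ideal.isMaximal_comap_of_isIntegral_of_isMaximal n
  rw [← IsLocalRing.eq_maximalIdeal h1]
  exact h

theorem JId_ne_top : JId O L ≠ ⊤ := by
  obtain ⟨n, hn⟩ := Ideal.exists_maximal (integralClosure O L)
  intro h
  exact hn.ne_top (top_le_iff.1 (h ▸ JId_le n))

/-- Elements of `J` are multiples of elements of the maximal ideal. -/
theorem mem_JId {x : integralClosure O L} (hx : x ∈ JId O L) :
    ∃ m ∈ maximalIdeal O, ∃ b : integralClosure O L, x = m • b := by
  unfold JId at hx
  rw [Ideal.map] at hx
  induction hx using Submodule.span_induction with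
  | mem x hx =>
    obtain ⟨m, hm, rfl⟩ := hx
    exact ⟨m, hm, 1, (Algebra.algebraMap_eq_smul_one m)⟩
  | zero => exact ⟨0, Submodule.zero_mem _, 0, by simp⟩
  | add x y _ _ hx hy =>
    obtain ⟨m, hm, b, rfl⟩ := hx
    obtain ⟨m', hm', b', rfl⟩ := hy
    rcases ValuationRing.dvd_total m m' with ⟨c, rfl⟩ | ⟨c, rfl⟩
    · exact ⟨m, hm, b + c • b', by rw [smul_add, mul_smul]⟩
    · exact ⟨m', hm', c • b + b', by rw [smul_add, mul_smul]⟩
  | smul a x _ hx =>
    obtain ⟨m, hm, b, rfl⟩ := hx
    exact ⟨m, hm, a * b, by rw [smul_eq_mul, mul_smul_comm]⟩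

variable (K) in
/-- Integral elements satisfy monic equations of degree `[L : K]`. -/
theorem exists_monic_rel (b : integralClosure O L) :
    ∃ a : Fin (Module.finrank K L) → O,
      b ^ (Module.finrank K L) + ∑ j, a j • b ^ (j : ℕ) = 0 := by
  have hint : IsIntegral O (b : L) := b.2
  have hmin := minpoly.isIntegrallyClosed_eq_field_fractions' K hint
  have hdeg : (minpoly O (b : L)).natDegree ≤ Module.finrank K L := by
    have h1 : (minpoly K (b : L)).natDegree = (minpoly O (b : L)).natDegree := by
      rw [hmin, (minpoly.monic hint).natDegree_map]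
    rw [← h1]
    exact minpoly.natDegree_le _
  let n := Module.finrank K L
  let q : Polynomial O := Polynomial.X ^ (n - (minpoly O (b : L)).natDegree) * minpoly O (b : L)
  have hqm : q.Monic := (Polynomial.monic_X_pow _).mul (minpoly.monic hint)
  have hqd : q.natDegree = n := by
    rw [(Polynomial.monic_X_pow _).natDegree_mul (minpoly.monic hint),
      Polynomial.natDegree_X_pow]
    omega
  have hq0 : Polynomial.aeval b q = 0 := by
    apply Subtype.ext
    have h1 := Polynomial.aeval_algHom_apply (integralClosure O L).val b q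
    have h2 : Polynomial.aeval (b : L) q = 0 := by
      rw [map_mul, minpoly.aeval, mul_zero]
    exact h1.symm.trans h2
  refine ⟨fun j => q.coeff j, ?_⟩
  rw [Polynomial.aeval_eq_sum_range, hqd, Finset.sum_range_succ] at hq0
  have h2 : q.coeff n = 1 := by
    rw [← hqd]; exact hqm.coeff_natDegree
  rw [h2, one_smul, add_comm] at hq0
  rw [← hq0]
  congr 1
  exact (Fin.sum_univ_eq_sum_range (fun i => q.coeff i • b ^ i) n)

/-- Elements of `J` satisfy monic equations with coefficients in the maximal ideal. -/
theorem exists_monic_rel_of_mem {x : integralClosure O L} (hx : x ∈ JId O L) :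
    ∃ a : Fin (Module.finrank K L) → O, (∀ j, a j ∈ maximalIdeal O) ∧
      x ^ (Module.finrank K L) + ∑ j, a j • x ^ (j : ℕ) = 0 := by
  obtain ⟨m, hm, b, rfl⟩ := mem_JId hx
  obtain ⟨a, ha⟩ := exists_monic_rel K b
  refine ⟨fun j => m ^ (Module.finrank K L - j) * a j, fun j => ?_, ?_⟩
  · refine Ideal.mul_mem_right _ _ (Ideal.pow_mem_of_mem _ hm _ ?_)
    have := j.2
    omega
  · have h1 : (m • b) ^ (Module.finrank K L) + ∑ j : Fin (Module.finrank K L),
        (m ^ (Module.finrank K L - j) * a j) • (m • b) ^ (j : ℕ) =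
        m ^ (Module.finrank K L) •
          (b ^ (Module.finrank K L) + ∑ j : Fin (Module.finrank K L), a j • b ^ (j : ℕ)) := by
      rw [smul_add, Finset.smul_sum, smul_pow]
      congr 1
      refine Finset.sum_congr rfl (fun j _ => ?_)
      rw [smul_pow, smul_smul, smul_smul]
      congr 1
      have h2 : m ^ (Module.finrank K L) = m ^ (Module.finrank K L - j) * m ^ (j : ℕ) := by
        rw [← pow_add, Nat.sub_add_cancel j.2.le]
      rw [h2]
      ring
    rw [h1, ha, smul_zero]

variable (K) in
/-- Many elements of the residue ring are dependent. -/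
theorem exists_rel (x : Fin (Module.finrank K L + 1) → (integralClosure O L ⧸ JId O L)) :
    ∃ a : Fin (Module.finrank K L + 1) → O, (∃ i, IsUnit (a i)) ∧ ∑ i, a i • x i = 0 := by
  choose b hb using fun i => Ideal.Quotient.mk_surjective (x i)
  -- linear dependence
  have hdep : ¬ LinearIndependent K (fun i => (b i : L)) := by
    intro h
    have := h.fintype_card_le_finrank
    rw [Fintype.card_fin] at this
    omega
  rw [Fintype.not_linearIndependent_iff] at hdep
  obtain ⟨c, hc, i, hi⟩ := hdep
  let v := ValuationRing.valuation O K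
  obtain ⟨i₀, _, hi₀⟩ := Finset.exists_max_image Finset.univ (fun j => v (c j))
    ⟨i, Finset.mem_univ _⟩
  have hc0 : c i₀ ≠ 0 := by
    intro h
    have h1 := hi₀ i (Finset.mem_univ _)
    simp only [h, map_zero] at h1
    exact hi ((map_eq_zero v).1 (le_antisymm h1 zero_le))
  have hex : ∀ j, ∃ a : O, algebraMap O K a = c j / c i₀ := by
    intro j
    have h1 : v (c j / c i₀) ≤ 1 := by
      rw [map_div₀]
      exact div_le_one_of_le₀ (hi₀ j (Finset.mem_univ _)) zero_le
    exact (ValuationRing.mem_integer_iff O K _).1 h1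
  choose a ha using hex
  refine ⟨a, ⟨i₀, ?_⟩, ?_⟩
  · have : a i₀ = 1 := by
      apply IsFractionRing.injective O K
      rw [ha, div_self hc0, map_one]
    rw [this]
    exact isUnit_one
  · have h1 : ∑ j, a j • b j = 0 := by
      apply Subtype.ext
      rw [AddSubmonoidClass.coe_finsetSum, ZeroMemClass.coe_zero]
      have h2 : ∑ j, (c j / c i₀) • (b j : L) = 0 := by
        simp only [div_eq_inv_mul, mul_smul, ← Finset.smul_sum, hc, smul_zero]
      rw [← h2]
      refine Finset.sum_congr rfl (fun j _ => ?_)
      rw [SetLike.val_smul, ← ha, algebraMap_smul]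
    have h3 := congrArg (Ideal.Quotient.mk (JId O L)) h1
    rw [map_sum, map_zero] at h3
    rw [← h3]
    refine Finset.sum_congr rfl (fun j _ => ?_)
    rw [← hb j]
    rfl

end

section

variable {p : ℕ} [hp : Fact p.Prime] {O : Type*} [CommRing O] [IsDomain O] [ValuationRing O]
  {L : Type*} [Field L] [Algebra O L] [CharP L p]

omit [IsDomain O] [ValuationRing O] in
theorem charP_quot (I : Ideal (integralClosure O L)) (hI : I ≠ ⊤) :
    CharP (integralClosure O L ⧸ I) p := by
  have hnt : Nontrivial (integralClosure O L ⧸ I) :=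
    Ideal.Quotient.nontrivial_iff.2 hI
  refine (CharP.charP_iff_prime_eq_zero hp.out).2 ?_
  have h2 : ((p : ℕ) : integralClosure O L) = 0 := by
    apply Subtype.ext
    simp [CharP.cast_eq_zero L p]
  have h3 := congrArg (Ideal.Quotient.mk I) h2
  rwa [map_natCast, map_zero] at h3

theorem charP_residueField (p : ℕ) [hp : Fact p.Prime] (O : Type*) [CommRing O] [IsLocalRing O]
    [CharP O p] : CharP (ResidueField O) p := by
  refine (CharP.charP_iff_prime_eq_zero hp.out).2 ?_
  have h2 : ((p : ℕ) : O) = 0 := CharP.cast_eq_zero O p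
  have h3 := congrArg (residue O) h2
  rwa [map_natCast, map_zero] at h3

/-- Elements whose Artin-Schreier image is in `J` and which satisfy a small equation are
in `J`. -/
theorem mem_JId_of_rel (p : ℕ) [hp : Fact p.Prime] [CharP L p] {V : Set O} {n : ℕ}
    (hV : ∀ a : Fin n → O, (∀ j, a j ∈ V) → ∀ ν : ℕ, ¬ p ∣ ν →
      (ν : O) ^ n + ∑ j, a j * (ν : O) ^ (j : ℕ) ∉ maximalIdeal O)
    {x : integralClosure O L} (hx : x ^ p - x ∈ JId O L) {a : Fin n → O} (ha : ∀ j, a j ∈ V)
    (hrel : x ^ n + ∑ j, a j • x ^ (j : ℕ) = 0) : x ∈ JId O L := by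
  have hmax : ∀ m : Ideal (integralClosure O L), m.IsMaximal → x ∈ m := by
    intro m hm
    let _ : Field (integralClosure O L ⧸ m) := Ideal.Quotient.field m
    have hch : CharP (integralClosure O L ⧸ m) p := charP_quot m hm.ne_top
    have h1 : (Ideal.Quotient.mk m x) ^ p = Ideal.Quotient.mk m x := by
      rw [← map_pow, Ideal.Quotient.eq]
      exact JId_le m hx
    obtain ⟨ν, hν⟩ := exists_nat_of_pow h1
    by_cases hpν : p ∣ ν
    · rw [(CharP.cast_eq_zero_iff _ p ν).2 hpν, Ideal.Quotient.eq_zero_iff_mem] at hν
      exact hν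
    · exfalso
      refine hV a ha ν hpν (mem_maximal_of_mem m ?_)
      rw [← Ideal.Quotient.eq_zero_iff_mem]
      have h2 := congrArg (Ideal.Quotient.mk m) hrel
      rw [map_add, map_pow, map_sum, map_zero] at h2
      rw [map_add, map_add, map_pow, map_pow, map_sum, map_sum, map_natCast, map_natCast, ← hν,
        ← h2]
      congr 1
      refine Finset.sum_congr rfl (fun j _ => ?_)
      rw [Algebra.smul_def, map_mul, map_mul, map_mul, map_pow, map_pow, map_pow, map_natCast,
        map_natCast, hν]
  have hjac : x ∈ Ideal.jacobson (⊥ : Ideal (integralClosure O L)) := by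
    rw [Ideal.jacobson, Ideal.mem_sInf]
    intro I hI
    exact hmax I hI.2
  have hunit : IsUnit (x ^ (p - 1) - 1) := by
    rw [Ideal.mem_jacobson_bot] at hjac
    have h1 := hjac (-x ^ (p - 2))
    have hp2 := hp.out.two_le
    have h2 : x * -x ^ (p - 2) + 1 = -(x ^ (p - 1) - 1) := by
      have : p - 1 = (p - 2) + 1 := by omega
      rw [this, pow_succ]
      ring
    rw [h2] at h1
    simpa using h1.neg
  have h3 : x ^ p - x = (x ^ (p - 1) - 1) * x := by
    have : p = (p - 1) + 1 := (Nat.sub_add_cancel hp.out.one_lt.le).symm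
    conv_lhs => rw [this, pow_succ]
    ring
  rw [h3] at hx
  exact (Ideal.unit_mul_mem_iff_mem _ hunit).1 hx

end

section

variable {O : Type*} [CommRing O] [IsDomain O] [ValuationRing O] (K : Type*) [Field K]
  [Algebra O K] [IsFractionRing O K] {L : Type*} [Field L] [Algebra K L] [FiniteDimensional K L]
  [Algebra O L] [IsScalarTower O K L]

include K in
theorem finite_fixed_JId (p : ℕ) [hp : Fact p.Prime] [CharP L p] :
    {x : integralClosure O L ⧸ JId O L | x ^ p = x}.Finite := by
  have hinj : Function.Injective (algebraMap O L) := by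
    rw [IsScalarTower.algebraMap_eq O K L]
    exact (algebraMap K L).injective.comp (IsFractionRing.injective O K)
  have hO : CharP O p := RingHom.charP _ hinj p
  have h1 : CharP (ResidueField O) p := charP_residueField p O
  have h2 : CharP (integralClosure O L ⧸ JId O L) p := charP_quot _ JId_ne_top
  refine finite_fixed (p := p) (O := O) ?_ (Module.finrank K L + 1) (fun x _ => exists_rel K x)
  intro m hm
  have : algebraMap O (integralClosure O L ⧸ JId O L) m =
    Ideal.Quotient.mk (JId O L) (algebraMap O (integralClosure O L) m) := rfl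
  rw [this, Ideal.Quotient.eq_zero_iff_mem]
  exact Ideal.mem_map_of_mem _ hm

end

end Pool.Agent.NIPFields
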