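import Mathlib

set_option autoImplicit false

/-!
# Approximate roots for arbitrary valuations
-/

namespace Pool.Agent.NIPFields

section

variable {K : Type*} [Field K] {Γ₀ : Type*} [LinearOrderedCommGroupWithZero Γ₀]
  (v : Valuation K Γ₀) {ℓ : ℕ}

/-- Approximate roots. -/
theorem approx_root' (hvℓ : v (ℓ : K) = 1) {m : K} (hm : v m < 1) (n : ℕ) :
    ∃ y : K, v (y - 1) < 1 ∧ v (1 + m - y ^ ℓ) ≤ v m ^ (n + 1) := by
  induction n with
  | zero =>
    refine ⟨1, by simp, ?_⟩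
    rw [one_pow, add_sub_cancel_left, zero_add, pow_one]
  | succ n ih =>
    obtain ⟨y, hy1, hy⟩ := ih
    have hvy : v y = 1 := by
      have h1 : y = 1 + (y - 1) := by ring
      rw [h1, v.map_one_add_of_lt hy1]
    have hℓ0 : (ℓ : K) ≠ 0 := by
      intro h; rw [h, map_zero] at hvℓ; exact zero_ne_one hvℓ
    have hy0 : y ≠ 0 := by
      rintro rfl; rw [map_zero] at hvy; exact zero_ne_one hvy
    set ε := 1 + m - y ^ ℓ with hε
    set δ := ε / (ℓ * y ^ (ℓ - 1)) with hδ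
    have hvδ : v δ = v ε := by
      rw [hδ, map_div₀, map_mul, map_pow, hvℓ, hvy, one_pow, mul_one, div_one]
    have hvε : v ε < 1 := lt_of_le_of_lt hy (pow_lt_one₀ zero_le hm (Nat.succ_ne_zero _))
    have hδ1 : v δ ≤ 1 := by rw [hvδ]; exact hvε.le
    obtain ⟨k, hk⟩ := Polynomial.powAddExpansion (⟨y, hvy.le⟩ : v.integer) (⟨δ, hδ1⟩ : v.integer) ℓ
    have hk' : (y + δ) ^ ℓ = y ^ ℓ + ℓ * y ^ (ℓ - 1) * δ + k * δ ^ 2 := by
      have := congrArg (fun z : v.integer => (z : K)) hk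
      simpa using this
    have hkv : v (k : K) ≤ 1 := k.2
    refine ⟨y + δ, ?_, ?_⟩
    · have h1 : y + δ - 1 = (y - 1) + δ := by ring
      rw [h1]
      exact lt_of_le_of_lt (v.map_add _ _) (max_lt hy1 (by rw [hvδ]; exact hvε))
    · have h1 : 1 + m - (y + δ) ^ ℓ = - (k * δ ^ 2) := by
        rw [hk']
        have h2 : ℓ * y ^ (ℓ - 1) * δ = ε := by
          rw [hδ, mul_div_cancel₀]
          exact mul_ne_zero hℓ0 (pow_ne_zero _ hy0)
        rw [h2, hε]
        ring
      rw [h1, Valuation.map_neg, map_mul, map_pow, hvδ]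
      calc v (k : K) * v ε ^ 2 ≤ 1 * (v m ^ (n + 1)) ^ 2 := by
            refine mul_le_mul' hkv ?_
            exact pow_le_pow_left₀ zero_le hy 2
        _ = v m ^ ((n + 1) * 2) := by rw [one_mul, ← pow_mul]
        _ ≤ v m ^ (n + 1 + 1) := pow_le_pow_of_le_one zero_le hm.le (by omega)

end

end Pool.Agent.NIPFields
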