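import Mathlib
import Pool.Agent.NIPFields.ApproxRoot

set_option autoImplicit false

/-!
# From V-topologies to valuations in positive characteristic
-/

namespace Pool.Agent.NIPFields

/-- A bounded neighbourhood of zero for a V-topology. -/
structure VE {k : Type*} [Field k] (E : Set k) (c : k) : Prop where
  zero : (0 : k) ∈ E
  c0 : c ≠ 0
  add : ∀ x ∈ E, ∀ y ∈ E, ∃ z ∈ E, x + y = c * z
  mul : ∀ x ∈ E, ∀ y ∈ E, ∃ z ∈ E, x * y = c * z
  inv : ∀ x, x ∉ E → ∃ z ∈ E, x⁻¹ = c * z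
  ne : ∃ e, e ∉ E

/-- The relation `x E ⊆ y E`. -/
def LL {k : Type*} [Field k] (E : Set k) (x y : k) : Prop := ∀ z ∈ E, ∃ z' ∈ E, x * z = y * z'

section

variable {k : Type*} [Field k] {E : Set k} {c : k}

theorem LL.refl (x : k) : LL E x x := fun z hz => ⟨z, hz, rfl⟩

theorem LL.trans {x y z : k} (h1 : LL E x y) (h2 : LL E y z) : LL E x z := by
  intro w hw
  obtain ⟨w', hw', e1⟩ := h1 w hw
  obtain ⟨w'', hw'', e2⟩ := h2 w' hw'
  exact ⟨w'', hw'', e1.trans e2⟩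

theorem LL.mul_left {x y : k} (h : LL E x y) (w : k) : LL E (w * x) (w * y) := by
  intro z hz
  obtain ⟨z', hz', e⟩ := h z hz
  exact ⟨z', hz', by rw [mul_assoc, e, mul_assoc]⟩

theorem LL.mul {x y x' y' : k} (h : LL E x y) (h' : LL E x' y') : LL E (x * x') (y * y') := by
  have h1 := h.mul_left x'
  have h2 := h'.mul_left y
  rw [mul_comm x' x, mul_comm x' y] at h1
  exact h1.trans h2

theorem LL.of_mul_left {w x y : k} (hw : w ≠ 0) (h : LL E (w * x) (w * y)) : LL E x y := by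
  have := h.mul_left w⁻¹
  rwa [inv_mul_cancel_left₀ hw, inv_mul_cancel_left₀ hw] at this

theorem LL.pow {x y : k} (h : LL E x y) (n : ℕ) : LL E (x ^ n) (y ^ n) := by
  induction n with
  | zero => simpa using LL.refl 1
  | succ n ih => rw [pow_succ, pow_succ]; exact ih.mul h

variable (hE : VE E c)

include hE

theorem VE.one_LL : LL E 1 c := by
  intro z hz
  obtain ⟨z', hz', e⟩ := hE.add z hz 0 hE.zero
  exact ⟨z', hz', by rw [one_mul, ← e, add_zero]⟩

theorem VE.LL_of_mem {x : k} (hx : x ∈ E) : LL E x c := fun z hz => hE.mul x hx z hz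

theorem VE.LL_of_not_mem {x : k} (hx : x ∉ E) : LL E 1 (c ^ 2 * x) := by
  have hx0 : x ≠ 0 := by rintro rfl; exact hx hE.zero
  obtain ⟨w, hw, e⟩ := hE.inv x hx
  intro z hz
  obtain ⟨z', hz', e'⟩ := hE.mul w hw z hz
  refine ⟨z', hz', ?_⟩
  have h1 : x * x⁻¹ = 1 := mul_inv_cancel₀ hx0
  calc 1 * z = x * x⁻¹ * z := by rw [h1]
    _ = x * c * (w * z) := by rw [e]; ring
    _ = c ^ 2 * x * z' := by rw [e']; ring

theorem VE.total (x : k) : LL E x (c ^ 3) ∨ LL E 1 x := by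
  have hc := hE.c0
  by_cases hx : x / c ^ 2 ∈ E
  · left
    have h1 := (hE.LL_of_mem hx).mul_left (c ^ 2)
    rwa [mul_div_cancel₀ _ (pow_ne_zero 2 hc), ← pow_succ] at h1
  · right
    have h1 := hE.LL_of_not_mem hx
    rwa [mul_div_cancel₀ _ (pow_ne_zero 2 hc)] at h1

theorem VE.one_mem : ∃ z ∈ E, (1 : k) = c * z := by
  by_cases h1 : (1 : k) ∈ E
  · obtain ⟨z, hz, e⟩ := hE.one_LL 1 h1
    exact ⟨z, hz, by rwa [one_mul] at e⟩
  · obtain ⟨z, hz, e⟩ := hE.inv 1 h1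
    exact ⟨z, hz, by rwa [inv_one] at e⟩

/-- `x ≪ y` implies `x ∈ y c E`. -/
theorem VE.mem_of_LL {x y : k} (h : LL E x y) : ∃ z ∈ E, x = y * c * z := by
  obtain ⟨z, hz, e⟩ := hE.one_mem
  obtain ⟨z', hz', e'⟩ := h z hz
  refine ⟨z', hz', ?_⟩
  calc x = x * (c * z) := by rw [← e, mul_one]
    _ = c * (x * z) := by ring
    _ = y * c * z' := by rw [e']; ring

theorem VE.zero_LL (y : k) : LL E 0 y := fun z _ => ⟨0, hE.zero, by simp⟩

/-- The sum. -/
theorem VE.LL_add {x y u : k} (hx : LL E x u) (hy : LL E y u) : LL E (x + y) (c * u) := by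
  intro z hz
  obtain ⟨z₁, hz₁, e₁⟩ := hx z hz
  obtain ⟨z₂, hz₂, e₂⟩ := hy z hz
  obtain ⟨z₃, hz₃, e₃⟩ := hE.add z₁ hz₁ z₂ hz₂
  refine ⟨z₃, hz₃, ?_⟩
  rw [add_mul, e₁, e₂, ← mul_add, e₃]
  ring

/-- Two elements have a common upper bound. -/
theorem VE.exists_ub {u v : k} (hu : u ≠ 0) (hv : v ≠ 0) :
    ∃ w, w ≠ 0 ∧ LL E u w ∧ LL E v w := by
  have hc := hE.c0
  have hc3 : LL E 1 (c ^ 3) := by
    have := hE.one_LL.pow 3
    rwa [one_pow] at this
  rcases hE.total (u / v) with h | h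
  · refine ⟨v * c ^ 3, mul_ne_zero hv (pow_ne_zero _ hc), ?_, ?_⟩
    · have := h.mul_left v
      rwa [mul_div_cancel₀ _ hv] at this
    · have := hc3.mul_left v
      rwa [mul_one] at this
  · refine ⟨u * c ^ 3, mul_ne_zero hu (pow_ne_zero _ hc), ?_, ?_⟩
    · have := hc3.mul_left u
      rwa [mul_one] at this
    · have h1 := (h.mul hc3).mul_left v
      rw [mul_one, mul_one] at h1
      have h2 : v * (u / v * c ^ 3) = u * c ^ 3 := by
        rw [← mul_assoc, mul_div_cancel₀ _ hv]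
      rwa [h2] at h1

theorem VE.exists_ub_fin (n : ℕ) (x : k) : ∃ w, w ≠ 0 ∧ ∀ i, i < n → LL E (x ^ i) w := by
  induction n with
  | zero => exact ⟨1, one_ne_zero, fun i hi => absurd hi (Nat.not_lt_zero _)⟩
  | succ n ih =>
    obtain ⟨w, hw, h⟩ := ih
    by_cases hx : x ^ n = 0
    · refine ⟨w, hw, fun i hi => ?_⟩
      rcases Nat.lt_succ_iff_lt_or_eq.1 hi with h1 | h1
      · exact h i h1
      · rw [h1, hx]; exact hE.zero_LL _
    · obtain ⟨w', hw', h1, h2⟩ := hE.exists_ub hw hx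
      refine ⟨w', hw', fun i hi => ?_⟩
      rcases Nat.lt_succ_iff_lt_or_eq.1 hi with h3 | h3
      · exact (h i h3).trans h1
      · rw [h3]; exact h2

end

/-- Power bounded elements. -/
def PB {k : Type*} [Field k] (E : Set k) (x : k) : Prop := ∃ u, u ≠ 0 ∧ ∀ n : ℕ, LL E (x ^ n) u

section

variable {k : Type*} [Field k] {E : Set k} {c : k}

theorem PB.mul {x y : k} (hx : PB E x) (hy : PB E y) : PB E (x * y) := by
  obtain ⟨u, hu, h1⟩ := hx
  obtain ⟨v, hv, h2⟩ := hy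
  exact ⟨u * v, mul_ne_zero hu hv, fun n => by rw [mul_pow]; exact (h1 n).mul (h2 n)⟩

variable (hE : VE E c)

include hE

theorem VE.PB_of_one_LL {x : k} {n : ℕ} (hn : n ≠ 0) (h : LL E 1 (x ^ n)) : PB E x⁻¹ := by
  by_cases hx : x = 0
  · subst hx
    rw [inv_zero]
    refine ⟨c, hE.c0, fun i => ?_⟩
    rcases Nat.eq_zero_or_pos i with rfl | hi
    · rw [pow_zero]; exact hE.one_LL
    · rw [zero_pow hi.ne']; exact hE.zero_LL _
  obtain ⟨w, hw, hub⟩ := hE.exists_ub_fin n x⁻¹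
  refine ⟨w, hw, fun i => ?_⟩
  have h1 : LL E (x⁻¹ ^ n) 1 := by
    have := h.mul_left (x⁻¹ ^ n)
    rwa [mul_one, ← mul_pow, inv_mul_cancel₀ hx, one_pow] at this
  have h2 : x⁻¹ ^ i = (x⁻¹ ^ n) ^ (i / n) * x⁻¹ ^ (i % n) := by
    rw [← pow_mul, ← pow_add, Nat.div_add_mod]
  rw [h2]
  have h3 := (h1.pow (i / n)).mul (hub (i % n) (Nat.mod_lt _ (Nat.pos_of_ne_zero hn)))
  rwa [one_pow, one_mul] at h3

theorem VE.PB_or (x : k) : PB E x ∨ PB E x⁻¹ := by
  by_cases hx : PB E x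
  · exact Or.inl hx
  right
  have hc := hE.c0
  have h1 : ∃ n : ℕ, ¬ LL E (x ^ n) (c ^ 3) := by
    by_contra hcon
    push Not at hcon
    exact hx ⟨c ^ 3, pow_ne_zero _ hc, hcon⟩
  obtain ⟨n, hn⟩ := h1
  have hn0 : n ≠ 0 := by
    rintro rfl
    apply hn
    have := hE.one_LL.pow 3
    rwa [one_pow, ← pow_zero x] at this
  rcases hE.total (x ^ n) with h | h
  · exact absurd h hn
  · exact hE.PB_of_one_LL hn0 h

theorem VE.PB_one_add {p : ℕ} [hp : Fact p.Prime] [CharP k p] {z : k} (hz : PB E z) :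
    PB E (1 + z) := by
  have hc := hE.c0
  rcases hE.PB_or (1 + z) with h | h
  · exact h
  by_cases hy0 : 1 + z = 0
  · rw [hy0, inv_zero] at h
    rw [hy0]
    exact h
  obtain ⟨v, hv, hv'⟩ := h
  obtain ⟨u, hu, hu'⟩ := hz
  have h1 : ∀ m : ℕ, LL E ((1 + z) ^ p ^ m) (c * u) := by
    intro m
    rw [add_pow_char_pow, one_pow]
    have := hu' 0
    rw [pow_zero] at this
    exact hE.LL_add this (hu' _)
  refine ⟨c * u * v, mul_ne_zero (mul_ne_zero hc hu) hv, fun n => ?_⟩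
  obtain ⟨m, hm⟩ : ∃ m, n ≤ p ^ m := ⟨n, (Nat.lt_pow_self hp.out.one_lt).le⟩
  have h2 : (1 + z) ^ n = (1 + z) ^ p ^ m * (1 + z)⁻¹ ^ (p ^ m - n) := by
    have h3 : (1 + z) ^ p ^ m = (1 + z) ^ n * (1 + z) ^ (p ^ m - n) := by
      rw [← pow_add]; congr 1; omega
    rw [h3, mul_assoc, ← mul_pow, mul_inv_cancel₀ hy0, one_pow, mul_one]
  rw [h2]
  exact (h1 m).mul (hv' _)

/-- The valuation ring of power bounded elements. -/
noncomputable def VE.ring1 {p : ℕ} [hp : Fact p.Prime] [CharP k p] : ValuationSubring k where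
  carrier := {x | PB E x}
  mul_mem' := fun hx hy => PB.mul hx hy
  one_mem' := ⟨c, hE.c0, fun n => by rw [one_pow]; exact hE.one_LL⟩
  zero_mem' := by
    rcases hE.PB_or 0 with h | h
    · exact h
    · rwa [inv_zero] at h
  add_mem' := by
    intro x y hx hy
    change PB E x at hx
    change PB E y at hy
    change PB E (x + y)
    by_cases hx0 : x = 0
    · rw [hx0, zero_add]; exact hy
    by_cases hy0 : y = 0
    · rw [hy0, add_zero]; exact hx
    rcases hE.PB_or (y / x) with h | h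
    · have h1 : x + y = x * (1 + y / x) := by field_simp
      rw [h1]
      exact hx.mul (hE.PB_one_add (p := p) h)
    · have h1 : x + y = y * (1 + (y / x)⁻¹) := by field_simp; ring
      rw [h1]
      exact hy.mul (hE.PB_one_add (p := p) h)
  neg_mem' := by
    intro x hx
    change PB E (-x)
    rw [neg_eq_neg_one_mul]
    refine PB.mul ?_ hx
    rcases hE.PB_or (-1) with h | h
    · exact h
    · rwa [inv_neg_one] at h
  mem_or_inv_mem' := hE.PB_or

theorem VE.mem_ring1 {p : ℕ} [hp : Fact p.Prime] [CharP k p] {x : k} :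
    x ∈ hE.ring1 (p := p) ↔ PB E x := Iff.rfl

/-- First case: there are elements which are not power bounded. -/
theorem VE.case1 {p : ℕ} [hp : Fact p.Prime] [CharP k p] {ℓ : ℕ} (hℓ : (ℓ : k) ≠ 0) {d : k}
    (hd : d ≠ 0) (hdE : ∀ z ∈ E, ∃ y : k, 1 + d * z = y ^ ℓ)
    (hx : ∃ x, ¬ PB E x) : ∃ O : ValuationSubring k, O ≠ ⊤ ∧
      ∀ m : k, O.valuation m < 1 → ∃ y : k, 1 + m = y ^ ℓ := by
  have hc := hE.c0
  refine ⟨hE.ring1 (p := p), ?_, ?_⟩
  · intro htop
    obtain ⟨x, hx⟩ := hx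
    have : x ∈ hE.ring1 (p := p) := by rw [htop]; trivial
    exact hx this
  · intro m hm
    set O := hE.ring1 (p := p) with hO
    by_cases hm0 : m = 0
    · refine ⟨1, by rw [hm0, one_pow, add_zero]⟩
    have hminv : ¬ PB E m⁻¹ := by
      intro h
      have h1 : m⁻¹ ∈ O := h
      have h2 : O.valuation m⁻¹ ≤ 1 := (O.valuation_le_one_iff _).2 h1
      rw [map_inv₀] at h2
      have h3 : 1 < (O.valuation m)⁻¹ :=
        (one_lt_inv₀ (zero_lt_iff.2 ((map_ne_zero _).2 hm0))).2 hm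
      exact absurd h2 (not_le.2 h3)
    have hvℓ : O.valuation (ℓ : k) = 1 := by
      have h1 : (ℓ : k) ^ (p - 1) = 1 := by
        have h2 : (ℓ : k) ^ p = ℓ := by
          have := map_natCast (frobenius k p) ℓ
          rwa [frobenius_def] at this
        have h3 : (ℓ : k) ^ (p - 1) * ℓ = 1 * ℓ := by
          rw [← pow_succ, Nat.sub_add_cancel hp.out.one_lt.le, h2, one_mul]
        exact mul_right_cancel₀ hℓ h3
      have h2 : O.valuation (ℓ : k) ^ (p - 1) = 1 := by rw [← map_pow, h1, map_one]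
      have hp1 : p - 1 ≠ 0 := by have := hp.out.two_le; omega
      exact (pow_eq_one_iff_of_nonneg zero_le hp1).1 h2
    have hsmall : ∀ u : k, u ≠ 0 → ∃ n : ℕ, LL E (m ^ n) u := by
      intro u hu
      by_contra hcon
      push Not at hcon
      apply hminv
      refine ⟨c ^ 3 / u, div_ne_zero (pow_ne_zero _ hc) hu, fun n => ?_⟩
      rcases hE.total (u * m⁻¹ ^ n) with h | h
      · have := h.mul_left u⁻¹
        rwa [inv_mul_cancel_left₀ hu, mul_comm, ← div_eq_mul_inv] at this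
      · exfalso
        apply hcon n
        have := h.mul_left (m ^ n)
        rwa [mul_one, mul_comm u, ← mul_assoc, ← mul_pow, mul_inv_cancel₀ hm0, one_pow,
          one_mul] at this
    have hmr : ∀ r : k, PB E r → LL E (m * r) (c ^ 3) := by
      intro r hr
      by_cases hr0 : r = 0
      · rw [hr0, mul_zero]; exact hE.zero_LL _
      rcases hE.total (m * r) with h | h
      · exact h
      · exfalso
        apply hminv
        have h1 : PB E (m * r)⁻¹ := by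
          refine hE.PB_of_one_LL (n := 1) one_ne_zero ?_
          rwa [pow_one]
        have h2 : m⁻¹ = (m * r)⁻¹ * r := by
          rw [mul_inv, mul_assoc, inv_mul_cancel₀ hr0, mul_one]
        rw [h2]
        exact h1.mul hr
    obtain ⟨n, hn⟩ := hsmall (d / c ^ 4) (div_ne_zero hd (pow_ne_zero _ hc))
    obtain ⟨y, hy1, hy⟩ := approx_root' O.valuation hvℓ hm n
    have hvy : O.valuation y = 1 := by
      have h1 : y = 1 + (y - 1) := by ring
      rw [h1, Valuation.map_one_add_of_lt _ hy1]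
    have hy0 : y ≠ 0 := by
      rintro rfl; rw [map_zero] at hvy; exact zero_ne_one hvy
    set r := (1 + m - y ^ ℓ) / (m ^ (n + 1) * y ^ ℓ) with hr
    have hmn : m ^ (n + 1) ≠ 0 := pow_ne_zero _ hm0
    have hyℓ : y ^ ℓ ≠ 0 := pow_ne_zero _ hy0
    have hrO : PB E r := by
      have h1 : r ∈ O := by
        rw [← O.valuation_le_one_iff, hr, map_div₀, map_mul, map_pow, map_pow, hvy, one_pow,
          mul_one]
        exact div_le_one_of_le₀ hy zero_le
      exact h1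
    have h1 : 1 + m = y ^ ℓ * (1 + m ^ n * (m * r)) := by
      rw [hr]
      field_simp
      ring
    have h2 : LL E (m ^ n * (m * r)) (d / c ^ 4 * c ^ 3) := hn.mul (hmr r hrO)
    obtain ⟨z, hz, e⟩ := hE.mem_of_LL h2
    have h3 : d / c ^ 4 * c ^ 3 * c * z = d * z := by field_simp
    rw [h3] at e
    obtain ⟨y', hy'⟩ := hdE z hz
    refine ⟨y * y', ?_⟩
    rw [h1, e, hy', mul_pow]

/-- Second case: all elements are power bounded. -/
theorem VE.case2 {ℓ : ℕ} {d : k}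
    (hd : d ≠ 0) (hdE : ∀ z ∈ E, ∃ y : k, 1 + d * z = y ^ ℓ)
    (hall : ∀ x, PB E x) : ∃ O : ValuationSubring k, O ≠ ⊤ ∧
      ∀ m : k, O.valuation m < 1 → ∃ y : k, 1 + m = y ^ ℓ := by
  have hc := hE.c0
  obtain ⟨f, hf0, hf1, hf2⟩ : ∃ f, f ≠ 0 ∧ LL E c f ∧ LL E d⁻¹ f :=
    hE.exists_ub hc (inv_ne_zero hd)
  have h1f : LL E 1 f := hE.one_LL.trans hf1
  have hmono : ∀ {i j : ℕ}, i ≤ j → LL E (f ^ i) (f ^ j) := by
    intro i j hij
    obtain ⟨l, rfl⟩ := Nat.exists_eq_add_of_le hij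
    have := (h1f.pow l).mul_left (f ^ i)
    rwa [one_pow, mul_one, ← pow_add] at this
  let B : Set k := {x | ∃ n : ℕ, ∃ z ∈ E, x = f ^ n * z}
  have hBmem : ∀ {x : k} {i j : ℕ}, i ≤ j → (∃ z ∈ E, x = f ^ i * z) → ∃ z ∈ E, x = f ^ j * z := by
    rintro x i j hij ⟨z, hz, rfl⟩
    obtain ⟨z', hz', e⟩ := hmono hij z hz
    exact ⟨z', hz', e⟩
  have hBmul : ∀ {x y : k}, x ∈ B → y ∈ B → x * y ∈ B := by
    rintro x y ⟨n, z, hz, rfl⟩ ⟨m, w, hw, rfl⟩
    obtain ⟨t, ht, e⟩ := hE.mul z hz w hw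
    obtain ⟨t', ht', e'⟩ := hf1 t ht
    refine ⟨n + m + 1, t', ht', ?_⟩
    calc f ^ n * z * (f ^ m * w) = f ^ (n + m) * (z * w) := by ring
      _ = f ^ (n + m) * (f * t') := by rw [e, e']
      _ = f ^ (n + m + 1) * t' := by ring
  have hBadd : ∀ {x y : k}, x ∈ B → y ∈ B → x + y ∈ B := by
    rintro x y ⟨n, hx⟩ ⟨m, hy⟩
    obtain ⟨z, hz, rfl⟩ := hBmem (le_max_left n m) hx
    obtain ⟨w, hw, rfl⟩ := hBmem (le_max_right n m) hy
    obtain ⟨t, ht, e⟩ := hE.add z hz w hw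
    obtain ⟨t', ht', e'⟩ := hf1 t ht
    refine ⟨max n m + 1, t', ht', ?_⟩
    rw [← mul_add, e, e', pow_succ, mul_assoc]
  have hB1 : (1 : k) ∈ B := by
    obtain ⟨z, hz, e⟩ := hE.one_mem
    obtain ⟨t', ht', e'⟩ := hf1 z hz
    exact ⟨1, t', ht', by rw [pow_one, ← e', ← e]⟩
  have hB0 : (0 : k) ∈ B := ⟨0, 0, hE.zero, by simp⟩
  have hBor : ∀ x : k, x ∈ B ∨ x⁻¹ ∈ B := by
    intro x
    by_cases hx : x ∈ E
    · exact Or.inl ⟨0, x, hx, by simp⟩
    · obtain ⟨z, hz, e⟩ := hE.inv x hx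
      obtain ⟨t', ht', e'⟩ := hf1 z hz
      exact Or.inr ⟨1, t', ht', by rw [e, e', pow_one]⟩
  have hBneg : ∀ {x : k}, x ∈ B → -x ∈ B := by
    intro x hx
    rw [neg_eq_neg_one_mul]
    refine hBmul ?_ hx
    rcases hBor (-1) with h | h
    · exact h
    · rwa [inv_neg_one] at h
  let O : ValuationSubring k :=
    { carrier := B
      mul_mem' := hBmul
      one_mem' := hB1
      zero_mem' := hB0
      add_mem' := hBadd
      neg_mem' := hBneg
      mem_or_inv_mem' := hBor }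
  refine ⟨O, ?_, ?_⟩
  · intro htop
    obtain ⟨u, hu, hun⟩ := hall f
    obtain ⟨e, he⟩ := hE.ne
    have h1 : u * e ∈ O := by rw [htop]; trivial
    obtain ⟨n, z, hz, e1⟩ : u * e ∈ B := h1
    obtain ⟨z', hz', e2⟩ := hun n z hz
    have h2 : u * e = u * z' := e1.trans e2
    exact he (mul_left_cancel₀ hu h2 ▸ hz')
  · intro m hm
    by_cases hm0 : m = 0
    · exact ⟨1, by rw [hm0, one_pow, add_zero]⟩
    have hminv : m⁻¹ ∉ B := by
      intro h
      have h1 : m⁻¹ ∈ O := h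
      have h2 : O.valuation m⁻¹ ≤ 1 := (O.valuation_le_one_iff _).2 h1
      rw [map_inv₀] at h2
      have h3 : 1 < (O.valuation m)⁻¹ :=
        (one_lt_inv₀ (zero_lt_iff.2 ((map_ne_zero _).2 hm0))).2 hm
      exact absurd h2 (not_le.2 h3)
    have h1 : (f ^ 2)⁻¹ * m⁻¹ ∉ E := by
      intro h
      exact hminv ⟨2, _, h, by rw [mul_inv_cancel_left₀ (pow_ne_zero _ hf0)]⟩
    obtain ⟨z, hz, e⟩ := hE.inv _ h1
    rw [mul_inv, inv_inv, inv_inv] at e
    obtain ⟨z₁, hz₁, e₁⟩ := hf1 z hz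
    -- `m = f⁻¹ z₁`
    have h2 : m = f⁻¹ * z₁ := by
      rw [e₁] at e
      field_simp
      have h3 : f * (m * f) = f * z₁ := by rw [← e]; ring
      exact mul_left_cancel₀ hf0 h3
    have h3 : LL E f⁻¹ d := by
      have := hf2.mul_left (d * f⁻¹)
      rwa [mul_comm d, mul_assoc, mul_inv_cancel₀ hd, mul_one, mul_comm, ← mul_assoc,
        mul_inv_cancel₀ hf0, one_mul] at this
    obtain ⟨z₂, hz₂, e₂⟩ := h3 z₁ hz₁
    obtain ⟨y, hy⟩ := hdE z₂ hz₂
    exact ⟨y, by rw [h2, e₂, hy]⟩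

/-- In positive characteristic a V-topology in which the set of `ℓ`-th powers is open gives rise
to a valuation ring whose one-units are `ℓ`-th powers. -/
theorem VE.exists_valuationSubring {p : ℕ} [hp : Fact p.Prime] [CharP k p] {ℓ : ℕ}
    (hℓ : (ℓ : k) ≠ 0) {d : k} (hd : d ≠ 0) (hdE : ∀ z ∈ E, ∃ y : k, 1 + d * z = y ^ ℓ) :
    ∃ O : ValuationSubring k, O ≠ ⊤ ∧
      ∀ m : k, O.valuation m < 1 → ∃ y : k, 1 + m = y ^ ℓ := by
  by_cases hx : ∃ x, ¬ PB E x
  · exact hE.case1 (p := p) hℓ hd hdE hx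
  · push Not at hx
    exact hE.case2 hd hdE hx

end

end Pool.Agent.NIPFields
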