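import Mathlib
import Pool.Agent.NIPFields.RingDef

set_option autoImplicit false

/-!
# Rank one valuations whose topology is definable
-/

namespace Pool.Agent.NIPFields

open FirstOrder FirstOrder.Language FirstOrder.Ring Set
open scoped NNReal

universe u

section

variable {K : Type u} [Field K] (v : Valuation K ℝ≥0) {ℓ : ℕ}

/-- Approximate roots. -/
theorem approx_root (hℓ : 0 < ℓ) (hvℓ : v (ℓ : K) = 1) {m : K} (hm : v m < 1) (n : ℕ) :
    ∃ y : K, v (y - 1) < 1 ∧ v (1 + m - y ^ ℓ) ≤ v m ^ (n + 1) := by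
  induction n with
  | zero =>
    refine ⟨1, by simp, ?_⟩
    rw [one_pow, add_sub_cancel_left, zero_add, pow_one]
  | succ n ih =>
    obtain ⟨y, hy1, hy⟩ := ih
    have hvy : v y = 1 := by
      have h1 : y = 1 + (y - 1) := by ring
      rw [h1, v.map_one_add_of_lt hy1]
    have hℓ0 : (ℓ : K) ≠ 0 := by
      intro h; rw [h, map_zero] at hvℓ; exact zero_ne_one hvℓ
    have hy0 : y ≠ 0 := by
      rintro rfl; rw [map_zero] at hvy; exact zero_ne_one hvy
    set ε := 1 + m - y ^ ℓ with hε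
    set δ := ε / (ℓ * y ^ (ℓ - 1)) with hδ
    have hvδ : v δ = v ε := by
      rw [hδ, map_div₀, map_mul, map_pow, hvℓ, hvy, one_pow, mul_one, div_one]
    have hvε : v ε < 1 := lt_of_le_of_lt hy (pow_lt_one₀ zero_le hm (Nat.succ_ne_zero _))
    have hδ1 : v δ ≤ 1 := by rw [hvδ]; exact hvε.le
    obtain ⟨k, hk⟩ := Polynomial.powAddExpansion (⟨y, hvy.le⟩ : v.integer) (⟨δ, hδ1⟩ : v.integer) ℓ
    have hk' : (y + δ) ^ ℓ = y ^ ℓ + ℓ * y ^ (ℓ - 1) * δ + k * δ ^ 2 := by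
      have := congrArg (fun z : v.integer => (z : K)) hk
      simpa using this
    have hkv : v (k : K) ≤ 1 := k.2
    refine ⟨y + δ, ?_, ?_⟩
    · have h1 : y + δ - 1 = (y - 1) + δ := by ring
      rw [h1]
      exact lt_of_le_of_lt (v.map_add _ _) (max_lt hy1 (by rw [hvδ]; exact hvε))
    · have h1 : 1 + m - (y + δ) ^ ℓ = - (k * δ ^ 2) := by
        rw [hk']
        have h2 : ℓ * y ^ (ℓ - 1) * δ = ε := by
          rw [hδ, mul_div_cancel₀]
          exact mul_ne_zero hℓ0 (pow_ne_zero _ hy0)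
        rw [h2, hε]
        ring
      rw [h1, Valuation.map_neg, map_mul, map_pow, hvδ]
      calc v (k : K) * v ε ^ 2 ≤ 1 * (v m ^ (n + 1)) ^ 2 := by gcongr
        _ = v m ^ ((n + 1) * 2) := by rw [one_mul, ← pow_mul]
        _ ≤ v m ^ (n + 1 + 1) := pow_le_pow_of_le_one zero_le hm.le (by omega)

/-- The closure of the set of `ℓ`-th powers. -/
def GSet (ℓ : ℕ) (U : Set K) : Set K :=
  {x | ∀ w : K, w ≠ 0 → ∃ y u : K, u ∈ U ∧ x - y ^ ℓ = w * u}

/-- The set `{x | 1 + π x ^ ℓ ∈ G}`. -/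
def DSet (ℓ : ℕ) (U : Set K) (π : K) : Set K := {x | 1 + π * x ^ ℓ ∈ GSet ℓ U}

variable {v}

theorem mem_DSet_iff (hℓ : 0 < ℓ) (hvℓ : v (ℓ : K) = 1) {π : K} (hπ : ∀ c : K, v π ≠ v c ^ ℓ)
    {U : Set K} {s t : K} (hs0 : s ≠ 0) (hs : ∀ x ∈ U, v x ≤ v s) (ht0 : t ≠ 0)
    (ht : ∀ x, v x ≤ v t → x ∈ U) (x : K) :
    x ∈ DSet ℓ U π ↔ v π * v x ^ ℓ < 1 := by
  have hπ0 : v π ≠ 0 := by
    have := hπ 0
    rwa [map_zero, zero_pow hℓ.ne'] at this
  have hπ1 : v π ≠ 1 := by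
    have := hπ 1
    rwa [map_one, one_pow] at this
  -- an element of large value
  obtain ⟨e, he⟩ : ∃ e : K, 1 < v e := by
    rcases lt_or_gt_of_ne hπ1 with h | h
    · refine ⟨π⁻¹, ?_⟩
      rw [map_inv₀]
      exact (one_lt_inv₀ (pos_iff_ne_zero.2 hπ0)).2 h
    · exact ⟨π, h⟩
  have he0 : e ≠ 0 := by
    rintro rfl
    rw [map_zero] at he
    exact absurd he (by simp)
  -- elements of `G` have divisible value
  have hG1 : ∀ g ∈ GSet ℓ U, g ≠ 0 → ∃ y, v g = v y ^ ℓ := by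
    intro g hg hg0
    obtain ⟨y, w, hw, hyw⟩ := hg (g * s⁻¹ * e⁻¹)
      (mul_ne_zero (mul_ne_zero hg0 (inv_ne_zero hs0)) (inv_ne_zero he0))
    refine ⟨y, ?_⟩
    have hvg : v g ≠ 0 := (Valuation.ne_zero_iff _).2 hg0
    have hvs : v s ≠ 0 := (Valuation.ne_zero_iff _).2 hs0
    have h1 : v (g - y ^ ℓ) < v g := by
      rw [hyw, map_mul, map_mul, map_mul, map_inv₀, map_inv₀]
      calc v g * (v s)⁻¹ * (v e)⁻¹ * v w ≤ v g * (v s)⁻¹ * (v e)⁻¹ * v s := by
            gcongr; exact hs w hw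
        _ = v g * (v e)⁻¹ := by field_simp
        _ < v g * 1 := by
            have : (v e)⁻¹ < 1 := inv_lt_one_of_one_lt₀ he
            exact mul_lt_mul_of_pos_left this (pos_iff_ne_zero.2 hvg)
        _ = v g := mul_one _
    have h2 : y ^ ℓ = g - (g - y ^ ℓ) := by ring
    rw [← map_pow, h2, Valuation.map_sub_eq_of_lt_left _ h1]
  -- `1 + M` is contained in `G`
  have hG2 : ∀ m, v m < 1 → 1 + m ∈ GSet ℓ U := by
    intro m hm w hw
    have hwt : 0 < v (w * t) := (Valuation.pos_iff _).2 (mul_ne_zero hw ht0)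
    obtain ⟨n, hn⟩ := exists_pow_lt_of_lt_one hwt hm
    obtain ⟨y, _, hy⟩ := approx_root v hℓ hvℓ hm n
    refine ⟨y, (1 + m - y ^ ℓ) / w, ht _ ?_, by field_simp⟩
    have hvw : 0 < v w := (Valuation.pos_iff _).2 hw
    rw [map_div₀, div_le_iff₀ hvw, mul_comm, ← map_mul]
    refine hy.trans ?_
    refine (pow_le_pow_of_le_one zero_le hm.le (Nat.le_succ n)).trans hn.le
  constructor
  · intro hx
    by_contra hlt
    rw [not_lt] at hlt
    have hx0 : x ≠ 0 := by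
      rintro rfl
      rw [map_zero, zero_pow hℓ.ne', mul_zero] at hlt
      exact absurd hlt (by simp)
    have hvx : v x ≠ 0 := (Valuation.ne_zero_iff _).2 hx0
    have hne : v π * v x ^ ℓ ≠ 1 := by
      intro h
      apply hπ x⁻¹
      rw [map_inv₀, inv_pow]
      exact eq_inv_of_mul_eq_one_left h
    have hgt : 1 < v (π * x ^ ℓ) := by
      rw [map_mul, map_pow]
      exact lt_of_le_of_ne hlt hne.symm
    have hval : v (1 + π * x ^ ℓ) = v (π * x ^ ℓ) := by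
      rw [Valuation.map_add_eq_of_lt_right]
      rwa [map_one]
    have hg0 : 1 + π * x ^ ℓ ≠ 0 := by
      intro h
      rw [h, map_zero] at hval
      rw [← hval] at hgt
      exact absurd hgt (by simp)
    obtain ⟨y, hy⟩ := hG1 _ hx hg0
    rw [hval, map_mul, map_pow] at hy
    apply hπ (y / x)
    rw [map_div₀, div_pow, eq_div_iff (pow_ne_zero _ hvx), hy]
  · intro hx
    apply hG2
    rwa [map_mul, map_pow]

theorem mem_ring_iff (hℓ : 0 < ℓ) (hvℓ : v (ℓ : K) = 1) {π : K} (hπ : ∀ c : K, v π ≠ v c ^ ℓ)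
    {U : Set K} {s t : K} (hs0 : s ≠ 0) (hs : ∀ x ∈ U, v x ≤ v s) (ht0 : t ≠ 0)
    (ht : ∀ x, v x ≤ v t → x ∈ U) (y : K) :
    v y ≤ 1 ↔ ∀ x, x ∈ DSet ℓ U π → y * x ∈ DSet ℓ U π := by
  have hπ0 : v π ≠ 0 := by
    have := hπ 0
    rwa [map_zero, zero_pow hℓ.ne'] at this
  have hπ1 : v π ≠ 1 := by
    have := hπ 1
    rwa [map_one, one_pow] at this
  obtain ⟨e, he⟩ : ∃ e : K, v e < 1 ∧ e ≠ 0 := by
    rcases lt_or_gt_of_ne hπ1 with h | h
    · exact ⟨π, h, (Valuation.ne_zero_iff _).1 hπ0⟩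
    · refine ⟨π⁻¹, ?_, inv_ne_zero ((Valuation.ne_zero_iff _).1 hπ0)⟩
      rw [map_inv₀]
      exact inv_lt_one_of_one_lt₀ h
  have key := mem_DSet_iff hℓ hvℓ hπ hs0 hs ht0 ht
  constructor
  · intro hy x hx
    rw [key] at *
    refine lt_of_le_of_lt ?_ hx
    rw [map_mul]
    gcongr
    calc v y * v x ≤ 1 * v x := by gcongr
      _ = v x := one_mul _
  · intro h
    by_contra hy
    rw [not_le] at hy
    -- a small element of `D`
    obtain ⟨n, hn⟩ := exists_pow_lt_of_lt_one (inv_pos.2 (pos_iff_ne_zero.2 hπ0)) he.1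
    have hx0 : e ^ n ∈ DSet ℓ U π := by
      rw [key]
      have h1 : v (e ^ n) ^ ℓ ≤ v e ^ n := by
        rw [map_pow]
        exact pow_le_of_le_one zero_le (pow_le_one₀ zero_le he.1.le) hℓ.ne'
      calc v π * v (e ^ n) ^ ℓ ≤ v π * v e ^ n := by gcongr
        _ < v π * (v π)⁻¹ := mul_lt_mul_of_pos_left hn (pos_iff_ne_zero.2 hπ0)
        _ = 1 := mul_inv_cancel₀ hπ0
    have hall : ∀ k : ℕ, y ^ k * e ^ n ∈ DSet ℓ U π := by
      intro k
      induction k with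
      | zero => simpa using hx0
      | succ k ih =>
        have := h _ ih
        rwa [← mul_assoc, ← pow_succ'] at this
    have hpos : 0 < v π * v (e ^ n) ^ ℓ :=
      mul_pos (pos_iff_ne_zero.2 hπ0) (pow_pos ((Valuation.pos_iff _).2 (pow_ne_zero _ he.2)) _)
    obtain ⟨k, hk⟩ := pow_unbounded_of_one_lt ((v π * v (e ^ n) ^ ℓ)⁻¹) hy
    have h1 := (key _).1 (hall k)
    rw [map_mul, mul_pow, map_pow] at h1
    have h2 : v y ^ k ≤ (v y ^ k) ^ ℓ := le_self_pow₀ (one_le_pow₀ hy.le) hℓ.ne'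
    have h3 : (v π * v (e ^ n) ^ ℓ)⁻¹ * (v π * v (e ^ n) ^ ℓ) < 1 := by
      calc (v π * v (e ^ n) ^ ℓ)⁻¹ * (v π * v (e ^ n) ^ ℓ)
          < (v y ^ k) * (v π * v (e ^ n) ^ ℓ) := mul_lt_mul_of_pos_right hk hpos
        _ ≤ (v y ^ k) ^ ℓ * (v π * v (e ^ n) ^ ℓ) := by gcongr
        _ = v π * ((v y ^ k) ^ ℓ * v (e ^ n) ^ ℓ) := by ring
        _ < 1 := h1
    rw [inv_mul_cancel₀ hpos.ne'] at h3
    exact lt_irrefl _ h3

end

section definability

variable {K : Type u} [Field K] [CompatibleRing K]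

theorem def_GSet {U : Set K} (hU : (univ : Set K).Definable₁ Language.ring U) (ℓ : ℕ) :
    (univ : Set K).Definable₁ Language.ring (GSet ℓ U) := by
  have h1 : (univ : Set K).Definable Language.ring {a : (Fin 1 ⊕ Fin 1) ⊕ Fin 2 → K |
      a (Sum.inr 1) ∈ U ∧ a (Sum.inl (Sum.inl 0)) - a (Sum.inr 0) ^ ℓ =
        a (Sum.inl (Sum.inr 0)) * a (Sum.inr 1)} :=
    (def_mem hU (dfun_var _)).inter
      (Set.DefinableFun.ofPred_eq (dfun_sub (dfun_var _) (dfun_pow (dfun_var _) ℓ))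
        (dfun_mul (dfun_var _) (dfun_var _)))
  have h2 := h1.exists_of_finite
  have h3 : (univ : Set K).Definable Language.ring {b : Fin 1 ⊕ Fin 1 → K | b (Sum.inr 0) = 0} :=
    Set.DefinableFun.ofPred_eq (dfun_var _) dfun_zero
  have h4 := (h3.union h2).forall_of_finite
  have h5 : {x : Fin 1 → K | x 0 ∈ GSet ℓ U} = {x : Fin 1 → K | ∀ w : Fin 1 → K,
      Sum.elim x w ∈ {b : Fin 1 ⊕ Fin 1 → K | b (Sum.inr 0) = 0} ∪
        {b : Fin 1 ⊕ Fin 1 → K | ∃ u : Fin 2 → K, Sum.elim b u ∈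
          {a : (Fin 1 ⊕ Fin 1) ⊕ Fin 2 → K |
            a (Sum.inr 1) ∈ U ∧ a (Sum.inl (Sum.inl 0)) - a (Sum.inr 0) ^ ℓ =
              a (Sum.inl (Sum.inr 0)) * a (Sum.inr 1)}}} := by
    ext x
    constructor
    · intro hx w
      by_cases hw : w 0 = 0
      · exact Or.inl hw
      · obtain ⟨y, u, hu, hyu⟩ := hx (w 0) hw
        exact Or.inr ⟨![y, u], hu, hyu⟩
    · intro hx w hw
      rcases hx (fun _ => w) with h | ⟨u, hu1, hu2⟩
      · exact absurd h hw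
      · exact ⟨u 0, u 1, hu1, hu2⟩
  unfold Definable₁
  rw [h5]
  exact h4

theorem def_DSet {U : Set K} (hU : (univ : Set K).Definable₁ Language.ring U) (ℓ : ℕ) (π : K) :
    (univ : Set K).Definable₁ Language.ring (DSet ℓ U π) :=
  def_mem (def_GSet hU ℓ) (dfun_add dfun_one (dfun_mul (dfun_const (mem_univ π))
    (dfun_pow (dfun_var 0) ℓ)))

theorem def_stab {D : Set K} (hD : (univ : Set K).Definable₁ Language.ring D) :
    (univ : Set K).Definable₁ Language.ring {y : K | ∀ x, x ∈ D → y * x ∈ D} := by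
  have h1 : (univ : Set K).Definable Language.ring {b : Fin 1 ⊕ Fin 1 → K | b (Sum.inr 0) ∈ D} :=
    def_mem hD (dfun_var _)
  have h2 : (univ : Set K).Definable Language.ring
      {b : Fin 1 ⊕ Fin 1 → K | b (Sum.inl 0) * b (Sum.inr 0) ∈ D} :=
    def_mem hD (dfun_mul (dfun_var _) (dfun_var _))
  have h3 := (h1.compl.union h2).forall_of_finite
  have h4 : {y : Fin 1 → K | y 0 ∈ {y : K | ∀ x, x ∈ D → y * x ∈ D}} =
      {y : Fin 1 → K | ∀ w : Fin 1 → K, Sum.elim y w ∈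
        {b : Fin 1 ⊕ Fin 1 → K | b (Sum.inr 0) ∈ D}ᶜ ∪
          {b : Fin 1 ⊕ Fin 1 → K | b (Sum.inl 0) * b (Sum.inr 0) ∈ D}} := by
    ext y
    constructor
    · intro hy w
      by_cases hw : w 0 ∈ D
      · exact Or.inr (hy _ hw)
      · exact Or.inl hw
    · intro hy x hx
      rcases hy (fun _ => x) with h | h
      · exact absurd hx h
      · exact h
  unfold Definable₁
  rw [h4]
  exact h3

/-- A rank one valuation with definable topology is definable if its value group is not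
`ℓ`-divisible, `ℓ` a unit for the valuation. -/
theorem def_valuationRing (v : Valuation K ℝ≥0) {ℓ : ℕ} (hℓ : 0 < ℓ) (hvℓ : v (ℓ : K) = 1)
    {π : K} (hπ : ∀ c : K, v π ≠ v c ^ ℓ) {U : Set K}
    (hU : (univ : Set K).Definable₁ Language.ring U) {s t : K} (hs0 : s ≠ 0)
    (hs : ∀ x ∈ U, v x ≤ v s) (ht0 : t ≠ 0) (ht : ∀ x, v x ≤ v t → x ∈ U) :
    (univ : Set K).Definable₁ Language.ring {x : K | v x ≤ 1} := by
  have h1 : {x : K | v x ≤ 1} = {y : K | ∀ x, x ∈ DSet ℓ U π → y * x ∈ DSet ℓ U π} := by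
    ext y
    exact mem_ring_iff hℓ hvℓ hπ hs0 hs ht0 ht y
  rw [h1]
  exact def_stab (def_DSet hU ℓ π)

end definability

end Pool.Agent.NIPFields
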