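import Mathlib
import Pool.Agent.NIPFields.KD
import Pool.Agent.NIPFields.IntCl
import Pool.Agent.NIPFields.RankOne

set_option autoImplicit false

/-!
# Definable valuation rings from valuations compatible with `ℓ`-th powers
-/

namespace Pool.Agent.NIPFields

open FirstOrder FirstOrder.Language FirstOrder.Ring Set IsLocalRing

universe u

/-- The one-units of the valuation ring are `ℓ`-th powers. -/
def Compat {K : Type*} [Field K] (ℓ : ℕ) (O : ValuationSubring K) : Prop :=
  O ≠ ⊤ ∧ ∀ m : K, O.valuation m < 1 → ∃ y : K, 1 + m = y ^ ℓ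

section

variable {K : Type*} [Field K] {ℓ : ℕ}

theorem val_inv_gt {O : ValuationSubring K} {m : K} (hm0 : m ≠ 0) (hm : O.valuation m < 1) :
    m⁻¹ ∉ O := by
  intro h1
  have h2 : O.valuation m⁻¹ ≤ 1 := (O.valuation_le_one_iff _).2 h1
  rw [map_inv₀] at h2
  have h3 : 1 < (O.valuation m)⁻¹ :=
    (one_lt_inv₀ (zero_lt_iff.2 ((map_ne_zero _).2 hm0))).2 hm
  exact absurd h2 (not_le.2 h3)

theorem val_lt_one_of_inv_notMem {O : ValuationSubring K} {m : K} (hm : m⁻¹ ∉ O) :
    O.valuation m < 1 := by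
  by_contra h
  rw [not_lt] at h
  apply hm
  rw [← O.valuation_le_one_iff, map_inv₀]
  exact inv_le_one_of_one_le₀ h

theorem val_lt_of_le {O O' : ValuationSubring K} (h : O ≤ O') {m : K}
    (hm : O'.valuation m < 1) : O.valuation m < 1 := by
  by_cases hm0 : m = 0
  · rw [hm0, map_zero]; exact zero_lt_one
  · exact val_lt_one_of_inv_notMem (fun h1 => val_inv_gt hm0 hm (h h1))

/-- The overring generated by two valuation rings. -/
noncomputable def joinRing (O O' : ValuationSubring K) : ValuationSubring K where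
  carrier := {x | ∃ o ∈ O', O.valuation x ≤ O.valuation o}
  mul_mem' := by
    rintro x y ⟨a, ha, hxa⟩ ⟨b, hb, hyb⟩
    exact ⟨a * b, O'.mul_mem _ _ ha hb, by rw [map_mul, map_mul]; exact mul_le_mul' hxa hyb⟩
  one_mem' := ⟨1, O'.one_mem, le_refl _⟩
  zero_mem' := ⟨0, O'.zero_mem, le_refl _⟩
  add_mem' := by
    rintro x y ⟨a, ha, hxa⟩ ⟨b, hb, hyb⟩
    rcases le_total (O.valuation a) (O.valuation b) with h | h
    · exact ⟨b, hb, (O.valuation.map_add _ _).trans (max_le (hxa.trans h) hyb)⟩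
    · exact ⟨a, ha, (O.valuation.map_add _ _).trans (max_le hxa (hyb.trans h))⟩
  neg_mem' := by
    rintro x ⟨a, ha, hxa⟩
    exact ⟨a, ha, by rwa [Valuation.map_neg]⟩
  mem_or_inv_mem' := by
    intro x
    rcases O.mem_or_inv_mem x with h | h
    · exact Or.inl ⟨1, O'.one_mem, by rw [map_one]; exact (O.valuation_le_one_iff _).2 h⟩
    · exact Or.inr ⟨1, O'.one_mem, by rw [map_one]; exact (O.valuation_le_one_iff _).2 h⟩

theorem mem_joinRing {O O' : ValuationSubring K} {x : K} :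
    x ∈ joinRing O O' ↔ ∃ o ∈ O', O.valuation x ≤ O.valuation o := Iff.rfl

theorem le_joinRing (O O' : ValuationSubring K) : O ≤ joinRing O O' := fun x hx =>
  ⟨1, O'.one_mem, by rw [map_one]; exact (O.valuation_le_one_iff _).2 hx⟩

/-- Units of the join of two incomparable compatible rings are `ℓ`-th powers. -/
theorem units_join {O O' : ValuationSubring K}
    (hO : ∀ m : K, O.valuation m < 1 → ∃ y : K, 1 + m = y ^ ℓ)
    (hO' : ∀ m : K, O'.valuation m < 1 → ∃ y : K, 1 + m = y ^ ℓ)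
    (h1 : ¬ O ≤ O') (h2 : ¬ O' ≤ O) (u : K) (hu : (joinRing O O').valuation u = 1) :
    ∃ y : K, u = y ^ ℓ := by
  have hu0 : u ≠ 0 := by
    rintro rfl
    rw [map_zero] at hu
    exact zero_ne_one hu
  have huR : u ∈ joinRing O O' := ((joinRing O O').valuation_le_one_iff _).1 hu.le
  have huR' : u⁻¹ ∈ joinRing O O' := by
    rw [← (joinRing O O').valuation_le_one_iff, map_inv₀, hu, inv_one]
  obtain ⟨a, ha, ha'⟩ := SetLike.not_le_iff_exists.1 h1
  obtain ⟨b, hb, hb'⟩ := SetLike.not_le_iff_exists.1 h2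
  have hva : O.valuation a ≤ 1 := (O.valuation_le_one_iff _).2 ha
  have hva' : 1 < O'.valuation a := by
    rw [← not_le, O'.valuation_le_one_iff]; exact ha'
  have hvb : O'.valuation b ≤ 1 := (O'.valuation_le_one_iff _).2 hb
  have hvb' : 1 < O.valuation b := by
    rw [← not_le, O.valuation_le_one_iff]; exact hb'
  have ha0 : a ≠ 0 := by rintro rfl; exact ha' O'.zero_mem
  have hb0 : b ≠ 0 := by rintro rfl; exact hb' O.zero_mem
  set t₀ := a / b with ht₀
  have hvt : O.valuation t₀ < 1 := by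
    rw [ht₀, map_div₀]
    exact (div_lt_one₀ (lt_trans zero_lt_one hvb')).2 (lt_of_le_of_lt hva hvb')
  have hvt' : 1 < O'.valuation t₀ := by
    rw [ht₀, map_div₀]
    refine (one_lt_div₀ ?_).2 (lt_of_le_of_lt hvb hva')
    exact zero_lt_iff.2 ((map_ne_zero _).2 hb0)
  obtain ⟨o', ho', ho1, ho2⟩ : ∃ o' ∈ O', O.valuation u ≤ O.valuation o' ∧ 1 ≤ O.valuation o' := by
    obtain ⟨o', ho', h⟩ := huR
    rcases le_total 1 (O.valuation o') with h3 | h3
    · exact ⟨o', ho', h, h3⟩
    · exact ⟨1, O'.one_mem, by rw [map_one]; exact h.trans h3, by rw [map_one]⟩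
  obtain ⟨o, ho, ho3, ho4⟩ : ∃ o ∈ O, O'.valuation u⁻¹ ≤ O'.valuation o ∧ 1 ≤ O'.valuation o := by
    obtain ⟨w, hw, h⟩ := huR'
    have hw0 : O.valuation w ≠ 0 := by
      intro h0
      rw [h0] at h
      have := le_antisymm h zero_le
      exact (inv_ne_zero hu0) ((map_eq_zero _).1 this)
    have hw0' : w ≠ 0 := (map_ne_zero _).1 hw0
    have h3 : u⁻¹ / w ∈ O := by
      rw [← O.valuation_le_one_iff, map_div₀]
      exact div_le_one_of_le₀ h zero_le
    have h4 : O'.valuation u⁻¹ ≤ O'.valuation (u⁻¹ / w) := by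
      have h5 : u⁻¹ = u⁻¹ / w * w := (div_mul_cancel₀ _ hw0').symm
      conv_lhs => rw [h5, map_mul]
      calc O'.valuation (u⁻¹ / w) * O'.valuation w ≤ O'.valuation (u⁻¹ / w) * 1 :=
            mul_le_mul_right ((O'.valuation_le_one_iff _).2 hw) _
        _ = O'.valuation (u⁻¹ / w) := mul_one _
    rcases le_total 1 (O'.valuation (u⁻¹ / w)) with h6 | h6
    · exact ⟨_, h3, h4, h6⟩
    · exact ⟨1, O.one_mem, by rw [map_one]; exact h4.trans h6, by rw [map_one]⟩
  have ho0' : o' ≠ 0 := by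
    rintro rfl
    rw [map_zero] at ho2
    exact absurd ho2 (by simp)
  have hvo : O.valuation o ≤ 1 := (O.valuation_le_one_iff _).2 ho
  have hvo' : O'.valuation o' ≤ 1 := (O'.valuation_le_one_iff _).2 ho'
  have hvo'0 : 0 < O'.valuation o' := zero_lt_iff.2 ((map_ne_zero _).2 ho0')
  have hvo'0' : 0 < O.valuation o' := zero_lt_iff.2 ((map_ne_zero _).2 ho0')
  set t := o * o'⁻¹ * t₀ with ht
  have hvt1 : O.valuation t < (O.valuation o')⁻¹ := by
    rw [ht, map_mul, map_mul, map_inv₀]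
    calc O.valuation o * (O.valuation o')⁻¹ * O.valuation t₀
        ≤ 1 * (O.valuation o')⁻¹ * O.valuation t₀ := by gcongr
      _ = (O.valuation o')⁻¹ * O.valuation t₀ := by rw [one_mul]
      _ < (O.valuation o')⁻¹ * 1 := mul_lt_mul_of_pos_left hvt (inv_pos.2 hvo'0')
      _ = (O.valuation o')⁻¹ := mul_one _
  have e1 : O.valuation t < 1 := lt_of_lt_of_le hvt1 (inv_le_one_of_one_le₀ ho2)
  have e2 : O.valuation (u * t) < 1 := by
    rw [map_mul]
    calc O.valuation u * O.valuation t ≤ O.valuation o' * O.valuation t := by gcongr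
      _ < O.valuation o' * (O.valuation o')⁻¹ := mul_lt_mul_of_pos_left hvt1 hvo'0'
      _ = 1 := mul_inv_cancel₀ hvo'0'.ne'
  have hvt2 : O'.valuation o < O'.valuation t := by
    have hopos : 0 < O'.valuation o := lt_of_lt_of_le zero_lt_one ho4
    rw [ht, map_mul, map_mul, map_inv₀]
    calc O'.valuation o = O'.valuation o * 1 * 1 := by rw [mul_one, mul_one]
      _ ≤ O'.valuation o * (O'.valuation o')⁻¹ * 1 := by
          gcongr
          exact (one_le_inv₀ hvo'0).2 hvo'
      _ < O'.valuation o * (O'.valuation o')⁻¹ * O'.valuation t₀ :=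
          mul_lt_mul_of_pos_left hvt' (mul_pos hopos (inv_pos.2 hvo'0))
  have e3 : O'.valuation t⁻¹ < 1 := by
    rw [map_inv₀]
    exact inv_lt_one_of_one_lt₀ (lt_of_le_of_lt ho4 hvt2)
  have e4 : O'.valuation (u * t)⁻¹ < 1 := by
    rw [map_inv₀, map_mul]
    apply inv_lt_one_of_one_lt₀
    have hupos : 0 < O'.valuation u := zero_lt_iff.2 ((map_ne_zero _).2 hu0)
    calc (1 : _) = O'.valuation u * O'.valuation u⁻¹ := by
          rw [map_inv₀, mul_inv_cancel₀ hupos.ne']
      _ ≤ O'.valuation u * O'.valuation o := by gcongr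
      _ < O'.valuation u * O'.valuation t := mul_lt_mul_of_pos_left hvt2 hupos
  have ht0 : t ≠ 0 := by
    intro h
    rw [h, map_zero] at hvt2
    exact absurd hvt2 (by simp)
  obtain ⟨y₁, hy₁⟩ := hO _ e2
  obtain ⟨y₂, hy₂⟩ := hO _ e1
  obtain ⟨y₃, hy₃⟩ := hO' _ e4
  obtain ⟨y₄, hy₄⟩ := hO' _ e3
  have n2 : y₂ ^ ℓ ≠ 0 := by
    rw [← hy₂]
    intro h
    have := Valuation.map_one_add_of_lt O.valuation e1
    rw [h, map_zero] at this
    exact zero_ne_one this
  have n3 : y₃ ^ ℓ ≠ 0 := by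
    rw [← hy₃]
    intro h
    have := Valuation.map_one_add_of_lt O'.valuation e4
    rw [h, map_zero] at this
    exact zero_ne_one this
  refine ⟨y₁ * y₄ / (y₂ * y₃), ?_⟩
  rw [div_pow, mul_pow, mul_pow, eq_div_iff (mul_ne_zero n2 n3), ← hy₁, ← hy₂, ← hy₃, ← hy₄]
  field_simp
  ring

end

section caseX

variable {K : Type u} [Field K] {ℓ : ℕ}

/-- The set `{x | 1 + π x ^ ℓ` is an `ℓ`-th power`}`. -/
def PSet (ℓ : ℕ) (π : K) : Set K := {x | ∃ y, 1 + π * x ^ ℓ = y ^ ℓ}

theorem mem_PSet_iff (hℓ : ℓ ≠ 0) {O : ValuationSubring K} (hO : Compat ℓ O) {π : K}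
    (hπ : ∀ y, O.valuation π ≠ O.valuation y ^ ℓ) (x : K) :
    x ∈ PSet ℓ π ↔ O.valuation π * O.valuation x ^ ℓ < 1 := by
  constructor
  · rintro ⟨y, hy⟩
    by_contra hlt
    rw [not_lt] at hlt
    have hx0 : x ≠ 0 := by
      rintro rfl
      rw [map_zero, zero_pow hℓ, mul_zero] at hlt
      exact absurd hlt (by simp)
    have hvx : O.valuation x ≠ 0 := (map_ne_zero _).2 hx0
    have hne : O.valuation π * O.valuation x ^ ℓ ≠ 1 := by
      intro h
      apply hπ x⁻¹
      rw [map_inv₀, inv_pow]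
      exact eq_inv_of_mul_eq_one_left h
    have hgt : 1 < O.valuation (π * x ^ ℓ) := by
      rw [map_mul, map_pow]
      exact lt_of_le_of_ne hlt hne.symm
    have hval : O.valuation (1 + π * x ^ ℓ) = O.valuation (π * x ^ ℓ) := by
      rw [Valuation.map_add_eq_of_lt_right]
      rwa [map_one]
    rw [hy, map_mul, map_pow, map_pow] at hval
    apply hπ (y / x)
    rw [map_div₀, div_pow, hval, mul_div_cancel_right₀ _ (pow_ne_zero _ hvx)]
  · intro h
    refine hO.2 _ ?_
    rwa [map_mul, map_pow]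

theorem caseX [CompatibleRing K] (hℓ : 2 ≤ ℓ) {O : ValuationSubring K} (hO : Compat ℓ O) {π : K}
    (hπ0 : π ≠ 0) (hπ : ∀ y, O.valuation π ≠ O.valuation y ^ ℓ) :
    ∃ O' : ValuationSubring K, O' ≠ ⊤ ∧
      (univ : Set K).Definable₁ Language.ring {x | x ∈ O'} := by
  have hℓ0 : ℓ ≠ 0 := by omega
  have key := mem_PSet_iff hℓ0 hO hπ
  have hadd : ∀ {x y}, x ∈ PSet ℓ π → y ∈ PSet ℓ π → x + y ∈ PSet ℓ π := by
    intro x y hx hy
    rw [key] at *
    have h1 := O.valuation.map_add x y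
    rcases le_total (O.valuation x) (O.valuation y) with h | h
    · rw [max_eq_right h] at h1
      refine lt_of_le_of_lt ?_ hy
      gcongr
    · rw [max_eq_left h] at h1
      refine lt_of_le_of_lt ?_ hx
      gcongr
  have hmulO : ∀ {x y}, x ∈ O → y ∈ PSet ℓ π → x * y ∈ PSet ℓ π := by
    intro x y hx hy
    rw [key] at *
    refine lt_of_le_of_lt ?_ hy
    have h1 : O.valuation x ≤ 1 := (O.valuation_le_one_iff _).2 hx
    rw [map_mul]
    gcongr
    calc O.valuation x * O.valuation y ≤ 1 * O.valuation y := by gcongr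
      _ = O.valuation y := one_mul _
  let O' : ValuationSubring K :=
    { carrier := {y | ∀ x, x ∈ PSet ℓ π → y * x ∈ PSet ℓ π}
      mul_mem' := by
        intro a b ha hb x hx
        rw [mul_assoc]
        exact ha _ (hb _ hx)
      one_mem' := by
        intro x hx
        rwa [one_mul]
      zero_mem' := by
        intro x hx
        rw [zero_mul, key, map_zero, zero_pow hℓ0, mul_zero]
        exact zero_lt_one
      add_mem' := by
        intro a b ha hb x hx
        rw [add_mul]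
        exact hadd (ha _ hx) (hb _ hx)
      neg_mem' := by
        intro a ha x hx
        rw [neg_mul, key, Valuation.map_neg, ← key]
        exact ha x hx
      mem_or_inv_mem' := by
        intro x
        rcases O.mem_or_inv_mem x with h | h
        · exact Or.inl fun y hy => hmulO h hy
        · exact Or.inr fun y hy => hmulO h hy }
  refine ⟨O', ?_, ?_⟩
  · intro htop
    have hπv : O.valuation π ≠ 0 := (map_ne_zero _).2 hπ0
    have hπ1 : O.valuation π ≠ 1 := by
      have := hπ 1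
      rwa [map_one, one_pow] at this
    -- an element of the set and an element not in the set
    obtain ⟨x₁, hx₁, hx₁0⟩ : ∃ x, x ∈ PSet ℓ π ∧ x ≠ 0 := by
      rcases lt_or_gt_of_ne hπ1 with h | h
      · refine ⟨1, ?_, one_ne_zero⟩
        rw [key, map_one, one_pow, mul_one]
        exact h
      · refine ⟨π⁻¹, ?_, inv_ne_zero hπ0⟩
        rw [key, map_inv₀]
        obtain ⟨j, rfl⟩ : ∃ j, ℓ = (j + 1) + 1 := ⟨ℓ - 2, by omega⟩
        have h1 : (O.valuation π)⁻¹ < 1 := inv_lt_one_of_one_lt₀ h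
        rw [pow_succ', ← mul_assoc, mul_inv_cancel₀ hπv, one_mul]
        exact pow_lt_one₀ zero_le h1 (Nat.succ_ne_zero _)
    obtain ⟨x₂, hx₂⟩ : ∃ x, x ∉ PSet ℓ π := by
      rcases lt_or_gt_of_ne hπ1 with h | h
      · refine ⟨π⁻¹, ?_⟩
        rw [key, map_inv₀, not_lt]
        obtain ⟨j, rfl⟩ : ∃ j, ℓ = j + 1 := ⟨ℓ - 1, by omega⟩
        have h1 : 1 ≤ (O.valuation π)⁻¹ := ((one_lt_inv₀ (zero_lt_iff.2 hπv)).2 h).le
        rw [pow_succ', ← mul_assoc, mul_inv_cancel₀ hπv, one_mul]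
        exact one_le_pow₀ h1
      · refine ⟨1, ?_⟩
        rw [key, map_one, one_pow, mul_one, not_lt]
        exact h.le
    have h1 : x₂ / x₁ ∈ O' := by rw [htop]; trivial
    have h2 := h1 x₁ hx₁
    rw [div_mul_cancel₀ _ hx₁0] at h2
    exact hx₂ h2
  · have hP : (univ : Set K).Definable₁ Language.ring (PSet ℓ π) := by
      have h1 : (univ : Set K).Definable Language.ring {b : Fin 1 ⊕ Fin 1 → K |
          1 + π * b (Sum.inl 0) ^ ℓ = b (Sum.inr 0) ^ ℓ} :=
        Set.DefinableFun.ofPred_eq (dfun_add dfun_one (dfun_mul (dfun_const (mem_univ _))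
          (dfun_pow (dfun_var _) _))) (dfun_pow (dfun_var _) _)
      have h2 := h1.exists_of_finite
      have h3 : {x : Fin 1 → K | x 0 ∈ PSet ℓ π} = {x | ∃ u : Fin 1 → K, Sum.elim x u ∈
          {b : Fin 1 ⊕ Fin 1 → K | 1 + π * b (Sum.inl 0) ^ ℓ = b (Sum.inr 0) ^ ℓ}} := by
        ext x
        constructor
        · rintro ⟨y, hy⟩
          exact ⟨fun _ => y, hy⟩
        · rintro ⟨u, hu⟩
          exact ⟨u 0, hu⟩
      unfold Definable₁
      rw [h3]
      exact h2
    exact def_stab hP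

end caseX

end Pool.Agent.NIPFields
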