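import Mathlib
import Pool.Agent.NIPFields.DefVal

set_option autoImplicit false

/-!
# Definable valuation rings, second case
-/

namespace Pool.Agent.NIPFields

open FirstOrder FirstOrder.Language FirstOrder.Ring Set IsLocalRing

universe u

section

variable {K : Type u} [Field K] {ℓ : ℕ}

/-- The set `D`. -/
def DY (ℓ : ℕ) (a : K) : Set K := {z | (∃ y, 1 + z = y ^ ℓ) ∧ ∃ y, 1 + a * z = y ^ ℓ}

/-- The condition `(D + D) ∪ D D ∪ (Dᶜ)⁻¹ ⊆ c D`. -/
def SC (D : Set K) (c : K) : Prop :=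
  (∀ x y, x ∈ D → y ∈ D → ∃ z, z ∈ D ∧ x + y = c * z) ∧
  (∀ x y, x ∈ D → y ∈ D → ∃ z, z ∈ D ∧ x * y = c * z) ∧
  (∀ x, x ∉ D → ∃ z, z ∈ D ∧ x⁻¹ = c * z)

/-- The set `W`. -/
def WY (D : Set K) : Set K := {c | c = 0 ∨ ¬ SC D c}

theorem def_DY [CompatibleRing K] (a : K) :
    (univ : Set K).Definable₁ Language.ring (DY ℓ a) := by
  have h : ∀ b : K, (univ : Set K).Definable Language.ring
      {x : Fin 1 → K | ∃ y, 1 + b * x 0 = y ^ ℓ} := by
    intro b
    have h1 : (univ : Set K).Definable Language.ring {w : Fin 1 ⊕ Fin 1 → K |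
        1 + b * w (Sum.inl 0) = w (Sum.inr 0) ^ ℓ} :=
      Set.DefinableFun.ofPred_eq (dfun_add dfun_one (dfun_mul (dfun_const (mem_univ _))
        (dfun_var _))) (dfun_pow (dfun_var _) _)
    have h2 := h1.exists_of_finite
    have h3 : {x : Fin 1 → K | ∃ y, 1 + b * x 0 = y ^ ℓ} = {x | ∃ u : Fin 1 → K, Sum.elim x u ∈
        {w : Fin 1 ⊕ Fin 1 → K | 1 + b * w (Sum.inl 0) = w (Sum.inr 0) ^ ℓ}} := by
      ext x
      constructor
      · rintro ⟨y, hy⟩
        exact ⟨fun _ => y, hy⟩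
      · rintro ⟨u, hu⟩
        exact ⟨u 0, hu⟩
    rw [h3]
    exact h2
  have h1 := (h 1).inter (h a)
  simp only [one_mul] at h1
  exact h1

theorem def_SC [CompatibleRing K] {D : Set K}
    (hD : (univ : Set K).Definable₁ Language.ring D) :
    (univ : Set K).Definable₁ Language.ring {c | SC D c} := by
  -- the three parts
  have p1 : (univ : Set K).Definable Language.ring {c : Fin 1 → K |
      ∀ x y, x ∈ D → y ∈ D → ∃ z, z ∈ D ∧ x + y = c 0 * z} := by
    have e1 : (univ : Set K).Definable Language.ring {w : (Fin 1 ⊕ Fin 2) ⊕ Fin 1 → K |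
        w (Sum.inr 0) ∈ D ∧ w (Sum.inl (Sum.inr 0)) + w (Sum.inl (Sum.inr 1)) =
          w (Sum.inl (Sum.inl 0)) * w (Sum.inr 0)} :=
      (def_mem hD (dfun_var _)).inter (Set.DefinableFun.ofPred_eq
        (dfun_add (dfun_var _) (dfun_var _)) (dfun_mul (dfun_var _) (dfun_var _)))
    have e2 := e1.exists_of_finite
    have e3 : (univ : Set K).Definable Language.ring {w : Fin 1 ⊕ Fin 2 → K |
        w (Sum.inr 0) ∈ D ∧ w (Sum.inr 1) ∈ D} :=
      (def_mem hD (dfun_var _)).inter (def_mem hD (dfun_var _))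
    have e4 := (e3.compl.union e2).forall_of_finite
    have e5 : {c : Fin 1 → K | ∀ x y, x ∈ D → y ∈ D → ∃ z, z ∈ D ∧ x + y = c 0 * z} =
        {c | ∀ u : Fin 2 → K, Sum.elim c u ∈ {w : Fin 1 ⊕ Fin 2 → K |
        w (Sum.inr 0) ∈ D ∧ w (Sum.inr 1) ∈ D}ᶜ ∪ {v | ∃ u : Fin 1 → K, Sum.elim v u ∈
          {w : (Fin 1 ⊕ Fin 2) ⊕ Fin 1 → K |
        w (Sum.inr 0) ∈ D ∧ w (Sum.inl (Sum.inr 0)) + w (Sum.inl (Sum.inr 1)) =
          w (Sum.inl (Sum.inl 0)) * w (Sum.inr 0)}}} := by
      ext c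
      constructor
      · intro h u
        by_cases hu : u 0 ∈ D ∧ u 1 ∈ D
        · obtain ⟨z, hz, e⟩ := h _ _ hu.1 hu.2
          exact Or.inr ⟨fun _ => z, hz, e⟩
        · exact Or.inl hu
      · intro h x y hx hy
        rcases h ![x, y] with h1 | ⟨v, hv1, hv2⟩
        · exact absurd ⟨hx, hy⟩ h1
        · exact ⟨v 0, hv1, hv2⟩
    rw [e5]
    exact e4
  have p2 : (univ : Set K).Definable Language.ring {c : Fin 1 → K |
      ∀ x y, x ∈ D → y ∈ D → ∃ z, z ∈ D ∧ x * y = c 0 * z} := by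
    have e1 : (univ : Set K).Definable Language.ring {w : (Fin 1 ⊕ Fin 2) ⊕ Fin 1 → K |
        w (Sum.inr 0) ∈ D ∧ w (Sum.inl (Sum.inr 0)) * w (Sum.inl (Sum.inr 1)) =
          w (Sum.inl (Sum.inl 0)) * w (Sum.inr 0)} :=
      (def_mem hD (dfun_var _)).inter (Set.DefinableFun.ofPred_eq
        (dfun_mul (dfun_var _) (dfun_var _)) (dfun_mul (dfun_var _) (dfun_var _)))
    have e2 := e1.exists_of_finite
    have e3 : (univ : Set K).Definable Language.ring {w : Fin 1 ⊕ Fin 2 → K |
        w (Sum.inr 0) ∈ D ∧ w (Sum.inr 1) ∈ D} :=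
      (def_mem hD (dfun_var _)).inter (def_mem hD (dfun_var _))
    have e4 := (e3.compl.union e2).forall_of_finite
    have e5 : {c : Fin 1 → K | ∀ x y, x ∈ D → y ∈ D → ∃ z, z ∈ D ∧ x * y = c 0 * z} =
        {c | ∀ u : Fin 2 → K, Sum.elim c u ∈ {w : Fin 1 ⊕ Fin 2 → K |
        w (Sum.inr 0) ∈ D ∧ w (Sum.inr 1) ∈ D}ᶜ ∪ {v | ∃ u : Fin 1 → K, Sum.elim v u ∈
          {w : (Fin 1 ⊕ Fin 2) ⊕ Fin 1 → K |
        w (Sum.inr 0) ∈ D ∧ w (Sum.inl (Sum.inr 0)) * w (Sum.inl (Sum.inr 1)) =
          w (Sum.inl (Sum.inl 0)) * w (Sum.inr 0)}}} := by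
      ext c
      constructor
      · intro h u
        by_cases hu : u 0 ∈ D ∧ u 1 ∈ D
        · obtain ⟨z, hz, e⟩ := h _ _ hu.1 hu.2
          exact Or.inr ⟨fun _ => z, hz, e⟩
        · exact Or.inl hu
      · intro h x y hx hy
        rcases h ![x, y] with h1 | ⟨v, hv1, hv2⟩
        · exact absurd ⟨hx, hy⟩ h1
        · exact ⟨v 0, hv1, hv2⟩
    rw [e5]
    exact e4
  have p3 : (univ : Set K).Definable Language.ring {c : Fin 1 → K |
      ∀ x, x ∉ D → ∃ z, z ∈ D ∧ x⁻¹ = c 0 * z} := by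
    have e1 : (univ : Set K).Definable Language.ring {w : (Fin 1 ⊕ Fin 1) ⊕ Fin 1 → K |
        w (Sum.inr 0) ∈ D ∧ (w (Sum.inl (Sum.inr 0)))⁻¹ =
          w (Sum.inl (Sum.inl 0)) * w (Sum.inr 0)} :=
      (def_mem hD (dfun_var _)).inter (Set.DefinableFun.ofPred_eq
        (dfun_inv (dfun_var _)) (dfun_mul (dfun_var _) (dfun_var _)))
    have e2 := e1.exists_of_finite
    have e3 : (univ : Set K).Definable Language.ring {w : Fin 1 ⊕ Fin 1 → K |
        w (Sum.inr 0) ∈ D} := def_mem hD (dfun_var _)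
    have e4 := (e3.union e2).forall_of_finite
    have e5 : {c : Fin 1 → K | ∀ x, x ∉ D → ∃ z, z ∈ D ∧ x⁻¹ = c 0 * z} =
        {c | ∀ u : Fin 1 → K, Sum.elim c u ∈ {w : Fin 1 ⊕ Fin 1 → K |
        w (Sum.inr 0) ∈ D} ∪ {v | ∃ u : Fin 1 → K, Sum.elim v u ∈
          {w : (Fin 1 ⊕ Fin 1) ⊕ Fin 1 → K |
        w (Sum.inr 0) ∈ D ∧ (w (Sum.inl (Sum.inr 0)))⁻¹ =
          w (Sum.inl (Sum.inl 0)) * w (Sum.inr 0)}}} := by
      ext c
      constructor
      · intro h u
        by_cases hu : u 0 ∈ D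
        · exact Or.inl hu
        · obtain ⟨z, hz, e⟩ := h _ hu
          exact Or.inr ⟨fun _ => z, hz, e⟩
      · intro h x hx
        rcases h (fun _ => x) with h1 | ⟨v, hv1, hv2⟩
        · exact absurd h1 hx
        · exact ⟨v 0, hv1, hv2⟩
    rw [e5]
    exact e4
  exact p1.inter (p2.inter p3)

theorem def_WY [CompatibleRing K] {D : Set K}
    (hD : (univ : Set K).Definable₁ Language.ring D) :
    (univ : Set K).Definable₁ Language.ring (WY D) := by
  have h1 : (univ : Set K).Definable Language.ring {c : Fin 1 → K | c 0 = 0} :=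
    Set.DefinableFun.ofPred_eq (dfun_var _) dfun_zero
  exact h1.union (def_SC hD).compl

end

section

variable {K : Type u} [Field K] {ℓ : ℕ}

/-- The intersection of all compatible valuation rings, assuming that they form a chain. -/
noncomputable def interRing (ℓ : ℕ)
    (hchain : ∀ O O' : ValuationSubring K, Compat ℓ O → Compat ℓ O' → O ≤ O' ∨ O' ≤ O) :
    ValuationSubring K where
  carrier := {x | ∀ O : ValuationSubring K, Compat ℓ O → x ∈ O}
  mul_mem' := fun hx hy O hO => O.mul_mem _ _ (hx O hO) (hy O hO)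
  one_mem' := fun O _ => O.one_mem
  zero_mem' := fun O _ => O.zero_mem
  add_mem' := fun hx hy O hO => O.add_mem _ _ (hx O hO) (hy O hO)
  neg_mem' := fun hx O hO => O.neg_mem _ (hx O hO)
  mem_or_inv_mem' := by
    intro x
    by_cases hx : ∀ O : ValuationSubring K, Compat ℓ O → x ∈ O
    · exact Or.inl hx
    · right
      push Not at hx
      obtain ⟨O, hO, hxO⟩ := hx
      intro O' hO'
      rcases hchain O O' hO hO' with h | h
      · exact h ((O.mem_or_inv_mem x).resolve_left hxO)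
      · exact (O'.mem_or_inv_mem x).resolve_left (fun h1 => hxO (h h1))

/-- Lifting a power from the residue field. -/
theorem lift_pow (hℓ : ℓ ≠ 0) {O : ValuationSubring K} (hO : Compat ℓ O) (a : O)
    (ha : residue O a ≠ 0) (hpow : ∃ y, residue O a = y ^ ℓ) : ∃ y : K, (a : K) = y ^ ℓ := by
  obtain ⟨y', hy'⟩ := hpow
  obtain ⟨y, rfl⟩ := residue_surjective y'
  have hy0 : residue O y ≠ 0 := by
    intro h
    rw [h, zero_pow hℓ] at hy'
    exact ha hy'
  have hyu : IsUnit y := by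
    rwa [Ne, residue_eq_zero_iff, mem_maximalIdeal, mem_nonunits_iff, not_not] at hy0
  have hvy : O.valuation (y : K) = 1 := (O.valuation_eq_one_iff y).1 hyu
  have h1 : a - y ^ ℓ ∈ maximalIdeal O := by
    rw [← residue_eq_zero_iff, map_sub, map_pow, hy', sub_self]
  have h2 : O.valuation ((a : K) - (y : K) ^ ℓ) < 1 := by
    have := (O.valuation_lt_one_iff (a - y ^ ℓ)).1 h1
    simpa using this
  have hy0' : (y : K) ^ ℓ ≠ 0 := by
    apply pow_ne_zero
    intro h
    rw [h, map_zero] at hvy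
    exact zero_ne_one hvy
  obtain ⟨t, ht⟩ := hO.2 (((a : K) - (y : K) ^ ℓ) / (y : K) ^ ℓ) (by
    rw [map_div₀, map_pow, hvy, one_pow, div_one]
    exact h2)
  refine ⟨y * t, ?_⟩
  rw [mul_pow, ← ht]
  field_simp
  ring

theorem caseY [CompatibleRing K] {p : ℕ} [hp : Fact p.Prime] [CharP K p] (hℓ : ℓ ≠ 0)
    (hℓK : (ℓ : K) ≠ 0) (hne : ∃ O : ValuationSubring K, Compat ℓ O)
    (hnp : ∃ a : K, a ≠ 0 ∧ ∀ y, a ≠ y ^ ℓ)
    (hY : ∀ O : ValuationSubring K, Compat ℓ O → ∃ u, O.valuation u = 1 ∧ ∀ y, u ≠ y ^ ℓ) :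
    ∃ O' : ValuationSubring K, O' ≠ ⊤ ∧
      (univ : Set K).Definable₁ Language.ring {x | x ∈ O'} := by
  -- the chain condition
  have hchain : ∀ O O' : ValuationSubring K, Compat ℓ O → Compat ℓ O' → O ≤ O' ∨ O' ≤ O := by
    intro O O' hO hO'
    by_contra hcon
    push Not at hcon
    have hu := units_join hO.2 hO'.2 hcon.1 hcon.2
    by_cases htop : joinRing O O' = ⊤
    · obtain ⟨a, ha0, ha⟩ := hnp
      obtain ⟨y, hy⟩ := hu a (by
        apply le_antisymm
        · rw [ValuationSubring.valuation_le_one_iff, htop]; trivial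
        · have h1 : (joinRing O O').valuation a⁻¹ ≤ 1 := by
            rw [ValuationSubring.valuation_le_one_iff, htop]; trivial
          rw [map_inv₀] at h1
          exact (inv_le_one₀ (zero_lt_iff.2 ((map_ne_zero _).2 ha0))).1 h1)
      exact ha y hy
    · have hR : Compat ℓ (joinRing O O') :=
        ⟨htop, fun m hm => hO.2 m (val_lt_of_le (le_joinRing O O') hm)⟩
      obtain ⟨u, hu1, hu2⟩ := hY _ hR
      obtain ⟨y, hy⟩ := hu u hu1
      exact hu2 y hy
  set O₀ := interRing ℓ hchain with hO₀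
  have hmem : ∀ {x}, x ∈ O₀ ↔ ∀ O : ValuationSubring K, Compat ℓ O → x ∈ O := Iff.rfl
  have hle : ∀ {O}, Compat ℓ O → O₀ ≤ O := fun hO x hx => hmem.1 hx _ hO
  have hcomp : Compat ℓ O₀ := by
    constructor
    · intro htop
      obtain ⟨O, hO⟩ := hne
      have := hle hO
      rw [htop, top_le_iff] at this
      exact hO.1 this
    · intro m hm
      by_cases hm0 : m = 0
      · exact ⟨1, by rw [hm0, one_pow, add_zero]⟩
      have h1 := val_inv_gt hm0 hm
      rw [hmem] at h1
      push Not at h1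
      obtain ⟨O, hO, h2⟩ := h1
      exact hO.2 m (val_lt_one_of_inv_notMem h2)
  obtain ⟨a, ha1, ha2⟩ := hY O₀ hcomp
  have ha0 : a ≠ 0 := by rintro rfl; rw [map_zero] at ha1; exact zero_ne_one ha1
  have haO : a ∈ O₀ := (O₀.valuation_le_one_iff _).1 ha1.le
  set D := DY ℓ a with hD
  have h0D : (0 : K) ∈ D := ⟨⟨1, by rw [one_pow, add_zero]⟩, ⟨1, by rw [mul_zero, one_pow, add_zero]⟩⟩
  have hMD : ∀ m, O₀.valuation m < 1 → m ∈ D := by
    intro m hm
    exact ⟨hcomp.2 m hm, hcomp.2 (a * m) (by rw [map_mul, ha1, one_mul]; exact hm)⟩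
  have hDO : ∀ z ∈ D, z ∈ O₀ := by
    rintro z ⟨⟨y, hy⟩, ⟨y', hy'⟩⟩
    by_contra hz
    have hz0 : z ≠ 0 := by rintro rfl; exact hz O₀.zero_mem
    have hz1 : O₀.valuation z⁻¹ < 1 := val_lt_one_of_inv_notMem (by rwa [inv_inv])
    have hz2 : O₀.valuation (a * z)⁻¹ < 1 := by
      rw [mul_inv, map_mul, map_inv₀ _ a, ha1, inv_one, one_mul]
      exact hz1
    obtain ⟨t, ht⟩ := hcomp.2 _ hz1
    obtain ⟨t', ht'⟩ := hcomp.2 _ hz2
    have nt : t ^ ℓ ≠ 0 := by
      rw [← ht]
      intro h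
      have := Valuation.map_one_add_of_lt O₀.valuation hz1
      rw [h, map_zero] at this
      exact zero_ne_one this
    have nt' : t' ^ ℓ ≠ 0 := by
      rw [← ht']
      intro h
      have := Valuation.map_one_add_of_lt O₀.valuation hz2
      rw [h, map_zero] at this
      exact zero_ne_one this
    have e1 : y ^ ℓ = z * t ^ ℓ := by rw [← hy, ← ht]; field_simp; ring
    have e2 : y' ^ ℓ = a * z * t' ^ ℓ := by rw [← hy', ← ht']; field_simp; ring
    have ny : y ^ ℓ ≠ 0 := by rw [e1]; exact mul_ne_zero hz0 nt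
    apply ha2 (y' * t / (y * t'))
    rw [div_pow, mul_pow, mul_pow, eq_div_iff (mul_ne_zero ny nt'), e1, e2]
    ring
  have hDdef : (univ : Set K).Definable₁ Language.ring D := def_DY a
  refine ⟨O₀, hcomp.1, ?_⟩
  suffices hW : {x | x ∈ O₀} = WY D by rw [hW]; exact def_WY hDdef
  ext c
  constructor
  swap
  · -- elements outside `O₀` satisfy `SC`
    intro hc
    by_contra hcO
    have hcO : c ∉ O₀ := hcO
    have hc0 : c ≠ 0 := by rintro rfl; exact hcO O₀.zero_mem
    have hcv : O₀.valuation c⁻¹ < 1 := val_lt_one_of_inv_notMem (by rwa [inv_inv])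
    have hcD : ∀ x ∈ O₀, ∃ z, z ∈ D ∧ x = c * z := by
      intro x hx
      refine ⟨x / c, hMD _ ?_, by field_simp⟩
      rw [div_eq_mul_inv, map_mul]
      calc O₀.valuation x * O₀.valuation c⁻¹ ≤ 1 * O₀.valuation c⁻¹ := by
            have := (O₀.valuation_le_one_iff _).2 hx
            gcongr
        _ < 1 := by rwa [one_mul]
    rcases hc with h | h
    · exact hc0 h
    · apply h
      refine ⟨fun x y hx hy => hcD _ (O₀.add_mem _ _ (hDO x hx) (hDO y hy)),
        fun x y hx hy => hcD _ (O₀.mul_mem _ _ (hDO x hx) (hDO y hy)), fun x hx => hcD _ ?_⟩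
      by_contra h1
      exact hx (hMD _ (val_lt_one_of_inv_notMem h1))
  · intro hc
    have hc : c ∈ O₀ := hc
    by_contra hcW
    have hcW : ¬ (c = 0 ∨ ¬ SC D c) := hcW
    push Not at hcW
    obtain ⟨hc0, hS1, hS2, hS3⟩ := hcW
    -- `c` is a unit
    have hcu : IsUnit (⟨c, hc⟩ : O₀) := by
      by_contra hcu
      have hcv : O₀.valuation c < 1 := (O₀.valuation_lt_one_iff ⟨c, hc⟩).1 hcu
      have hcz : ∀ z ∈ D, O₀.valuation (c * z) < 1 := by
        intro z hz
        rw [map_mul]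
        calc O₀.valuation c * O₀.valuation z ≤ O₀.valuation c * 1 := by
              have := (O₀.valuation_le_one_iff _).2 (hDO z hz)
              gcongr
          _ < 1 := by rwa [mul_one]
      have h1D : (1 : K) ∉ D := by
        intro h
        obtain ⟨z, hz, e⟩ := hS1 1 0 h h0D
        have := hcz z hz
        rw [← e, add_zero, map_one] at this
        exact lt_irrefl _ this
      obtain ⟨z, hz, e⟩ := hS3 1 h1D
      have := hcz z hz
      rw [← e, inv_one, map_one] at this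
      exact lt_irrefl _ this
    set c' : O₀ := ⟨c, hc⟩ with hc'
    have hres : ∀ x : O₀, residue O₀ x ≠ 0 → IsUnit x := by
      intro x hx
      rwa [Ne, residue_eq_zero_iff, mem_maximalIdeal, mem_nonunits_iff, not_not] at hx
    let E : Set (ResidueField O₀) := {e | ∃ x : O₀, (x : K) ∈ D ∧ residue O₀ x = e}
    have hVE : VE E (residue O₀ c') := by
      refine ⟨⟨0, h0D, map_zero _⟩, ?_, ?_, ?_, ?_, ?_⟩
      · intro h
        rw [residue_eq_zero_iff, mem_maximalIdeal, mem_nonunits_iff] at h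
        exact h hcu
      · rintro _ ⟨x, hx, rfl⟩ _ ⟨y, hy, rfl⟩
        obtain ⟨z, hz, e⟩ := hS1 _ _ hx hy
        refine ⟨_, ⟨⟨z, hDO z hz⟩, hz, rfl⟩, ?_⟩
        rw [← map_add, ← map_mul]
        congr 1
        exact Subtype.ext e
      · rintro _ ⟨x, hx, rfl⟩ _ ⟨y, hy, rfl⟩
        obtain ⟨z, hz, e⟩ := hS2 _ _ hx hy
        refine ⟨_, ⟨⟨z, hDO z hz⟩, hz, rfl⟩, ?_⟩
        rw [← map_mul, ← map_mul]
        congr 1
        exact Subtype.ext e
      · intro e he
        obtain ⟨x, rfl⟩ := residue_surjective e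
        have hx0 : residue O₀ x ≠ 0 := by
          intro h
          exact he ⟨0, h0D, by rw [h, map_zero]⟩
        have hxD : (x : K) ∉ D := fun h => he ⟨x, h, rfl⟩
        have hxne : (x : K) ≠ 0 := by
          intro h
          exact hxD (h ▸ h0D)
        obtain ⟨z, hz, e1⟩ := hS3 _ hxD
        refine ⟨_, ⟨⟨z, hDO z hz⟩, hz, rfl⟩, ?_⟩
        rw [inv_eq_iff_eq_inv, ← map_mul]
        symm
        apply inv_eq_of_mul_eq_one_left
        rw [← map_mul, ← map_one (residue O₀)]
        congr 1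
        apply Subtype.ext
        change (x : K) * (c * z) = 1
        rw [← e1, mul_inv_cancel₀ hxne]
      · refine ⟨residue O₀ ⟨a, haO⟩ - 1, ?_⟩
        rintro ⟨z, hz, e⟩
        obtain ⟨y, hy⟩ := hz.1
        have h1 : residue O₀ ⟨a, haO⟩ = residue O₀ (1 + z) := by
          rw [map_add, map_one, e]; ring
        have hau : IsUnit (⟨a, haO⟩ : O₀) := (O₀.valuation_eq_one_iff _).2 ha1
        have hyO : y ∈ O₀ := by
          rw [← O₀.valuation_le_one_iff]
          have h2 : O₀.valuation y ^ ℓ ≤ 1 := by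
            rw [← map_pow, ← hy, O₀.valuation_le_one_iff]
            exact (1 + z).2
          exact (pow_le_one_iff hℓ).1 h2
        have h2 : residue O₀ ⟨a, haO⟩ = (residue O₀ ⟨y, hyO⟩) ^ ℓ := by
          rw [h1, ← map_pow]
          congr 1
          exact Subtype.ext hy
        obtain ⟨t, ht⟩ := lift_pow hℓ hcomp ⟨a, haO⟩ (by
          intro h
          rw [residue_eq_zero_iff, mem_maximalIdeal, mem_nonunits_iff] at h
          exact h hau) ⟨_, h2⟩
        exact ha2 t ht
    have hdE : ∀ z ∈ E, ∃ y : ResidueField O₀, 1 + 1 * z = y ^ ℓ := by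
      rintro _ ⟨x, hx, rfl⟩
      obtain ⟨y, hy⟩ := hx.1
      have hyO : y ∈ O₀ := by
        rw [← O₀.valuation_le_one_iff]
        have h2 : O₀.valuation y ^ ℓ ≤ 1 := by
          rw [← map_pow, ← hy, O₀.valuation_le_one_iff]
          exact (1 + x).2
        exact (pow_le_one_iff hℓ).1 h2
      refine ⟨residue O₀ ⟨y, hyO⟩, ?_⟩
      rw [one_mul, ← map_one (residue O₀), ← map_add, ← map_pow]
      congr 1
      exact Subtype.ext hy
    have hchO : CharP O₀ p := RingHom.charP O₀.subtype Subtype.val_injective p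
    have hchR : CharP (ResidueField O₀) p := charP_residueField p O₀
    have hℓR : (ℓ : ResidueField O₀) ≠ 0 := by
      intro h
      rw [CharP.cast_eq_zero_iff (ResidueField O₀) p] at h
      exact hℓK ((CharP.cast_eq_zero_iff K p ℓ).2 h)
    obtain ⟨O₁, hO₁1, hO₁2⟩ := hVE.exists_valuationSubring (p := p) hℓR one_ne_zero hdE
    -- the composite valuation ring
    let O₂ : ValuationSubring K :=
      { carrier := {x | ∃ h : x ∈ O₀, residue O₀ ⟨x, h⟩ ∈ O₁}
        mul_mem' := by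
          rintro x y ⟨hx, hx'⟩ ⟨hy, hy'⟩
          refine ⟨O₀.mul_mem _ _ hx hy, ?_⟩
          have : (⟨x * y, O₀.mul_mem _ _ hx hy⟩ : O₀) = ⟨x, hx⟩ * ⟨y, hy⟩ := rfl
          rw [this, map_mul]
          exact O₁.mul_mem _ _ hx' hy'
        one_mem' := by
          refine ⟨O₀.one_mem, ?_⟩
          have : (⟨1, O₀.one_mem⟩ : O₀) = 1 := rfl
          rw [this, map_one]
          exact O₁.one_mem
        zero_mem' := by
          refine ⟨O₀.zero_mem, ?_⟩
          have : (⟨0, O₀.zero_mem⟩ : O₀) = 0 := rfl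
          rw [this, map_zero]
          exact O₁.zero_mem
        add_mem' := by
          rintro x y ⟨hx, hx'⟩ ⟨hy, hy'⟩
          refine ⟨O₀.add_mem _ _ hx hy, ?_⟩
          have : (⟨x + y, O₀.add_mem _ _ hx hy⟩ : O₀) = ⟨x, hx⟩ + ⟨y, hy⟩ := rfl
          rw [this, map_add]
          exact O₁.add_mem _ _ hx' hy'
        neg_mem' := by
          rintro x ⟨hx, hx'⟩
          refine ⟨O₀.neg_mem _ hx, ?_⟩
          have : (⟨-x, O₀.neg_mem _ hx⟩ : O₀) = -⟨x, hx⟩ := rfl
          rw [this, map_neg]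
          exact O₁.neg_mem _ hx'
        mem_or_inv_mem' := by
          intro x
          by_cases hx : x ∈ O₀
          · by_cases hx' : residue O₀ ⟨x, hx⟩ ∈ O₁
            · exact Or.inl ⟨hx, hx'⟩
            · right
              have h1 : residue O₀ ⟨x, hx⟩ ≠ 0 := by
                intro h; rw [h] at hx'; exact hx' O₁.zero_mem
              have hu := hres _ h1
              have hv : O₀.valuation x = 1 := (O₀.valuation_eq_one_iff ⟨x, hx⟩).1 hu
              have hx0 : x ≠ 0 := by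
                rintro rfl; rw [map_zero] at hv; exact zero_ne_one hv
              have hxi : x⁻¹ ∈ O₀ := by
                rw [← O₀.valuation_le_one_iff, map_inv₀, hv, inv_one]
              refine ⟨hxi, ?_⟩
              have h2 : residue O₀ ⟨x⁻¹, hxi⟩ = (residue O₀ ⟨x, hx⟩)⁻¹ := by
                symm
                apply inv_eq_of_mul_eq_one_left
                rw [← map_mul, ← map_one (residue O₀)]
                congr 1
                exact Subtype.ext (inv_mul_cancel₀ hx0)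
              rw [h2]
              exact (O₁.mem_or_inv_mem _).resolve_left hx'
          · right
            have hx0 : x ≠ 0 := by rintro rfl; exact hx O₀.zero_mem
            have hv : O₀.valuation x⁻¹ < 1 := val_lt_one_of_inv_notMem (by rwa [inv_inv])
            have hxi : x⁻¹ ∈ O₀ := (O₀.valuation_le_one_iff _).1 hv.le
            refine ⟨hxi, ?_⟩
            have h2 : residue O₀ ⟨x⁻¹, hxi⟩ = 0 := by
              rw [residue_eq_zero_iff]
              exact (O₀.valuation_lt_one_iff ⟨x⁻¹, hxi⟩).2 hv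
            rw [h2]
            exact O₁.zero_mem }
    have hmem₂ : ∀ {x}, x ∈ O₂ ↔ ∃ h : x ∈ O₀, residue O₀ ⟨x, h⟩ ∈ O₁ := Iff.rfl
    have hcomp₂ : Compat ℓ O₂ := by
      constructor
      · intro htop
        apply hcomp.1
        rw [eq_top_iff]
        intro x _
        have : x ∈ O₂ := by rw [htop]; trivial
        exact this.1
      · intro m hm
        by_cases hm0 : m = 0
        · exact ⟨1, by rw [hm0, one_pow, add_zero]⟩
        have hmi := val_inv_gt hm0 hm
        obtain ⟨hmO, hmO₁⟩ := hmem₂.1 ((O₂.valuation_le_one_iff _).1 hm.le)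
        rcases lt_or_eq_of_le ((O₀.valuation_le_one_iff _).2 hmO) with h | h
        · exact hcomp.2 m h
        have hmi' : m⁻¹ ∈ O₀ := by
          rw [← O₀.valuation_le_one_iff, map_inv₀, h, inv_one]
        have h3 : (residue O₀ ⟨m, hmO⟩)⁻¹ ∉ O₁ := by
          intro h4
          apply hmi
          refine ⟨hmi', ?_⟩
          have h2 : residue O₀ ⟨m⁻¹, hmi'⟩ = (residue O₀ ⟨m, hmO⟩)⁻¹ := by
            symm
            apply inv_eq_of_mul_eq_one_left
            rw [← map_mul, ← map_one (residue O₀)]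
            congr 1
            exact Subtype.ext (inv_mul_cancel₀ hm0)
          rw [h2]
          exact h4
        have h4 := val_lt_one_of_inv_notMem h3
        obtain ⟨y, hy⟩ := hO₁2 _ h4
        have h5 : residue O₀ (1 + ⟨m, hmO⟩) = y ^ ℓ := by
          rw [map_add, map_one, hy]
        have h6 : residue O₀ (1 + ⟨m, hmO⟩) ≠ 0 := by
          intro h7
          rw [map_add, map_one] at h7
          have := Valuation.map_one_add_of_lt O₁.valuation h4
          rw [h7, map_zero] at this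
          exact zero_ne_one this
        obtain ⟨t, ht⟩ := lift_pow hℓ hcomp _ h6 ⟨y, h5⟩
        exact ⟨t, by rw [← ht]; rfl⟩
    apply hO₁1
    rw [eq_top_iff]
    intro e _
    obtain ⟨x, rfl⟩ := residue_surjective e
    have h7 : (x : K) ∈ O₂ := hle hcomp₂ x.2
    obtain ⟨_, h8⟩ := h7
    exact h8

end

/-- A field of positive characteristic in which not every element is an `ℓ`-th power and which
has a valuation ring with one-units being `ℓ`-th powers has a definable valuation ring. -/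
theorem exists_definable_valuationSubring {K : Type u} [Field K] [CompatibleRing K] {ℓ p : ℕ}
    [hp : Fact p.Prime] [CharP K p] (hℓK : (ℓ : K) ≠ 0)
    (hne : ∃ O : ValuationSubring K, Compat ℓ O) (hnp : ∃ a : K, a ≠ 0 ∧ ∀ y, a ≠ y ^ ℓ) :
    ∃ O' : ValuationSubring K, O' ≠ ⊤ ∧
      (univ : Set K).Definable₁ Language.ring {x | x ∈ O'} := by
  have hℓ : ℓ ≠ 0 := by rintro rfl; exact hℓK Nat.cast_zero
  have hℓ2 : 2 ≤ ℓ := by
    obtain ⟨a, _, ha⟩ := hnp
    by_contra h
    have : ℓ = 1 := by omega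
    subst this
    exact ha a (pow_one a).symm
  by_cases hX : ∃ O : ValuationSubring K, Compat ℓ O ∧ ∀ u, O.valuation u = 1 → ∃ y, u = y ^ ℓ
  · obtain ⟨O, hO, hu⟩ := hX
    obtain ⟨π, hπ0, hπ⟩ := hnp
    refine caseX hℓ2 hO hπ0 ?_
    intro y hy
    have hvπ : O.valuation π ≠ 0 := (map_ne_zero _).2 hπ0
    have hy0 : y ≠ 0 := by
      rintro rfl
      rw [map_zero, zero_pow hℓ] at hy
      exact hvπ hy
    obtain ⟨t, ht⟩ := hu (π / y ^ ℓ) (by
      rw [map_div₀, map_pow, hy, div_self]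
      rwa [← hy])
    apply hπ (t * y)
    rw [mul_pow, ← ht, div_mul_cancel₀ _ (pow_ne_zero _ hy0)]
  · push Not at hX
    exact caseY (p := p) hℓ hℓK hne hnp hX

end Pool.Agent.NIPFields
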