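import Mathlib
import Pool.Agent.NIPFields.LDef

set_option autoImplicit false

/-!
# Finite extensions of NIP fields are NIP
-/

namespace Pool.Agent.NIPFields

open FirstOrder FirstOrder.Language FirstOrder.Ring Set

universe u

section

variable {K : Type u} [Field K] [CompatibleRing K] {L : Type*} [Field L] [Algebra K L]
  [CompatibleRing L] {d : ℕ} {e : Module.Basis (Fin d) K L} {α : Type*}

theorem lfun_term (t : Language.ring.Term α) : LFun e (fun v : α → L => t.realize v) := by
  induction t with
  | var i => exact LFun.var i
  | func f ts ih =>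
    cases f with
    | add =>
      have := (ih 0).add (ih 1)
      simp only [Term.realize, CompatibleRing.funMap_add]
      exact this
    | mul =>
      have := (ih 0).mul (ih 1)
      simp only [Term.realize, CompatibleRing.funMap_mul]
      exact this
    | neg =>
      have := (ih 0).neg
      simp only [Term.realize, CompatibleRing.funMap_neg]
      exact this
    | zero =>
      simp only [Term.realize, CompatibleRing.funMap_zero]
      exact LFun.const 0
    | one =>
      simp only [Term.realize, CompatibleRing.funMap_one]
      exact LFun.const 1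

theorem ldef_boundedFormula {n : ℕ} (φ : Language.ring.BoundedFormula α n) :
    LDef e {v : α ⊕ Fin n → L | φ.Realize (v ∘ Sum.inl) (v ∘ Sum.inr)} := by
  induction φ with
  | falsum =>
    simp only [BoundedFormula.Realize, Set.ofPred_false]
    exact definable_empty
  | @equal k t₁ t₂ =>
    have h : ∀ v : α ⊕ Fin k → L, Sum.elim (v ∘ Sum.inl) (v ∘ Sum.inr) = v :=
      fun v => Sum.elim_comp_inl_inr v
    simp only [BoundedFormula.Realize, h]
    exact LFun.eq (lfun_term t₁) (lfun_term t₂)
  | rel R ts => exact (IsEmpty.false R).elim
  | imp φ ψ ih1 ih2 => exact ih1.imp ih2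
  | @all n φ ih =>
    have h1 := LDef.preimage_comp (β := (α ⊕ Fin n) ⊕ Unit) ih
      (Sum.elim (fun i => Sum.inl (Sum.inl i))
        (fun j : Fin (n + 1) => Fin.lastCases (Sum.inr ()) (fun j => Sum.inl (Sum.inr j)) j))
    have h2 := h1.forall
    convert h2 using 1
    ext v
    simp only [mem_ofPred_eq, BoundedFormula.Realize]
    have key : ∀ u : Unit → L, ((Sum.elim v u) ∘ (Sum.elim (fun i => Sum.inl (Sum.inl i))
        (fun j : Fin (n + 1) => (Fin.lastCases (Sum.inr ()) (fun j => Sum.inl (Sum.inr j)) j :
          (α ⊕ Fin n) ⊕ Unit)))) ∘ Sum.inr = Fin.snoc (v ∘ Sum.inr) (u ()) := by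
      intro u
      funext j
      refine Fin.lastCases ?_ (fun j => ?_) j
      · simp
      · simp
    constructor
    · intro h u
      have := h (u ())
      rw [← key u] at this
      exact this
    · intro h a
      have := h (fun _ => a)
      rw [key (fun _ => a)] at this
      exact this

theorem ldef_formula (φ : Language.ring.Formula α) : LDef e {v : α → L | φ.Realize v} := by
  have h1 := LDef.preimage_comp (β := α) (ldef_boundedFormula (e := e) φ)
    (Sum.elim id (fun j : Fin 0 => j.elim0))
  convert h1 using 1
  ext v
  simp only [mem_ofPred_eq, Formula.Realize]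
  have : (v ∘ Sum.elim id (fun j : Fin 0 => j.elim0)) ∘ Sum.inr = (default : Fin 0 → L) :=
    Subsingleton.elim _ _
  rw [this]
  rfl

/-- A finite extension of an NIP field is NIP. -/
theorem NIP.finite (hK : NIP K) (e : Module.Basis (Fin d) K L) : NIP L := by
  intro m k φ
  exact hK.ldef (e := e) (ldef_formula φ)

end

end Pool.Agent.NIPFields
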