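import Mathlib

set_option autoImplicit false

/-!
# Finite index subgroups of modules over local rings with infinite residue field
-/

namespace Pool.Agent.NIPFields

open IsLocalRing

theorem finiteIndex_comap {G G' : Type*} [AddGroup G] [AddGroup G'] (N : AddSubgroup G')
    [N.FiniteIndex] (f : G →+ G') : (N.comap f).FiniteIndex := by
  refine ⟨?_⟩
  rw [AddSubgroup.index_comap]
  exact (inferInstance : (N.addSubgroupOf f.range).FiniteIndex).index_ne_zero

section

variable {O : Type*} [CommRing O] [IsLocalRing O] [Infinite (ResidueField O)]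
  {J : Type*} [AddCommGroup J] [Module O J]

/-- There are no proper submodules of finite index. -/
theorem submodule_eq_top_of_finite_quotient (P : Submodule O J) (h : Finite (J ⧸ P)) :
    P = ⊤ := by
  by_contra hP
  obtain ⟨z, hz⟩ : ∃ z, z ∉ P := by
    by_contra hcon
    push Not at hcon
    exact hP (eq_top_iff.2 fun z _ => hcon z)
  let f : O →ₗ[O] (J ⧸ P) := LinearMap.toSpanSingleton O _ (P.mkQ z)
  have hker : LinearMap.ker f ≤ maximalIdeal O := by
    refine IsLocalRing.le_maximalIdeal ?_
    intro htop
    have h1 : (1 : O) ∈ LinearMap.ker f := htop ▸ Submodule.mem_top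
    rw [LinearMap.mem_ker] at h1
    simp only [f, LinearMap.toSpanSingleton_apply, one_smul, Submodule.mkQ_apply,
      Submodule.Quotient.mk_eq_zero] at h1
    exact hz h1
  have h2 : Finite (O ⧸ LinearMap.ker f) :=
    Finite.of_injective (f.quotKerEquivRange) f.quotKerEquivRange.injective
  have h3 : Finite (O ⧸ maximalIdeal O) :=
    Finite.of_surjective (Submodule.factor hker) (Submodule.factor_surjective hker)
  have h4 : Finite (ResidueField O) := h3
  exact not_finite (ResidueField O)

/-- If `A H ⊆ N` with `A`, `H` of finite index then `N` is everything. -/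
theorem eq_top_of_smul_le (N : AddSubgroup J) [N.FiniteIndex] (A : AddSubgroup O)
    [A.FiniteIndex] (H : AddSubgroup J) [H.FiniteIndex]
    (hAH : ∀ r ∈ A, ∀ w ∈ H, r • w ∈ N) : N = ⊤ := by
  have hfin : Finite (O ⧸ A) := AddSubgroup.finite_quotient_of_finiteIndex
  let φ : (O ⧸ A) → (J →+ J) := fun q => DistribSMul.toAddMonoidHom J (q.out : O)
  have hcom : ∀ q, (N.comap (φ q)).FiniteIndex := fun q => finiteIndex_comap N _
  have hinf : (⨅ q, N.comap (φ q)).FiniteIndex := AddSubgroup.finiteIndex_iInf hcom
  let H' : AddSubgroup J := H ⊓ ⨅ q, N.comap (φ q)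
  have hH' : H'.FiniteIndex := inferInstance
  have key : ∀ s : O, ∀ w ∈ H', s • w ∈ N := by
    intro s w hw
    have h1 : w ∈ H := (AddSubgroup.mem_inf.1 hw).1
    have h2 : w ∈ ⨅ q, N.comap (φ q) := (AddSubgroup.mem_inf.1 hw).2
    rw [AddSubgroup.mem_iInf] at h2
    have h3 := h2 (QuotientAddGroup.mk s)
    rw [AddSubgroup.mem_comap] at h3
    have h4 : ((QuotientAddGroup.mk s : O ⧸ A).out : O) • w ∈ N := h3
    have h5 : s - (QuotientAddGroup.mk s : O ⧸ A).out ∈ A := by
      have := QuotientAddGroup.mk_out_eq_add A s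
      obtain ⟨h, hh⟩ := this
      rw [hh]
      simp
    have h6 : s • w = (QuotientAddGroup.mk s : O ⧸ A).out • w +
        (s - (QuotientAddGroup.mk s : O ⧸ A).out) • w := by
      rw [← add_smul, add_sub_cancel]
    rw [h6]
    exact N.add_mem h4 (hAH _ h5 _ h1)
  let P : Submodule O J := Submodule.span O (H' : Set J)
  have hPN : ∀ x ∈ P, x ∈ N := by
    intro x hx
    induction hx using Submodule.closure_induction with
    | zero => exact N.zero_mem
    | add x y _ _ hx hy => exact N.add_mem hx hy
    | smul_mem r x hx => exact key r x hx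
  have hHP : H' ≤ P.toAddSubgroup := fun x hx => Submodule.subset_span hx
  have hPfin : P.toAddSubgroup.FiniteIndex := AddSubgroup.finiteIndex_of_le hHP
  have hPtop : P = ⊤ := by
    apply submodule_eq_top_of_finite_quotient
    have : Finite (J ⧸ P.toAddSubgroup) := AddSubgroup.finite_quotient_of_finiteIndex
    exact this
  rw [eq_top_iff]
  intro x _
  exact hPN x (hPtop ▸ Submodule.mem_top)

/-- A proper subgroup of finite index gives rise to the independence pattern. -/
theorem exists_pattern (N : AddSubgroup J) [N.FiniteIndex] (hN : N ≠ ⊤) (m : ℕ) :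
    ∃ (r : Fin m → O) (z : Fin m → J), ∀ i j, r i • z j ∈ N ↔ i ≠ j := by
  induction m with
  | zero => exact ⟨fun i => i.elim0, fun i => i.elim0, fun i => i.elim0⟩
  | succ m ih =>
    obtain ⟨r, z, hrz⟩ := ih
    let H : AddSubgroup J := ⨅ i, N.comap (DistribSMul.toAddMonoidHom J (r i))
    have hH : H.FiniteIndex := AddSubgroup.finiteIndex_iInf (fun i => finiteIndex_comap N _)
    let A : AddSubgroup O := ⨅ j, N.comap ((AddMonoidHom.flip (smulAddHom O J)) (z j))
    have hA : A.FiniteIndex := AddSubgroup.finiteIndex_iInf (fun i => finiteIndex_comap N _)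
    have hex : ∃ s ∈ A, ∃ w ∈ H, s • w ∉ N := by
      by_contra hcon
      push Not at hcon
      exact hN (eq_top_of_smul_le N A H hcon)
    obtain ⟨s, hs, w, hw, hsw⟩ := hex
    have hs' : ∀ j, s • z j ∈ N := by
      intro j
      have := (AddSubgroup.mem_iInf.1 hs) j
      exact this
    have hw' : ∀ i, r i • w ∈ N := by
      intro i
      have := (AddSubgroup.mem_iInf.1 hw) i
      exact this
    refine ⟨Fin.snoc r s, Fin.snoc z w, ?_⟩
    intro i j
    refine Fin.lastCases ?_ (fun i => ?_) i
    · refine Fin.lastCases ?_ (fun j => ?_) j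
      · simp [hsw]
      · simp only [Fin.snoc_last, Fin.snoc_castSucc]
        exact ⟨fun _ => (Fin.castSucc_lt_last j).ne', fun _ => hs' j⟩
    · refine Fin.lastCases ?_ (fun j => ?_) j
      · simp only [Fin.snoc_last, Fin.snoc_castSucc]
        exact ⟨fun _ => (Fin.castSucc_lt_last i).ne, fun _ => hw' i⟩
      · simp only [Fin.snoc_castSucc]
        rw [hrz i j, not_iff_not, Fin.castSucc_inj]

end

end Pool.Agent.NIPFields
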