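import Mathlib
import Pool.Agent.NIPFields.IntCl
import Pool.Agent.NIPFields.FinIndex
import Pool.Agent.NIPFields.KSW

set_option autoImplicit false

/-!
# The Artin-Schreier map on integral closures, over NIP fields
-/

namespace Pool.Agent.NIPFields

open FirstOrder FirstOrder.Language FirstOrder.Ring Set IsLocalRing

universe u

section

variable {p : ℕ} [hp : Fact p.Prime] {O : Type*} [CommRing O] [IsDomain O] [ValuationRing O]
  {L : Type*} [Field L] [Algebra O L] [CharP L p]

variable (p O L) in
/-- The image of the Artin-Schreier map. -/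
noncomputable def NGrp : AddSubgroup (JId O L) where
  carrier := {z | ∃ x : integralClosure O L, x ∈ JId O L ∧ x ^ p - x = z}
  zero_mem' := ⟨0, Submodule.zero_mem _, by simp [hp.out.ne_zero]⟩
  add_mem' := by
    have hB : CharP (integralClosure O L) p :=
      RingHom.charP (integralClosure O L).val.toRingHom Subtype.val_injective p
    rintro a b ⟨x, hx, hxa⟩ ⟨y, hy, hyb⟩
    refine ⟨x + y, Submodule.add_mem _ hx hy, ?_⟩
    rw [Submodule.coe_add, ← hxa, ← hyb, add_pow_char]
    ring
  neg_mem' := by
    have hB : CharP (integralClosure O L) p :=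
      RingHom.charP (integralClosure O L).val.toRingHom Subtype.val_injective p
    rintro a ⟨x, hx, hxa⟩
    refine ⟨-x, Submodule.neg_mem _ hx, ?_⟩
    rw [Submodule.coe_neg, ← hxa]
    have h1 : (0 - x) ^ p = 0 ^ p - x ^ p := sub_pow_char _ _
    rw [zero_sub, zero_pow hp.out.ne_zero, zero_sub] at h1
    rw [h1]
    ring

theorem mem_NGrp {z : JId O L} :
    z ∈ NGrp p O L ↔ ∃ x : integralClosure O L, x ∈ JId O L ∧ x ^ p - x = z := Iff.rfl

variable (K : Type*) [Field K] [Algebra O K] [IsFractionRing O K] [Algebra K L]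
  [FiniteDimensional K L] [IsScalarTower O K L]

include K in
theorem finite_quot_NGrp (hAS : ∀ w : L, ∃ u : L, u ^ p - u = w) :
    Finite (JId O L ⧸ NGrp p O L) := by
  have hB : CharP (integralClosure O L) p :=
    RingHom.charP (integralClosure O L).val.toRingHom Subtype.val_injective p
  have hfin := finite_fixed_JId (O := O) (L := L) K p
  have hfin' : Finite {x : integralClosure O L ⧸ JId O L | x ^ p = x} := hfin
  have hlift : ∀ c : {x : integralClosure O L ⧸ JId O L | x ^ p = x},
      ∃ b : integralClosure O L, Ideal.Quotient.mk (JId O L) b = c ∧ b ^ p - b ∈ JId O L := by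
    rintro ⟨c, hc⟩
    obtain ⟨b, rfl⟩ := Ideal.Quotient.mk_surjective c
    refine ⟨b, rfl, ?_⟩
    rw [← Ideal.Quotient.eq, map_pow]
    exact hc
  choose b hb1 hb2 using hlift
  refine Finite.of_surjective
    (fun c => (QuotientAddGroup.mk (⟨b c ^ p - b c, hb2 c⟩ : JId O L) : JId O L ⧸ NGrp p O L)) ?_
  intro q
  obtain ⟨z, rfl⟩ := QuotientAddGroup.mk_surjective q
  obtain ⟨u, hu⟩ := hAS ((z : integralClosure O L) : L)
  have huint : IsIntegral O u := by
    have h1 : IsIntegral O ((z : integralClosure O L) : L) := (z : integralClosure O L).2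
    have h2 : IsIntegral (integralClosure O L) u := by
      refine ⟨Polynomial.X ^ p - (Polynomial.X + Polynomial.C (z : integralClosure O L)), ?_, ?_⟩
      · refine Polynomial.monic_X_pow_sub ?_
        rw [Polynomial.degree_X_add_C]
        exact_mod_cast hp.out.one_lt
      · simp only [Polynomial.eval₂_sub, Polynomial.eval₂_add, Polynomial.eval₂_X_pow,
          Polynomial.eval₂_X, Polynomial.eval₂_C]
        have : algebraMap (integralClosure O L) L (z : integralClosure O L) = u ^ p - u := hu.symm
        rw [this]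
        ring
    exact isIntegral_trans (R := O) (A := integralClosure O L) u h2
  let u' : integralClosure O L := ⟨u, huint⟩
  have hu' : u' ^ p - u' = z := Subtype.ext hu
  have huJ : u' ^ p - u' ∈ JId O L := by rw [hu']; exact z.2
  have hfix : (Ideal.Quotient.mk (JId O L) u') ^ p = Ideal.Quotient.mk (JId O L) u' := by
    rw [← map_pow, Ideal.Quotient.eq]
    exact huJ
  refine ⟨⟨Ideal.Quotient.mk (JId O L) u', hfix⟩, ?_⟩
  set c : {x : integralClosure O L ⧸ JId O L | x ^ p = x} :=
    ⟨Ideal.Quotient.mk (JId O L) u', hfix⟩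
  have h3 : b c - u' ∈ JId O L := by
    rw [← Ideal.Quotient.eq, hb1]
  change (QuotientAddGroup.mk _ : JId O L ⧸ NGrp p O L) = QuotientAddGroup.mk _
  rw [QuotientAddGroup.eq]
  rw [mem_NGrp]
  refine ⟨u' - b c, ?_, ?_⟩
  · have := Submodule.neg_mem _ h3
    rwa [neg_sub] at this
  · rw [Submodule.coe_add, Submodule.coe_neg, ← hu', sub_pow_char]
    ring

end

section

variable {K : Type u} [Field K] [CompatibleRing K] {O : Type*} [CommRing O] [IsDomain O]
  [ValuationRing O] [Infinite (ResidueField O)] [Algebra O K] [IsFractionRing O K] {L : Type*}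
  [Field L] [Algebra K L] [FiniteDimensional K L] [Algebra O L] [IsScalarTower O K L]

theorem artinSchreier_JId (hK : NIP K) (p : ℕ) [hp : Fact p.Prime] [CharP L p] {V : Set O}
    (hVdef : (univ : Set K).Definable₁ Language.ring (algebraMap O K '' V))
    (hV0 : ∀ m ∈ maximalIdeal O, m ∈ V)
    (hV : ∀ a : Fin (Module.finrank K L) → O, (∀ j, a j ∈ V) → ∀ ν : ℕ, ¬ p ∣ ν →
      (ν : O) ^ (Module.finrank K L) + ∑ j, a j * (ν : O) ^ (j : ℕ) ∉ maximalIdeal O)
    {x : integralClosure O L} (hx : x ^ p - x ∈ JId O L) : ∃ ν : ℕ, x - ν ∈ JId O L := by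
  classical
  set n := Module.finrank K L with hn
  let e : Module.Basis (Fin n) K L := Module.finBasis K L
  have hinfO : Infinite O := Infinite.of_surjective (residue O) residue_surjective
  have hinjOL : Function.Injective (algebraMap O L) := by
    rw [IsScalarTower.algebraMap_eq O K L]
    exact (algebraMap K L).injective.comp (IsFractionRing.injective O K)
  have hinfL : Infinite L := Infinite.of_injective _ hinjOL
  have hAS : ∀ w : L, ∃ u : L, u ^ p - u = w := fun w => hK.artinSchreier e w
  have hfin := finite_quot_NGrp (O := O) (L := L) K (p := p) hAS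
  have hfi : (NGrp p O L).FiniteIndex := AddSubgroup.finiteIndex_of_finite_quotient
  -- the definable set
  let V' : Set L := algebraMap K L '' (algebraMap O K '' V)
  have hV' : LDef₁ e V' := LDef₁.of_base hVdef
  let D : Set L := {z | ∃ u : Unit ⊕ Fin n → L, (∀ j, u (Sum.inr j) ∈ V') ∧
    u (Sum.inl ()) ^ n + ∑ j, u (Sum.inr j) * u (Sum.inl ()) ^ (j : ℕ) = 0 ∧
    u (Sum.inl ()) ^ p - u (Sum.inl ()) = z}
  have hD : LDef₁ e D := by
    have h1 : LDef e {w : Unit ⊕ (Unit ⊕ Fin n) → L |
        ∀ j, w (Sum.inr (Sum.inr j)) ∈ V'} := by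
      have := LDef.iInter (fun j : Fin n => LDef₁.mem (α := Unit ⊕ (Unit ⊕ Fin n)) hV'
        (LFun.var (Sum.inr (Sum.inr j))))
      convert this using 1
      ext w
      simp
    have h2 : LDef e {w : Unit ⊕ (Unit ⊕ Fin n) → L |
        w (Sum.inr (Sum.inl ())) ^ n +
          ∑ j, w (Sum.inr (Sum.inr j)) * w (Sum.inr (Sum.inl ())) ^ (j : ℕ) = 0} :=
      LFun.eq (LFun.add (LFun.pow (LFun.var _) n)
        (LFun.sum _ _ (fun j _ => LFun.mul (LFun.var _) (LFun.pow (LFun.var _) _))))
        (LFun.const 0)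
    have h3 : LDef e {w : Unit ⊕ (Unit ⊕ Fin n) → L |
        w (Sum.inr (Sum.inl ())) ^ p - w (Sum.inr (Sum.inl ())) = w (Sum.inl ())} :=
      LFun.eq (LFun.sub (LFun.pow (LFun.var _) p) (LFun.var _)) (LFun.var _)
    have h4 := (h1.inter (h2.inter h3)).exists
    have h5 : {v : Unit → L | v () ∈ D} = {v | ∃ u : Unit ⊕ Fin n → L, Sum.elim v u ∈
        {w : Unit ⊕ (Unit ⊕ Fin n) → L | ∀ j, w (Sum.inr (Sum.inr j)) ∈ V'} ∩
        ({w : Unit ⊕ (Unit ⊕ Fin n) → L |
        w (Sum.inr (Sum.inl ())) ^ n +
          ∑ j, w (Sum.inr (Sum.inr j)) * w (Sum.inr (Sum.inl ())) ^ (j : ℕ) = 0} ∩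
        {w : Unit ⊕ (Unit ⊕ Fin n) → L |
          w (Sum.inr (Sum.inl ())) ^ p - w (Sum.inr (Sum.inl ())) = w (Sum.inl ())})} := rfl
    unfold LDef₁
    rw [h5]
    exact h4
  -- on `J` the set `D` is the group `N`
  have hDN : ∀ z : JId O L, z ∈ NGrp p O L ↔ ((z : integralClosure O L) : L) ∈ D := by
    intro z
    rw [mem_NGrp]
    constructor
    · rintro ⟨y, hy, hyz⟩
      obtain ⟨a, ha, hrel⟩ := exists_monic_rel_of_mem (K := K) hy
      refine ⟨Sum.elim (fun _ => (y : L)) (fun j => algebraMap K L (algebraMap O K (a j))),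
        ?_, ?_, ?_⟩
      · intro j
        exact ⟨_, ⟨a j, hV0 _ (ha j), rfl⟩, rfl⟩
      · have h1 : (y : L) ^ (Module.finrank K L) +
            ∑ j, algebraMap O L (a j) * (y : L) ^ (j : ℕ) = 0 := by
          have h1 := congrArg (fun t : integralClosure O L => (t : L)) hrel
          simpa [Algebra.smul_def] using h1
        simp only [Sum.elim_inl, Sum.elim_inr, ← IsScalarTower.algebraMap_apply]
        exact h1
      · simp only [Sum.elim_inl]
        rw [← hyz]
        rfl
    · rintro ⟨u, hu1, hu2, hu3⟩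
      choose a' ha' using hu1
      choose a ha using fun j => (ha' j).1
      have hval : ∀ j, u (Sum.inr j) = algebraMap O L (a j) := by
        intro j
        rw [← (ha' j).2, ← (ha j).2, ← IsScalarTower.algebraMap_apply]
      set y := u (Sum.inl ()) with hy
      have hint : IsIntegral O y := by
        refine ⟨Polynomial.X ^ n + ∑ j : Fin n, Polynomial.C (a j) * Polynomial.X ^ (j : ℕ), ?_, ?_⟩
        · refine Polynomial.monic_X_pow_add ?_
          exact Polynomial.degree_sum_fin_lt _
        · rw [Polynomial.eval₂_add, Polynomial.eval₂_X_pow, Polynomial.eval₂_finsetSum]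
          rw [← hu2]
          congr 1
          refine Finset.sum_congr rfl (fun j _ => ?_)
          rw [Polynomial.eval₂_mul, Polynomial.eval₂_C, Polynomial.eval₂_X_pow, hval]
      let y' : integralClosure O L := ⟨y, hint⟩
      have hyz : y' ^ p - y' = z := Subtype.ext hu3
      refine ⟨y', ?_, hyz⟩
      have hrel : y' ^ n + ∑ j, a j • y' ^ (j : ℕ) = 0 := by
        apply Subtype.ext
        have : ((y' ^ n + ∑ j, a j • y' ^ (j : ℕ) : integralClosure O L) : L) =
            y ^ n + ∑ j, u (Sum.inr j) * y ^ (j : ℕ) := by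
          simp [y', hval, Algebra.smul_def]
        rw [this, hu2]
        rfl
      refine mem_JId_of_rel p (V := V) hV ?_ (fun j => (ha j).1) hrel
      rw [hyz]
      exact z.2
  -- the index argument
  have htop : NGrp p O L = ⊤ := by
    by_contra hne
    have hR : LDef e {v : Fin 1 ⊕ Fin 1 → L | v (Sum.inl 0) * v (Sum.inr 0) ∈ D} :=
      LDef₁.mem hD (LFun.mul (LFun.var _) (LFun.var _))
    obtain ⟨m, hm⟩ := hK.ldef hR
    obtain ⟨r, z, hrz⟩ := exists_pattern (O := O) (NGrp p O L) hne m
    obtain ⟨i, S, hiS⟩ := hm (fun i _ => algebraMap O L (r i))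
      (fun S _ => (((∑ k ∈ Sᶜ, z k : JId O L) : integralClosure O L) : L))
    apply hiS
    have h1 : ∀ w : JId O L, algebraMap O L (r i) * ((w : integralClosure O L) : L) =
        (((r i • w : JId O L) : integralClosure O L) : L) := by
      intro w
      rw [← Algebra.smul_def]
      rfl
    simp only [mem_ofPred_eq, Sum.elim_inl, Sum.elim_inr]
    rw [h1, ← hDN, Finset.smul_sum]
    constructor
    · intro h
      by_contra hi
      have hi' : i ∈ Sᶜ := Finset.mem_compl.2 hi
      rw [← Finset.add_sum_erase _ _ hi'] at h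
      have h2 : ∑ k ∈ Sᶜ.erase i, r i • z k ∈ NGrp p O L := by
        refine AddSubgroup.sum_mem _ (fun k hk => ?_)
        exact (hrz i k).2 (Finset.ne_of_mem_erase hk).symm
      have h3 := (AddSubgroup.add_mem_cancel_right _ h2).1 h
      exact (hrz i i).1 h3 rfl
    · intro hi
      refine AddSubgroup.sum_mem _ (fun k hk => (hrz i k).2 ?_)
      rintro rfl
      exact (Finset.mem_compl.1 hk) hi
  -- conclusion
  have hB : CharP (integralClosure O L) p :=
    RingHom.charP (integralClosure O L).val.toRingHom Subtype.val_injective p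
  have h1 : (⟨x ^ p - x, hx⟩ : JId O L) ∈ NGrp p O L := by rw [htop]; trivial
  obtain ⟨y, hy, hyx⟩ := h1
  have h2 : ((x - y : integralClosure O L) : L) ^ p = ((x - y : integralClosure O L) : L) := by
    rw [← sub_eq_zero]
    have h3 : (x - y) ^ p - (x - y) = 0 := by
      rw [sub_pow_char]
      have : y ^ p - y = x ^ p - x := hyx
      linear_combination -this
    have h4 := congrArg (fun t : integralClosure O L => (t : L)) h3
    simpa using h4
  obtain ⟨ν, hν⟩ := exists_nat_of_pow h2
  refine ⟨ν, ?_⟩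
  have h5 : x - y = (ν : integralClosure O L) := by
    apply Subtype.ext
    rw [hν]
    simp
  have h6 : x - ν = y := by rw [← h5]; ring
  rw [h6]
  exact hy

end

end Pool.Agent.NIPFields
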