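import Mathlib
import Pool.Agent.NIPFields.Hens
import Pool.Agent.NIPFields.Ultra
import Pool.Agent.NIPFields.Approximate

set_option autoImplicit false

/-!
# Definable V-topologies on NIP fields of positive characteristic: openness of `ℓ`-th powers
-/

namespace Pool.Agent.NIPFields

open FirstOrder FirstOrder.Language FirstOrder.Ring Set Filter IsLocalRing

universe u

section

variable {I : Type u} {U : Ultrafilter I} {E : Type u} [Field E] [CompatibleRing E]

/-- NIP passes to ultrapowers. -/
theorem NIP.germ (hE : NIP E) :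
    @NIP (Germ (U : Filter I) E) _ (germCompat U E) := by
  classical
  let _ := germCompat U E
  intro m k φ
  obtain ⟨n, hn⟩ := hE m k φ
  refine ⟨n, fun a b => ?_⟩
  by_contra hcon
  push Not at hcon
  choose a' ha' using fun i => exists_rep (a i)
  choose b' hb' using fun J => exists_rep (b J)
  have h1 : ∀ i J, ∀ᶠ t in (U : Filter I),
      (φ.Realize (Sum.elim (fun x => a' i x t) (fun x => b' J x t)) ↔ i ∈ J) := by
    intro i J
    have h2 := germ_realize (U := U) (E := E) φ (Sum.elim (a' i) (b' J))
    have h3 : (fun x => (↑(Sum.elim (a' i) (b' J) x) : Germ (U : Filter I) E)) =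
        Sum.elim (a i) (b J) := by
      rw [ha' i, hb' J]
      funext x
      rcases x with x | x <;> rfl
    rw [h3] at h2
    have h4 : (∀ᶠ t in (U : Filter I), φ.Realize fun x => Sum.elim (a' i) (b' J) x t) ↔ i ∈ J :=
      h2.symm.trans (hcon i J)
    have h5 : ∀ t, (fun x => Sum.elim (a' i) (b' J) x t) =
        Sum.elim (fun x => a' i x t) (fun x => b' J x t) := by
      intro t
      funext x
      rcases x with x | x <;> rfl
    simp only [h5] at h4
    by_cases hiJ : i ∈ J
    · filter_upwards [h4.2 hiJ] with t ht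
      exact iff_of_true ht hiJ
    · have h6 : ¬ ∀ᶠ t in (U : Filter I),
          φ.Realize (Sum.elim (fun x => a' i x t) (fun x => b' J x t)) := fun h => hiJ (h4.1 h)
      rw [← Ultrafilter.eventually_not] at h6
      filter_upwards [h6] with t ht
      exact iff_of_false ht hiJ
  have h2 : ∀ᶠ t in (U : Filter I), ∀ i J,
      (φ.Realize (Sum.elim (fun x => a' i x t) (fun x => b' J x t)) ↔ i ∈ J) := by
    rw [Filter.eventually_all]
    intro i
    rw [Filter.eventually_all]
    exact h1 i
  obtain ⟨t, ht⟩ := h2.exists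
  obtain ⟨i, J, hiJ⟩ := hn (fun i x => a' i x t) (fun J x => b' J x t)
  exact hiJ (ht i J)

/-- Definable sets extend to ultrapowers. -/
theorem germ_definable {S : Set E} (hS : (univ : Set E).Definable₁ Language.ring S) :
    @Set.Definable₁ (Germ (U : Filter I) E) univ Language.ring (germCompat U E).toStructure
      {x : Germ (U : Filter I) E | x.LiftPred (fun z => z ∈ S)} := by
  let _ := germCompat U E
  obtain ⟨φ, hφ⟩ := Set.definable_iff_exists_formula_sum.1 hS
  unfold Set.Definable₁
  rw [Set.definable_iff_exists_formula_sum]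
  refine ⟨φ.relabel (Sum.map (fun a : (univ : Set E) =>
    (⟨germConst (U : Filter I) E (a : E), mem_univ _⟩ :
      (univ : Set (Germ (U : Filter I) E)))) id), ?_⟩
  ext x
  rw [mem_ofPred_eq, mem_ofPred_eq, mem_ofPred_eq, Formula.realize_relabel]
  obtain ⟨f, hf⟩ := exists_rep x
  subst hf
  have h1 := germ_realize (U := U) (E := E) φ
    (Sum.elim (fun a _ => (a : E)) f)
  have h2 : (fun x => (↑((Sum.elim (fun (a : (univ : Set E)) (_ : I) => (a : E)) f :
      (univ : Set E) ⊕ Fin 1 → I → E) x) : Germ (U : Filter I) E)) =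
      (Sum.elim (fun (x : (univ : Set (Germ (U : Filter I) E))) => (x : Germ (U : Filter I) E))
        (fun i => (↑(f i) : Germ (U : Filter I) E))) ∘
        Sum.map (fun a : (univ : Set E) => (⟨germConst (U : Filter I) E a, mem_univ _⟩ :
          (univ : Set (Germ (U : Filter I) E)))) id := by
    funext x
    rcases x with x | x <;> rfl
  rw [h2] at h1
  refine Iff.trans ?_ h1.symm
  rw [Germ.liftPred_coe]
  refine eventually_congr (Eventually.of_forall fun t => ?_)
  have h3 := Set.ext_iff.1 hφ (fun _ => f 0 t)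
  simp only [mem_ofPred_eq] at h3
  refine h3.trans ?_
  have h4 : (Sum.elim (fun a : (univ : Set E) => (a : E)) (fun _ : Fin 1 => f 0 t)) =
      fun x => (Sum.elim (fun (a : (univ : Set E)) (_ : I) => (a : E)) f :
      (univ : Set E) ⊕ Fin 1 → I → E) x t := by
    funext x
    rcases x with x | x
    · rfl
    · have : x = 0 := Subsingleton.elim _ _
      subst this
      rfl
  rw [← h4]

variable (U) in
/-- The convex hull of the base field in the ultrapower. -/
noncomputable def hullRing (A : ValuationSubring E) :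
    ValuationSubring (Germ (U : Filter I) E) where
  carrier := {x | ∃ a : E, x.LiftPred (fun z => A.valuation z ≤ A.valuation a)}
  mul_mem' := by
    rintro x y ⟨a, ha⟩ ⟨b, hb⟩
    induction x using Germ.inductionOn with | _ f
    induction y using Germ.inductionOn with | _ g
    refine ⟨a * b, ?_⟩
    rw [← Germ.coe_mul, Germ.liftPred_coe]
    rw [Germ.liftPred_coe] at ha hb
    filter_upwards [ha, hb] with t h1 h2
    rw [Pi.mul_apply, map_mul, map_mul]
    exact mul_le_mul' h1 h2
  one_mem' := ⟨1, by
    rw [← Germ.coe_one, Germ.liftPred_coe]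
    exact Eventually.of_forall fun t => le_refl _⟩
  zero_mem' := ⟨0, by
    rw [← Germ.coe_zero, Germ.liftPred_coe]
    exact Eventually.of_forall fun t => le_refl _⟩
  add_mem' := by
    rintro x y ⟨a, ha⟩ ⟨b, hb⟩
    induction x using Germ.inductionOn with | _ f
    induction y using Germ.inductionOn with | _ g
    rw [Germ.liftPred_coe] at ha hb
    rcases le_total (A.valuation a) (A.valuation b) with h | h
    · refine ⟨b, ?_⟩
      rw [← Germ.coe_add, Germ.liftPred_coe]
      filter_upwards [ha, hb] with t h1 h2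
      exact (A.valuation.map_add _ _).trans (max_le (h1.trans h) h2)
    · refine ⟨a, ?_⟩
      rw [← Germ.coe_add, Germ.liftPred_coe]
      filter_upwards [ha, hb] with t h1 h2
      exact (A.valuation.map_add _ _).trans (max_le h1 (h2.trans h))
  neg_mem' := by
    rintro x ⟨a, ha⟩
    induction x using Germ.inductionOn with | _ f
    refine ⟨a, ?_⟩
    rw [Germ.liftPred_coe] at ha
    rw [← Germ.coe_neg, Germ.liftPred_coe]
    filter_upwards [ha] with t h1
    rwa [Pi.neg_apply, Valuation.map_neg]
  mem_or_inv_mem' := by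
    intro x
    induction x using Germ.inductionOn with | _ f
    by_cases h : ∀ᶠ t in (U : Filter I), A.valuation (f t) ≤ A.valuation 1
    · exact Or.inl ⟨1, by rw [Germ.liftPred_coe]; exact h⟩
    · right
      rw [← Ultrafilter.eventually_not] at h
      refine ⟨1, ?_⟩
      rw [← Germ.coe_inv, Germ.liftPred_coe]
      filter_upwards [h] with t h1
      rw [not_le, map_one] at h1
      rw [Pi.inv_apply, map_inv₀, map_one]
      exact inv_le_one_of_one_le₀ h1.le

omit [CompatibleRing E] in
theorem mem_hullRing {A : ValuationSubring E} {f : I → E} :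
    (↑f : Germ (U : Filter I) E) ∈ hullRing U A ↔
      ∃ a : E, ∀ᶠ t in (U : Filter I), A.valuation (f t) ≤ A.valuation a := Iff.rfl

omit [CompatibleRing E] in
theorem mem_max_hullRing {A : ValuationSubring E} {x : hullRing U A}
    (hx : x ∈ maximalIdeal (hullRing U A)) {f : I → E}
    (hf : (x : Germ (U : Filter I) E) = (↑f : Germ (U : Filter I) E)) {a : E} (ha : a ≠ 0) :
    ∀ᶠ t in (U : Filter I), A.valuation (f t) < A.valuation a := by
  by_contra hcon
  rw [← Ultrafilter.eventually_not] at hcon
  rw [mem_maximalIdeal, mem_nonunits_iff] at hx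
  apply hx
  have hva : 0 < A.valuation a := zero_lt_iff.2 ((map_ne_zero _).2 ha)
  have hne : ∀ᶠ t in (U : Filter I), f t ≠ 0 := by
    filter_upwards [hcon] with t h1 h0
    rw [h0, map_zero] at h1
    exact h1 hva
  have hinv : (↑(f⁻¹) : Germ (U : Filter I) E) ∈ hullRing U A := by
    rw [mem_hullRing]
    refine ⟨a⁻¹, ?_⟩
    filter_upwards [hcon] with t h1
    rw [not_lt] at h1
    rw [Pi.inv_apply, map_inv₀, map_inv₀]
    exact inv_anti₀ hva h1
  refine IsUnit.of_mul_eq_one ⟨_, hinv⟩ ?_
  apply Subtype.ext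
  change (x : Germ (U : Filter I) E) * (↑(f⁻¹) : Germ (U : Filter I) E) = 1
  rw [hf, ← Germ.coe_mul, ← Germ.coe_one, Germ.coe_eq]
  filter_upwards [hne] with t h1
  exact mul_inv_cancel₀ h1

end

/-- In an NIP field of characteristic `p` with a valuation whose topology is definable the set of
`ℓ`-th powers is open, if `ℓ` is prime to `p`. -/
theorem NIP.open_powers {L : Type u} [Field L] [CompatibleRing L] (hL : NIP L) {p : ℕ}
    [hp : Fact p.Prime] [CharP L p] {A : ValuationSubring L} (hA : A ≠ ⊤) {V : Set L}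
    (hV : (univ : Set L).Definable₁ Language.ring V) {s t : L} (hs0 : s ≠ 0)
    (hs : ∀ x ∈ V, A.valuation x ≤ A.valuation s) (ht0 : t ≠ 0)
    (ht : ∀ x, A.valuation x ≤ A.valuation t → x ∈ V) {ℓ : ℕ} (hℓ : (ℓ : L) ≠ 0) :
    ∃ c : L, c ≠ 0 ∧ ∀ x, A.valuation x ≤ A.valuation c → ∃ y, 1 + x = y ^ ℓ := by
  classical
  by_contra hcon
  push Not at hcon
  -- the index set
  let I : Type u := ({γ : A.ValueGroup // γ ≠ 0})ᵒᵈ
  have hI : Nonempty I := ⟨OrderDual.toDual ⟨1, one_ne_zero⟩⟩
  have hx : ∀ γ : I, ∃ x : L, A.valuation x ≤ (OrderDual.ofDual γ : {γ : A.ValueGroup // γ ≠ 0}) ∧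
      ∀ y, 1 + x ≠ y ^ ℓ := by
    intro γ
    obtain ⟨c, hc⟩ := A.valuation_surjective (OrderDual.ofDual γ : {γ : A.ValueGroup // γ ≠ 0})
    have hc0 : c ≠ 0 := by
      rintro rfl
      rw [map_zero] at hc
      exact (OrderDual.ofDual γ : {γ : A.ValueGroup // γ ≠ 0}).2 hc.symm
    obtain ⟨x, hx1, hx2⟩ := hcon c hc0
    exact ⟨x, hc ▸ hx1, hx2⟩
  choose xs hxs1 hxs2 using hx
  let U : Ultrafilter I := Ultrafilter.of atTop
  have hUle : (U : Filter I) ≤ atTop := Ultrafilter.of_le _
  have hsmall : ∀ a : L, a ≠ 0 → ∀ᶠ γ in (U : Filter I), A.valuation (xs γ) ≤ A.valuation a := by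
    intro a ha
    have h1 : ∀ᶠ γ in (atTop : Filter I), A.valuation (xs γ) ≤ A.valuation a := by
      filter_upwards [eventually_ge_atTop (OrderDual.toDual
        (⟨A.valuation a, (map_ne_zero _).2 ha⟩ : {γ : A.ValueGroup // γ ≠ 0}))] with γ hγ
      exact (hxs1 γ).trans hγ
    exact hUle h1
  -- the ultrapower
  let E := Germ (U : Filter I) L
  let _ : CompatibleRing E := germCompat U L
  have hE : NIP E := NIP.germ hL
  let O : ValuationSubring E := hullRing U A
  have hchE : CharP E p := charP_of_injective_ringHom (germConst (U : Filter I) L).injective p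
  have hinfL : Infinite L := by
    by_contra hfin
    rw [not_infinite_iff_finite] at hfin
    apply hA
    rw [eq_top_iff]
    intro x _
    by_cases hx0 : x = 0
    · rw [hx0]; exact A.zero_mem
    · have h1 : A.valuation x = 1 := by
        let _ := Fintype.ofFinite L
        have h2 : x ^ (Fintype.card L - 1) = 1 := FiniteField.pow_card_sub_one_eq_one x hx0
        have h3 : A.valuation x ^ (Fintype.card L - 1) = 1 := by rw [← map_pow, h2, map_one]
        have h4 : Fintype.card L - 1 ≠ 0 := by
          have := Fintype.one_lt_card (α := L)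
          omega
        exact (pow_eq_one_iff_of_nonneg zero_le h4).1 h3
      exact (A.valuation_le_one_iff _).1 h1.le
  have hconst : ∀ a : L, germConst (U : Filter I) L a ∈ O := fun a =>
    mem_hullRing.2 ⟨a, Eventually.of_forall fun _ => le_refl _⟩
  let ι : L →+* O := (germConst (U : Filter I) L).codRestrict O hconst
  have hinfk : Infinite (ResidueField O) :=
    Infinite.of_injective ((residue O).comp ι) (RingHom.injective _)
  -- valuations of integers
  have hνval : ∀ ν : ℕ, ¬ p ∣ ν → A.valuation (ν : L) = 1 := by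
    intro ν hν
    have hν0 : (ν : L) ≠ 0 := fun h => hν ((CharP.cast_eq_zero_iff L p ν).1 h)
    have h1 : (ν : L) ^ (p - 1) = 1 := by
      have h2 : (ν : L) ^ p = ν := by
        have := map_natCast (frobenius L p) ν
        rwa [frobenius_def] at this
      have h3 : (ν : L) ^ (p - 1) * ν = 1 * ν := by
        rw [← pow_succ, Nat.sub_add_cancel hp.out.one_lt.le, h2, one_mul]
      exact mul_right_cancel₀ hν0 h3
    have h2 : A.valuation (ν : L) ^ (p - 1) = 1 := by rw [← map_pow, h1, map_one]
    have hp1 : p - 1 ≠ 0 := by have := hp.out.two_le; omega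
    exact (pow_eq_one_iff_of_nonneg zero_le hp1).1 h2
  -- a small element
  obtain ⟨e, he⟩ : ∃ e, e ∉ A := by
    by_contra hcon
    push Not at hcon
    exact hA (eq_top_iff.2 fun x _ => hcon x)
  have he0 : e ≠ 0 := by rintro rfl; exact he A.zero_mem
  have hve : 1 < A.valuation e := by
    rw [← not_le, A.valuation_le_one_iff]; exact he
  set a := (s * e)⁻¹ with ha
  have ha0 : a ≠ 0 := inv_ne_zero (mul_ne_zero hs0 he0)
  have has : A.valuation (a * s) < 1 := by
    have : a * s = e⁻¹ := by rw [ha]; field_simp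
    rw [this, map_inv₀]
    exact inv_lt_one_of_one_lt₀ hve
  -- the definable sets
  have hens : HenselianLocalRing O := by
    refine NIP.henselian hE p (fun n => ?_)
    let S : Set L := {z | a⁻¹ * z ∈ V}
    have hS : (univ : Set L).Definable₁ Language.ring S :=
      def_mem hV (dfun_mul (dfun_const (mem_univ _)) (dfun_var 0))
    have hSv : ∀ z ∈ S, A.valuation z ≤ A.valuation (a * s) := by
      intro z hz
      have h1 := hs _ hz
      calc A.valuation z = A.valuation a * A.valuation (a⁻¹ * z) := by
            rw [← map_mul, mul_inv_cancel_left₀ ha0]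
        _ ≤ A.valuation a * A.valuation s := by gcongr
        _ = A.valuation (a * s) := (map_mul _ _ _).symm
    refine ⟨{x : O | (x : E).LiftPred (fun z => z ∈ S)}, ?_, ?_, ?_⟩
    · have h1 := germ_definable (U := U) hS
      have h2 : (algebraMap O E '' {x : O | (x : E).LiftPred (fun z => z ∈ S)}) =
          {x : E | x.LiftPred (fun z => z ∈ S)} := by
        ext x
        constructor
        · rintro ⟨y, hy, rfl⟩
          exact hy
        · intro hx
          have hxO : x ∈ O := by
            obtain ⟨f, hf⟩ : ∃ f : I → L, (↑f : Germ (U : Filter I) L) = x :=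
              Germ.inductionOn x (fun g => ⟨g, rfl⟩)
            subst hf
            rw [mem_ofPred_eq, Germ.liftPred_coe] at hx
            refine mem_hullRing.2 ⟨a * s, ?_⟩
            filter_upwards [hx] with γ hγ
            exact hSv _ hγ
          exact ⟨⟨x, hxO⟩, hx, rfl⟩
      rw [h2]
      exact h1
    · intro m hm
      obtain ⟨f, hf⟩ : ∃ f : I → L, (↑f : Germ (U : Filter I) L) = (m : E) :=
        Germ.inductionOn (m : E) (fun g => ⟨g, rfl⟩)
      have h1 := mem_max_hullRing hm hf.symm (mul_ne_zero ha0 ht0)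
      rw [mem_ofPred_eq, ← hf, Germ.liftPred_coe]
      filter_upwards [h1] with γ hγ
      apply ht
      rw [map_mul, map_inv₀]
      rw [map_mul] at hγ
      have hva : 0 < A.valuation a := zero_lt_iff.2 ((map_ne_zero _).2 ha0)
      calc (A.valuation a)⁻¹ * A.valuation (f γ)
          ≤ (A.valuation a)⁻¹ * (A.valuation a * A.valuation t) := by gcongr
        _ = A.valuation t := by rw [inv_mul_cancel_left₀ hva.ne']
    · intro b hb ν hν hmem
      have hb' : ∀ j, ∃ f : I → L, (↑f : Germ (U : Filter I) L) = (b j : E) := fun j =>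
        Germ.inductionOn (b j : E) (fun g => ⟨g, rfl⟩)
      choose f hf using hb'
      have h1 : ∀ j, ∀ᶠ γ in (U : Filter I), A.valuation (f j γ) < 1 := by
        intro j
        have h2 := hb j
        rw [mem_ofPred_eq, ← hf, Germ.liftPred_coe] at h2
        filter_upwards [h2] with γ hγ
        exact lt_of_le_of_lt (hSv _ hγ) has
      have hrep : (((ν : O) ^ n + ∑ j, b j * (ν : O) ^ (j : ℕ) : O) : E) =
          (↑(fun γ => (ν : L) ^ n + ∑ j, f j γ * (ν : L) ^ (j : ℕ)) :
            Germ (U : Filter I) L) := by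
        have h3 : (↑(fun γ => (ν : L) ^ n + ∑ j, f j γ * (ν : L) ^ (j : ℕ)) :
            Germ (U : Filter I) L) = Germ.coeRingHom (U : Filter I)
              ((ν : I → L) ^ n + ∑ j, f j * (ν : I → L) ^ (j : ℕ)) := by
          congr 1
          funext γ
          simp
        rw [h3, map_add, map_pow, map_natCast, map_sum]
        push_cast
        congr 1
        refine Finset.sum_congr rfl (fun j _ => ?_)
        rw [map_mul, map_pow, map_natCast, ← hf j]
        rfl
      have h2 := mem_max_hullRing hmem hrep (one_ne_zero (α := L))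
      have h3 : ∀ᶠ γ in (U : Filter I), ∀ j, A.valuation (f j γ) < 1 :=
        (Filter.eventually_all).2 h1
      obtain ⟨γ, hγ1, hγ2⟩ := (h2.and h3).exists
      rw [map_one] at hγ1
      have h4 : A.valuation (∑ j, f j γ * (ν : L) ^ (j : ℕ)) < 1 := by
        refine Valuation.map_sum_lt' _ zero_lt_one (fun j _ => ?_)
        rw [map_mul, map_pow, hνval ν hν, one_pow, mul_one]
        exact hγ2 j
      have h5 : A.valuation ((ν : L) ^ n) = 1 := by rw [map_pow, hνval ν hν, one_pow]
      rw [Valuation.map_add_eq_of_lt_left _ (by rw [h5]; exact h4), h5] at hγ1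
      exact lt_irrefl _ hγ1
  -- Hensel's lemma
  have hxO : (↑xs : Germ (U : Filter I) L) ∈ O := mem_hullRing.2 ⟨1, hsmall 1 one_ne_zero⟩
  have hxm : (⟨↑xs, hxO⟩ : O) ∈ maximalIdeal O := by
    rw [mem_maximalIdeal, mem_nonunits_iff]
    intro hu
    obtain ⟨y, hy⟩ := isUnit_iff_exists_inv.1 hu
    obtain ⟨g, hg⟩ : ∃ g : I → L, (↑g : Germ (U : Filter I) L) = (y : E) :=
      Germ.inductionOn (y : E) (fun g => ⟨g, rfl⟩)
    have hy1 : (↑xs : Germ (U : Filter I) L) * (↑g : Germ (U : Filter I) L) = 1 := by
      rw [hg]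
      exact congrArg Subtype.val hy
    rw [← Germ.coe_mul, ← Germ.coe_one, Germ.coe_eq] at hy1
    have hyO : (↑g : Germ (U : Filter I) L) ∈ O := by rw [hg]; exact y.2
    obtain ⟨b, hb⟩ := mem_hullRing.1 hyO
    by_cases hb0 : b = 0
    · obtain ⟨γ, h1, h2⟩ := (hb.and hy1).exists
      rw [hb0, map_zero] at h1
      have h3 : g γ = 0 := (map_eq_zero _).1 (le_antisymm h1 zero_le)
      rw [Pi.mul_apply, h3, mul_zero, Pi.one_apply] at h2
      exact zero_ne_one h2
    · have h4 := hsmall ((b * e)⁻¹) (inv_ne_zero (mul_ne_zero hb0 he0))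
      obtain ⟨γ, ⟨h1, h2⟩, h3⟩ := ((hb.and hy1).and h4).exists
      have h5 : A.valuation (xs γ) * A.valuation (g γ) = 1 := by
        rw [← map_mul]
        have : xs γ * g γ = 1 := h2
        rw [this, map_one]
      have hvb : 0 < A.valuation b := zero_lt_iff.2 ((map_ne_zero _).2 hb0)
      have h6 : A.valuation (xs γ) * A.valuation (g γ) < 1 := by
        calc A.valuation (xs γ) * A.valuation (g γ)
            ≤ A.valuation ((b * e)⁻¹) * A.valuation b := by gcongr
          _ = (A.valuation e)⁻¹ := by
              rw [map_inv₀, map_mul, mul_inv, mul_comm (A.valuation b)⁻¹, mul_assoc,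
                inv_mul_cancel₀ hvb.ne', mul_one]
          _ < 1 := inv_lt_one_of_one_lt₀ hve
      rw [h5] at h6
      exact lt_irrefl _ h6
  have hℓ0 : ℓ ≠ 0 := by rintro rfl; exact hℓ Nat.cast_zero
  have hℓu : IsUnit (ℓ : O) := by
    refine IsUnit.of_mul_eq_one (ι (ℓ : L)⁻¹) ?_
    have : (ℓ : O) = ι (ℓ : L) := by rw [map_natCast]
    rw [this, ← map_mul, mul_inv_cancel₀ hℓ, map_one]
  obtain ⟨y, hy1, _⟩ := hens.is_henselian
    (Polynomial.X ^ ℓ - Polynomial.C (1 + ⟨↑xs, hxO⟩))
    (Polynomial.monic_X_pow_sub_C _ hℓ0) 1 (by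
      simp only [Polynomial.eval_sub, Polynomial.eval_pow, Polynomial.eval_X, one_pow,
        Polynomial.eval_C, sub_add_cancel_left]
      exact Submodule.neg_mem _ hxm) (by
      simp only [Polynomial.derivative_sub, Polynomial.derivative_X_pow, Polynomial.derivative_C,
        sub_zero, Polynomial.eval_mul, Polynomial.eval_C, Polynomial.eval_pow, Polynomial.eval_X,
        one_pow, mul_one]
      exact hℓu)
  obtain ⟨g, hg⟩ : ∃ g : I → L, (↑g : Germ (U : Filter I) L) = (y : E) :=
    Germ.inductionOn (y : E) (fun g => ⟨g, rfl⟩)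
  have hy2 : (y : E) ^ ℓ = 1 + (↑xs : Germ (U : Filter I) L) := by
    rw [Polynomial.IsRoot.def, Polynomial.eval_sub, Polynomial.eval_pow, Polynomial.eval_X,
      Polynomial.eval_C, sub_eq_zero] at hy1
    exact congrArg Subtype.val hy1
  rw [← hg, ← Germ.coe_pow, ← Germ.coe_one, ← Germ.coe_add, Germ.coe_eq] at hy2
  obtain ⟨γ, hγ⟩ := hy2.exists
  exact hxs2 γ (g γ) hγ.symm

end Pool.Agent.NIPFields
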