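import Mathlib
import Pool.Agent.NIPFields.THens
import Pool.Agent.NIPFields.DefValY
import Pool.Agent.NIPFields.Main
import Pool.Agent.NIPFields.NipFinite

set_option autoImplicit false

/-!
# Shelah's conjecture in positive characteristic for fields with a non-dense norm relation
-/

namespace Pool.Agent.NIPFields

open FirstOrder FirstOrder.Language FirstOrder.Ring Set IsLocalRing

universe u v

section

variable {K : Type u} [Field K]

theorem infinite_of_ne_top {A : ValuationSubring K} (hA : A ≠ ⊤) : Infinite K := by
  by_contra hfin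
  rw [not_infinite_iff_finite] at hfin
  apply hA
  rw [eq_top_iff]
  intro x _
  by_cases hx0 : x = 0
  · rw [hx0]; exact A.zero_mem
  · have h1 : A.valuation x = 1 := by
      let _ := Fintype.ofFinite K
      have h2 : x ^ (Fintype.card K - 1) = 1 := FiniteField.pow_card_sub_one_eq_one x hx0
      have h3 : A.valuation x ^ (Fintype.card K - 1) = 1 := by rw [← map_pow, h2, map_one]
      have h4 : Fintype.card K - 1 ≠ 0 := by
        have := Fintype.one_lt_card (α := K)
        omega
      exact (pow_eq_one_iff_of_nonneg zero_le h4).1 h3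
    exact (A.valuation_le_one_iff _).1 h1.le

/-- Finitely many parameters suffice. -/
theorem exists_formula_of_definable [CompatibleRing K] {S : Set K}
    (hS : (univ : Set K).Definable₁ Language.ring S) :
    ∃ (p : ℕ) (ψ : Language.ring.Formula (Fin 1 ⊕ Fin p)) (c : Fin p → K),
      ∀ x : K, x ∈ S ↔ ψ.Realize (Sum.elim (fun _ => x) c) := by
  obtain ⟨A, hA, hdef⟩ := Set.definable_iff_finitely_definable.1 hS
  obtain ⟨φ, hφ⟩ := Set.definable_iff_exists_formula_sum.1 hdef
  let e := Fintype.equivFin (A : Set K)
  refine ⟨Fintype.card (A : Set K), φ.relabel (Sum.elim (fun a => Sum.inr (e a)) Sum.inl),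
    fun i => ((e.symm i : (A : Set K)) : K), fun x => ?_⟩
  rw [Formula.realize_relabel]
  have h1 := Set.ext_iff.1 hφ (fun _ => x)
  simp only [mem_ofPred_eq] at h1
  refine h1.trans ?_
  have h2 : (Sum.elim (Subtype.val : ↥(A : Set K) → K) (fun _ : Fin 1 => x)) =
      (Sum.elim (fun _ => x) fun i => ((e.symm i : (A : Set K)) : K)) ∘
        (Sum.elim (fun a => Sum.inr (e a)) Sum.inl : ↥(A : Set K) ⊕ Fin 1 → Fin 1 ⊕ Fin _) := by
    funext y
    rcases y with y | y
    · simp
    · simp
  rw [h2]

/-- Sets definable in a finite extension are definable over the base field. -/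
theorem LDef₁.of_definable [CompatibleRing K] {L : Type*} [Field L] [CompatibleRing L]
    [Algebra K L] {d : ℕ} {e : Module.Basis (Fin d) K L} {S : Set L}
    (hS : (univ : Set L).Definable₁ Language.ring S) : LDef₁ e S := by
  obtain ⟨A, hA, hdef⟩ := Set.definable_iff_finitely_definable.1 hS
  obtain ⟨φ, hφ⟩ := Set.definable_iff_exists_formula_sum.1 hdef
  have h1 := ldef_formula (e := e) φ
  have h2 := LFun.preimage (α := Unit) h1
    (f := Sum.elim (fun a _ => (a : L)) (fun _ v => v ())) (by
      rintro (i | i)
      · exact LFun.const _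
      · exact LFun.var _)
  unfold LDef₁
  convert h2 using 1
  ext v
  simp only [mem_ofPred_eq]
  have h3 := Set.ext_iff.1 hφ (fun _ => v ())
  simp only [mem_ofPred_eq] at h3
  refine h3.trans ?_
  have h4 : (Sum.elim (Subtype.val : ↥(A : Set L) → L) (fun _ : Fin 1 => v ())) =
      fun i => (Sum.elim (fun a _ => (a : L)) (fun _ v => v ()) :
        ↥(A : Set L) ⊕ Fin 1 → (Unit → L) → L) i v := by
    funext y
    rcases y with y | y <;> rfl
  rw [h4]

end

/-- Definable valuation rings of NIP fields of characteristic `p` are henselian. -/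
theorem NIP.henselian_of_definable {K : Type u} [Field K] [CompatibleRing K] (hK : NIP K)
    (p : ℕ) [hp : Fact p.Prime] [CharP K p] {O : ValuationSubring K} (hO : O ≠ ⊤)
    (hdef : (univ : Set K).Definable₁ Language.ring {x | x ∈ O}) : HenselianLocalRing O := by
  have hinf : Infinite K := infinite_of_ne_top hO
  have hchO : CharP O p := RingHom.charP O.subtype Subtype.val_injective p
  have hchR : CharP (ResidueField O) p := charP_residueField p O
  -- the residue field is infinite
  have hinfR : Infinite (ResidueField O) := by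
    by_contra hfin
    rw [not_infinite_iff_finite] at hfin
    have hsurj : Function.Surjective (fun x : ResidueField O => x ^ p - x) := by
      intro y
      obtain ⟨w, rfl⟩ := residue_surjective y
      let e : Module.Basis (Fin (Module.finrank K K)) K K := Module.finBasis K K
      obtain ⟨u, hu⟩ := hK.artinSchreier e (p := p) (w : K)
      have huO : u ∈ O := by
        by_contra huO
        have hu1 : 1 < O.valuation u := by
          rw [← not_le, O.valuation_le_one_iff]; exact huO
        have hu2 : O.valuation (u ^ p - u) = O.valuation u ^ p := by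
          rw [← map_pow]
          apply Valuation.map_sub_eq_of_lt_left
          rw [map_pow]
          obtain ⟨j, hj⟩ : ∃ j, p = j + 1 + 1 := ⟨p - 2, by have := hp.out.two_le; omega⟩
          rw [hj, pow_succ]
          have h3 : 1 < O.valuation u ^ (j + 1) := one_lt_pow₀ hu1 (Nat.succ_ne_zero _)
          calc O.valuation u = 1 * O.valuation u := (one_mul _).symm
            _ < O.valuation u ^ (j + 1) * O.valuation u :=
              mul_lt_mul_of_pos_right h3 (lt_trans zero_lt_one hu1)
        have hw : O.valuation (w : K) ≤ 1 := (O.valuation_le_one_iff _).2 w.2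
        rw [← hu, hu2] at hw
        exact absurd hw (not_le.2 (one_lt_pow₀ hu1 hp.out.ne_zero))
      refine ⟨residue O ⟨u, huO⟩, ?_⟩
      change (residue O ⟨u, huO⟩) ^ p - residue O ⟨u, huO⟩ = _
      rw [← map_pow, ← map_sub]
      congr 1
      exact Subtype.ext hu
    have hinj := Finite.injective_iff_surjective.2 hsurj
    have h01 : (0 : ResidueField O) = 1 := by
      apply hinj
      simp [hp.out.ne_zero]
    exact zero_ne_one h01
  refine NIP.henselian hK p (fun n => ?_)
  refine ⟨{x : O | x ∈ maximalIdeal O}, ?_, fun m hm => hm, ?_⟩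
  · have h1 : (algebraMap O K '' {x : O | x ∈ maximalIdeal O}) =
        {x : K | x ∈ {x | x ∈ O} ∧ (x = 0 ∨ x⁻¹ ∉ {x : K | x ∈ O})} := by
      ext x
      constructor
      · rintro ⟨y, hy, rfl⟩
        refine ⟨y.2, ?_⟩
        by_cases hy0 : (algebraMap O K y) = 0
        · exact Or.inl hy0
        · right
          have hv : O.valuation (y : K) < 1 := (O.valuation_lt_one_iff y).1 hy
          exact val_inv_gt hy0 hv
      · rintro ⟨hx, hx'⟩
        refine ⟨⟨x, hx⟩, ?_, rfl⟩
        rw [mem_ofPred_eq]
        rcases hx' with rfl | hx'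
        · exact Submodule.zero_mem _
        · exact (O.valuation_lt_one_iff ⟨x, hx⟩).2 (val_lt_one_of_inv_notMem hx')
    rw [h1]
    have e1 : (univ : Set K).Definable Language.ring {w : Fin 1 → K | w 0 = 0} :=
      Set.DefinableFun.ofPred_eq (dfun_var 0) dfun_zero
    have e2 : (univ : Set K).Definable Language.ring {w : Fin 1 → K | (w 0)⁻¹ ∈ {x | x ∈ O}} :=
      def_mem hdef (dfun_inv (dfun_var 0))
    exact Set.Definable.inter hdef (e1.union e2.compl)
  · intro a ha ν hν hmem
    have h1 : ∑ j, a j * (ν : O) ^ (j : ℕ) ∈ maximalIdeal O :=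
      Submodule.sum_mem _ fun j _ => Ideal.mul_mem_right _ _ (ha j)
    have h2 : (ν : O) ^ n ∈ maximalIdeal O := (Ideal.add_mem_iff_left _ h1).1 hmem
    have h3 : (ν : ResidueField O) ^ n = 0 := by
      have := (residue_eq_zero_iff _).2 h2
      rwa [map_pow, map_natCast] at this
    have h4 : (ν : ResidueField O) = 0 := eq_zero_of_pow_eq_zero h3
    exact hν ((CharP.cast_eq_zero_iff (ResidueField O) p ν).1 h4)

end Pool.Agent.NIPFields
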