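import Mathlib
import Pool.Agent.NIPFields.Final

set_option autoImplicit false

/-!
# Shelah's conjecture in positive characteristic for fields with a non-dense norm relation
-/

namespace Pool.Agent.NIPFields

open FirstOrder FirstOrder.Language FirstOrder.Ring Set IsLocalRing

universe u v

section

variable {L : Type v} [Field L] (A : ValuationSubring L)

theorem vball_valuationSubring {e : L} (he : e ∉ A) : VBall (A : Set L) 1 e where
  zero := A.zero_mem
  mul := fun _ hx _ hy => A.mul_mem _ _ hx hy
  inv := fun x hx => (A.mem_or_inv_mem x).resolve_left hx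
  add := fun x hx y hy => ⟨x + y, A.add_mem _ _ hx hy, (one_mul _).symm⟩
  cne := one_ne_zero
  enot := he

theorem ble_valuationSubring (x y : L) :
    BLe (A : Set L) x y ↔ A.valuation x ≤ A.valuation y := by
  constructor
  · rintro ⟨b, hb, rfl⟩
    rw [map_mul]
    calc A.valuation b * A.valuation y ≤ 1 * A.valuation y := by
          have : A.valuation b ≤ 1 := (A.valuation_le_one_iff _).2 hb
          gcongr
      _ = A.valuation y := one_mul _
  · intro h
    by_cases hy : y = 0
    · rw [hy, map_zero] at h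
      have : x = 0 := (map_eq_zero _).1 (le_antisymm h zero_le)
      exact ⟨0, A.zero_mem, by rw [this, zero_mul]⟩
    · refine ⟨x / y, ?_, (div_mul_cancel₀ _ hy).symm⟩
      have h1 : A.valuation (x / y) ≤ 1 := by
        rw [map_div₀]
        exact div_le_one_of_le₀ h zero_le
      exact (A.valuation_le_one_iff _).1 h1

/-- The case of valuation rings of the main theorem on V-topologies, for finite extensions. -/
theorem exists_definable_nbhd_valuation {K : Type u} [Field K] [CompatibleRing K] (hK : NIP K)
    [Algebra K L] [FiniteDimensional K L] [CompatibleRing L] {A : ValuationSubring L}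
    (hA : A ≠ ⊤) {ℓ : ℕ} (hℓ : (ℓ : L) ≠ 0) {a b r : L} (hr : r ≠ 0)
    (hbox : ∀ x y, A.valuation (x - a) ≤ A.valuation r → A.valuation (y - b) ≤ A.valuation r →
      ∀ z : AdjoinRoot (Polynomial.X ^ ℓ - Polynomial.C y : Polynomial L),
        Algebra.norm L z ≠ x) :
    ∃ U : Set L, (univ : Set L).Definable₁ Language.ring U ∧
      (∃ s : L, s ≠ 0 ∧ ∀ x ∈ U, A.valuation x ≤ A.valuation s) ∧
      (∃ t : L, t ≠ 0 ∧ ∀ x, A.valuation x ≤ A.valuation t → x ∈ U) := by
  have hℓ0 : NeZero ℓ := ⟨by rintro rfl; exact hℓ Nat.cast_zero⟩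
  have hL : NIP L := hK.finite (Module.finBasis K L)
  obtain ⟨e, he⟩ : ∃ e, e ∉ A := by
    by_contra hcon
    push Not at hcon
    exact hA (eq_top_iff.2 fun x _ => hcon x)
  have h := exists_definable_nbhd hL ℓ hℓ (A : Set L) 1 e a b r hr (vball_valuationSubring A he)
    (by
      intro x y hx hy hxy
      rw [ble_valuationSubring] at hx hy
      rw [← NSR_eq_NS, mem_NSR_iff_adj] at hxy
      obtain ⟨z, hz⟩ := hxy
      exact hbox x y hx hy z hz)
  simpa only [ble_valuationSubring] using h

end

/-- Shelah's conjecture for NIP fields of positive characteristic such that some finite extension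
has a valuation for which the norm relation is not dense. -/
theorem shelah_of_box {K : Type u} [Field K] [CompatibleRing K] (hK : NIP K) (p : ℕ)
    [hp : Fact p.Prime] [CharP K p] {L : Type v} [Field L] [Algebra K L]
    [FiniteDimensional K L] {A : ValuationSubring L} (hA : A ≠ ⊤) {ℓ : ℕ} (hℓp : ¬ p ∣ ℓ)
    {a b r : L} (hr : r ≠ 0)
    (hbox : ∀ x y, A.valuation (x - a) ≤ A.valuation r → A.valuation (y - b) ≤ A.valuation r →
      ∀ z : AdjoinRoot (Polynomial.X ^ ℓ - Polynomial.C y : Polynomial L),
        Algebra.norm L z ≠ x) :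
    ∃ O : ValuationSubring K, O ≠ ⊤ ∧ HenselianLocalRing O ∧
      (univ : Set K).Definable₁ Language.ring {x | x ∈ O} := by
  let _ : CompatibleRing L := compatibleRingOfRing L
  have hchL : CharP L p := charP_of_injective_algebraMap (algebraMap K L).injective p
  have hℓ : (ℓ : L) ≠ 0 := fun h => hℓp ((CharP.cast_eq_zero_iff L p ℓ).1 h)
  have hℓ0 : NeZero ℓ := ⟨by rintro rfl; exact hℓ Nat.cast_zero⟩
  let bas : Module.Basis (Fin (Module.finrank K L)) K L := Module.finBasis K L
  have hL : NIP L := hK.finite bas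
  obtain ⟨U, hU, ⟨s, hs0, hs⟩, ⟨t, ht0, ht⟩⟩ := exists_definable_nbhd_valuation hK hA hℓ hr hbox
  obtain ⟨c, hc0, hc⟩ := hL.open_powers (p := p) hA hU hs0 hs ht0 ht hℓ
  obtain ⟨e, he⟩ : ∃ e, e ∉ A := by
    by_contra hcon
    push Not at hcon
    exact hA (eq_top_iff.2 fun x _ => hcon x)
  have hVE : VE (A : Set L) (1 : L) :=
    { zero := A.zero_mem
      c0 := one_ne_zero
      add := fun x hx y hy => ⟨x + y, A.add_mem _ _ hx hy, (one_mul _).symm⟩
      mul := fun x hx y hy => ⟨x * y, A.mul_mem _ _ hx hy, (one_mul _).symm⟩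
      inv := fun x hx => ⟨x⁻¹, (A.mem_or_inv_mem x).resolve_left hx, (one_mul _).symm⟩
      ne := ⟨e, he⟩ }
  have hcompat : ∃ O : ValuationSubring L, Compat ℓ O := by
    obtain ⟨O, hO1, hO2⟩ := hVE.exists_valuationSubring (p := p) hℓ hc0 (by
      intro z hz
      apply hc
      rw [map_mul]
      calc A.valuation c * A.valuation z ≤ A.valuation c * 1 := by
            have : A.valuation z ≤ 1 := (A.valuation_le_one_iff _).2 hz
            gcongr
        _ = A.valuation c := mul_one _)
    exact ⟨O, hO1, hO2⟩
  have hnp : ∃ a : L, a ≠ 0 ∧ ∀ y, a ≠ y ^ ℓ := by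
    have h1 := hbox a b (by rw [sub_self, map_zero]; exact zero_le)
      (by rw [sub_self, map_zero]; exact zero_le)
    refine ⟨a, ?_, ?_⟩
    · rintro rfl
      exact h1 0 Algebra.norm_zero
    · rintro y rfl
      apply h1 (algebraMap L _ y)
      rw [Algebra.norm_algebraMap]
      congr 1
      rw [Module.finrank_eq_card_basis (adjBasis ℓ b), Fintype.card_fin]
  obtain ⟨O', hO'1, hO'2⟩ := exists_definable_valuationSubring (p := p) hℓ hcompat hnp
  have hdef : (univ : Set K).Definable₁ Language.ring {x : K | algebraMap K L x ∈ {x | x ∈ O'}} :=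
    (LDef₁.of_definable (e := bas) hO'2).restrict
  let O : ValuationSubring K := O'.comap (algebraMap K L)
  have hO : O ≠ ⊤ := by
    intro htop
    apply hO'1
    rw [eq_top_iff]
    intro x _
    have hint : IsIntegral O' x := by
      have h1 : IsIntegral K x := IsIntegral.of_finite K x
      let φ : K →+* O' := (algebraMap K L).codRestrict O' (by
        intro y
        have : y ∈ O := by rw [htop]; trivial
        exact this)
      obtain ⟨q, hq, hqx⟩ := h1
      refine ⟨q.map φ, hq.map φ, ?_⟩
      rw [Polynomial.eval₂_map]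
      exact hqx
    obtain ⟨y, hy⟩ := IsIntegrallyClosed.isIntegral_iff.1 hint
    rw [← hy]
    exact y.2
  have hOdef : (univ : Set K).Definable₁ Language.ring {x | x ∈ O} := hdef
  exact ⟨O, hO, hK.henselian_of_definable p hO hOdef, hOdef⟩

end Pool.Agent.NIPFields
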