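import Mathlib
import Pool.Agent.NIPFields.KD

set_option autoImplicit false

/-!
# From V-topologies to valuations in positive characteristic, for groups containing the powers
-/

namespace Pool.Agent.NIPFields

/-- `T` is a group (with zero) containing the `ℓ`-th powers. -/
structure PowGrp {k : Type*} [Field k] (ℓ : ℕ) (T : Set k) : Prop where
  pow : ∀ y, y ^ ℓ ∈ T
  mul : ∀ x ∈ T, ∀ y ∈ T, x * y ∈ T
  inv : ∀ x ∈ T, x⁻¹ ∈ T

theorem PowGrp.one {k : Type*} [Field k] {ℓ : ℕ} {T : Set k} (hT : PowGrp ℓ T) : (1 : k) ∈ T := by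
  have := hT.pow 1
  rwa [one_pow] at this

section

variable {k : Type*} [Field k] {E : Set k} {c : k}

variable (hE : VE E c)

include hE

/-- First case: there are elements which are not power bounded. -/
theorem VE.case1T {p : ℕ} [hp : Fact p.Prime] [CharP k p] {ℓ : ℕ} {T : Set k}
    (hT : PowGrp ℓ T) (hℓ : (ℓ : k) ≠ 0) {d : k}
    (hd : d ≠ 0) (hdE : ∀ z ∈ E, 1 + d * z ∈ T)
    (hx : ∃ x, ¬ PB E x) : ∃ O : ValuationSubring k, O ≠ ⊤ ∧
      ∀ m : k, O.valuation m < 1 → 1 + m ∈ T := by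
  have hc := hE.c0
  refine ⟨hE.ring1 (p := p), ?_, ?_⟩
  · intro htop
    obtain ⟨x, hx⟩ := hx
    have : x ∈ hE.ring1 (p := p) := by rw [htop]; trivial
    exact hx this
  · intro m hm
    set O := hE.ring1 (p := p) with hO
    by_cases hm0 : m = 0
    · rw [hm0, add_zero]; exact hT.one
    have hminv : ¬ PB E m⁻¹ := by
      intro h
      have h1 : m⁻¹ ∈ O := h
      have h2 : O.valuation m⁻¹ ≤ 1 := (O.valuation_le_one_iff _).2 h1
      rw [map_inv₀] at h2
      have h3 : 1 < (O.valuation m)⁻¹ :=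
        (one_lt_inv₀ (zero_lt_iff.2 ((map_ne_zero _).2 hm0))).2 hm
      exact absurd h2 (not_le.2 h3)
    have hvℓ : O.valuation (ℓ : k) = 1 := by
      have h1 : (ℓ : k) ^ (p - 1) = 1 := by
        have h2 : (ℓ : k) ^ p = ℓ := by
          have := map_natCast (frobenius k p) ℓ
          rwa [frobenius_def] at this
        have h3 : (ℓ : k) ^ (p - 1) * ℓ = 1 * ℓ := by
          rw [← pow_succ, Nat.sub_add_cancel hp.out.one_lt.le, h2, one_mul]
        exact mul_right_cancel₀ hℓ h3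
      have h2 : O.valuation (ℓ : k) ^ (p - 1) = 1 := by rw [← map_pow, h1, map_one]
      have hp1 : p - 1 ≠ 0 := by have := hp.out.two_le; omega
      exact (pow_eq_one_iff_of_nonneg zero_le hp1).1 h2
    have hsmall : ∀ u : k, u ≠ 0 → ∃ n : ℕ, LL E (m ^ n) u := by
      intro u hu
      by_contra hcon
      push Not at hcon
      apply hminv
      refine ⟨c ^ 3 / u, div_ne_zero (pow_ne_zero _ hc) hu, fun n => ?_⟩
      rcases hE.total (u * m⁻¹ ^ n) with h | h
      · have := h.mul_left u⁻¹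
        rwa [inv_mul_cancel_left₀ hu, mul_comm, ← div_eq_mul_inv] at this
      · exfalso
        apply hcon n
        have := h.mul_left (m ^ n)
        rwa [mul_one, mul_comm u, ← mul_assoc, ← mul_pow, mul_inv_cancel₀ hm0, one_pow,
          one_mul] at this
    have hmr : ∀ r : k, PB E r → LL E (m * r) (c ^ 3) := by
      intro r hr
      by_cases hr0 : r = 0
      · rw [hr0, mul_zero]; exact hE.zero_LL _
      rcases hE.total (m * r) with h | h
      · exact h
      · exfalso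
        apply hminv
        have h1 : PB E (m * r)⁻¹ := by
          refine hE.PB_of_one_LL (n := 1) one_ne_zero ?_
          rwa [pow_one]
        have h2 : m⁻¹ = (m * r)⁻¹ * r := by
          rw [mul_inv, mul_assoc, inv_mul_cancel₀ hr0, mul_one]
        rw [h2]
        exact h1.mul hr
    obtain ⟨n, hn⟩ := hsmall (d / c ^ 4) (div_ne_zero hd (pow_ne_zero _ hc))
    obtain ⟨y, hy1, hy⟩ := approx_root' O.valuation hvℓ hm n
    have hvy : O.valuation y = 1 := by
      have h1 : y = 1 + (y - 1) := by ring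
      rw [h1, Valuation.map_one_add_of_lt _ hy1]
    have hy0 : y ≠ 0 := by
      rintro rfl; rw [map_zero] at hvy; exact zero_ne_one hvy
    set r := (1 + m - y ^ ℓ) / (m ^ (n + 1) * y ^ ℓ) with hr
    have hmn : m ^ (n + 1) ≠ 0 := pow_ne_zero _ hm0
    have hyℓ : y ^ ℓ ≠ 0 := pow_ne_zero _ hy0
    have hrO : PB E r := by
      have h1 : r ∈ O := by
        rw [← O.valuation_le_one_iff, hr, map_div₀, map_mul, map_pow, map_pow, hvy, one_pow,
          mul_one]
        exact div_le_one_of_le₀ hy zero_le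
      exact h1
    have h1 : 1 + m = y ^ ℓ * (1 + m ^ n * (m * r)) := by
      rw [hr]
      field_simp
      ring
    have h2 : LL E (m ^ n * (m * r)) (d / c ^ 4 * c ^ 3) := hn.mul (hmr r hrO)
    obtain ⟨z, hz, e⟩ := hE.mem_of_LL h2
    have h3 : d / c ^ 4 * c ^ 3 * c * z = d * z := by field_simp
    rw [h3] at e
    rw [h1, e]
    exact hT.mul _ (hT.pow y) _ (hdE z hz)

/-- Second case: all elements are power bounded. -/
theorem VE.case2T {ℓ : ℕ} {T : Set k} (hT : PowGrp ℓ T) {d : k}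
    (hd : d ≠ 0) (hdE : ∀ z ∈ E, 1 + d * z ∈ T)
    (hall : ∀ x, PB E x) : ∃ O : ValuationSubring k, O ≠ ⊤ ∧
      ∀ m : k, O.valuation m < 1 → 1 + m ∈ T := by
  have hc := hE.c0
  obtain ⟨f, hf0, hf1, hf2⟩ : ∃ f, f ≠ 0 ∧ LL E c f ∧ LL E d⁻¹ f :=
    hE.exists_ub hc (inv_ne_zero hd)
  have h1f : LL E 1 f := hE.one_LL.trans hf1
  have hmono : ∀ {i j : ℕ}, i ≤ j → LL E (f ^ i) (f ^ j) := by
    intro i j hij
    obtain ⟨l, rfl⟩ := Nat.exists_eq_add_of_le hij
    have := (h1f.pow l).mul_left (f ^ i)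
    rwa [one_pow, mul_one, ← pow_add] at this
  let B : Set k := {x | ∃ n : ℕ, ∃ z ∈ E, x = f ^ n * z}
  have hBmem : ∀ {x : k} {i j : ℕ}, i ≤ j → (∃ z ∈ E, x = f ^ i * z) → ∃ z ∈ E, x = f ^ j * z := by
    rintro x i j hij ⟨z, hz, rfl⟩
    obtain ⟨z', hz', e⟩ := hmono hij z hz
    exact ⟨z', hz', e⟩
  have hBmul : ∀ {x y : k}, x ∈ B → y ∈ B → x * y ∈ B := by
    rintro x y ⟨n, z, hz, rfl⟩ ⟨m, w, hw, rfl⟩
    obtain ⟨t, ht, e⟩ := hE.mul z hz w hw
    obtain ⟨t', ht', e'⟩ := hf1 t ht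
    refine ⟨n + m + 1, t', ht', ?_⟩
    calc f ^ n * z * (f ^ m * w) = f ^ (n + m) * (z * w) := by ring
      _ = f ^ (n + m) * (f * t') := by rw [e, e']
      _ = f ^ (n + m + 1) * t' := by ring
  have hBadd : ∀ {x y : k}, x ∈ B → y ∈ B → x + y ∈ B := by
    rintro x y ⟨n, hx⟩ ⟨m, hy⟩
    obtain ⟨z, hz, rfl⟩ := hBmem (le_max_left n m) hx
    obtain ⟨w, hw, rfl⟩ := hBmem (le_max_right n m) hy
    obtain ⟨t, ht, e⟩ := hE.add z hz w hw
    obtain ⟨t', ht', e'⟩ := hf1 t ht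
    refine ⟨max n m + 1, t', ht', ?_⟩
    rw [← mul_add, e, e', pow_succ, mul_assoc]
  have hB1 : (1 : k) ∈ B := by
    obtain ⟨z, hz, e⟩ := hE.one_mem
    obtain ⟨t', ht', e'⟩ := hf1 z hz
    exact ⟨1, t', ht', by rw [pow_one, ← e', ← e]⟩
  have hB0 : (0 : k) ∈ B := ⟨0, 0, hE.zero, by simp⟩
  have hBor : ∀ x : k, x ∈ B ∨ x⁻¹ ∈ B := by
    intro x
    by_cases hx : x ∈ E
    · exact Or.inl ⟨0, x, hx, by simp⟩
    · obtain ⟨z, hz, e⟩ := hE.inv x hx
      obtain ⟨t', ht', e'⟩ := hf1 z hz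
      exact Or.inr ⟨1, t', ht', by rw [e, e', pow_one]⟩
  have hBneg : ∀ {x : k}, x ∈ B → -x ∈ B := by
    intro x hx
    rw [neg_eq_neg_one_mul]
    refine hBmul ?_ hx
    rcases hBor (-1) with h | h
    · exact h
    · rwa [inv_neg_one] at h
  let O : ValuationSubring k :=
    { carrier := B
      mul_mem' := hBmul
      one_mem' := hB1
      zero_mem' := hB0
      add_mem' := hBadd
      neg_mem' := hBneg
      mem_or_inv_mem' := hBor }
  refine ⟨O, ?_, ?_⟩
  · intro htop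
    obtain ⟨u, hu, hun⟩ := hall f
    obtain ⟨e, he⟩ := hE.ne
    have h1 : u * e ∈ O := by rw [htop]; trivial
    obtain ⟨n, z, hz, e1⟩ : u * e ∈ B := h1
    obtain ⟨z', hz', e2⟩ := hun n z hz
    have h2 : u * e = u * z' := e1.trans e2
    exact he (mul_left_cancel₀ hu h2 ▸ hz')
  · intro m hm
    by_cases hm0 : m = 0
    · rw [hm0, add_zero]; exact hT.one
    have hminv : m⁻¹ ∉ B := by
      intro h
      have h1 : m⁻¹ ∈ O := h
      have h2 : O.valuation m⁻¹ ≤ 1 := (O.valuation_le_one_iff _).2 h1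
      rw [map_inv₀] at h2
      have h3 : 1 < (O.valuation m)⁻¹ :=
        (one_lt_inv₀ (zero_lt_iff.2 ((map_ne_zero _).2 hm0))).2 hm
      exact absurd h2 (not_le.2 h3)
    have h1 : (f ^ 2)⁻¹ * m⁻¹ ∉ E := by
      intro h
      exact hminv ⟨2, _, h, by rw [mul_inv_cancel_left₀ (pow_ne_zero _ hf0)]⟩
    obtain ⟨z, hz, e⟩ := hE.inv _ h1
    rw [mul_inv, inv_inv, inv_inv] at e
    obtain ⟨z₁, hz₁, e₁⟩ := hf1 z hz
    -- `m = f⁻¹ z₁`
    have h2 : m = f⁻¹ * z₁ := by
      rw [e₁] at e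
      field_simp
      have h3 : f * (m * f) = f * z₁ := by rw [← e]; ring
      exact mul_left_cancel₀ hf0 h3
    have h3 : LL E f⁻¹ d := by
      have := hf2.mul_left (d * f⁻¹)
      rwa [mul_comm d, mul_assoc, mul_inv_cancel₀ hd, mul_one, mul_comm, ← mul_assoc,
        mul_inv_cancel₀ hf0, one_mul] at this
    obtain ⟨z₂, hz₂, e₂⟩ := h3 z₁ hz₁
    rw [h2, e₂]
    exact hdE z₂ hz₂

/-- In positive characteristic a V-topology in which the set of `ℓ`-th powers is open gives rise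
to a valuation ring whose one-units are `ℓ`-th powers. -/
theorem VE.exists_valuationSubringT {p : ℕ} [hp : Fact p.Prime] [CharP k p] {ℓ : ℕ}
    {T : Set k} (hT : PowGrp ℓ T)
    (hℓ : (ℓ : k) ≠ 0) {d : k} (hd : d ≠ 0) (hdE : ∀ z ∈ E, 1 + d * z ∈ T) :
    ∃ O : ValuationSubring k, O ≠ ⊤ ∧
      ∀ m : k, O.valuation m < 1 → 1 + m ∈ T := by
  by_cases hx : ∃ x, ¬ PB E x
  · exact hE.case1T (p := p) hT hℓ hd hdE hx
  · push Not at hx
    exact hE.case2T hT hd hdE hx

end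

end Pool.Agent.NIPFields
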