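import Mathlib
import Pool.Agent.NIPFields.KDT
import Pool.Agent.NIPFields.DefValY

set_option autoImplicit false

/-!
# Definable valuation rings from definable groups containing the `ℓ`-th powers
-/

namespace Pool.Agent.NIPFields

open FirstOrder FirstOrder.Language FirstOrder.Ring Set IsLocalRing

universe u

/-- The one-units of the valuation ring are in `T`. -/
def CompatT {K : Type*} [Field K] (T : Set K) (O : ValuationSubring K) : Prop :=
  O ≠ ⊤ ∧ ∀ m : K, O.valuation m < 1 → 1 + m ∈ T

section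

variable {K : Type*} [Field K] {ℓ : ℕ} {T : Set K}

/-- Units of the join of two incomparable compatible rings are in `T`. -/
theorem units_joinT (hT : PowGrp ℓ T) {O O' : ValuationSubring K}
    (hO : ∀ m : K, O.valuation m < 1 → 1 + m ∈ T)
    (hO' : ∀ m : K, O'.valuation m < 1 → 1 + m ∈ T)
    (h1 : ¬ O ≤ O') (h2 : ¬ O' ≤ O) (u : K) (hu : (joinRing O O').valuation u = 1) :
    u ∈ T := by
  have hu0 : u ≠ 0 := by
    rintro rfl
    rw [map_zero] at hu
    exact zero_ne_one hu
  have huR : u ∈ joinRing O O' := ((joinRing O O').valuation_le_one_iff _).1 hu.le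
  have huR' : u⁻¹ ∈ joinRing O O' := by
    rw [← (joinRing O O').valuation_le_one_iff, map_inv₀, hu, inv_one]
  obtain ⟨a, ha, ha'⟩ := SetLike.not_le_iff_exists.1 h1
  obtain ⟨b, hb, hb'⟩ := SetLike.not_le_iff_exists.1 h2
  have hva : O.valuation a ≤ 1 := (O.valuation_le_one_iff _).2 ha
  have hva' : 1 < O'.valuation a := by
    rw [← not_le, O'.valuation_le_one_iff]; exact ha'
  have hvb : O'.valuation b ≤ 1 := (O'.valuation_le_one_iff _).2 hb
  have hvb' : 1 < O.valuation b := by
    rw [← not_le, O.valuation_le_one_iff]; exact hb'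
  have ha0 : a ≠ 0 := by rintro rfl; exact ha' O'.zero_mem
  have hb0 : b ≠ 0 := by rintro rfl; exact hb' O.zero_mem
  set t₀ := a / b with ht₀
  have hvt : O.valuation t₀ < 1 := by
    rw [ht₀, map_div₀]
    exact (div_lt_one₀ (lt_trans zero_lt_one hvb')).2 (lt_of_le_of_lt hva hvb')
  have hvt' : 1 < O'.valuation t₀ := by
    rw [ht₀, map_div₀]
    refine (one_lt_div₀ ?_).2 (lt_of_le_of_lt hvb hva')
    exact zero_lt_iff.2 ((map_ne_zero _).2 hb0)
  obtain ⟨o', ho', ho1, ho2⟩ : ∃ o' ∈ O', O.valuation u ≤ O.valuation o' ∧ 1 ≤ O.valuation o' := by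
    obtain ⟨o', ho', h⟩ := huR
    rcases le_total 1 (O.valuation o') with h3 | h3
    · exact ⟨o', ho', h, h3⟩
    · exact ⟨1, O'.one_mem, by rw [map_one]; exact h.trans h3, by rw [map_one]⟩
  obtain ⟨o, ho, ho3, ho4⟩ : ∃ o ∈ O, O'.valuation u⁻¹ ≤ O'.valuation o ∧ 1 ≤ O'.valuation o := by
    obtain ⟨w, hw, h⟩ := huR'
    have hw0 : O.valuation w ≠ 0 := by
      intro h0
      rw [h0] at h
      have := le_antisymm h zero_le
      exact (inv_ne_zero hu0) ((map_eq_zero _).1 this)
    have hw0' : w ≠ 0 := (map_ne_zero _).1 hw0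
    have h3 : u⁻¹ / w ∈ O := by
      rw [← O.valuation_le_one_iff, map_div₀]
      exact div_le_one_of_le₀ h zero_le
    have h4 : O'.valuation u⁻¹ ≤ O'.valuation (u⁻¹ / w) := by
      have h5 : u⁻¹ = u⁻¹ / w * w := (div_mul_cancel₀ _ hw0').symm
      conv_lhs => rw [h5, map_mul]
      calc O'.valuation (u⁻¹ / w) * O'.valuation w ≤ O'.valuation (u⁻¹ / w) * 1 :=
            mul_le_mul_right ((O'.valuation_le_one_iff _).2 hw) _
        _ = O'.valuation (u⁻¹ / w) := mul_one _
    rcases le_total 1 (O'.valuation (u⁻¹ / w)) with h6 | h6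
    · exact ⟨_, h3, h4, h6⟩
    · exact ⟨1, O.one_mem, by rw [map_one]; exact h4.trans h6, by rw [map_one]⟩
  have ho0' : o' ≠ 0 := by
    rintro rfl
    rw [map_zero] at ho2
    exact absurd ho2 (by simp)
  have hvo : O.valuation o ≤ 1 := (O.valuation_le_one_iff _).2 ho
  have hvo' : O'.valuation o' ≤ 1 := (O'.valuation_le_one_iff _).2 ho'
  have hvo'0 : 0 < O'.valuation o' := zero_lt_iff.2 ((map_ne_zero _).2 ho0')
  have hvo'0' : 0 < O.valuation o' := zero_lt_iff.2 ((map_ne_zero _).2 ho0')
  set t := o * o'⁻¹ * t₀ with ht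
  have hvt1 : O.valuation t < (O.valuation o')⁻¹ := by
    rw [ht, map_mul, map_mul, map_inv₀]
    calc O.valuation o * (O.valuation o')⁻¹ * O.valuation t₀
        ≤ 1 * (O.valuation o')⁻¹ * O.valuation t₀ := by gcongr
      _ = (O.valuation o')⁻¹ * O.valuation t₀ := by rw [one_mul]
      _ < (O.valuation o')⁻¹ * 1 := mul_lt_mul_of_pos_left hvt (inv_pos.2 hvo'0')
      _ = (O.valuation o')⁻¹ := mul_one _
  have e1 : O.valuation t < 1 := lt_of_lt_of_le hvt1 (inv_le_one_of_one_le₀ ho2)
  have e2 : O.valuation (u * t) < 1 := by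
    rw [map_mul]
    calc O.valuation u * O.valuation t ≤ O.valuation o' * O.valuation t := by gcongr
      _ < O.valuation o' * (O.valuation o')⁻¹ := mul_lt_mul_of_pos_left hvt1 hvo'0'
      _ = 1 := mul_inv_cancel₀ hvo'0'.ne'
  have hvt2 : O'.valuation o < O'.valuation t := by
    have hopos : 0 < O'.valuation o := lt_of_lt_of_le zero_lt_one ho4
    rw [ht, map_mul, map_mul, map_inv₀]
    calc O'.valuation o = O'.valuation o * 1 * 1 := by rw [mul_one, mul_one]
      _ ≤ O'.valuation o * (O'.valuation o')⁻¹ * 1 := by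
          gcongr
          exact (one_le_inv₀ hvo'0).2 hvo'
      _ < O'.valuation o * (O'.valuation o')⁻¹ * O'.valuation t₀ :=
          mul_lt_mul_of_pos_left hvt' (mul_pos hopos (inv_pos.2 hvo'0))
  have e3 : O'.valuation t⁻¹ < 1 := by
    rw [map_inv₀]
    exact inv_lt_one_of_one_lt₀ (lt_of_le_of_lt ho4 hvt2)
  have e4 : O'.valuation (u * t)⁻¹ < 1 := by
    rw [map_inv₀, map_mul]
    apply inv_lt_one_of_one_lt₀
    have hupos : 0 < O'.valuation u := zero_lt_iff.2 ((map_ne_zero _).2 hu0)
    calc (1 : _) = O'.valuation u * O'.valuation u⁻¹ := by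
          rw [map_inv₀, mul_inv_cancel₀ hupos.ne']
      _ ≤ O'.valuation u * O'.valuation o := by gcongr
      _ < O'.valuation u * O'.valuation t := mul_lt_mul_of_pos_left hvt2 hupos
  have ht0 : t ≠ 0 := by
    intro h
    rw [h, map_zero] at hvt2
    exact absurd hvt2 (by simp)
  have y₁ := hO _ e2
  have y₂ := hO _ e1
  have y₃ := hO' _ e4
  have y₄ := hO' _ e3
  have n2 : 1 + t ≠ 0 := by
    intro h
    have := Valuation.map_one_add_of_lt O.valuation e1
    rw [h, map_zero] at this
    exact zero_ne_one this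
  have n3 : 1 + (u * t)⁻¹ ≠ 0 := by
    intro h
    have := Valuation.map_one_add_of_lt O'.valuation e4
    rw [h, map_zero] at this
    exact zero_ne_one this
  have hfin : u = (1 + u * t) * (1 + t⁻¹) * ((1 + t)⁻¹ * (1 + (u * t)⁻¹)⁻¹) := by
    rw [← mul_inv, ← div_eq_mul_inv, eq_div_iff (mul_ne_zero n2 n3)]
    field_simp
    ring
  rw [hfin]
  exact hT.mul _ (hT.mul _ y₁ _ y₄) _ (hT.mul _ (hT.inv _ y₂) _ (hT.inv _ y₃))

end

section caseX

variable {K : Type u} [Field K] {ℓ : ℕ} {T : Set K}

/-- The set `{x | 1 + π x ^ ℓ ∈ T}`. -/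
def PSetT (T : Set K) (ℓ : ℕ) (π : K) : Set K := {x | 1 + π * x ^ ℓ ∈ T}

theorem mem_PSetT_iff (hT : PowGrp ℓ T) (hℓ : ℓ ≠ 0) {O : ValuationSubring K}
    (hO : CompatT T O) {π : K}
    (hπ : ∀ t ∈ T, O.valuation π ≠ O.valuation t) (x : K) :
    x ∈ PSetT T ℓ π ↔ O.valuation π * O.valuation x ^ ℓ < 1 := by
  constructor
  · intro hy
    by_contra hlt
    rw [not_lt] at hlt
    have hx0 : x ≠ 0 := by
      rintro rfl
      rw [map_zero, zero_pow hℓ, mul_zero] at hlt
      exact absurd hlt (by simp)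
    have hvx : O.valuation x ≠ 0 := (map_ne_zero _).2 hx0
    have hne : O.valuation π * O.valuation x ^ ℓ ≠ 1 := by
      intro h
      apply hπ (x⁻¹ ^ ℓ) (hT.pow _)
      rw [map_pow, map_inv₀, inv_pow]
      exact eq_inv_of_mul_eq_one_left h
    have hgt : 1 < O.valuation (π * x ^ ℓ) := by
      rw [map_mul, map_pow]
      exact lt_of_le_of_ne hlt hne.symm
    have hval : O.valuation (1 + π * x ^ ℓ) = O.valuation (π * x ^ ℓ) := by
      rw [Valuation.map_add_eq_of_lt_right]
      rwa [map_one]
    rw [map_mul, map_pow] at hval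
    apply hπ ((1 + π * x ^ ℓ) * (x ^ ℓ)⁻¹) (hT.mul _ hy _ (hT.inv _ (hT.pow _)))
    rw [map_mul, hval, map_inv₀, map_pow, mul_inv_cancel_right₀ (pow_ne_zero _ hvx)]
  · intro h
    refine hO.2 _ ?_
    rwa [map_mul, map_pow]

theorem caseXT [CompatibleRing K] (hT : PowGrp ℓ T)
    (hTdef : (univ : Set K).Definable₁ Language.ring T) (hℓ : 2 ≤ ℓ) {O : ValuationSubring K}
    (hO : CompatT T O) {π : K}
    (hπ0 : π ≠ 0) (hπ : ∀ t ∈ T, O.valuation π ≠ O.valuation t) :
    ∃ O' : ValuationSubring K, O ≤ O' ∧ O' ≠ ⊤ ∧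
      (univ : Set K).Definable₁ Language.ring {x | x ∈ O'} := by
  have hℓ0 : ℓ ≠ 0 := by omega
  have key := mem_PSetT_iff hT hℓ0 hO hπ
  have hadd : ∀ {x y}, x ∈ PSetT T ℓ π → y ∈ PSetT T ℓ π → x + y ∈ PSetT T ℓ π := by
    intro x y hx hy
    rw [key] at *
    have h1 := O.valuation.map_add x y
    rcases le_total (O.valuation x) (O.valuation y) with h | h
    · rw [max_eq_right h] at h1
      refine lt_of_le_of_lt ?_ hy
      gcongr
    · rw [max_eq_left h] at h1
      refine lt_of_le_of_lt ?_ hx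
      gcongr
  have hmulO : ∀ {x y}, x ∈ O → y ∈ PSetT T ℓ π → x * y ∈ PSetT T ℓ π := by
    intro x y hx hy
    rw [key] at *
    refine lt_of_le_of_lt ?_ hy
    have h1 : O.valuation x ≤ 1 := (O.valuation_le_one_iff _).2 hx
    rw [map_mul]
    gcongr
    calc O.valuation x * O.valuation y ≤ 1 * O.valuation y := by gcongr
      _ = O.valuation y := one_mul _
  let O' : ValuationSubring K :=
    { carrier := {y | ∀ x, x ∈ PSetT T ℓ π → y * x ∈ PSetT T ℓ π}
      mul_mem' := by
        intro a b ha hb x hx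
        rw [mul_assoc]
        exact ha _ (hb _ hx)
      one_mem' := by
        intro x hx
        rwa [one_mul]
      zero_mem' := by
        intro x hx
        rw [zero_mul, key, map_zero, zero_pow hℓ0, mul_zero]
        exact zero_lt_one
      add_mem' := by
        intro a b ha hb x hx
        rw [add_mul]
        exact hadd (ha _ hx) (hb _ hx)
      neg_mem' := by
        intro a ha x hx
        rw [neg_mul, key, Valuation.map_neg, ← key]
        exact ha x hx
      mem_or_inv_mem' := by
        intro x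
        rcases O.mem_or_inv_mem x with h | h
        · exact Or.inl fun y hy => hmulO h hy
        · exact Or.inr fun y hy => hmulO h hy }
  refine ⟨O', fun x hx y hy => hmulO hx hy, ?_, ?_⟩
  · intro htop
    have hπv : O.valuation π ≠ 0 := (map_ne_zero _).2 hπ0
    have hπ1 : O.valuation π ≠ 1 := by
      have := hπ 1 hT.one
      rwa [map_one] at this
    -- an element of the set and an element not in the set
    obtain ⟨x₁, hx₁, hx₁0⟩ : ∃ x, x ∈ PSetT T ℓ π ∧ x ≠ 0 := by
      rcases lt_or_gt_of_ne hπ1 with h | h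
      · refine ⟨1, ?_, one_ne_zero⟩
        rw [key, map_one, one_pow, mul_one]
        exact h
      · refine ⟨π⁻¹, ?_, inv_ne_zero hπ0⟩
        rw [key, map_inv₀]
        obtain ⟨j, rfl⟩ : ∃ j, ℓ = (j + 1) + 1 := ⟨ℓ - 2, by omega⟩
        have h1 : (O.valuation π)⁻¹ < 1 := inv_lt_one_of_one_lt₀ h
        rw [pow_succ', ← mul_assoc, mul_inv_cancel₀ hπv, one_mul]
        exact pow_lt_one₀ zero_le h1 (Nat.succ_ne_zero _)
    obtain ⟨x₂, hx₂⟩ : ∃ x, x ∉ PSetT T ℓ π := by
      rcases lt_or_gt_of_ne hπ1 with h | h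
      · refine ⟨π⁻¹, ?_⟩
        rw [key, map_inv₀, not_lt]
        obtain ⟨j, rfl⟩ : ∃ j, ℓ = j + 1 := ⟨ℓ - 1, by omega⟩
        have h1 : 1 ≤ (O.valuation π)⁻¹ := ((one_lt_inv₀ (zero_lt_iff.2 hπv)).2 h).le
        rw [pow_succ', ← mul_assoc, mul_inv_cancel₀ hπv, one_mul]
        exact one_le_pow₀ h1
      · refine ⟨1, ?_⟩
        rw [key, map_one, one_pow, mul_one, not_lt]
        exact h.le
    have h1 : x₂ / x₁ ∈ O' := by rw [htop]; trivial
    have h2 := h1 x₁ hx₁
    rw [div_mul_cancel₀ _ hx₁0] at h2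
    exact hx₂ h2
  · have hP : (univ : Set K).Definable₁ Language.ring (PSetT T ℓ π) :=
      def_mem hTdef (dfun_add dfun_one (dfun_mul (dfun_const (mem_univ _))
        (dfun_pow (dfun_var 0) _)))
    exact def_stab hP

end caseX

section

variable {K : Type u} [Field K] {ℓ : ℕ} {T : Set K}

/-- The set `D`. -/
def DYT (T : Set K) (a : K) : Set K := {z | 1 + z ∈ T ∧ 1 + a * z ∈ T}

theorem def_DYT [CompatibleRing K] (hTdef : (univ : Set K).Definable₁ Language.ring T) (a : K) :
    (univ : Set K).Definable₁ Language.ring (DYT T a) :=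
  Set.Definable.inter (def_mem hTdef (dfun_add dfun_one (dfun_var 0)))
    (def_mem hTdef (dfun_add dfun_one (dfun_mul (dfun_const (mem_univ _)) (dfun_var 0))))

/-- The intersection of all compatible valuation rings, assuming that they form a chain. -/
noncomputable def interRingT (T : Set K)
    (hchain : ∀ O O' : ValuationSubring K, CompatT T O → CompatT T O' → O ≤ O' ∨ O' ≤ O) :
    ValuationSubring K where
  carrier := {x | ∀ O : ValuationSubring K, CompatT T O → x ∈ O}
  mul_mem' := fun hx hy O hO => O.mul_mem _ _ (hx O hO) (hy O hO)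
  one_mem' := fun O _ => O.one_mem
  zero_mem' := fun O _ => O.zero_mem
  add_mem' := fun hx hy O hO => O.add_mem _ _ (hx O hO) (hy O hO)
  neg_mem' := fun hx O hO => O.neg_mem _ (hx O hO)
  mem_or_inv_mem' := by
    intro x
    by_cases hx : ∀ O : ValuationSubring K, CompatT T O → x ∈ O
    · exact Or.inl hx
    · right
      push Not at hx
      obtain ⟨O, hO, hxO⟩ := hx
      intro O' hO'
      rcases hchain O O' hO hO' with h | h
      · exact h ((O.mem_or_inv_mem x).resolve_left hxO)
      · exact (O'.mem_or_inv_mem x).resolve_left (fun h1 => hxO (h h1))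

/-- The image of `T` in the residue field. -/
def resT (T : Set K) (O : ValuationSubring K) : Set (ResidueField O) :=
  {e | ∃ x : O, (x : K) ∈ T ∧ residue O x = e}

/-- Lifting from the residue field. -/
theorem lift_T (hT : PowGrp ℓ T) {O : ValuationSubring K} (hO : CompatT T O) (a : O)
    (ha : residue O a ≠ 0) (hres : residue O a ∈ resT T O) : (a : K) ∈ T := by
  obtain ⟨y, hyT, hy⟩ := hres
  have hy0 : residue O y ≠ 0 := by rw [hy]; exact ha
  have hyu : IsUnit y := by
    rwa [Ne, residue_eq_zero_iff, mem_maximalIdeal, mem_nonunits_iff, not_not] at hy0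
  have hvy : O.valuation (y : K) = 1 := (O.valuation_eq_one_iff y).1 hyu
  have h1 : a - y ∈ maximalIdeal O := by
    rw [← residue_eq_zero_iff, map_sub, hy, sub_self]
  have h2 : O.valuation ((a : K) - (y : K)) < 1 := by
    have := (O.valuation_lt_one_iff (a - y)).1 h1
    simpa using this
  have hy0' : (y : K) ≠ 0 := by
    intro h
    rw [h, map_zero] at hvy
    exact zero_ne_one hvy
  have ht := hO.2 (((a : K) - (y : K)) / (y : K)) (by
    rw [map_div₀, hvy, div_one]
    exact h2)
  have h3 : (a : K) = y * (1 + ((a : K) - (y : K)) / (y : K)) := by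
    field_simp
    ring
  rw [h3]
  exact hT.mul _ hyT _ ht

theorem powGrp_resT (hT : PowGrp ℓ T) {O : ValuationSubring K} :
    PowGrp ℓ (resT T O) := by
  refine ⟨?_, ?_, ?_⟩
  · intro y
    obtain ⟨y, rfl⟩ := residue_surjective y
    exact ⟨y ^ ℓ, by simpa using hT.pow (y : K), map_pow _ _ _⟩
  · rintro _ ⟨x, hx, rfl⟩ _ ⟨y, hy, rfl⟩
    exact ⟨x * y, by simpa using hT.mul _ hx _ hy, map_mul _ _ _⟩
  · rintro _ ⟨x, hx, rfl⟩
    by_cases h0 : residue O x = 0
    · rw [h0, inv_zero]
      exact ⟨x, hx, h0⟩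
    · have hu : IsUnit x := by
        rwa [residue_eq_zero_iff, mem_maximalIdeal, mem_nonunits_iff, not_not] at h0
      have hv : O.valuation (x : K) = 1 := (O.valuation_eq_one_iff x).1 hu
      have hx0 : (x : K) ≠ 0 := by
        intro h; rw [h, map_zero] at hv; exact zero_ne_one hv
      have hxi : (x : K)⁻¹ ∈ O := by
        rw [← O.valuation_le_one_iff, map_inv₀, hv, inv_one]
      refine ⟨⟨(x : K)⁻¹, hxi⟩, hT.inv _ hx, ?_⟩
      symm
      apply inv_eq_of_mul_eq_one_left
      rw [← map_mul, ← map_one (residue O)]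
      congr 1
      exact Subtype.ext (inv_mul_cancel₀ hx0)

theorem caseYT [CompatibleRing K] {p : ℕ} [hp : Fact p.Prime] (hT : PowGrp ℓ T)
    (hTdef : (univ : Set K).Definable₁ Language.ring T)
    (hℓp : ¬ p ∣ ℓ) {O₁ : ValuationSubring K} (hne : CompatT T O₁)
    (hpO : O₁.valuation (p : K) < 1)
    (hnp : ∃ a : K, a ∉ T) (hT0 : (0 : K) ∈ T)
    (hY : ∀ O : ValuationSubring K, CompatT T O → ∃ u, O.valuation u = 1 ∧ u ∉ T) :
    ∃ O' : ValuationSubring K, CompatT T O' ∧
      (univ : Set K).Definable₁ Language.ring {x | x ∈ O'} := by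
  -- the chain condition
  have hchain : ∀ O O' : ValuationSubring K, CompatT T O → CompatT T O' → O ≤ O' ∨ O' ≤ O := by
    intro O O' hO hO'
    by_contra hcon
    push Not at hcon
    have hu := units_joinT hT hO.2 hO'.2 hcon.1 hcon.2
    by_cases htop : joinRing O O' = ⊤
    · obtain ⟨a, ha⟩ := hnp
      have ha0 : a ≠ 0 := by rintro rfl; exact ha hT0
      refine ha (hu a ?_)
      apply le_antisymm
      · rw [ValuationSubring.valuation_le_one_iff, htop]; trivial
      · have h1 : (joinRing O O').valuation a⁻¹ ≤ 1 := by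
          rw [ValuationSubring.valuation_le_one_iff, htop]; trivial
        rw [map_inv₀] at h1
        exact (inv_le_one₀ (zero_lt_iff.2 ((map_ne_zero _).2 ha0))).1 h1
    · have hR : CompatT T (joinRing O O') :=
        ⟨htop, fun m hm => hO.2 m (val_lt_of_le (le_joinRing O O') hm)⟩
      obtain ⟨u, hu1, hu2⟩ := hY _ hR
      exact hu2 (hu u hu1)
  set O₀ := interRingT T hchain with hO₀
  have hmem : ∀ {x}, x ∈ O₀ ↔ ∀ O : ValuationSubring K, CompatT T O → x ∈ O := Iff.rfl
  have hle : ∀ {O}, CompatT T O → O₀ ≤ O := fun hO x hx => hmem.1 hx _ hO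
  have hcomp : CompatT T O₀ := by
    constructor
    · intro htop
      have := hle hne
      rw [htop, top_le_iff] at this
      exact hne.1 this
    · intro m hm
      by_cases hm0 : m = 0
      · rw [hm0, add_zero]; exact hT.one
      have h1 := val_inv_gt hm0 hm
      rw [hmem] at h1
      push Not at h1
      obtain ⟨O, hO, h2⟩ := h1
      exact hO.2 m (val_lt_one_of_inv_notMem h2)
  obtain ⟨a, ha1, ha2⟩ := hY O₀ hcomp
  have ha0 : a ≠ 0 := by rintro rfl; rw [map_zero] at ha1; exact zero_ne_one ha1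
  have haO : a ∈ O₀ := (O₀.valuation_le_one_iff _).1 ha1.le
  set D := DYT T a with hD
  have h0D : (0 : K) ∈ D := by
    constructor
    · rw [add_zero]; exact hT.one
    · rw [mul_zero, add_zero]; exact hT.one
  have hMD : ∀ m, O₀.valuation m < 1 → m ∈ D := by
    intro m hm
    exact ⟨hcomp.2 m hm, hcomp.2 (a * m) (by rw [map_mul, ha1, one_mul]; exact hm)⟩
  have hDO : ∀ z ∈ D, z ∈ O₀ := by
    rintro z ⟨hy, hy'⟩
    by_contra hz
    have hz0 : z ≠ 0 := by rintro rfl; exact hz O₀.zero_mem
    have hz1 : O₀.valuation z⁻¹ < 1 := val_lt_one_of_inv_notMem (by rwa [inv_inv])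
    have hz2 : O₀.valuation (a * z)⁻¹ < 1 := by
      rw [mul_inv, map_mul, map_inv₀ _ a, ha1, inv_one, one_mul]
      exact hz1
    have ht := hcomp.2 _ hz1
    have ht' := hcomp.2 _ hz2
    have nt : 1 + z⁻¹ ≠ 0 := by
      intro h
      have := Valuation.map_one_add_of_lt O₀.valuation hz1
      rw [h, map_zero] at this
      exact zero_ne_one this
    have nt' : 1 + (a * z)⁻¹ ≠ 0 := by
      intro h
      have := Valuation.map_one_add_of_lt O₀.valuation hz2
      rw [h, map_zero] at this
      exact zero_ne_one this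
    have n1 : 1 + z ≠ 0 := by
      intro h
      apply nt
      have : 1 + z⁻¹ = z⁻¹ * (1 + z) := by field_simp; ring
      rw [this, h, mul_zero]
    have e1 : a = (1 + a * z) * (1 + z⁻¹) * ((1 + z)⁻¹ * (1 + (a * z)⁻¹)⁻¹) := by
      rw [← mul_inv, ← div_eq_mul_inv, eq_div_iff (mul_ne_zero n1 nt')]
      field_simp
      ring
    apply ha2
    rw [e1]
    exact hT.mul _ (hT.mul _ hy' _ ht) _ (hT.mul _ (hT.inv _ hy) _ (hT.inv _ ht'))
  have hDdef : (univ : Set K).Definable₁ Language.ring D := def_DYT hTdef a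
  refine ⟨O₀, hcomp, ?_⟩
  suffices hW : {x | x ∈ O₀} = WY D by rw [hW]; exact def_WY hDdef
  ext c
  constructor
  swap
  · -- elements outside `O₀` satisfy `SC`
    intro hc
    by_contra hcO
    have hcO : c ∉ O₀ := hcO
    have hc0 : c ≠ 0 := by rintro rfl; exact hcO O₀.zero_mem
    have hcv : O₀.valuation c⁻¹ < 1 := val_lt_one_of_inv_notMem (by rwa [inv_inv])
    have hcD : ∀ x ∈ O₀, ∃ z, z ∈ D ∧ x = c * z := by
      intro x hx
      refine ⟨x / c, hMD _ ?_, by field_simp⟩
      rw [div_eq_mul_inv, map_mul]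
      calc O₀.valuation x * O₀.valuation c⁻¹ ≤ 1 * O₀.valuation c⁻¹ := by
            have := (O₀.valuation_le_one_iff _).2 hx
            gcongr
        _ < 1 := by rwa [one_mul]
    rcases hc with h | h
    · exact hc0 h
    · apply h
      refine ⟨fun x y hx hy => hcD _ (O₀.add_mem _ _ (hDO x hx) (hDO y hy)),
        fun x y hx hy => hcD _ (O₀.mul_mem _ _ (hDO x hx) (hDO y hy)), fun x hx => hcD _ ?_⟩
      by_contra h1
      exact hx (hMD _ (val_lt_one_of_inv_notMem h1))
  · intro hc
    have hc : c ∈ O₀ := hc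
    by_contra hcW
    have hcW : ¬ (c = 0 ∨ ¬ SC D c) := hcW
    push Not at hcW
    obtain ⟨hc0, hS1, hS2, hS3⟩ := hcW
    -- `c` is a unit
    have hcu : IsUnit (⟨c, hc⟩ : O₀) := by
      by_contra hcu
      have hcv : O₀.valuation c < 1 := (O₀.valuation_lt_one_iff ⟨c, hc⟩).1 hcu
      have hcz : ∀ z ∈ D, O₀.valuation (c * z) < 1 := by
        intro z hz
        rw [map_mul]
        calc O₀.valuation c * O₀.valuation z ≤ O₀.valuation c * 1 := by
              have := (O₀.valuation_le_one_iff _).2 (hDO z hz)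
              gcongr
          _ < 1 := by rwa [mul_one]
      have h1D : (1 : K) ∉ D := by
        intro h
        obtain ⟨z, hz, e⟩ := hS1 1 0 h h0D
        have := hcz z hz
        rw [← e, add_zero, map_one] at this
        exact lt_irrefl _ this
      obtain ⟨z, hz, e⟩ := hS3 1 h1D
      have := hcz z hz
      rw [← e, inv_one, map_one] at this
      exact lt_irrefl _ this
    set c' : O₀ := ⟨c, hc⟩ with hc'
    have hres : ∀ x : O₀, residue O₀ x ≠ 0 → IsUnit x := by
      intro x hx
      rwa [Ne, residue_eq_zero_iff, mem_maximalIdeal, mem_nonunits_iff, not_not] at hx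
    let E : Set (ResidueField O₀) := {e | ∃ x : O₀, (x : K) ∈ D ∧ residue O₀ x = e}
    have hVE : VE E (residue O₀ c') := by
      refine ⟨⟨0, h0D, map_zero _⟩, ?_, ?_, ?_, ?_, ?_⟩
      · intro h
        rw [residue_eq_zero_iff, mem_maximalIdeal, mem_nonunits_iff] at h
        exact h hcu
      · rintro _ ⟨x, hx, rfl⟩ _ ⟨y, hy, rfl⟩
        obtain ⟨z, hz, e⟩ := hS1 _ _ hx hy
        refine ⟨_, ⟨⟨z, hDO z hz⟩, hz, rfl⟩, ?_⟩
        rw [← map_add, ← map_mul]
        congr 1
        exact Subtype.ext e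
      · rintro _ ⟨x, hx, rfl⟩ _ ⟨y, hy, rfl⟩
        obtain ⟨z, hz, e⟩ := hS2 _ _ hx hy
        refine ⟨_, ⟨⟨z, hDO z hz⟩, hz, rfl⟩, ?_⟩
        rw [← map_mul, ← map_mul]
        congr 1
        exact Subtype.ext e
      · intro e he
        obtain ⟨x, rfl⟩ := residue_surjective e
        have hx0 : residue O₀ x ≠ 0 := by
          intro h
          exact he ⟨0, h0D, by rw [h, map_zero]⟩
        have hxD : (x : K) ∉ D := fun h => he ⟨x, h, rfl⟩
        have hxne : (x : K) ≠ 0 := by
          intro h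
          exact hxD (h ▸ h0D)
        obtain ⟨z, hz, e1⟩ := hS3 _ hxD
        refine ⟨_, ⟨⟨z, hDO z hz⟩, hz, rfl⟩, ?_⟩
        rw [inv_eq_iff_eq_inv, ← map_mul]
        symm
        apply inv_eq_of_mul_eq_one_left
        rw [← map_mul, ← map_one (residue O₀)]
        congr 1
        apply Subtype.ext
        change (x : K) * (c * z) = 1
        rw [← e1, mul_inv_cancel₀ hxne]
      · refine ⟨residue O₀ ⟨a, haO⟩ - 1, ?_⟩
        rintro ⟨z, hz, e⟩
        have h1 : residue O₀ ⟨a, haO⟩ = residue O₀ (1 + z) := by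
          rw [map_add, map_one, e]; ring
        have hau : IsUnit (⟨a, haO⟩ : O₀) := (O₀.valuation_eq_one_iff _).2 ha1
        refine ha2 (lift_T hT hcomp ⟨a, haO⟩ (by
          intro h
          rw [residue_eq_zero_iff, mem_maximalIdeal, mem_nonunits_iff] at h
          exact h hau) ⟨1 + z, by simpa using hz.1, h1.symm⟩)
    have hdE : ∀ z ∈ E, 1 + 1 * z ∈ resT T O₀ := by
      rintro _ ⟨x, hx, rfl⟩
      refine ⟨1 + x, by simpa using hx.1, ?_⟩
      rw [one_mul, map_add, map_one]
    have hpO₀ : O₀.valuation (p : K) < 1 := val_lt_of_le (hle hne) hpO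
    have hchR : CharP (ResidueField O₀) p := by
      refine (CharP.charP_iff_prime_eq_zero hp.out).2 ?_
      have h2 : (p : O₀) ∈ maximalIdeal O₀ := by
        have := (O₀.valuation_lt_one_iff (p : O₀)).2 (by simpa using hpO₀)
        exact this
      have h3 := (residue_eq_zero_iff _).2 h2
      rwa [map_natCast] at h3
    have hℓR : (ℓ : ResidueField O₀) ≠ 0 := by
      intro h
      rw [CharP.cast_eq_zero_iff (ResidueField O₀) p] at h
      exact hℓp h
    obtain ⟨O₁', hO₁1, hO₁2⟩ := hVE.exists_valuationSubringT (p := p) (powGrp_resT hT) hℓR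
      one_ne_zero hdE
    -- the composite valuation ring
    let O₂ : ValuationSubring K :=
      { carrier := {x | ∃ h : x ∈ O₀, residue O₀ ⟨x, h⟩ ∈ O₁'}
        mul_mem' := by
          rintro x y ⟨hx, hx'⟩ ⟨hy, hy'⟩
          refine ⟨O₀.mul_mem _ _ hx hy, ?_⟩
          have : (⟨x * y, O₀.mul_mem _ _ hx hy⟩ : O₀) = ⟨x, hx⟩ * ⟨y, hy⟩ := rfl
          rw [this, map_mul]
          exact O₁'.mul_mem _ _ hx' hy'
        one_mem' := by
          refine ⟨O₀.one_mem, ?_⟩
          have : (⟨1, O₀.one_mem⟩ : O₀) = 1 := rfl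
          rw [this, map_one]
          exact O₁'.one_mem
        zero_mem' := by
          refine ⟨O₀.zero_mem, ?_⟩
          have : (⟨0, O₀.zero_mem⟩ : O₀) = 0 := rfl
          rw [this, map_zero]
          exact O₁'.zero_mem
        add_mem' := by
          rintro x y ⟨hx, hx'⟩ ⟨hy, hy'⟩
          refine ⟨O₀.add_mem _ _ hx hy, ?_⟩
          have : (⟨x + y, O₀.add_mem _ _ hx hy⟩ : O₀) = ⟨x, hx⟩ + ⟨y, hy⟩ := rfl
          rw [this, map_add]
          exact O₁'.add_mem _ _ hx' hy'
        neg_mem' := by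
          rintro x ⟨hx, hx'⟩
          refine ⟨O₀.neg_mem _ hx, ?_⟩
          have : (⟨-x, O₀.neg_mem _ hx⟩ : O₀) = -⟨x, hx⟩ := rfl
          rw [this, map_neg]
          exact O₁'.neg_mem _ hx'
        mem_or_inv_mem' := by
          intro x
          by_cases hx : x ∈ O₀
          · by_cases hx' : residue O₀ ⟨x, hx⟩ ∈ O₁'
            · exact Or.inl ⟨hx, hx'⟩
            · right
              have h1 : residue O₀ ⟨x, hx⟩ ≠ 0 := by
                intro h; rw [h] at hx'; exact hx' O₁'.zero_mem
              have hu := hres _ h1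
              have hv : O₀.valuation x = 1 := (O₀.valuation_eq_one_iff ⟨x, hx⟩).1 hu
              have hx0 : x ≠ 0 := by
                rintro rfl; rw [map_zero] at hv; exact zero_ne_one hv
              have hxi : x⁻¹ ∈ O₀ := by
                rw [← O₀.valuation_le_one_iff, map_inv₀, hv, inv_one]
              refine ⟨hxi, ?_⟩
              have h2 : residue O₀ ⟨x⁻¹, hxi⟩ = (residue O₀ ⟨x, hx⟩)⁻¹ := by
                symm
                apply inv_eq_of_mul_eq_one_left
                rw [← map_mul, ← map_one (residue O₀)]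
                congr 1
                exact Subtype.ext (inv_mul_cancel₀ hx0)
              rw [h2]
              exact (O₁'.mem_or_inv_mem _).resolve_left hx'
          · right
            have hx0 : x ≠ 0 := by rintro rfl; exact hx O₀.zero_mem
            have hv : O₀.valuation x⁻¹ < 1 := val_lt_one_of_inv_notMem (by rwa [inv_inv])
            have hxi : x⁻¹ ∈ O₀ := (O₀.valuation_le_one_iff _).1 hv.le
            refine ⟨hxi, ?_⟩
            have h2 : residue O₀ ⟨x⁻¹, hxi⟩ = 0 := by
              rw [residue_eq_zero_iff]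
              exact (O₀.valuation_lt_one_iff ⟨x⁻¹, hxi⟩).2 hv
            rw [h2]
            exact O₁'.zero_mem }
    have hmem₂ : ∀ {x}, x ∈ O₂ ↔ ∃ h : x ∈ O₀, residue O₀ ⟨x, h⟩ ∈ O₁' := Iff.rfl
    have hcomp₂ : CompatT T O₂ := by
      constructor
      · intro htop
        apply hcomp.1
        rw [eq_top_iff]
        intro x _
        have : x ∈ O₂ := by rw [htop]; trivial
        exact this.1
      · intro m hm
        by_cases hm0 : m = 0
        · rw [hm0, add_zero]; exact hT.one
        have hmi := val_inv_gt hm0 hm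
        obtain ⟨hmO, hmO₁⟩ := hmem₂.1 ((O₂.valuation_le_one_iff _).1 hm.le)
        rcases lt_or_eq_of_le ((O₀.valuation_le_one_iff _).2 hmO) with h | h
        · exact hcomp.2 m h
        have hmi' : m⁻¹ ∈ O₀ := by
          rw [← O₀.valuation_le_one_iff, map_inv₀, h, inv_one]
        have h3 : (residue O₀ ⟨m, hmO⟩)⁻¹ ∉ O₁' := by
          intro h4
          apply hmi
          refine ⟨hmi', ?_⟩
          have h2 : residue O₀ ⟨m⁻¹, hmi'⟩ = (residue O₀ ⟨m, hmO⟩)⁻¹ := by
            symm
            apply inv_eq_of_mul_eq_one_left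
            rw [← map_mul, ← map_one (residue O₀)]
            congr 1
            exact Subtype.ext (inv_mul_cancel₀ hm0)
          rw [h2]
          exact h4
        have h4 := val_lt_one_of_inv_notMem h3
        have hy := hO₁2 _ h4
        have h5 : residue O₀ (1 + ⟨m, hmO⟩) ∈ resT T O₀ := by
          rw [map_add, map_one]; exact hy
        have h6 : residue O₀ (1 + ⟨m, hmO⟩) ≠ 0 := by
          intro h7
          rw [map_add, map_one] at h7
          have := Valuation.map_one_add_of_lt O₁'.valuation h4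
          rw [h7, map_zero] at this
          exact zero_ne_one this
        exact lift_T hT hcomp _ h6 h5
    apply hO₁1
    rw [eq_top_iff]
    intro e _
    obtain ⟨x, rfl⟩ := residue_surjective e
    have h7 : (x : K) ∈ O₂ := hle hcomp₂ x.2
    obtain ⟨_, h8⟩ := h7
    exact h8

end

/-- If `T` is a definable group containing the `ℓ`-th powers and the one-units of a maximal
proper valuation ring `A` of residue characteristic `p` prime to `ℓ`, then `A` contains a
non-trivial definable valuation ring, unless `T` is everything. -/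
theorem exists_definable_refinement {K : Type u} [Field K] [CompatibleRing K] {ℓ p : ℕ}
    [hp : Fact p.Prime] {T : Set K} (hT : PowGrp ℓ T) (hT0 : (0 : K) ∈ T)
    (hTdef : (univ : Set K).Definable₁ Language.ring T) (hℓp : ¬ p ∣ ℓ) (hℓ2 : 2 ≤ ℓ)
    {A : ValuationSubring K} (hA : CompatT T A) (hmax : ∀ B : ValuationSubring K, A ≤ B →
      B = A ∨ B = ⊤) (hpA : A.valuation (p : K) < 1) (hnp : ∃ a : K, a ∉ T) :
    ∃ O' : ValuationSubring K, O' ≠ ⊤ ∧ O' ≤ A ∧
      (univ : Set K).Definable₁ Language.ring {x | x ∈ O'} := by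
  -- all compatible rings are contained in `A`
  have hcomp : ∀ O : ValuationSubring K, CompatT T O → O ≤ A := by
    intro O hO
    by_contra hle
    by_cases hle' : A ≤ O
    · rcases hmax O hle' with h | h
      · exact hle h.le
      · exact hO.1 h
    · have hu := units_joinT hT hA.2 hO.2 hle' hle
      rcases hmax _ (le_joinRing A O) with h | h
      · -- then `O ≤ A`
        apply hle
        intro x hx
        have : x ∈ joinRing A O := mem_joinRing.2 ⟨x, hx, le_refl _⟩
        rwa [h] at this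
      · obtain ⟨a, ha⟩ := hnp
        have ha0 : a ≠ 0 := by rintro rfl; exact ha hT0
        refine ha (hu a ?_)
        apply le_antisymm
        · rw [ValuationSubring.valuation_le_one_iff, h]; trivial
        · have h1 : (joinRing A O).valuation a⁻¹ ≤ 1 := by
            rw [ValuationSubring.valuation_le_one_iff, h]; trivial
          rw [map_inv₀] at h1
          exact (inv_le_one₀ (zero_lt_iff.2 ((map_ne_zero _).2 ha0))).1 h1
  by_cases hX : ∃ O : ValuationSubring K, CompatT T O ∧ ∀ u, O.valuation u = 1 → u ∈ T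
  · obtain ⟨O, hO, hu⟩ := hX
    obtain ⟨π, hπ⟩ := hnp
    have hπ0 : π ≠ 0 := by rintro rfl; exact hπ hT0
    obtain ⟨O', hO'1, hO'2, hO'3⟩ := caseXT hT hTdef hℓ2 hO hπ0 (by
      intro t ht hπt
      have hvπ : O.valuation π ≠ 0 := (map_ne_zero _).2 hπ0
      have ht0 : t ≠ 0 := by
        rintro rfl
        rw [map_zero] at hπt
        exact hvπ hπt
      have h1 := hu (π / t) (by rw [map_div₀, hπt, div_self]; rwa [← hπt])
      apply hπ
      rw [← div_mul_cancel₀ π ht0]
      exact hT.mul _ h1 _ ht)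
    refine ⟨O', hO'2, ?_, hO'3⟩
    -- overrings of `O` form a chain
    intro x hx
    by_contra hxA
    apply hO'2
    have hAO' : A ≤ O' := by
      intro y hy
      by_contra hyO'
      have hy0 : y ≠ 0 := by rintro rfl; exact hyO' O'.zero_mem
      have hx0 : x ≠ 0 := by rintro rfl; exact hxA A.zero_mem
      -- compare `x` and `y` in `O`
      rcases O.mem_or_inv_mem (y / x) with h | h
      · apply hyO'
        have : y = (y / x) * x := (div_mul_cancel₀ _ hx0).symm
        rw [this]
        exact O'.mul_mem _ _ (hO'1 h) hx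
      · apply hxA
        rw [inv_div] at h
        have : x = (x / y) * y := (div_mul_cancel₀ _ hy0).symm
        rw [this]
        exact A.mul_mem _ _ (hcomp O hO h) hy
    rcases hmax O' hAO' with h | h
    · exact absurd (h ▸ hx) hxA
    · exact h
  · push Not at hX
    obtain ⟨O', hO'1, hO'2⟩ := caseYT (p := p) hT hTdef hℓp hA hpA hnp hT0 hX
    exact ⟨O', hO'1.1, hcomp _ hO'1, hO'2⟩

end Pool.Agent.NIPFields
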