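import Mathlib
import Pool.Agent.NIPFields.Final2

set_option autoImplicit false

/-!
# Definable V-topologies on NIP fields: V-balls of finite extensions
-/

namespace Pool.Agent.NIPFields

open FirstOrder FirstOrder.Language FirstOrder.Ring Set

universe u v

section

variable {K : Type u} [Field K] {L : Type v} [Field L] [Algebra K L] {B : Set L} {c : K} {e : L}

/-- Elements which remain below `t` after multiplication by any element of the base. -/
def InfT (K : Type u) {L : Type v} [Field K] [Field L] [Algebra K L] (B : Set L) (t x : L) :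
    Prop := ∀ k : K, BLe B (algebraMap K L k * x) t

theorem InfT.add (h : VBall B (algebraMap K L c) e) {t x y : L} (hx : InfT K B t x)
    (hy : InfT K B t y) : InfT K B t (x + y) := by
  intro k
  have h1 := VBall.mul_left (algebraMap K L c)⁻¹ (hx (c * k))
  have h2 := VBall.mul_left (algebraMap K L c)⁻¹ (hy (c * k))
  rw [map_mul, mul_assoc, inv_mul_cancel_left₀ h.cne] at h1 h2
  have h3 := h.add_le h1 h2
  rwa [mul_inv_cancel_left₀ h.cne, ← mul_add] at h3

theorem InfT.sum (h : VBall B (algebraMap K L c) e) {t : L} {ι : Type*} (s : Finset ι)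
    (f : ι → L) (hf : ∀ i ∈ s, InfT K B t (f i)) : InfT K B t (∑ i ∈ s, f i) := by
  classical
  induction s using Finset.induction_on with
  | empty =>
    intro k
    rw [Finset.sum_empty, mul_zero]
    exact h.zero_le _
  | insert a s ha ih =>
    rw [Finset.sum_insert ha]
    exact (hf a (Finset.mem_insert_self _ _)).add h
      (ih fun i hi => hf i (Finset.mem_insert_of_mem hi))

variable [FiniteDimensional K L]

/-- Elements of a finite extension are bounded by elements of the base. -/
theorem exists_base_ge (h : VBall B (algebraMap K L c) e) (s : L) :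
    ∃ s' : K, s' ≠ 0 ∧ BLe B s (algebraMap K L s') := by
  -- the relation given by the minimal polynomial
  have key : ∀ x : L, ∃ (n : ℕ) (a : ℕ → K), 0 < n ∧
      x ^ n = -∑ i ∈ Finset.range n, algebraMap K L (a i) * x ^ i := by
    intro x
    have hint : IsIntegral K x := IsIntegral.of_finite K x
    have hroot := minpoly.aeval K x
    rw [Polynomial.aeval_eq_sum_range, Finset.sum_range_succ] at hroot
    have hlead : (minpoly K x).coeff (minpoly K x).natDegree = 1 :=
      (minpoly.monic hint).coeff_natDegree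
    rw [hlead, one_smul] at hroot
    simp only [Algebra.smul_def] at hroot
    exact ⟨_, _, minpoly.natDegree_pos hint, eq_neg_of_add_eq_zero_right hroot⟩
  have hpow : ∀ {x : L}, BLe B 1 x → ∀ {i j : ℕ}, i ≤ j → BLe B (x ^ i) (x ^ j) := by
    intro x hx i j hij
    obtain ⟨l, rfl⟩ := Nat.exists_eq_add_of_le hij
    induction l with
    | zero => exact h.refl _
    | succ l ih =>
      have h1 := h.mul_mul (ih (Nat.le_add_right _ _)) hx
      rwa [mul_one, ← pow_succ, add_assoc] at h1
  -- the base is not contained in the ball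
  have hA : ∃ k₀ : K, algebraMap K L k₀ ∉ B := by
    by_contra hcon
    push Not at hcon
    obtain ⟨n, a, hn, hrel⟩ := key e
    have h1e : BLe B 1 e := h.le_of_not h.not_e_le_one
    have h2 : InfT K B (e ^ (n - 1)) (e ^ n) := by
      have h3 : InfT K B (e ^ (n - 1))
          (∑ i ∈ Finset.range n, algebraMap K L (a i) * e ^ i) := by
        refine InfT.sum h _ _ (fun i hi k => ?_)
        rw [Finset.mem_range] at hi
        rw [← mul_assoc, ← map_mul]
        have h4 : BLe B (algebraMap K L (k * a i)) 1 := VBall.le_one_iff.2 (hcon _)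
        have h5 := h.mul_mul h4 (hpow h1e (show i ≤ n - 1 by omega))
        rwa [one_mul] at h5
      intro k
      rw [hrel, mul_neg]
      exact h.neg_le (h3 k)
    have h3 := h2 1
    rw [map_one, one_mul] at h3
    have hen : e ^ n = e ^ (n - 1) * e := by rw [← pow_succ, Nat.sub_add_cancel hn]
    have h4 : BLe B (e ^ (n - 1) * e) (e ^ (n - 1) * 1) := by rwa [← hen, mul_one]
    exact h.not_e_le_one ((VBall.mul_left_iff (pow_ne_zero _ h.ene)).1 h4)
  obtain ⟨k₀, hk₀⟩ := hA
  by_contra hcon
  push Not at hcon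
  have hK : ∀ k : K, BLe B (algebraMap K L k) s := by
    intro k
    by_cases hk : k = 0
    · rw [hk, map_zero]; exact h.zero_le _
    · exact h.le_of_not (hcon k hk)
  have h1s : BLe B 1 s := by
    have := hK 1
    rwa [map_one] at this
  have hs0 : s ≠ 0 := by
    rintro rfl
    exact one_ne_zero (VBall.of_le_zero h1s)
  obtain ⟨n, a, hn, hrel⟩ := key s
  have h2 : InfT K B (s ^ n) (s ^ n) := by
    have h3 : InfT K B (s ^ n) (∑ i ∈ Finset.range n, algebraMap K L (a i) * s ^ i) := by
      refine InfT.sum h _ _ (fun i hi k => ?_)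
      rw [Finset.mem_range] at hi
      rw [← mul_assoc, ← map_mul]
      have h5 := h.mul_mul (hK (k * a i)) (h.refl (s ^ i))
      rw [← pow_succ'] at h5
      exact h.trans h5 (hpow h1s hi)
    intro k
    conv_lhs => rw [hrel, mul_neg]
    exact h.neg_le (h3 k)
  have h3 := h2 k₀
  have h4 : BLe B (s ^ n * algebraMap K L k₀) (s ^ n * 1) := by rwa [mul_comm, mul_one]
  exact hk₀ (VBall.le_one_iff.1 ((VBall.mul_left_iff (pow_ne_zero _ hs0)).1 h4))

/-- The restriction to the base field of a V-topology with a non-dense norm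
relation is definable. -/
theorem exists_definable_nbhd_base [CompatibleRing K] (hK : NIP K)
    (h : VBall B (algebraMap K L c) e) {ℓ : ℕ} (hℓ : (ℓ : K) ≠ 0) {a b r : L} (hr : r ≠ 0)
    (hbox : ∀ x y, BLe B (x - a) r → BLe B (y - b) r →
      ∀ z : AdjoinRoot (Polynomial.X ^ ℓ - Polynomial.C y : Polynomial L),
        Algebra.norm L z ≠ x) :
    ∃ U : Set K, (univ : Set K).Definable₁ Language.ring U ∧
      (∃ s : K, s ≠ 0 ∧ ∀ x ∈ U, BLe B (algebraMap K L x) (algebraMap K L s)) ∧
      (∃ t : K, t ≠ 0 ∧ ∀ x : K, BLe B (algebraMap K L x) (algebraMap K L t) → x ∈ U) := by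
  let _ : CompatibleRing L := compatibleRingOfRing L
  have hℓ0 : NeZero ℓ := ⟨by rintro rfl; exact hℓ Nat.cast_zero⟩
  have hL : NIP L := hK.finite (Module.finBasis K L)
  have hℓL : (ℓ : L) ≠ 0 := by
    intro h
    apply hℓ
    apply (algebraMap K L).injective
    rw [map_natCast, h, map_zero]
  obtain ⟨U, hU, ⟨s, hs0, hs⟩, ⟨t, ht0, ht⟩⟩ :=
    exists_definable_nbhd hL ℓ hℓL B (algebraMap K L c) e a b r hr h
    (by
      intro x y hx hy hxy
      rw [← NSR_eq_NS, mem_NSR_iff_adj] at hxy
      obtain ⟨z, hz⟩ := hxy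
      exact hbox x y hx hy z hz)
  obtain ⟨s', hs'0, hs'⟩ := exists_base_ge (K := K) h s
  obtain ⟨t', ht'0, ht'⟩ := exists_base_ge (K := K) h t⁻¹
  refine ⟨{x : K | algebraMap K L x ∈ U},
    (LDef₁.of_definable (e := Module.finBasis K L) hU).restrict, ⟨s', hs'0, ?_⟩,
    ⟨t'⁻¹, inv_ne_zero ht'0, ?_⟩⟩
  · intro x hx
    exact h.trans (hs _ hx) hs'
  · intro x hx
    apply ht
    refine h.trans hx ?_
    rw [map_inv₀]
    have h1 := VBall.inv_le_inv (inv_ne_zero ht0) ht'
    rwa [inv_inv] at h1

end

end Pool.Agent.NIPFields
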