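import Mathlib
import Pool.Agent.NIPFields.CThm

set_option autoImplicit false

open FirstOrder FirstOrder.Language FirstOrder.Ring

universe u v

/-- V-topologies with a non-dense norm relation are ring-definable in NIP fields.  Let `K` be an
NIP field, `L` a finite extension and `B` a ball of a V-topology on `L`: a proper multiplicatively
closed subset containing `0` and, for every `x`, one of `x` and `x⁻¹`, such that `B + B ⊆ c B` for
some `c ∈ K` (for example a valuation ring, or the unit ball of an absolute value, or the interval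
`[-1, 1]` of an ordering).  If for some `ℓ ≠ 0` in `K` the relation that `x` is a norm from
`L[X]/(X ^ ℓ - y)` is not dense in `L × L` for the topology given by `B`, then the induced
topology on `K` has a bounded neighbourhood of zero which is definable in the ring language. -/
theorem Pool.Agent.Results.MP_3554b5_lc.DefinableVTopology.result
    (K : Type u) [Field K] [CompatibleRing K]
    (hK : ∀ (m k : ℕ) (φ : Language.ring.Formula (Fin m ⊕ Fin k)),
      ∃ n : ℕ, ∀ (a : Fin n → Fin m → K) (b : Finset (Fin n) → Fin k → K),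
        ∃ (i : Fin n) (J : Finset (Fin n)),
          ¬ (φ.Realize (Sum.elim (a i) (b J)) ↔ i ∈ J))
    (L : Type v) [Field L] [Algebra K L] [FiniteDimensional K L]
    (B : Set L) (h0 : (0 : L) ∈ B) (hmul : ∀ x ∈ B, ∀ y ∈ B, x * y ∈ B)
    (hinv : ∀ x : L, x ∈ B ∨ x⁻¹ ∈ B)
    (hadd : ∃ c : K, ∀ x ∈ B, ∀ y ∈ B, ∃ z ∈ B, x + y = c • z) (hne : B ≠ Set.univ)
    (ℓ : ℕ) (hℓ : (ℓ : K) ≠ 0)
    (hdense : ∃ a b r : L, r ≠ 0 ∧ ∀ u ∈ B, ∀ w ∈ B,
      ∀ z : AdjoinRoot (Polynomial.X ^ ℓ - Polynomial.C (b + r * w) : Polynomial L),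
        Algebra.norm L z ≠ a + r * u) :
    ∃ (m : ℕ) (ψ : Language.ring.Formula (Fin 1 ⊕ Fin m)) (c : Fin m → K),
      (∃ s : K, ∀ x : K, ψ.Realize (Sum.elim (fun _ => x) c) →
        ∃ u ∈ B, algebraMap K L x = s • u) ∧
      (∃ t : K, t ≠ 0 ∧ ∀ x : K, (∃ u ∈ B, algebraMap K L x = t • u) →
        ψ.Realize (Sum.elim (fun _ => x) c)) := by
  obtain ⟨c, hc⟩ := hadd
  obtain ⟨a, b, r, hr, hbox⟩ := hdense
  obtain ⟨e, he⟩ : ∃ e, e ∉ B := by
    by_contra hcon
    push Not at hcon
    exact hne (Set.eq_univ_of_forall hcon)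
  have h1 : (1 : L) ∈ B := by
    rcases hinv 1 with h | h
    · exact h
    · rwa [inv_one] at h
  have hball : Pool.Agent.NIPFields.VBall B (algebraMap K L c) e := by
    refine ⟨h0, hmul, fun x hx => (hinv x).resolve_left hx, ?_, ?_, he⟩
    · intro x hx y hy
      obtain ⟨z, hz, h2⟩ := hc x hx y hy
      exact ⟨z, hz, by rw [h2, Algebra.smul_def]⟩
    · intro h2
      obtain ⟨z, hz, h3⟩ := hc 1 h1 0 h0
      rw [Algebra.smul_def, h2, zero_mul, add_zero] at h3
      exact one_ne_zero h3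
  obtain ⟨U, hU, ⟨s, _, hs⟩, ⟨t, ht0, ht⟩⟩ :=
    Pool.Agent.NIPFields.exists_definable_nbhd_base (K := K) hK hball hℓ (a := a) (b := b) hr (by
      rintro x y ⟨u, hu, hxu⟩ ⟨w, hw, hyw⟩ z hz
      have e1 : x = a + r * u := by linear_combination hxu
      have e2 : y = b + r * w := by linear_combination hyw
      subst e1
      subst e2
      exact hbox u hu w hw z hz)
  obtain ⟨m, ψ, d, hψ⟩ := Pool.Agent.NIPFields.exists_formula_of_definable hU
  refine ⟨m, ψ, d, ⟨s, fun x hx => ?_⟩, ⟨t, ht0, fun x hx => ?_⟩⟩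
  · obtain ⟨u, hu, h2⟩ := hs x ((hψ x).2 hx)
    exact ⟨u, hu, by rw [h2, Algebra.smul_def, mul_comm]⟩
  · refine (hψ x).1 (ht x ?_)
    obtain ⟨u, hu, h2⟩ := hx
    exact ⟨u, hu, by rw [h2, Algebra.smul_def, mul_comm]⟩
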