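import Mathlib
import Pool.Agent.NIPFields.LC.Final

set_option autoImplicit false

open FirstOrder FirstOrder.Language FirstOrder.Ring

universe u

/-- Let `K` be an infinite NIP field of any characteristic. If for one finite extension `L` of `K`
containing a square root of `-1` and one `ℓ ≥ 2` the `ℓ`-th powers form a proper subgroup of finite
index in `Lˣ`, then `K` has a nontrivial valuation ring which is definable with parameters. -/
theorem Pool.Agent.Results.MP_3554b5_lc.DefinableValuation.result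
    (K : Type u) [Field K] [Infinite K] [CompatibleRing K]
    (hK : ∀ (m k : ℕ) (φ : Language.ring.Formula (Fin m ⊕ Fin k)),
      ∃ n : ℕ, ∀ (a : Fin n → Fin m → K) (b : Finset (Fin n) → Fin k → K),
        ∃ (i : Fin n) (J : Finset (Fin n)),
          ¬ (φ.Realize (Sum.elim (a i) (b J)) ↔ i ∈ J))
    (L : Type u) [Field L] [Algebra K L] [FiniteDimensional K L] (hi : ∃ i : L, i ^ 2 = -1)
    (ℓ : ℕ) (hℓ : 2 ≤ ℓ) (hne : ∃ a : L, ∀ y : L, a ≠ y ^ ℓ)
    (hfin : ((powMonoidHom ℓ : Lˣ →* Lˣ).range).FiniteIndex) :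
    ∃ O : ValuationSubring K, O ≠ ⊤ ∧
      ∃ (m : ℕ) (ψ : Language.ring.Formula (Fin 1 ⊕ Fin m)) (c : Fin m → K),
        ∀ x : K, x ∈ O ↔ ψ.Realize (Sum.elim (fun _ => x) c) := by
  obtain ⟨O, hO1, hO2⟩ :=
    Pool.Agent.NIPFields.LC.exists_definable_of_extension hK (L := L) hℓ hfin hne hi
  exact ⟨O, hO1, Pool.Agent.NIPFields.exists_formula_of_definable hO2⟩
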