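import Mathlib
import Pool.Agent.NIPFields.CThm

set_option autoImplicit false

/-!
# NIP fields have finitely many independent V-topologies with non-dense norm relation
-/

namespace Pool.Agent.NIPFields

open FirstOrder FirstOrder.Language FirstOrder.Ring Set Filter

universe u v

theorem shatE_of_independent {L : Type v} [Field L] {ℓ : ℕ} [NeZero ℓ] (hℓ : (ℓ : L) ≠ 0) (n : ℕ)
    (B : Fin n → Set L) (c e a b r : Fin n → L) (hr : ∀ i, r i ≠ 0)
    (hB : ∀ i, Good ℓ (RingHom.id L) (B i) (c i) (e i) (a i) (b i) (r i))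
    (hind : ∀ i j, i ≠ j → Indep (B i) (B j)) : ShatE ℓ L n := by
  classical
  have hz : ∀ (F : Finset L) (i : Fin n), ∃ z : L, (∀ x ∈ F, x ≠ 0 → BLe (B i) z x) ∧
      ∀ j, j ≠ i → ∀ x ∈ F, ¬ BLe (B j) z x := by
    intro F i
    obtain ⟨δ, hδ0, hδ⟩ := (hB i).ball.exists_lower (F.filter (· ≠ 0)) id
      (fun x hx => (Finset.mem_filter.1 hx).2)
    choose d hd0 hd using fun j => (hB j).ball.exists_upper F id
    obtain ⟨z, hz1, hz2⟩ := exists_small_large (hB i).ball B _ _ (fun j => (hB j).ball)
      (Finset.univ.erase i) (fun j hj => hind i j (Finset.ne_of_mem_erase hj).symm) δ hδ0 d hd0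
    refine ⟨z, fun x hx hx0 => ?_, fun j hj x hx hle => ?_⟩
    · exact (hB i).ball.trans hz1 (hδ x (Finset.mem_filter.2 ⟨hx, hx0⟩))
    · exact hz2 j (Finset.mem_erase.2 ⟨hj, Finset.mem_univ _⟩)
        ((hB j).ball.trans hle (hd j x hx))
  choose z hz1 hz2 using hz
  let I := Finset L
  let W : Ultrafilter I := Ultrafilter.of atTop
  have hW : ∀ x : L, ∀ᶠ F in (W : Filter I), x ∈ F := by
    intro x
    have h1 : ∀ᶠ F in (atTop : Filter I), x ∈ F := by
      filter_upwards [eventually_ge_atTop ({x} : Finset L)] with F hF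
      exact hF (Finset.mem_singleton_self x)
    exact (Ultrafilter.of_le atTop) h1
  let ι : L →+* Germ (W : Filter I) L := germConst (W : Filter I) L
  have hgood : ∀ i, Good ℓ ι (pullB W (RingHom.id _) (B i)) (c i) (e i) (a i) (b i) (r i) :=
    fun i => (hB i).pull (g := RingHom.id _) (fun k => rfl)
  apply shatE_germ W
  refine shatter_of_pattern ι hℓ n (fun i => pullB W (RingHom.id _) (B i)) c e
    (fun i => (hgood i).ball) a b r hr (fun i => (hgood i).box)
    (fun i => Germ.ofFun (fun F => z F i)) ?_ ?_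
  · intro i x hx
    rw [ble_pullB (hB i).ball.zero (f := fun F => z F i) (h := fun _ => x) rfl rfl]
    filter_upwards [hW x] with F hF
    exact hz1 F i x hF hx
  · intro i j hj x hle
    rw [ble_pullB (hB i).ball.zero (f := fun F => z F j) (h := fun _ => x) rfl rfl] at hle
    obtain ⟨F, h1, h2⟩ := (hle.and (hW x)).exists
    exact hz2 F j i hj.symm x h2 h1

end Pool.Agent.NIPFields
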