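import Mathlib
import Pool.Agent.NIPFields.Finitely

set_option autoImplicit false

open FirstOrder FirstOrder.Language FirstOrder.Ring

universe u v

/-- A finite extension `L` of an NIP field `K` has only finitely many V-topologies with non-dense
norm relation of degree `ℓ`, `ℓ ≠ 0` in `K`: there is an `n` such that among any `n` balls of such
V-topologies there are two, `B i` and `B j`, with `s B i ⊆ t B j` for some non-zero `s`, `t`. -/
theorem Pool.Agent.NIPFields.finitelyManyVTopologies_weaker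
    (K : Type u) [Field K] [CompatibleRing K]
    (hK : ∀ (m k : ℕ) (φ : Language.ring.Formula (Fin m ⊕ Fin k)),
      ∃ n : ℕ, ∀ (a : Fin n → Fin m → K) (b : Finset (Fin n) → Fin k → K),
        ∃ (i : Fin n) (J : Finset (Fin n)),
          ¬ (φ.Realize (Sum.elim (a i) (b J)) ↔ i ∈ J))
    (L : Type v) [Field L] [Algebra K L] [FiniteDimensional K L]
    (ℓ : ℕ) (hℓ : (ℓ : K) ≠ 0) :
    ∃ n : ℕ, ∀ B : Fin n → Set L,
      (∀ i, (0 : L) ∈ B i ∧ (∀ x ∈ B i, ∀ y ∈ B i, x * y ∈ B i) ∧ (∀ x : L, x ∈ B i ∨ x⁻¹ ∈ B i) ∧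
        (∃ c : L, ∀ x ∈ B i, ∀ y ∈ B i, ∃ z ∈ B i, x + y = c * z) ∧ B i ≠ Set.univ) →
      (∀ i, ∃ a b r : L, r ≠ 0 ∧ ∀ u ∈ B i, ∀ w ∈ B i,
        ∀ z : AdjoinRoot (Polynomial.X ^ ℓ - Polynomial.C (b + r * w) : Polynomial L),
          Algebra.norm L z ≠ a + r * u) →
      ∃ i j, i ≠ j ∧ ∃ s t : L, s ≠ 0 ∧ t ≠ 0 ∧ ∀ u ∈ B i, ∃ w ∈ B j, s * u = t * w := by
  let _ : CompatibleRing L := compatibleRingOfRing L
  have hℓ0 : NeZero ℓ := ⟨by rintro rfl; exact hℓ Nat.cast_zero⟩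
  have hL : Pool.Agent.NIPFields.NIP L :=
    Pool.Agent.NIPFields.NIP.finite (K := K) hK (Module.finBasis K L)
  have hℓL : (ℓ : L) ≠ 0 := by
    intro h
    apply hℓ
    apply (algebraMap K L).injective
    rw [map_natCast, h, map_zero]
  obtain ⟨n, hn⟩ := Pool.Agent.NIPFields.NIP.exists_not_shatE hL ℓ
  refine ⟨n, fun B hB hdense => ?_⟩
  by_contra hcon
  apply hn
  have hball : ∀ i, ∃ c e, Pool.Agent.NIPFields.VBall (B i) c e := by
    intro i
    obtain ⟨h0, hmul, hinv, ⟨c, hc⟩, hne⟩ := hB i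
    obtain ⟨e, he⟩ : ∃ e, e ∉ B i := by
      by_contra hcon
      push Not at hcon
      exact hne (Set.eq_univ_of_forall hcon)
    have h1 : (1 : L) ∈ B i := by
      rcases hinv 1 with h | h
      · exact h
      · rwa [inv_one] at h
    refine ⟨c, e, h0, hmul, fun x hx => (hinv x).resolve_left hx, hc, ?_, he⟩
    rintro rfl
    obtain ⟨z, hz, h3⟩ := hc 1 h1 0 h0
    rw [zero_mul, add_zero] at h3
    exact one_ne_zero h3
  choose c e hball using hball
  choose a b r hr hbox using hdense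
  refine Pool.Agent.NIPFields.shatE_of_independent hℓL n B c e a b r hr (fun i => ⟨hball i, ?_⟩) ?_
  · rintro x y ⟨u, hu, hxu⟩ ⟨w, hw, hyw⟩ hxy
    rw [← Pool.Agent.NIPFields.NSR_eq_NS, Pool.Agent.NIPFields.mem_NSR_iff_adj] at hxy
    obtain ⟨z, hz⟩ := hxy
    rw [RingHom.id_apply, RingHom.id_apply] at hxu hyw
    have e1 : x = a i + r i * u := by linear_combination hxu
    have e2 : y = b i + r i * w := by linear_combination hyw
    subst e1
    subst e2
    exact hbox i u hu w hw z hz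
  · intro i j hij
    by_contra hdep
    obtain ⟨s, hs0, hs⟩ := Pool.Agent.NIPFields.dep_of_not_indep hdep 1 one_ne_zero
    refine hcon ⟨i, j, hij, s, 1, hs0, one_ne_zero, fun u hu => ?_⟩
    obtain ⟨w, hw, hw'⟩ := hs (s * u) ⟨u, hu, mul_comm _ _⟩
    exact ⟨w, hw, by rw [hw', mul_comm]⟩
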