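import Mathlib
import Pool.Agent.NIPFields.Approx
import Pool.Agent.NIPFields.NonNorm

set_option autoImplicit false

namespace Pool.Agent.NIPFields

/-- Pairwise independent valuation rings with non-trivial `ℓ`-structure give shattered sets for
the relation `x` is a norm from `L(b^{1/ℓ})`. -/
theorem exists_shatter {L : Type*} [Field L] {ℓ : ℕ} [hℓp : Fact ℓ.Prime] (ζ : L)
    (hζ : IsPrimitiveRoot ζ ℓ) (n : ℕ) (V : Fin n → ValuationSubring L)
    (hind : ∀ i j, i ≠ j → V i ⊔ V j = ⊤)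
    (hℓ : ∀ i, (V i).valuation (ℓ : L) = 1)
    (hres : ∀ i, ∃ a : IsLocalRing.ResidueField (V i), ∀ c, c ^ ℓ ≠ a)
    (hval : ∀ i, ∃ γ : (V i).ValueGroup, γ ≠ 0 ∧ ∀ δ, δ ^ ℓ ≠ γ) :
    ∃ (b : Fin n → L) (x : Finset (Fin n) → L), ∀ i J, x J ∈ NS ℓ (b i) ↔ i ∈ J := by
  classical
  have hℓpos : 0 < ℓ := hℓp.out.pos
  -- elements of non-divisible value
  have hπ : ∀ i, ∃ π : L, π ≠ 0 ∧ ∀ c, (V i).valuation π ≠ (V i).valuation c ^ ℓ := by
    intro i
    obtain ⟨γ, hγ0, hγ⟩ := hval i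
    obtain ⟨π, rfl⟩ := (V i).valuation_surjective γ
    exact ⟨π, (Valuation.ne_zero_iff _).1 hγ0, fun c hc => hγ _ hc.symm⟩
  choose π hπ0 hπ using hπ
  have htop : ∀ i, V i ≠ ⊤ := by
    intro i h
    have h1 : (V i).valuation (π i) ≤ 1 := by
      rw [ValuationSubring.valuation_le_one_iff, h]; trivial
    have h2 : (V i).valuation (π i)⁻¹ ≤ 1 := by
      rw [ValuationSubring.valuation_le_one_iff, h]; trivial
    have h0 : 0 < (V i).valuation (π i) := (Valuation.pos_iff _).2 (hπ0 i)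
    rw [map_inv₀, inv_le_one₀ h0] at h2
    exact hπ i 1 (by rw [map_one, one_pow]; exact le_antisymm h1 h2)
  -- units with residue not an `ℓ`-th power
  have hu : ∀ i, ∃ u : L, (V i).valuation u = 1 ∧ ∀ c, ¬ (V i).valuation (u - c ^ ℓ) < 1 := by
    intro i
    obtain ⟨a, ha⟩ := hres i
    obtain ⟨u, rfl⟩ := IsLocalRing.residue_surjective a
    have hunit : IsUnit u := by
      by_contra h
      have h1 : IsLocalRing.residue (V i) u = 0 := by
        rw [IsLocalRing.residue_eq_zero_iff]; exact h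
      exact ha 0 (by rw [h1, zero_pow hℓpos.ne'])
    have hu1 : (V i).valuation (u : L) = 1 := ((V i).valuation_eq_one_iff u).1 hunit
    refine ⟨u, hu1, fun c hc => ?_⟩
    have hcℓ : (V i).valuation (c ^ ℓ) = 1 := by
      have h1 : c ^ ℓ = (u : L) - ((u : L) - c ^ ℓ) := by ring
      rw [h1, Valuation.map_sub_eq_of_lt_left _ (by rwa [hu1]), hu1]
    have hc1 : (V i).valuation c = 1 := by
      rw [map_pow] at hcℓ
      exact (pow_eq_one_iff_of_nonneg zero_le hℓpos.ne').1 hcℓ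
    have hcV : c ∈ V i := ((V i).valuation_le_one_iff c).1 hc1.le
    apply ha (IsLocalRing.residue (V i) ⟨c, hcV⟩)
    rw [← map_pow, ← sub_eq_zero, ← map_sub, IsLocalRing.residue_eq_zero_iff,
      ValuationSubring.valuation_lt_one_iff]
    have h1 : (((⟨c, hcV⟩ : V i) ^ ℓ - u : V i) : L) = -((u : L) - c ^ ℓ) := by
      push_cast; ring
    rw [h1, Valuation.map_neg]
    exact hc
  choose u hu1 hu using hu
  -- the elements `b`
  have hb : ∀ j, ∃ b : L, (V j).valuation b = (V j).valuation (π j) ∧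
      ∀ i ∈ Finset.univ.erase j, (V i).valuation (b - 1) < 1 := fun j =>
    exists_approx_val V htop j (Finset.univ.erase j)
      (fun i hi => hind j i (Finset.ne_of_mem_erase hi).symm) (π j) (hπ0 j)
  choose b hb1 hb2 using hb
  have hb0 : ∀ j, b j ≠ 0 := by
    intro j h
    have := hb1 j
    rw [h, map_zero, eq_comm, Valuation.zero_iff] at this
    exact hπ0 j this
  have hbval : ∀ j c, (V j).valuation (b j) ≠ (V j).valuation c ^ ℓ := by
    intro j c; rw [hb1 j]; exact hπ j c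
  have hbpow : ∀ j, ∀ c : L, c ^ ℓ ≠ b j := by
    intro j c hc
    exact hbval j c (by rw [← hc, map_pow])
  have hℓ0 : n ≠ 0 → (ℓ : L) ≠ 0 := by
    intro hn h
    have := hℓ ⟨0, Nat.pos_of_ne_zero hn⟩
    rw [h, map_zero] at this
    exact zero_ne_one this
  -- the elements `f`
  have hf : ∀ i, ∃ f : L, f ≠ 0 ∧ f ∉ NS ℓ (b i) ∧ ∀ j, j ≠ i → f ∈ NS ℓ (b j) := by
    intro i
    have hn : n ≠ 0 := by rintro rfl; exact i.elim0
    obtain ⟨M, hfin, γ, g, hγ, hg⟩ := exists_norm_elem (ι := {j : Fin n // j ≠ i}) ℓ ζ hζ (V i)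
      (hℓ i) (fun j => b j) (fun j => hb0 j)
      (fun j => hb2 j i (Finset.mem_erase.2 ⟨j.2.symm, Finset.mem_univ _⟩)) (u i) (hu1 i).le
    refine ⟨Algebra.norm L g, ?_,
      not_mem_NS (V i) (hℓ0 hn) (b i) _ (u i) (hbval i) (hu1 i) (hu i) hg, ?_⟩
    · intro h
      rw [h, zero_sub, Valuation.map_neg, hu1 i] at hg
      exact lt_irrefl _ hg
    · intro j hj
      exact norm_mem_NS (γ ⟨j, hj⟩) (b j) (hγ ⟨j, hj⟩) (hbpow j) g
  choose f hf0 hf1 hf2 using hf
  have hprod : ∀ (i : Fin n) (s : Finset (Fin n)), i ∉ s → (∏ k ∈ s, f k) ∈ NS ℓ (b i) := by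
    intro i s
    induction s using Finset.induction_on with
    | empty => intro _; rw [Finset.prod_empty]; exact NS_one (hbpow i)
    | insert k s hk ih =>
      intro hi
      rw [Finset.prod_insert hk]
      rw [Finset.mem_insert, not_or] at hi
      exact NS_mul (hbpow i) (hf2 k i hi.1) (ih hi.2)
  refine ⟨b, fun J => ∏ k ∈ Jᶜ, f k, fun i J => ⟨fun h => ?_, fun h => ?_⟩⟩
  · by_contra hi
    have hi' : i ∈ Jᶜ := Finset.mem_compl.2 hi
    have h : (∏ k ∈ Jᶜ, f k) ∈ NS ℓ (b i) := h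
    rw [← Finset.mul_prod_erase _ _ hi'] at h
    have hP := hprod i (Jᶜ.erase i) (Finset.notMem_erase i _)
    have hP0 : (∏ k ∈ Jᶜ.erase i, f k) ≠ 0 := Finset.prod_ne_zero_iff.2 (fun k _ => hf0 k)
    apply hf1 i
    have := NS_mul (hbpow i) h (NS_inv (hbpow i) hP hP0)
    rwa [mul_assoc, mul_inv_cancel₀ hP0, mul_one] at this
  · exact hprod i Jᶜ (by simpa using h)

end Pool.Agent.NIPFields
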