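import Mathlib
import Pool.Agent.NIPFields.Shatter
import Pool.Agent.NIPFields.Definable

set_option autoImplicit false

open FirstOrder FirstOrder.Language FirstOrder.Ring

universe u v

/-- Let `L` be a finite extension of a field `K`, `ℓ` a prime and `ζ ∈ L` a primitive `ℓ`-th root
of unity.  Suppose that for every `n` the field `L` has `n` pairwise independent valuation rings
(any two of them generate `L`), each with residue characteristic different from `ℓ`, with an
element of the residue field that is not an `ℓ`-th power and with an element of the value group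
that is not divisible by `ℓ`.  Then the pure field `K` has the independence property. -/
theorem Pool.Agent.Results.MP_3554b5_lc.IndepValuations.result
    (K : Type u) [Field K] [CompatibleRing K] (L : Type v) [Field L] [Algebra K L]
    [FiniteDimensional K L] (ℓ : ℕ) (hℓ : ℓ.Prime) (ζ : L) (hζ : IsPrimitiveRoot ζ ℓ)
    (h : ∀ n : ℕ, ∃ V : Fin n → ValuationSubring L,
      (∀ i j, i ≠ j → V i ⊔ V j = ⊤) ∧
      ∀ i, (ℓ : IsLocalRing.ResidueField (V i)) ≠ 0 ∧
        (∃ a : IsLocalRing.ResidueField (V i), ∀ c, c ^ ℓ ≠ a) ∧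
        (∃ γ : (V i).ValueGroup, γ ≠ 0 ∧ ∀ δ, δ ^ ℓ ≠ γ)) :
    ∃ (m k : ℕ) (φ : Language.ring.Formula (Fin m ⊕ Fin k)),
      ∀ n : ℕ, ∃ (a : Fin n → Fin m → K) (b : Finset (Fin n) → Fin k → K),
        ∀ (i : Fin n) (J : Finset (Fin n)), φ.Realize (Sum.elim (a i) (b J)) ↔ i ∈ J := by
  have : Fact ℓ.Prime := ⟨hℓ⟩
  by_contra hcon
  push Not at hcon
  have hnip : Pool.Agent.NIPFields.NIP K := by
    intro m k φ
    obtain ⟨n, hn⟩ := hcon m k φ
    refine ⟨n, fun a b => ?_⟩
    obtain ⟨i, J, hiJ⟩ := hn a b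
    refine ⟨i, J, fun hiff => ?_⟩
    rcases hiJ with ⟨h1, h2⟩ | ⟨h1, h2⟩
    · exact h2 (hiff.1 h1)
    · exact h1 (hiff.2 h2)
  let e : Module.Basis (Fin (Module.finrank K L)) K L := Module.finBasis K L
  obtain ⟨A, hA, hdef⟩ := Pool.Agent.NIPFields.definable_NS e ℓ
  obtain ⟨n, hn⟩ := hnip.definable A hA _ hdef
  obtain ⟨V, hind, hV⟩ := h n
  obtain ⟨b, x, hbx⟩ := Pool.Agent.NIPFields.exists_shatter ζ hζ n V hind
    (by
      intro i
      have hunit : IsUnit (ℓ : V i) := by
        by_contra hu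
        apply (hV i).1
        have h1 : IsLocalRing.residue (V i) (ℓ : V i) = 0 := by
          rw [IsLocalRing.residue_eq_zero_iff]; exact hu
        simpa using h1
      have := ((V i).valuation_eq_one_iff _).1 hunit
      simpa using this)
    (fun i => (hV i).2.1) (fun i => (hV i).2.2)
  obtain ⟨i, J, hiJ⟩ := hn (fun i k => e.repr (b i) k) (fun J k => e.repr (x J) k)
  apply hiJ
  rw [Set.mem_ofPred_eq, Sum.elim_comp_inl, Sum.elim_comp_inr]
  have h1 := Pool.Agent.NIPFields.toL_repr e (b i)
  have h2 := Pool.Agent.NIPFields.toL_repr e (x J)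
  rw [h1, h2]
  exact hbx i J
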