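import Mathlib
import Pool.Agent.NIPFields.LG.FTChain2

set_option autoImplicit false

open FirstOrder FirstOrder.Language FirstOrder.Ring Topology Polynomial

universe u

/-- Let `K` be a large NIP field that is not separably closed. There is a formula `ψ(y; c)` in the
ring language with parameters such that the sets `a • ψ(K; c)`, `a ≠ 0`, are a basis of the
neighbourhoods of `0` for a non-discrete Hausdorff field topology on `K`. In characteristic `p`
there is a formula `θ(x, y; d)` such that the sets `E y = θ(K, y; d)`, `y ∈ K`, are proper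
subrings that are henselian local rings, integrally closed in `K`, with fraction field `K`, all of
them defining the topology; `y ∈ E y` or `y⁻¹ ∈ E y`; they form a chain, and their union is `K`
or a henselian valuation ring. -/
theorem Pool.Agent.NIPFields.LargeDomainOut.result
    (K : Type u) [Field K] [CompatibleRing K]
    (hK : ∀ (m k : ℕ) (φ : Language.ring.Formula (Fin m ⊕ Fin k)),
      ∃ n : ℕ, ∀ (a : Fin n → Fin m → K) (b : Finset (Fin n) → Fin k → K),
        ∃ (i : Fin n) (J : Finset (Fin n)),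
          ¬ (φ.Realize (Sum.elim (a i) (b J)) ↔ i ∈ J))
    (hlarge : ∀ f : K[X][X],
      (∃ x y : K, f.evalEval x y = 0 ∧ (Polynomial.derivative f).evalEval x y ≠ 0) →
        {v : K × K | f.evalEval v.1 v.2 = 0}.Infinite)
    (hns : ¬ IsSepClosed K) :
    ∃ (m : ℕ) (ψ : Language.ring.Formula (Fin 1 ⊕ Fin m)) (c : Fin m → K)
      (_ : TopologicalSpace K),
      IsTopologicalDivisionRing K ∧ T2Space K ∧ ¬ DiscreteTopology K ∧
        (𝓝 (0 : K)).HasBasis (fun a : K => a ≠ 0)
          (fun a => {x : K | ∃ y : K, ψ.Realize (Sum.elim (fun _ => y) c) ∧ x = a * y}) ∧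
      ∀ p : ℕ, p.Prime → CharP K p →
        ∃ (n : ℕ) (θ : Language.ring.Formula (Fin 2 ⊕ Fin n)) (d : Fin n → K)
          (E : K → Subring K),
          (∀ x y : K, x ∈ E y ↔ θ.Realize (Sum.elim ![x, y] d)) ∧
          (∀ y : K, E y ≠ ⊤ ∧ HenselianLocalRing (E y) ∧
            (∀ x : K, IsIntegral (E y) x → x ∈ E y) ∧
            ∀ x : K, ∃ a ∈ E y, ∃ b ∈ E y, b ≠ 0 ∧ x = a / b) ∧
          (∀ y : K, (𝓝 (0 : K)).HasBasis (fun a : K => a ≠ 0)
            (fun a => {x : K | ∃ u ∈ E y, x = a * u})) ∧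
          (∀ y : K, y ∈ E y ∨ y⁻¹ ∈ E y) ∧
          (∀ y z : K, E y ≤ E z ∨ E z ≤ E y) ∧
          ((∀ x : K, ∃ y : K, x ∈ E y) ∨
            ∃ O : ValuationSubring K, O ≠ ⊤ ∧ HenselianLocalRing O ∧
              ∀ x : K, x ∈ O ↔ ∃ y : K, x ∈ E y) := by
  obtain ⟨B, hB, τ, h1, h2, h3, h4, h5⟩ :=
    Pool.Agent.NIPFields.LG.exists_topology_chain hK hlarge hns
  obtain ⟨m, ψ, c, hψ⟩ := Pool.Agent.NIPFields.exists_formula_of_definable hB
  refine ⟨m, ψ, c, τ, h1, h2, h3, ?_, ?_⟩
  · have h6 : (fun a : K => {x : K | ∃ y : K, ψ.Realize (Sum.elim (fun _ => y) c) ∧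
        x = a * y}) = (fun a => Pool.Agent.NIPFields.LG.sB B a) := by
      funext a
      ext x
      constructor
      · rintro ⟨y, hy, rfl⟩
        exact ⟨y, (hψ y).2 hy, rfl⟩
      · rintro ⟨y, hy, rfl⟩
        exact ⟨y, (hψ y).1 hy, rfl⟩
    rw [h6]
    exact h4
  · intro p hp hch
    obtain ⟨F, f1, f2, f3, f4, f5, f6⟩ := h5 p hp hch
    obtain ⟨n, θ, d, hθ⟩ := Pool.Agent.NIPFields.exists_formula_of_definable' f2
    exact ⟨n, θ, d, F, fun x y => hθ ![x, y],
      fun y => ⟨(f1 y).ne_top, (f1 y).hens, (f1 y).closed, (f1 y).frac⟩, f5, f3, f4, f6⟩
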