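import Mathlib
import Pool.Agent.NIPFields.Final2

set_option autoImplicit false

open FirstOrder FirstOrder.Language FirstOrder.Ring

universe u v

/-- Shelah's conjecture for NIP fields `K` of characteristic `p > 0` with the following property:
some finite extension `L` of `K` has a non-trivial valuation ring `A` (of arbitrary rank, not
assumed to be definable or henselian) such that for some `ℓ` prime to `p` the relation
that `x` is a norm from `L[X]/(X ^ ℓ - y)` is not dense in `L × L` for the topology of `A`. -/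
theorem Pool.Agent.Results.MP_3554b5_lc.ShelahPosChar.result
    (K : Type u) [Field K] [CompatibleRing K]
    (hK : ∀ (m k : ℕ) (φ : Language.ring.Formula (Fin m ⊕ Fin k)),
      ∃ n : ℕ, ∀ (a : Fin n → Fin m → K) (b : Finset (Fin n) → Fin k → K),
        ∃ (i : Fin n) (J : Finset (Fin n)),
          ¬ (φ.Realize (Sum.elim (a i) (b J)) ↔ i ∈ J))
    (p : ℕ) [Fact p.Prime] [CharP K p]
    (L : Type v) [Field L] [Algebra K L] [FiniteDimensional K L]
    (A : ValuationSubring L) (hA : A ≠ ⊤) (ℓ : ℕ) (hℓ : ¬ p ∣ ℓ)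
    (hdense : ∃ a b r : L, r ≠ 0 ∧ ∀ x y : L,
      A.valuation (x - a) ≤ A.valuation r → A.valuation (y - b) ≤ A.valuation r →
      ∀ z : AdjoinRoot (Polynomial.X ^ ℓ - Polynomial.C y : Polynomial L),
        Algebra.norm L z ≠ x) :
    ∃ O : ValuationSubring K, O ≠ ⊤ ∧ HenselianLocalRing O ∧
      ∃ (m : ℕ) (ψ : Language.ring.Formula (Fin 1 ⊕ Fin m)) (c : Fin m → K),
        ∀ x : K, x ∈ O ↔ ψ.Realize (Sum.elim (fun _ => x) c) := by
  obtain ⟨a, b, r, hr, hbox⟩ := hdense
  obtain ⟨O, hO1, hO2, hO3⟩ :=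
    Pool.Agent.NIPFields.shelah_of_box (K := K) hK p (L := L) hA hℓ hr hbox
  exact ⟨O, hO1, hO2, Pool.Agent.NIPFields.exists_formula_of_definable hO3⟩
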