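import Mathlib
import Pool.Agent.NIPFields.LG.ProEll

set_option autoImplicit false

open FirstOrder FirstOrder.Language FirstOrder.Ring

universe u

/-- Shelah's conjecture for the NIP fields of characteristic `p` which have a finite extension `L`
with pro-`ℓ` absolute Galois group, for some prime `ℓ`: every finite separable extension of `L`
has degree a power of `ℓ`. -/
theorem Pool.Agent.Results.MP_3554b5_lc.ShelahProEll.result
    (p : ℕ) [Fact p.Prime] (K : Type u) [Field K] [CharP K p] [CompatibleRing K]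
    (hK : ∀ (m k : ℕ) (φ : Language.ring.Formula (Fin m ⊕ Fin k)),
      ∃ n : ℕ, ∀ (a : Fin n → Fin m → K) (b : Finset (Fin n) → Fin k → K),
        ∃ (i : Fin n) (J : Finset (Fin n)),
          ¬ (φ.Realize (Sum.elim (a i) (b J)) ↔ i ∈ J))
    (L : Type u) [Field L] [Algebra K L] [FiniteDimensional K L] (ℓ : ℕ) (hℓ : ℓ.Prime)
    (hL : ∀ (M : Type u) [Field M] [Algebra L M] [FiniteDimensional L M]
      [Algebra.IsSeparable L M], ∃ n : ℕ, Module.finrank L M = ℓ ^ n) :
    Finite K ∨ IsSepClosed K ∨ Module.finrank K (AlgebraicClosure K) = 2 ∨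
      ∃ O : ValuationSubring K, O ≠ ⊤ ∧ HenselianLocalRing O ∧
        ∃ (m : ℕ) (ψ : Language.ring.Formula (Fin 1 ⊕ Fin m)) (c : Fin m → K),
          ∀ x : K, x ∈ O ↔ ψ.Realize (Sum.elim (fun _ => x) c) := by
  rcases Pool.Agent.NIPFields.LG.shelah_of_degP (p := p) hK (L := L) hℓ hL with
    h0 | h0 | h0 | ⟨O, hO1, hO2, hO3⟩
  · exact Or.inl h0
  · exact Or.inr (Or.inl h0)
  · exact Or.inr (Or.inr (Or.inl h0))
  · exact Or.inr (Or.inr (Or.inr ⟨O, hO1, hO2,
      Pool.Agent.NIPFields.exists_formula_of_definable hO3⟩))
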